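import Pool.Agent.J6H39.PI.Stm
import Pool.Agent.J6H39.CG.Base

/-!
# PI-AF: the symmetric approximate functional equation
-/

set_option autoImplicit false

open MeasureTheory Set Filter Topology Complex
open scoped ContDiff

namespace Pool.Agent.J6H39.PI

open Pool.Agent.J6H39.CG (zh uu PG Tst)
open Pool.Agent.J6H39.KV (dv)
open H345 (XX)

namespace AFn

theorem tst_of_sy {R : ℝ} {M : ℕ → ℝ} {V : ℝ → ℝ} (h : Sy R M V) : Tst V := by
  refine ⟨h.smooth, HasCompactSupport.of_support_subset_isCompact (isCompact_Icc (a := -R) (b := R))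
    fun x hx => ?_⟩
  by_contra hcon
  apply hx
  rw [mem_Icc, ← abs_le, not_le] at hcon
  exact h.supp x hcon

theorem m_nonneg {R : ℝ} {M : ℕ → ℝ} {V : ℝ → ℝ} (h : Sy R M V) (j : ℕ) : 0 ≤ M j :=
  (abs_nonneg _).trans (h.bd j 0)

theorem ff_cont (k : ℕ) : Continuous (ff k) := CG.zh_cont.pow k

theorem ff_bound (k : ℕ) (t ξ : ℝ) :
    ‖ff k (t - 2 * Real.pi * ξ)‖ ≤ (16 * (7 * (1 + |t|))) ^ k * (1 + |ξ|) ^ k := by
  rw [ff, norm_pow, ← mul_pow]
  refine pow_le_pow_left₀ (norm_nonneg _) ((CG.zh_bound _).trans ?_) k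
  have hpi : 2 * Real.pi ≤ 7 := by
    have := Real.pi_lt_d2
    linarith
  have h1 : |t - 2 * Real.pi * ξ| ≤ |t| + 7 * |ξ| := by
    calc |t - 2 * Real.pi * ξ| ≤ |t| + |2 * Real.pi * ξ| := abs_sub _ _
      _ = |t| + 2 * Real.pi * |ξ| := by
          rw [abs_mul, abs_of_pos (by positivity : (0 : ℝ) < 2 * Real.pi)]
      _ ≤ |t| + 7 * |ξ| := by gcongr
  have h2 : (0 : ℝ) ≤ |t| := abs_nonneg _
  have h3 : (0 : ℝ) ≤ |ξ| := abs_nonneg _
  have h4 : 0 ≤ |t| * |ξ| := by positivity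
  nlinarith

theorem shift_cont (k : ℕ) (t : ℝ) : Continuous fun ξ : ℝ => ff k (t - 2 * Real.pi * ξ) :=
  (ff_cont k).comp (by fun_prop)

theorem ax_int {V : ℝ → ℝ} (h : Tst V) (k : ℕ) (t : ℝ) :
    Integrable (fun ξ => uu V ξ * ff k (t - 2 * Real.pi * ξ)) := by
  refine ((CG.uu_mom h k).const_mul ((16 * (7 * (1 + |t|))) ^ k)).mono' ?_
    (Eventually.of_forall fun ξ => ?_)
  · exact ((CG.uu_cont h).mul (shift_cont k t)).aestronglyMeasurable
  · rw [norm_mul]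
    calc ‖uu V ξ‖ * ‖ff k (t - 2 * Real.pi * ξ)‖
        ≤ ‖uu V ξ‖ * ((16 * (7 * (1 + |t|))) ^ k * (1 + |ξ|) ^ k) :=
          mul_le_mul_of_nonneg_left (ff_bound k t ξ) (norm_nonneg _)
      _ = _ := by ring

theorem uu_add {V W : ℝ → ℝ} (hV : Tst V) (hW : Tst W) (ξ : ℝ) :
    uu (fun x => V x + W x) ξ = uu V ξ + uu W ξ := by
  have h : ∀ {U : ℝ → ℝ}, Tst U →
      Integrable (fun x : ℝ => cexp (-(2 * Real.pi * I * x * ξ)) * (U x : ℂ)) := by
    intro U hU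
    refine Continuous.integrable_of_hasCompactSupport ?_ ?_
    · exact Continuous.mul (by fun_prop) (Complex.continuous_ofReal.comp hU.smooth.continuous)
    · exact HasCompactSupport.mul_left (hU.cpt.comp_left (g := fun x : ℝ => (x : ℂ)) (by simp))
  rw [CG.uu_int, CG.uu_int, CG.uu_int, ← integral_add (h hV) (h hW)]
  refine integral_congr_ae (Eventually.of_forall fun x => ?_)
  simp only
  push_cast
  ring

theorem ax_add {V W : ℝ → ℝ} (hV : Tst V) (hW : Tst W) (k : ℕ) (t : ℝ) :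
    Ax (fun x => V x + W x) (ff k) t = Ax V (ff k) t + Ax W (ff k) t := by
  unfold Ax
  rw [← integral_add (ax_int hV k t) (ax_int hW k t)]
  refine integral_congr_ae (Eventually.of_forall fun ξ => ?_)
  simp only
  rw [uu_add hV hW, add_mul]

theorem tst_add {V W : ℝ → ℝ} (hV : Tst V) (hW : Tst W) : Tst (fun x => V x + W x) :=
  ⟨hV.smooth.add hW.smooth, hV.cpt.add hW.cpt⟩

theorem kf_int {k N : ℕ} (hN : k + 2 ≤ N) (t : ℝ) :
    Integrable (fun ξ : ℝ => ((1 + |ξ|) ^ N)⁻¹ * ‖ff k (t - 2 * Real.pi * ξ)‖) := by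
  have h1 : Integrable (fun ξ : ℝ => ((1 + |ξ|) ^ 2)⁻¹) := by
    have h := integrable_one_add_norm (E := ℝ) (μ := volume) (r := 2) (by simp)
    refine h.congr (Eventually.of_forall fun ξ => ?_)
    simp only [Real.norm_eq_abs]
    rw [Real.rpow_neg (by positivity)]
    norm_cast
  refine (h1.const_mul ((16 * (7 * (1 + |t|))) ^ k)).mono' ?_ (Eventually.of_forall fun ξ => ?_)
  · refine Continuous.aestronglyMeasurable (Continuous.mul ?_ (shift_cont k t).norm)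
    exact Continuous.inv₀ (by fun_prop) fun ξ => by positivity
  · rw [Real.norm_of_nonneg (by positivity)]
    have h2 : (1 + |ξ|) ^ (k + 2) ≤ (1 + |ξ|) ^ N :=
      pow_le_pow_right₀ (by linarith [abs_nonneg ξ]) hN
    have h3 : ((1 + |ξ|) ^ N)⁻¹ ≤ ((1 + |ξ|) ^ (k + 2))⁻¹ := inv_anti₀ (by positivity) h2
    calc ((1 + |ξ|) ^ N)⁻¹ * ‖ff k (t - 2 * Real.pi * ξ)‖
        ≤ ((1 + |ξ|) ^ (k + 2))⁻¹ * ((16 * (7 * (1 + |t|))) ^ k * (1 + |ξ|) ^ k) :=
          mul_le_mul h3 (ff_bound k t ξ) (norm_nonneg _) (by positivity)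
      _ = _ := by
          rw [pow_add]
          field_simp

/-- the error term of the reflection -/
theorem rf_term {k N : ℕ} (hN : k + 2 ≤ N) {V : ℝ → ℝ} {K : ℝ}
    (h : ∀ ξ, ‖uu V ξ‖ ≤ K * ((1 + |ξ|) ^ (N + 2))⁻¹) (t : ℝ) :
    ∫ ξ, ‖uu V ξ‖ * (1 + ξ ^ 2) * ‖ff k (t - 2 * Real.pi * ξ)‖ ≤ K * Kf N (ff k) t := by
  unfold Kf
  rw [← integral_const_mul]
  refine integral_mono_of_nonneg (Eventually.of_forall fun ξ => by positivity)
    ((kf_int hN t).const_mul K) (Eventually.of_forall fun ξ => ?_)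
  have h1 : 1 + ξ ^ 2 ≤ (1 + |ξ|) ^ 2 := by
    have := sq_abs ξ
    nlinarith [abs_nonneg ξ]
  have hK : 0 ≤ K * ((1 + |ξ|) ^ (N + 2))⁻¹ := (norm_nonneg _).trans (h ξ)
  simp only
  calc ‖uu V ξ‖ * (1 + ξ ^ 2) * ‖ff k (t - 2 * Real.pi * ξ)‖
      ≤ (K * ((1 + |ξ|) ^ (N + 2))⁻¹) * (1 + |ξ|) ^ 2 * ‖ff k (t - 2 * Real.pi * ξ)‖ := by
        gcongr
        exact h ξ
    _ = _ := by
        rw [pow_add]
        have : (1 + |ξ|) ^ 2 ≠ 0 := by positivity
        field_simp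

/-- the size of the error in `S_DA` -/
theorem da_size {k p : ℕ} {t R : ℝ} (ht : 1 ≤ t) (hR0 : 1 ≤ R) (hR : R ≤ p * Real.log t + 1) :
    R ^ k * Real.exp (R / 2) * (|t| ^ (p + k + 3))⁻¹ ≤ ((p + 1 : ℝ) ^ k * Real.exp 1) * (t ^ 3)⁻¹ := by
  have ht0 : 0 < t := by linarith
  have hlog : Real.log t ≤ t := (Real.log_le_sub_one_of_pos ht0).trans (by linarith)
  have h1 : R ≤ (p + 1) * t := by
    calc R ≤ p * Real.log t + 1 := hR
      _ ≤ p * t + t := by gcongr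
      _ = (p + 1) * t := by ring
  have h2 : Real.exp (R / 2) ≤ Real.exp 1 * t ^ p := by
    calc Real.exp (R / 2) ≤ Real.exp (p * Real.log t + 1) := Real.exp_le_exp.2 (by linarith)
      _ = Real.exp 1 * t ^ p := by
          rw [Real.exp_add, mul_comm, Real.exp_nat_mul, Real.exp_log ht0]
  rw [abs_of_pos ht0]
  calc R ^ k * Real.exp (R / 2) * (t ^ (p + k + 3))⁻¹
      ≤ ((p + 1) * t) ^ k * (Real.exp 1 * t ^ p) * (t ^ (p + k + 3))⁻¹ := by gcongr
    _ = ((p + 1 : ℝ) ^ k * Real.exp 1) * (t ^ 3)⁻¹ := by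
        rw [mul_pow, pow_add, pow_add]
        field_simp

theorem ee_one {x : ℝ} (h : 0 ≤ x) : ee x = 1 := Real.smoothTransition.one_of_one_le (by linarith)

theorem final_step {c a d x y : ℝ} (hc : 0 ≤ c) (ha : 0 ≤ a) (hd : 0 ≤ d) (hx : 0 ≤ x)
    (hy : 0 ≤ y) : 2 * c * y + a * y + d * x + d * x + a * y ≤ (2 * c + 2 * a + 2 * d) * (x + y) := by
  have h1 := mul_nonneg hc hx
  have h2 := mul_nonneg ha hx
  have h3 := mul_nonneg hd hy
  nlinarith

theorem log_nat_nonneg (n : ℕ) : 0 ≤ Real.log n := Real.log_natCast_nonneg n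

end AFn

open AFn

theorem t_AF (hKN : S_KN) (hSY : S_SY) (hDA : S_DA) (hLG : S_LG) (hRF : S_RF) : S_AF := by
  intro k v hk hv N hN
  obtain ⟨M, hS1, -, hS3, hS4, hS5⟩ := hSY v hv
  obtain ⟨B, hB⟩ := hLG k
  obtain ⟨p, hp⟩ : ∃ p : ℕ, p = B + k + 3 := ⟨_, rfl⟩
  obtain ⟨C1, hC1, h1⟩ := hB (p + 3)
  obtain ⟨C2, hC2, h2⟩ := hDA k (p + k + 3)
  obtain ⟨C3, hC3, h3⟩ := hKN (N + 2)
  obtain ⟨C4, t4, hC4, ht4, h4⟩ := hRF k
  set S : ℝ := ∑ j ∈ Finset.range (p + k + 3 + 1), M j with hSdef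
  set S' : ℝ := ∑ j ∈ Finset.range (N + 2 + 1), M j with hS'def
  have hM : ∀ j, 0 ≤ M j := m_nonneg (hS1 1 le_rfl).1
  have hS0 : 0 ≤ S := Finset.sum_nonneg fun j _ => hM j
  have hS'0 : 0 ≤ S' := Finset.sum_nonneg fun j _ => hM j
  set A : ℝ := C2 * ((p + 1 : ℝ) ^ k * Real.exp 1) * S with hA
  set D : ℝ := C4 * (C3 * (p + 1) * S') with hD
  have hA0 : 0 ≤ A := by positivity
  have hD0 : 0 ≤ D := by positivity
  refine ⟨(2 * C1 + 2 * A) + 2 * D, max t4 (2 * Real.pi * Real.exp 2), by positivity,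
    ht4.trans (le_max_left _ _), fun t ht => ?_⟩
  have ht4' : t4 ≤ t := (le_max_left _ _).trans ht
  have hte : 2 * Real.pi * Real.exp 2 ≤ t := (le_max_right _ _).trans ht
  have hpi := Real.pi_gt_three
  have ht1 : 1 ≤ t := ht4.trans ht4'
  have ht0 : 0 < t := by linarith
  have hlog2 : 2 ≤ Real.log (t / (2 * Real.pi)) := by
    rw [Real.le_log_iff_exp_le (by positivity), le_div_iff₀ (by positivity)]
    linarith
  have hlogle : Real.log (t / (2 * Real.pi)) ≤ Real.log t := by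
    apply Real.log_le_log (by positivity)
    rw [div_le_iff₀ (by positivity)]
    nlinarith
  have hlog1 : 2 ≤ Real.log t := hlog2.trans hlogle
  have hk1 : (1 : ℝ) ≤ k := by exact_mod_cast hk
  set X : ℝ := Xk k t with hX
  have hXdef : X = k / 2 * Real.log (t / (2 * Real.pi)) := rfl
  have hX1 : 1 ≤ X := by
    rw [hXdef]
    nlinarith
  refine ⟨hX1, ?_⟩
  set m : ℝ := p * Real.log t with hm
  have hpk : (k : ℝ) + 3 ≤ p := by
    rw [hp]
    push_cast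
    have : (0 : ℝ) ≤ B := Nat.cast_nonneg B
    linarith
  have h2X : 2 * X ≤ m := by
    rw [hXdef, hm]
    calc 2 * (k / 2 * Real.log (t / (2 * Real.pi))) = k * Real.log (t / (2 * Real.pi)) := by ring
      _ ≤ k * Real.log t := by gcongr
      _ ≤ p * Real.log t := by
          gcongr
          linarith
  have hm1 : 1 ≤ m := by linarith
  set m' : ℝ := m - 2 * X with hm'
  have hm'0 : 0 ≤ m' := by linarith
  -- the symbols
  set Z : ℝ → ℝ := fun x => ee (m' + x) ^ 2 - ee x ^ 2 with hZ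
  set E : ℝ → ℝ := fun x => ee x ^ 2 * ee (m - x) ^ 2 with hE
  have sG := (hS1 X hX1).2
  have sZ : Sy (m' + 1) M Z := (hS3 m' hm'0).1
  have sE : Sy (m + 1) M E := (hS3 m (by linarith)).2
  have tG : Tst (Gx v X) := tst_of_sy sG
  have tZ : Tst Z := tst_of_sy sZ
  have hEeq : E = fun x => (Gx v X x + (fun x => Gx v X (2 * X - x)) x) + (fun x => Z (2 * X - x)) x := by
    funext x
    have e1 := hS4 X hX1 x
    have e2 := hS5 X m hX1 h2X x
    simp only [hE, hZ]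
    rw [e1]
    linarith
  -- step 1
  have r1 : ‖ff k t - Dv k E t‖ ≤ 2 * C1 * (t ^ 3)⁻¹ := by
    refine (h1 m t hm1 ht1).trans ?_
    have e1 : Real.exp m = t ^ p := by rw [hm, Real.exp_nat_mul, Real.exp_log ht0]
    have e2 : t ^ B * Real.exp (-m) ≤ (t ^ 3)⁻¹ := by
      rw [Real.exp_neg, e1, hp, pow_add, pow_add]
      have e3 : t ^ B * (t ^ B * t ^ k * t ^ 3)⁻¹ = (t ^ k)⁻¹ * (t ^ 3)⁻¹ := by field_simp
      rw [e3]
      have e4 : (t ^ k)⁻¹ ≤ 1 := inv_le_one_of_one_le₀ (one_le_pow₀ ht1)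
      exact mul_le_of_le_one_left (by positivity) e4
    have e5 : Real.exp m * (t ^ (p + 3))⁻¹ = (t ^ 3)⁻¹ := by
      rw [e1, pow_add, mul_inv, ← mul_assoc, mul_inv_cancel₀ (by positivity), one_mul]
    rw [e5]
    calc C1 * (t ^ B * Real.exp (-m) + (t ^ 3)⁻¹) ≤ C1 * ((t ^ 3)⁻¹ + (t ^ 3)⁻¹) := by gcongr
      _ = _ := by ring
  -- step 2
  have da : ∀ {R : ℝ} {V : ℝ → ℝ}, 1 ≤ R → R ≤ m + 1 → Sy R M V →
      ‖Dv k V t - Ax V (ff k) t‖ ≤ A * (t ^ 3)⁻¹ := by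
    intro R V hR hRm hV
    refine (h2 R M V hR hV t (by rwa [abs_of_pos ht0])).trans ?_
    have := da_size (k := k) (p := p) ht1 hR hRm
    calc C2 * R ^ k * S * Real.exp (R / 2) * (|t| ^ (p + k + 3))⁻¹
        = C2 * S * (R ^ k * Real.exp (R / 2) * (|t| ^ (p + k + 3))⁻¹) := by ring
      _ ≤ C2 * S * (((p + 1 : ℝ) ^ k * Real.exp 1) * (t ^ 3)⁻¹) := by gcongr
      _ = A * (t ^ 3)⁻¹ := by
          rw [hA]
          ring
  have r2 : ‖Dv k E t - Ax E (ff k) t‖ ≤ A * (t ^ 3)⁻¹ := da (by linarith) le_rfl sE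
  -- step 3: linearity
  have r3 : Ax E (ff k) t = Ax (Gx v X) (ff k) t + Ax (fun x => Gx v X (2 * X - x)) (ff k) t +
      Ax (fun x => Z (2 * X - x)) (ff k) t := by
    rw [hEeq, ax_add (tst_add tG (CG.tst_refl tG _)) (CG.tst_refl tZ _), ax_add tG (CG.tst_refl tG _)]
  -- step 4: reflection
  have hlg : 1 + Real.log t ≤ lg t := by
    unfold lg
    have : Real.log t ≤ Real.log (1 + |t|) := by
      apply Real.log_le_log ht0
      rw [abs_of_pos ht0]
      linarith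
    linarith
  have hKf : 0 ≤ Kf N (ff k) t := integral_nonneg fun ξ => by positivity
  have rf : ∀ {R : ℝ} {V : ℝ → ℝ}, 1 ≤ R → R ≤ m + 1 → Sy R M V →
      ‖Ax (fun x => V (2 * X - x)) (ff k) t -
        (starRingEnd ℂ) (XX (1 / 2 + (t : ℂ) * I)) ^ k * (starRingEnd ℂ) (Ax V (ff k) t)‖ ≤
      D * (lg t / t * Kf N (ff k) t) := by
    intro R V hR hRm hV
    refine (h4 t ht4' V (tst_of_sy hV)).trans ?_
    have e1 := rf_term (k := k) hN (V := V) (K := C3 * R * S') (fun ξ => h3 R M V hR hV ξ) t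
    have e2 : R ≤ (p + 1) * lg t := by
      have : 1 ≤ lg t := by linarith
      calc R ≤ m + 1 := hRm
        _ = p * Real.log t + 1 := rfl
        _ ≤ p * lg t + lg t := by
            gcongr
            linarith
        _ = (p + 1) * lg t := by ring
    calc C4 / t * ∫ ξ, ‖uu V ξ‖ * (1 + ξ ^ 2) * ‖ff k (t - 2 * Real.pi * ξ)‖
        ≤ C4 / t * (C3 * R * S' * Kf N (ff k) t) := by gcongr
      _ ≤ C4 / t * (C3 * ((p + 1) * lg t) * S' * Kf N (ff k) t) := by gcongr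
      _ = D * (lg t / t * Kf N (ff k) t) := by
          rw [hD]
          ring
  have r4 := rf (R := X + 1) (V := Gx v X) (by linarith) (by linarith) sG
  have r5 := rf (R := m' + 1) (V := Z) (by linarith) (by linarith) sZ
  -- step 5: the symbol `Z` is zero on the logarithms of the natural numbers
  have hDZ : Dv k Z t = 0 := by
    unfold Dv
    have : ∀ n : ℕ, (dv k n : ℂ) * (n : ℂ) ^ (-(1 / 2 + (t : ℂ) * I)) * (Z (Real.log n) : ℂ) = 0 := by
      intro n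
      have h0 := log_nat_nonneg n
      have : Z (Real.log n) = 0 := by
        simp only [hZ]
        rw [ee_one h0, ee_one (by linarith)]
        ring
      rw [this]
      simp
    simp only [this, tsum_zero]
  have r6 : ‖Ax Z (ff k) t‖ ≤ A * (t ^ 3)⁻¹ := by
    have := da (R := m' + 1) (V := Z) (by linarith) (by linarith) sZ
    rwa [hDZ, zero_sub, norm_neg] at this
  have hXX : ‖(starRingEnd ℂ) (XX (1 / 2 + (t : ℂ) * I)) ^ k‖ = 1 := by
    rw [norm_pow, RCLike.norm_conj, H345.norm_XX_half, one_pow]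
  set q : ℂ := (starRingEnd ℂ) (XX (1 / 2 + (t : ℂ) * I)) ^ k with hq
  have key : ff k t - Ax (Gx v X) (ff k) t - q * (starRingEnd ℂ) (Ax (Gx v X) (ff k) t) =
      (ff k t - Dv k E t) + (Dv k E t - Ax E (ff k) t) +
      (Ax (fun x => Gx v X (2 * X - x)) (ff k) t - q * (starRingEnd ℂ) (Ax (Gx v X) (ff k) t)) +
      (Ax (fun x => Z (2 * X - x)) (ff k) t - q * (starRingEnd ℂ) (Ax Z (ff k) t)) +
      q * (starRingEnd ℂ) (Ax Z (ff k) t) := by
    rw [r3]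
    ring
  rw [key]
  have r7 : ‖q * (starRingEnd ℂ) (Ax Z (ff k) t)‖ ≤ A * (t ^ 3)⁻¹ := by
    rw [norm_mul, hXX, one_mul, RCLike.norm_conj]
    exact r6
  have ht3 : 0 ≤ (t ^ 3)⁻¹ := by positivity
  have hlK : 0 ≤ lg t / t * Kf N (ff k) t := by
    have : 0 ≤ lg t := by linarith
    positivity
  calc _ ≤ ‖ff k t - Dv k E t‖ + ‖Dv k E t - Ax E (ff k) t‖ +
      ‖Ax (fun x => Gx v X (2 * X - x)) (ff k) t - q * (starRingEnd ℂ) (Ax (Gx v X) (ff k) t)‖ +
      ‖Ax (fun x => Z (2 * X - x)) (ff k) t - q * (starRingEnd ℂ) (Ax Z (ff k) t)‖ +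
      ‖q * (starRingEnd ℂ) (Ax Z (ff k) t)‖ := by
        refine (norm_add_le _ _).trans (add_le_add_left ?_ _)
        refine (norm_add_le _ _).trans (add_le_add_left ?_ _)
        refine (norm_add_le _ _).trans (add_le_add_left ?_ _)
        exact norm_add_le _ _
    _ ≤ 2 * C1 * (t ^ 3)⁻¹ + A * (t ^ 3)⁻¹ + D * (lg t / t * Kf N (ff k) t) +
        D * (lg t / t * Kf N (ff k) t) + A * (t ^ 3)⁻¹ := by
        gcongr
    _ ≤ _ := final_step hC1 hA0 hD0 hlK ht3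

end Pool.Agent.J6H39.PI
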