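import Pool.Agent.J6H39.PI.Stm
import Pool.Agent.J6H39.CG.Base
import Pool.Agent.J6H39.CG.Ker

/-!
# Project PI: composition and self-adjointness with a slowly varying length (`S_BL`)
-/

set_option autoImplicit false

open MeasureTheory Set Filter Topology Complex
open scoped ContDiff

namespace Pool.Agent.J6H39.PI

open Pool.Agent.J6H39.CG (zh uu PG Tst)

section BL

/-! ### elementary facts -/

theorem bl_lg_one (s : ℝ) : 1 ≤ lg s := by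
  have : 0 ≤ Real.log (1 + |s|) := Real.log_nonneg (by linarith [abs_nonneg s])
  unfold lg
  linarith

theorem bl_lg_le (s : ℝ) : lg s ≤ 1 + |s| := by
  have : Real.log (1 + |s|) ≤ (1 + |s|) - 1 := Real.log_le_sub_one_of_pos (by linarith [abs_nonneg s])
  unfold lg
  linarith

theorem bl_lg_shift (s u : ℝ) : lg (s + u) ≤ (1 + |u|) * lg s := by
  have h0 := abs_nonneg s
  have h1 := abs_nonneg u
  have h2 : Real.log (1 + |s + u|) ≤ Real.log ((1 + |s|) * (1 + |u|)) := by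
    apply Real.log_le_log (by linarith [abs_nonneg (s + u)])
    have := abs_add_le s u
    nlinarith [mul_nonneg h0 h1]
  rw [Real.log_mul (by linarith) (by linarith)] at h2
  have h3 : Real.log (1 + |u|) ≤ (1 + |u|) - 1 := Real.log_le_sub_one_of_pos (by linarith)
  have h4 := bl_lg_one s
  have h5 : lg (s + u) ≤ lg s + |u| := by
    unfold lg
    linarith
  nlinarith

theorem bl_lg_cont : Continuous lg := by
  unfold lg
  refine continuous_const.add (Continuous.log (by fun_prop) fun s => ?_)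
  have := abs_nonneg s
  linarith

theorem bl_tp (ξ : ℝ) : 1 + |2 * Real.pi * ξ| ≤ 7 * (1 + |ξ|) := by
  have h1 : Real.pi < 3.15 := Real.pi_lt_d2
  have h2 := Real.pi_pos
  rw [abs_mul, abs_of_pos (by positivity : (0:ℝ) < 2 * Real.pi)]
  nlinarith [abs_nonneg ξ]

theorem bl_shift (s ξ : ℝ) : 1 + |s + 2 * Real.pi * ξ| ≤ (1 + |s|) * (7 * (1 + |ξ|)) := by
  have h1 := bl_tp ξ
  have h2 := abs_add_le s (2 * Real.pi * ξ)
  have h3 := abs_nonneg s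
  have h4 := abs_nonneg (2 * Real.pi * ξ)
  nlinarith [mul_nonneg h3 h4, mul_le_mul_of_nonneg_left h1 h3]

theorem bl_int {n : ℕ} (hn : 2 ≤ n) : Integrable (fun ξ : ℝ => ((1 + |ξ|) ^ n)⁻¹) := by
  refine integrable_inv_one_add_sq.mono' ?_ (Eventually.of_forall fun ξ => ?_)
  · apply Continuous.aestronglyMeasurable
    apply Continuous.inv₀ (by fun_prop)
    intro ξ
    positivity
  · rw [Real.norm_of_nonneg (by positivity)]
    apply inv_anti₀ (by positivity)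
    have h1 : (1 + |ξ|) ^ 2 ≤ (1 + |ξ|) ^ n := pow_le_pow_right₀ (by linarith [abs_nonneg ξ]) hn
    have h2 := sq_abs ξ
    nlinarith [abs_nonneg ξ]

theorem bl_inv {x : ℝ} (hx : 0 < x) (a b : ℕ) : (x ^ (a + b))⁻¹ * x ^ a = (x ^ b)⁻¹ := by
  rw [pow_add, mul_inv]
  field_simp

theorem bl_inv_le {x : ℝ} (hx : 1 ≤ x) {a b n : ℕ} (h : a + b ≤ n) : (x ^ n)⁻¹ * x ^ a ≤ (x ^ b)⁻¹ := by
  have h0 : 0 < x := by linarith
  have h1 : (x ^ n)⁻¹ ≤ (x ^ (a + b))⁻¹ := inv_anti₀ (by positivity) (pow_le_pow_right₀ hx h)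
  rw [← bl_inv h0 a b]
  exact mul_le_mul_of_nonneg_right h1 (by positivity)

variable {f : ℝ → ℂ} {F : ℝ} {k : ℕ}

theorem bl_f (hF0 : 0 ≤ F) (hF : ∀ t, ‖f t‖ ≤ F * (1 + |t|) ^ k) (s ξ : ℝ) :
    ‖f (s + 2 * Real.pi * ξ)‖ ≤ F * 7 ^ k * (1 + |s|) ^ k * (1 + |ξ|) ^ k := by
  refine (hF _).trans ?_
  have h1 : (1 + |s + 2 * Real.pi * ξ|) ^ k ≤ ((1 + |s|) * (7 * (1 + |ξ|))) ^ k :=
    pow_le_pow_left₀ (by positivity) (bl_shift s ξ) k
  refine (mul_le_mul_of_nonneg_left h1 hF0).trans (le_of_eq ?_)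
  rw [mul_pow, mul_pow]
  ring

theorem bl_f' (hF0 : 0 ≤ F) (hF : ∀ t, ‖f t‖ ≤ F * (1 + |t|) ^ k) (s ξ : ℝ) :
    ‖f (s - 2 * Real.pi * ξ)‖ ≤ F * 7 ^ k * (1 + |s|) ^ k * (1 + |ξ|) ^ k := by
  have := bl_f hF0 hF s (-ξ)
  rwa [abs_neg, mul_neg, ← sub_eq_add_neg] at this

theorem bl_kint (hf : Continuous f) (hF0 : 0 ≤ F) (hF : ∀ t, ‖f t‖ ≤ F * (1 + |t|) ^ k) {N : ℕ} (hN : k + 2 ≤ N)
    (s : ℝ) : Integrable (fun ξ : ℝ => ((1 + |ξ|) ^ N)⁻¹ * ‖f (s - 2 * Real.pi * ξ)‖) ∧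
    ∀ ξ : ℝ, ((1 + |ξ|) ^ N)⁻¹ * ‖f (s - 2 * Real.pi * ξ)‖ ≤ F * 7 ^ k * (1 + |s|) ^ k * ((1 + |ξ|) ^ 2)⁻¹ := by
  have h2 : ∀ ξ : ℝ, ((1 + |ξ|) ^ N)⁻¹ * ‖f (s - 2 * Real.pi * ξ)‖ ≤
      F * 7 ^ k * (1 + |s|) ^ k * ((1 + |ξ|) ^ 2)⁻¹ := by
    intro ξ
    have h3 := bl_f' hF0 hF s ξ
    have h4 := bl_inv_le (x := 1 + |ξ|) (by linarith [abs_nonneg ξ]) hN
    calc ((1 + |ξ|) ^ N)⁻¹ * ‖f (s - 2 * Real.pi * ξ)‖
        ≤ ((1 + |ξ|) ^ N)⁻¹ * (F * 7 ^ k * (1 + |s|) ^ k * (1 + |ξ|) ^ k) :=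
          mul_le_mul_of_nonneg_left h3 (by positivity)
      _ = F * 7 ^ k * (1 + |s|) ^ k * (((1 + |ξ|) ^ N)⁻¹ * (1 + |ξ|) ^ k) := by ring
      _ ≤ _ := mul_le_mul_of_nonneg_left h4 (by positivity)
  refine ⟨?_, h2⟩
  refine ((bl_int (le_refl 2)).const_mul (F * 7 ^ k * (1 + |s|) ^ k)).mono' ?_
    (Eventually.of_forall fun ξ => ?_)
  · apply Continuous.aestronglyMeasurable
    refine Continuous.mul (Continuous.inv₀ (by fun_prop) fun ξ => by positivity) (by fun_prop)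
  · rw [Real.norm_of_nonneg (by positivity)]
    exact h2 ξ

theorem bl_k0 (N : ℕ) (s : ℝ) : 0 ≤ Kf N f s :=
  integral_nonneg fun ξ => by positivity

theorem bl_kle (hf : Continuous f) (hF0 : 0 ≤ F) (hF : ∀ t, ‖f t‖ ≤ F * (1 + |t|) ^ k) {N : ℕ} (hN : k + 2 ≤ N)
    (s : ℝ) : Kf N f s ≤ F * 7 ^ k * (1 + |s|) ^ k * ∫ ξ : ℝ, ((1 + |ξ|) ^ 2)⁻¹ := by
  obtain ⟨h1, h2⟩ := bl_kint hf hF0 hF hN s
  rw [← integral_const_mul]
  exact integral_mono h1 ((bl_int (le_refl 2)).const_mul _) h2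

theorem bl_kmono (hf : Continuous f) (hF0 : 0 ≤ F) (hF : ∀ t, ‖f t‖ ≤ F * (1 + |t|) ^ k) {N N' : ℕ}
    (hN : k + 2 ≤ N) (hNN : N ≤ N') (s : ℝ) : Kf N' f s ≤ Kf N f s := by
  obtain ⟨h1, -⟩ := bl_kint hf hF0 hF hN s
  obtain ⟨h2, -⟩ := bl_kint hf hF0 hF (hN.trans hNN) s
  refine integral_mono h2 h1 fun ξ => ?_
  refine mul_le_mul_of_nonneg_right ?_ (norm_nonneg _)
  exact inv_anti₀ (by positivity) (pow_le_pow_right₀ (by linarith [abs_nonneg ξ]) hNN)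

theorem bl_krefl (N : ℕ) (s : ℝ) :
    ∫ ξ : ℝ, ((1 + |ξ|) ^ N)⁻¹ * ‖f (s + 2 * Real.pi * ξ)‖ = Kf N f s := by
  unfold Kf
  rw [← integral_neg_eq_self (fun ξ : ℝ => ((1 + |ξ|) ^ N)⁻¹ * ‖f (s - 2 * Real.pi * ξ)‖)]
  refine integral_congr_ae (Eventually.of_forall fun ξ => ?_)
  simp only [abs_neg, mul_neg, sub_neg_eq_add]

/-! ### the multiplier -/

/-- the multiplier with the kernel `U X` -/
noncomputable def GG (U : ℝ → ℝ → ℂ) (f : ℝ → ℂ) (X s : ℝ) : ℂ := ∫ ξ, U X ξ * f (s - 2 * Real.pi * ξ)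

variable {U : ℝ → ℝ → ℂ} {K : ℝ} {N : ℕ}

/-- the bounds of the kernels -/
structure KB (K : ℝ) (N : ℕ) (U : ℝ → ℝ → ℂ) : Prop where
  meas : StronglyMeasurable (fun p : ℝ × ℝ => U p.1 p.2)
  K0 : 0 ≤ K
  bd : ∀ X ξ, 1 ≤ X → ‖U X ξ‖ ≤ K * (X + 1) * ((1 + |ξ|) ^ N)⁻¹
  df : ∀ X Y ξ, 1 ≤ X → 1 ≤ Y → ‖U X ξ - U Y ξ‖ ≤ K * (max X Y + 1) * |X - Y| * ((1 + |ξ|) ^ N)⁻¹
  cj : ∀ X ξ, (starRingEnd ℂ) (U X ξ) = U X (-ξ)

theorem bl_meas1 (hU : KB K N U) (X : ℝ) : StronglyMeasurable (U X) :=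
  hU.meas.comp_measurable (g := fun ξ : ℝ => (X, ξ)) (by fun_prop)

theorem bl_gint (hU : KB K N U) (hf : Continuous f) (hF0 : 0 ≤ F) (hF : ∀ t, ‖f t‖ ≤ F * (1 + |t|) ^ k)
    (hN : k + 2 ≤ N) {X : ℝ} (hX : 1 ≤ X) (s : ℝ) : Integrable (fun ξ => U X ξ * f (s - 2 * Real.pi * ξ)) := by
  refine ((bl_kint hf hF0 hF hN s).1.const_mul (K * (X + 1))).mono' ?_ (Eventually.of_forall fun ξ => ?_)
  · exact ((bl_meas1 hU X).aestronglyMeasurable).mul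
      (by fun_prop : Continuous fun ξ : ℝ => f (s - 2 * Real.pi * ξ)).aestronglyMeasurable
  · rw [norm_mul]
    refine (mul_le_mul_of_nonneg_right (hU.bd X ξ hX) (norm_nonneg _)).trans (le_of_eq ?_)
    ring

theorem bl_gle (hU : KB K N U) (hf : Continuous f) (hF0 : 0 ≤ F) (hF : ∀ t, ‖f t‖ ≤ F * (1 + |t|) ^ k)
    (hN : k + 2 ≤ N) {X : ℝ} (hX : 1 ≤ X) (s : ℝ) : ‖GG U f X s‖ ≤ K * (X + 1) * Kf N f s := by
  unfold GG Kf
  rw [← integral_const_mul]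
  refine norm_integral_le_of_norm_le ((bl_kint hf hF0 hF hN s).1.const_mul (K * (X + 1)))
    (Eventually.of_forall fun ξ => ?_)
  rw [norm_mul]
  refine (mul_le_mul_of_nonneg_right (hU.bd X ξ hX) (norm_nonneg _)).trans (le_of_eq ?_)
  ring

theorem bl_gsub (hU : KB K N U) (hf : Continuous f) (hF0 : 0 ≤ F) (hF : ∀ t, ‖f t‖ ≤ F * (1 + |t|) ^ k)
    (hN : k + 2 ≤ N) {X Y : ℝ} (hX : 1 ≤ X) (hY : 1 ≤ Y) (s : ℝ) :
    ‖GG U f X s - GG U f Y s‖ ≤ K * (max X Y + 1) * |X - Y| * Kf N f s := by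
  unfold GG Kf
  rw [← integral_sub (bl_gint hU hf hF0 hF hN hX s) (bl_gint hU hf hF0 hF hN hY s), ← integral_const_mul]
  refine norm_integral_le_of_norm_le ((bl_kint hf hF0 hF hN s).1.const_mul (K * (max X Y + 1) * |X - Y|))
    (Eventually.of_forall fun ξ => ?_)
  rw [← sub_mul, norm_mul]
  refine (mul_le_mul_of_nonneg_right (hU.df X Y ξ hX hY) (norm_nonneg _)).trans (le_of_eq ?_)
  ring

theorem bl_gmeas (hU : KB K N U) (hf : Continuous f) : StronglyMeasurable (fun p : ℝ × ℝ => GG U f p.1 p.2) := by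
  unfold GG
  have h1 : StronglyMeasurable (fun q : (ℝ × ℝ) × ℝ => U q.1.1 q.2 * f (q.1.2 - 2 * Real.pi * q.2)) := by
    refine StronglyMeasurable.mul ?_ ?_
    · exact hU.meas.comp_measurable (g := fun q : (ℝ × ℝ) × ℝ => (q.1.1, q.2)) (by fun_prop)
    · exact (by fun_prop : Continuous fun q : (ℝ × ℝ) × ℝ => f (q.1.2 - 2 * Real.pi * q.2)).stronglyMeasurable
  exact h1.integral_prod_right'

/-! ### the kernels of the symbols -/

theorem bl_tst {R : ℝ} {M : ℕ → ℝ} {V : ℝ → ℝ} (h : Sy R M V) : Tst V := by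
  refine ⟨h.smooth, HasCompactSupport.intro (K := Icc (-R) R) isCompact_Icc fun x hx => h.supp x ?_⟩
  by_contra hcon
  exact hx (abs_le.mp (not_lt.mp hcon))

theorem bl_uui {V : ℝ → ℝ} (hV : Tst V) (ξ : ℝ) :
    Integrable (fun x : ℝ => cexp (-(2 * Real.pi * I * x * ξ)) * (V x : ℂ)) := by
  have hc : Continuous V := hV.smooth.continuous
  apply Continuous.integrable_of_hasCompactSupport (by fun_prop)
  apply HasCompactSupport.mul_left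
  exact hV.cpt.comp_left (g := fun x : ℝ => (x : ℂ)) (by simp)

theorem bl_uusub {V W : ℝ → ℝ} (hV : Tst V) (hW : Tst W) (ξ : ℝ) :
    uu V ξ - uu W ξ = uu (fun x => V x - W x) ξ := by
  rw [CG.uu_int, CG.uu_int, CG.uu_int, ← integral_sub (bl_uui hV ξ) (bl_uui hW ξ)]
  refine integral_congr_ae (Eventually.of_forall fun x => ?_)
  simp only
  push_cast
  ring

theorem bl_kb (hKN : S_KN) (hSY : S_SY) {v : ℝ → ℝ} (hv : Adm v) (N : ℕ) :
    ∃ K : ℝ, KB K N (fun X ξ => uu (Vx v X) ξ) ∧ ∀ X, 1 ≤ X → Tst (Vx v X) := by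
  obtain ⟨M, h1, h2, -, -, -⟩ := hSY v hv
  obtain ⟨C, hC0, hC⟩ := hKN N
  have hM : ∀ j, 0 ≤ M j := fun j => (abs_nonneg _).trans ((h1 1 le_rfl).1.bd j 0)
  have hS : 0 ≤ ∑ j ∈ Finset.range (N + 1), M j := Finset.sum_nonneg fun j _ => hM j
  have hT : ∀ X, 1 ≤ X → Tst (Vx v X) := fun X hX => bl_tst (h1 X hX).1
  refine ⟨C * ∑ j ∈ Finset.range (N + 1), M j, ⟨?_, mul_nonneg hC0 hS, ?_, ?_, ?_⟩, hT⟩
  · have hvc : Continuous v := hv.smooth.continuous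
    have hec : Continuous ee := by
      unfold ee
      exact Real.smoothTransition.continuous.comp (by fun_prop)
    have h3 : StronglyMeasurable (fun q : (ℝ × ℝ) × ℝ =>
        cexp (-(2 * Real.pi * I * (q.2 : ℂ) * (q.1.2 : ℂ))) * ((Vx v q.1.1 q.2 : ℝ) : ℂ)) := by
      apply Continuous.stronglyMeasurable
      unfold Vx
      fun_prop
    have h4 := h3.integral_prod_right' (ν := volume)
    have h5 : (fun p : ℝ × ℝ => uu (Vx v p.1) p.2) = fun p : ℝ × ℝ =>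
        ∫ x : ℝ, cexp (-(2 * Real.pi * I * (x : ℂ) * (p.2 : ℂ))) * ((Vx v p.1 x : ℝ) : ℂ) :=
      funext fun p => CG.uu_int _ _
    rw [h5]
    exact h4
  · intro X ξ hX
    refine (hC (X + 1) M (Vx v X) (by linarith) (h1 X hX).1 ξ).trans (le_of_eq ?_)
    ring
  · intro X Y ξ hX hY
    rw [bl_uusub (hT X hX) (hT Y hY)]
    have h5 : (1:ℝ) ≤ max X Y + 1 := by
      have := le_max_left X Y
      linarith
    refine (hC (max X Y + 1) _ _ h5 (h2 X Y hX hY) ξ).trans (le_of_eq ?_)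
    rw [← Finset.sum_mul]
    ring
  · intro X ξ
    exact CG.uu_conj _ ξ

/-- composition -/
theorem bl_comp {V : ℝ → ℝ} (hV : Tst V) (hf : Continuous f) (hF0 : 0 ≤ F) (hF : ∀ t, ‖f t‖ ≤ F * (1 + |t|) ^ k)
    (t : ℝ) : Ax (fun x => V x ^ 2) f t = ∫ ξ, uu V ξ * Ax V f (t - 2 * Real.pi * ξ) := by
  have huc := CG.uu_cont hV
  have e1 : Ax (fun x => V x ^ 2) f t = ∫ η, ∫ ξ, uu V ξ * uu V (η - ξ) * f (t - 2 * Real.pi * η) := by
    unfold Ax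
    apply integral_congr_ae
    refine Eventually.of_forall fun η => ?_
    simp only
    rw [CG.uu_sq hV, integral_mul_const]
  have e2 : ∫ ξ, uu V ξ * Ax V f (t - 2 * Real.pi * ξ) =
      ∫ ξ, ∫ η, uu V ξ * uu V (η - ξ) * f (t - 2 * Real.pi * η) := by
    apply integral_congr_ae
    refine Eventually.of_forall fun ξ => ?_
    simp only
    unfold Ax
    rw [← integral_const_mul, ← integral_sub_right_eq_self
      (fun ζ => uu V ξ * (uu V ζ * f (t - 2 * Real.pi * ξ - 2 * Real.pi * ζ))) ξ]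
    apply integral_congr_ae
    refine Eventually.of_forall fun η => ?_
    simp only
    have e3 : t - 2 * Real.pi * ξ - 2 * Real.pi * (η - ξ) = t - 2 * Real.pi * η := by ring
    rw [e3]
    ring
  rw [e1, e2]
  apply integral_integral_swap
  -- integrability on the product
  have hI : Integrable (fun ξ => ‖uu V ξ‖ * (1 + |ξ|) ^ k) := by
    refine (CG.uu_mom hV k).congr (Eventually.of_forall fun ξ => ?_)
    simp only
    ring
  have hM := Integrable.convolution_integrand (ContinuousLinearMap.mul ℝ ℝ) hI hI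
  have hM2 := hM.const_mul (F * 7 ^ k * (1 + |t|) ^ k)
  refine hM2.mono' ?_ ?_
  · apply Continuous.aestronglyMeasurable
    unfold Function.uncurry
    fun_prop
  · refine Eventually.of_forall fun p => ?_
    obtain ⟨η, ξ⟩ := p
    simp only [Function.uncurry, norm_mul, ContinuousLinearMap.mul_apply']
    have h2 := bl_f' hF0 hF t η
    have h3 : (1 + |η|) ^ k ≤ (1 + |ξ|) ^ k * (1 + |η - ξ|) ^ k := by
      rw [← mul_pow]
      apply pow_le_pow_left₀ (by positivity)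
      have h4 : |η| ≤ |ξ| + |η - ξ| := by
        have := abs_add_le ξ (η - ξ)
        rwa [add_sub_cancel] at this
      have h5 : 0 ≤ |ξ| * |η - ξ| := by positivity
      nlinarith
    have h6 : 0 ≤ ‖uu V ξ‖ * ‖uu V (η - ξ)‖ := by positivity
    calc ‖uu V ξ‖ * ‖uu V (η - ξ)‖ * ‖f (t - 2 * Real.pi * η)‖
        ≤ ‖uu V ξ‖ * ‖uu V (η - ξ)‖ * (F * 7 ^ k * (1 + |t|) ^ k * ((1 + |ξ|) ^ k * (1 + |η - ξ|) ^ k)) := by
          apply mul_le_mul_of_nonneg_left _ h6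
          exact h2.trans (mul_le_mul_of_nonneg_left h3 (by positivity))
      _ = F * 7 ^ k * (1 + |t|) ^ k *
          (‖uu V ξ‖ * (1 + |ξ|) ^ k * (‖uu V (η - ξ)‖ * (1 + |η - ξ|) ^ k)) := by ring

/-! ### the core -/

/-- the data -/
structure Dat (k B N₁ N : ℕ) (F K A : ℝ) (U : ℝ → ℝ → ℂ) (f : ℝ → ℂ) (X : ℝ → ℝ) : Prop where
  hU : KB K N U
  hf : Continuous f
  F0 : 0 ≤ F
  hF : ∀ t, ‖f t‖ ≤ F * (1 + |t|) ^ k
  A0 : 0 ≤ A
  Xc : Continuous X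
  X1 : ∀ s, 1 ≤ X s
  Xb : ∀ s, X s ≤ A * lg s
  Xd : ∀ s u, |X (s + u) - X s| ≤ A * (1 + |u|) ^ 2 / (1 + |s|)
  hN : N = N₁ + B + 4
  hN1 : B + k + 5 ≤ N₁

variable {B N₁ : ℕ} {A : ℝ} {X w Om : ℝ → ℝ}

theorem bl_om0 (hw : Wg k B w Om) (s : ℝ) : 0 ≤ Om s := by
  have := hw.shift s 0
  simpa using this

theorem bl_X (h : Dat k B N₁ N F K A U f X) (s ξ : ℝ) : X s + 1 ≤ (7 * A + 1) * (1 + |ξ|) * lg s ∧
    X (s + 2 * Real.pi * ξ) + 1 ≤ (7 * A + 1) * (1 + |ξ|) * lg s ∧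
    |X (s + 2 * Real.pi * ξ) - X s| ≤ 49 * A * (1 + |ξ|) ^ 2 / (1 + |s|) := by
  have hA := h.A0
  have h0 := abs_nonneg ξ
  have h1 := bl_lg_one s
  have h2 := h.Xb s
  have h3 := h.Xb (s + 2 * Real.pi * ξ)
  have h4 := bl_lg_shift s (2 * Real.pi * ξ)
  have h5 := bl_tp ξ
  have h6 : lg (s + 2 * Real.pi * ξ) ≤ 7 * (1 + |ξ|) * lg s :=
    h4.trans (mul_le_mul_of_nonneg_right h5 (by linarith))
  have h7 : X (s + 2 * Real.pi * ξ) ≤ A * (7 * (1 + |ξ|) * lg s) := h3.trans (mul_le_mul_of_nonneg_left h6 hA)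
  have h8 : 0 ≤ |ξ| * lg s := mul_nonneg h0 (by linarith)
  have h9 : 0 ≤ A * lg s := mul_nonneg hA (by linarith)
  have h10 : 0 ≤ A * (|ξ| * lg s) := mul_nonneg hA h8
  refine ⟨by nlinarith, by nlinarith, ?_⟩
  refine (h.Xd s (2 * Real.pi * ξ)).trans ?_
  apply div_le_div_of_nonneg_right _ (by positivity)
  have h11 : (1 + |2 * Real.pi * ξ|) ^ 2 ≤ (7 * (1 + |ξ|)) ^ 2 := pow_le_pow_left₀ (by positivity) h5 2
  refine (mul_le_mul_of_nonneg_left h11 hA).trans (le_of_eq (by ring))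

theorem bl_w (hw : Wg k B w Om) (s ξ : ℝ) :
    |w (s + 2 * Real.pi * ξ) - w s| ≤ (7 * (1 + |ξ|)) ^ B * Om s ∧
    |w (s + 2 * Real.pi * ξ)| ≤ 2 * (7 * (1 + |ξ|)) ^ B * (1 + |s|) * Om s := by
  have hO := bl_om0 hw s
  have h1 : (1 + |2 * Real.pi * ξ|) ^ B ≤ (7 * (1 + |ξ|)) ^ B := pow_le_pow_left₀ (by positivity) (bl_tp ξ) B
  have h2 : |w (s + 2 * Real.pi * ξ) - w s| ≤ (7 * (1 + |ξ|)) ^ B * Om s :=
    (hw.shift s _).trans (mul_le_mul_of_nonneg_right h1 hO)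
  refine ⟨h2, ?_⟩
  have h3 := hw.loc s
  have h4 : 1 ≤ (7 * (1 + |ξ|)) ^ B := one_le_pow₀ (by linarith [abs_nonneg ξ])
  have h5 : |w s| ≤ (1 + |s|) * Om s := by
    rw [abs_of_nonneg (hw.w0 s)]
    exact h3
  have h6 : |w (s + 2 * Real.pi * ξ)| ≤ |w (s + 2 * Real.pi * ξ) - w s| + |w s| := by
    have := abs_add_le (w (s + 2 * Real.pi * ξ) - w s) (w s)
    rwa [sub_add_cancel] at this
  have h7 := abs_nonneg s
  have h8 : (1 + |s|) * Om s ≤ (7 * (1 + |ξ|)) ^ B * ((1 + |s|) * Om s) :=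
    le_mul_of_one_le_left (by positivity) h4
  have h9 : (7 * (1 + |ξ|)) ^ B * Om s ≤ (7 * (1 + |ξ|)) ^ B * ((1 + |s|) * Om s) := by
    apply mul_le_mul_of_nonneg_left _ (by positivity)
    exact le_mul_of_one_le_left hO (by linarith)
  calc |w (s + 2 * Real.pi * ξ)| ≤ _ := h6
    _ ≤ (7 * (1 + |ξ|)) ^ B * ((1 + |s|) * Om s) + (7 * (1 + |ξ|)) ^ B * ((1 + |s|) * Om s) := by linarith
    _ = _ := by ring

/-- the first integrand, in the variables `t`, `ξ` -/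
noncomputable def PS (U : ℝ → ℝ → ℂ) (f : ℝ → ℂ) (X w : ℝ → ℝ) (t ξ : ℝ) : ℂ :=
  f t * (starRingEnd ℂ) (U (X t) ξ) * (starRingEnd ℂ) (GG U f (X t) (t - 2 * Real.pi * ξ)) * (w t : ℂ)

/-- the second integrand -/
noncomputable def P2 (U : ℝ → ℝ → ℂ) (f : ℝ → ℂ) (X w : ℝ → ℝ) (s ξ : ℝ) : ℂ :=
  f (s + 2 * Real.pi * ξ) * (starRingEnd ℂ) (U (X s) ξ) * (starRingEnd ℂ) (GG U f (X s) s) * (w s : ℂ)

theorem bl_alg {u' u g' g : ℂ} {w' w P r κ δ S W : ℝ} (hP : 0 ≤ P) (hr : 0 ≤ r) (hκ : 0 ≤ κ) (hδ : 0 ≤ δ)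
    (h1 : ‖u'‖ ≤ P * r) (h2 : ‖u‖ ≤ P * r) (h3 : ‖u' - u‖ ≤ P * δ * r) (h4 : ‖g'‖ ≤ P * κ) (h5 : ‖g‖ ≤ P * κ)
    (h6 : ‖g' - g‖ ≤ P * δ * κ) (h7 : |w'| ≤ W) (h8 : |w' - w| ≤ S) :
    ‖u' * g' * (w' : ℂ) - u * g * (w : ℂ)‖ ≤ P ^ 2 * r * κ * (2 * (δ * W) + S) := by
  have e : u' * g' * (w' : ℂ) - u * g * (w : ℂ) =
      (u' - u) * g' * (w' : ℂ) + u * (g' - g) * (w' : ℂ) + u * g * ((w' - w : ℝ) : ℂ) := by
    push_cast
    ring
  rw [e]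
  have hW : 0 ≤ W := (abs_nonneg _).trans h7
  have hS : 0 ≤ S := (abs_nonneg _).trans h8
  have a1 : ‖(u' - u) * g' * (w' : ℂ)‖ ≤ P * δ * r * (P * κ) * W := by
    rw [norm_mul, norm_mul, Complex.norm_real, Real.norm_eq_abs]
    gcongr
  have a2 : ‖u * (g' - g) * (w' : ℂ)‖ ≤ P * r * (P * δ * κ) * W := by
    rw [norm_mul, norm_mul, Complex.norm_real, Real.norm_eq_abs]
    gcongr
  have a3 : ‖u * g * ((w' - w : ℝ) : ℂ)‖ ≤ P * r * (P * κ) * S := by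
    rw [norm_mul, norm_mul, Complex.norm_real, Real.norm_eq_abs]
    gcongr
  refine (norm_add_le _ _).trans ((add_le_add ((norm_add_le _ _).trans (add_le_add a1 a2)) a3).trans
    (le_of_eq (by ring)))

/-- the pointwise estimate -/
theorem bl_pt (h : Dat k B N₁ N F K A U f X) (hw : Wg k B w Om) (s ξ : ℝ) :
    ‖PS U f X w (s + 2 * Real.pi * ξ) ξ - P2 U f X w s ξ‖ ≤
      K ^ 2 * (7 * A + 1) ^ 2 * 7 ^ B * (196 * A + 1) *
        ((((1 + |ξ|) ^ N₁)⁻¹ * ‖f (s + 2 * Real.pi * ξ)‖) * (lg s ^ 3 * Kf N₁ f s * Om s)) := by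
  obtain ⟨x1, x2, x3⟩ := bl_X h s ξ
  obtain ⟨w1, w2⟩ := bl_w hw s ξ
  have hK := h.hU.K0
  have hA := h.A0
  have hO := bl_om0 hw s
  have hl := bl_lg_one s
  have h0 := abs_nonneg ξ
  have hs := abs_nonneg s
  have hN2 : k + 2 ≤ N := by
    have := h.hN
    have := h.hN1
    omega
  have hN12 : k + 2 ≤ N₁ := by
    have := h.hN1
    omega
  have hX1 := h.X1 s
  have hX2 := h.X1 (s + 2 * Real.pi * ξ)
  set X' := X (s + 2 * Real.pi * ξ) with hX'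
  set ρ := 1 + |ξ| with hρ
  have hρ1 : 1 ≤ ρ := by linarith
  set P := K * ((7 * A + 1) * ρ * lg s) with hP
  have hA1 : 0 ≤ 7 * A + 1 := by linarith
  have hP0 : 0 ≤ P := by positivity
  have hmax : max X' (X s) + 1 ≤ (7 * A + 1) * ρ * lg s := by
    rcases max_cases X' (X s) with ⟨h1, -⟩ | ⟨h1, -⟩ <;> rw [h1] <;> assumption
  have q1 : K * (X' + 1) ≤ P := mul_le_mul_of_nonneg_left x2 hK
  have q2 : K * (X s + 1) ≤ P := mul_le_mul_of_nonneg_left x1 hK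
  have q3 : K * (max X' (X s) + 1) ≤ P := mul_le_mul_of_nonneg_left hmax hK
  set κ := Kf N f s with hκ
  have hκ0 : 0 ≤ κ := bl_k0 N s
  have hr0 : 0 ≤ (ρ ^ N)⁻¹ := by positivity
  set δ := 49 * A * ρ ^ 2 / (1 + |s|) with hδ
  have hδ0 : 0 ≤ δ := by positivity
  have b1 : ‖U X' ξ‖ ≤ P * (ρ ^ N)⁻¹ := by
    refine (h.hU.bd X' ξ hX2).trans ?_
    gcongr
  have b2 : ‖U (X s) ξ‖ ≤ P * (ρ ^ N)⁻¹ := by
    refine (h.hU.bd (X s) ξ hX1).trans ?_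
    gcongr
  have b3 : ‖U X' ξ - U (X s) ξ‖ ≤ P * δ * (ρ ^ N)⁻¹ := by
    refine (h.hU.df X' (X s) ξ hX2 hX1).trans ?_
    gcongr
  have b4 : ‖GG U f X' s‖ ≤ P * κ := by
    refine (bl_gle h.hU h.hf h.F0 h.hF hN2 hX2 s).trans ?_
    gcongr
  have b5 : ‖GG U f (X s) s‖ ≤ P * κ := by
    refine (bl_gle h.hU h.hf h.F0 h.hF hN2 hX1 s).trans ?_
    gcongr
  have b6 : ‖GG U f X' s - GG U f (X s) s‖ ≤ P * δ * κ := by
    refine (bl_gsub h.hU h.hf h.F0 h.hF hN2 hX2 hX1 s).trans ?_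
    gcongr
  have key := bl_alg (u' := (starRingEnd ℂ) (U X' ξ)) (u := (starRingEnd ℂ) (U (X s) ξ))
    (g' := (starRingEnd ℂ) (GG U f X' s)) (g := (starRingEnd ℂ) (GG U f (X s) s)) hP0 hr0 hκ0 hδ0
    (by rwa [RCLike.norm_conj]) (by rwa [RCLike.norm_conj]) (by rwa [← map_sub, RCLike.norm_conj])
    (by rwa [RCLike.norm_conj]) (by rwa [RCLike.norm_conj]) (by rwa [← map_sub, RCLike.norm_conj]) w2 w1
  have e1 : PS U f X w (s + 2 * Real.pi * ξ) ξ - P2 U f X w s ξ = f (s + 2 * Real.pi * ξ) *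
      ((starRingEnd ℂ) (U X' ξ) * (starRingEnd ℂ) (GG U f X' s) * (w (s + 2 * Real.pi * ξ) : ℂ) -
        (starRingEnd ℂ) (U (X s) ξ) * (starRingEnd ℂ) (GG U f (X s) s) * (w s : ℂ)) := by
    unfold PS P2
    rw [add_sub_cancel_right, ← hX']
    ring
  rw [e1, norm_mul]
  have hδs : δ * (1 + |s|) = 49 * A * ρ ^ 2 := by
    rw [hδ]
    field_simp
  have e2 : P ^ 2 * (ρ ^ N)⁻¹ * κ * (2 * (δ * (2 * (7 * ρ) ^ B * (1 + |s|) * Om s)) + (7 * ρ) ^ B * Om s) =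
      K ^ 2 * (7 * A + 1) ^ 2 * 7 ^ B * ((ρ ^ N)⁻¹ * ρ ^ (B + 2) * (196 * A * ρ ^ 2 + 1)) *
        (lg s ^ 2 * κ * Om s) := by
    have : 2 * (δ * (2 * (7 * ρ) ^ B * (1 + |s|) * Om s)) = 4 * (δ * (1 + |s|)) * (7 * ρ) ^ B * Om s := by ring
    rw [this, hδs, hP, mul_pow 7 ρ B, pow_add]
    ring
  rw [e2] at key
  have e3 : (ρ ^ N)⁻¹ * ρ ^ (B + 2) * (196 * A * ρ ^ 2 + 1) ≤ (196 * A + 1) * (ρ ^ N₁)⁻¹ := by
    have h1 : 196 * A * ρ ^ 2 + 1 ≤ (196 * A + 1) * ρ ^ 2 := by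
      have : 1 ≤ ρ ^ 2 := one_le_pow₀ hρ1
      nlinarith
    have h2 : (ρ ^ N)⁻¹ * ρ ^ (B + 4) = (ρ ^ N₁)⁻¹ := by
      rw [h.hN, show N₁ + B + 4 = (B + 4) + N₁ by ring]
      exact bl_inv (by linarith) _ _
    calc (ρ ^ N)⁻¹ * ρ ^ (B + 2) * (196 * A * ρ ^ 2 + 1)
        ≤ (ρ ^ N)⁻¹ * ρ ^ (B + 2) * ((196 * A + 1) * ρ ^ 2) := mul_le_mul_of_nonneg_left h1 (by positivity)
      _ = (196 * A + 1) * ((ρ ^ N)⁻¹ * ρ ^ (B + 4)) := by ring
      _ = _ := by rw [h2]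
  have e4 : lg s ^ 2 * κ * Om s ≤ lg s ^ 3 * Kf N₁ f s * Om s := by
    have h1 : κ ≤ Kf N₁ f s := bl_kmono h.hf h.F0 h.hF hN12 (by have := h.hN; omega) s
    have h2 : lg s ^ 2 ≤ lg s ^ 3 := pow_le_pow_right₀ hl (by norm_num)
    gcongr
  have e5 : 0 ≤ lg s ^ 2 * κ * Om s := by positivity
  calc ‖f (s + 2 * Real.pi * ξ)‖ * _ ≤ ‖f (s + 2 * Real.pi * ξ)‖ *
        (K ^ 2 * (7 * A + 1) ^ 2 * 7 ^ B * ((196 * A + 1) * (ρ ^ N₁)⁻¹) * (lg s ^ 3 * Kf N₁ f s * Om s)) := by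
        apply mul_le_mul_of_nonneg_left _ (norm_nonneg _)
        refine key.trans ?_
        gcongr
    _ = _ := by ring

/-! ### integrability -/

theorem bl_measS (h : Dat k B N₁ N F K A U f X) (hw : Wg k B w Om) :
    StronglyMeasurable (Function.uncurry (PS U f X w)) := by
  have hX : Measurable X := h.Xc.measurable
  have m1 : StronglyMeasurable (fun p : ℝ × ℝ => f p.1) := h.hf.stronglyMeasurable.comp_measurable measurable_fst
  have m2 : StronglyMeasurable (fun p : ℝ × ℝ => U (X p.1) p.2) :=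
    h.hU.meas.comp_measurable (g := fun p : ℝ × ℝ => (X p.1, p.2)) ((hX.comp measurable_fst).prodMk measurable_snd)
  have m3 : StronglyMeasurable (fun p : ℝ × ℝ => GG U f (X p.1) (p.1 - 2 * Real.pi * p.2)) :=
    (bl_gmeas h.hU h.hf).comp_measurable (g := fun p : ℝ × ℝ => (X p.1, p.1 - 2 * Real.pi * p.2))
      ((hX.comp measurable_fst).prodMk (by fun_prop))
  have m4 : StronglyMeasurable (fun p : ℝ × ℝ => (w p.1 : ℂ)) :=
    (Complex.measurable_ofReal.comp (hw.mw.comp measurable_fst)).stronglyMeasurable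
  exact ((m1.mul (Complex.continuous_conj.comp_stronglyMeasurable m2)).mul
    (Complex.continuous_conj.comp_stronglyMeasurable m3)).mul m4

theorem bl_measP (h : Dat k B N₁ N F K A U f X) (hw : Wg k B w Om) :
    StronglyMeasurable (Function.uncurry (P2 U f X w)) := by
  have hX : Measurable X := h.Xc.measurable
  have m1 : StronglyMeasurable (fun p : ℝ × ℝ => f (p.1 + 2 * Real.pi * p.2)) :=
    h.hf.stronglyMeasurable.comp_measurable (g := fun p : ℝ × ℝ => p.1 + 2 * Real.pi * p.2) (by fun_prop)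
  have m2 : StronglyMeasurable (fun p : ℝ × ℝ => U (X p.1) p.2) :=
    h.hU.meas.comp_measurable (g := fun p : ℝ × ℝ => (X p.1, p.2)) ((hX.comp measurable_fst).prodMk measurable_snd)
  have m3 : StronglyMeasurable (fun p : ℝ × ℝ => GG U f (X p.1) p.1) :=
    (bl_gmeas h.hU h.hf).comp_measurable (g := fun p : ℝ × ℝ => (X p.1, p.1))
      ((hX.comp measurable_fst).prodMk (by fun_prop))
  have m4 : StronglyMeasurable (fun p : ℝ × ℝ => (w p.1 : ℂ)) :=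
    (Complex.measurable_ofReal.comp (hw.mw.comp measurable_fst)).stronglyMeasurable
  exact ((m1.mul (Complex.continuous_conj.comp_stronglyMeasurable m2)).mul
    (Complex.continuous_conj.comp_stronglyMeasurable m3)).mul m4

theorem bl_bnd (h : Dat k B N₁ N F K A U f X) (hw : Wg k B w Om) : ∃ c : ℝ, 0 ≤ c ∧ ∀ t ξ : ℝ,
    ‖PS U f X w t ξ‖ ≤ c * (((1 + |t|) ^ 2)⁻¹ * ((1 + |ξ|) ^ 4)⁻¹) ∧
    ‖P2 U f X w t ξ‖ ≤ c * (((1 + |t|) ^ 2)⁻¹ * ((1 + |ξ|) ^ 4)⁻¹) := by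
  obtain ⟨D, hD⟩ := hw.dec
  have hD0 : 0 ≤ D := by
    have h1 := (hw.w0 0).trans (hD 0).1
    simpa using h1
  have hK := h.hU.K0
  have hA := h.A0
  have hF0 := h.F0
  have hN2 : k + 2 ≤ N := by
    have := h.hN
    have := h.hN1
    omega
  have hN4 : k + 4 ≤ N := by
    have := h.hN
    have := h.hN1
    omega
  set J : ℝ := ∫ ξ : ℝ, ((1 + |ξ|) ^ 2)⁻¹ with hJ
  have hJ0 : 0 ≤ J := integral_nonneg fun ξ => by positivity
  have hA1 : 0 ≤ 7 * A + 1 := by linarith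
  refine ⟨F ^ 2 * K ^ 2 * (7 * A + 1) ^ 2 * 7 ^ k * 7 ^ k * J * D, by positivity, fun t ξ => ?_⟩
  set a := 1 + |t| with ha
  set ρ := 1 + |ξ| with hρ
  have ha1 : 1 ≤ a := by linarith [abs_nonneg t]
  have hρ1 : 1 ≤ ρ := by linarith [abs_nonneg ξ]
  have hX1 := h.X1 t
  have hXa : X t + 1 ≤ (7 * A + 1) * a := by
    have h1 := h.Xb t
    have h2 := mul_le_mul_of_nonneg_left (bl_lg_le t) hA
    have h3 : 0 ≤ A * a := by positivity
    nlinarith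
  have q : K * (X t + 1) ≤ K * ((7 * A + 1) * a) := mul_le_mul_of_nonneg_left hXa hK
  have b1 : ‖f t‖ ≤ F * a ^ k := h.hF t
  have b1' : ‖f (t + 2 * Real.pi * ξ)‖ ≤ F * 7 ^ k * a ^ k * ρ ^ k := bl_f h.F0 h.hF t ξ
  have b2 : ‖U (X t) ξ‖ ≤ K * ((7 * A + 1) * a) * (ρ ^ N)⁻¹ := by
    refine (h.hU.bd (X t) ξ hX1).trans ?_
    gcongr
  have g0 : ∀ s, ‖GG U f (X t) s‖ ≤ K * ((7 * A + 1) * a) * (F * 7 ^ k * (1 + |s|) ^ k * J) := by
    intro s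
    refine (bl_gle h.hU h.hf h.F0 h.hF hN2 hX1 s).trans ?_
    have := bl_kle h.hf h.F0 h.hF hN2 s
    have := bl_k0 N (f := f) s
    gcongr
  have b3 : ‖GG U f (X t) (t - 2 * Real.pi * ξ)‖ ≤
      K * ((7 * A + 1) * a) * (F * 7 ^ k * (a * (7 * ρ)) ^ k * J) := by
    refine (g0 _).trans ?_
    have h1 := bl_shift t (-ξ)
    rw [abs_neg, mul_neg, ← sub_eq_add_neg] at h1
    gcongr
  have b3' := g0 t
  have b4 : ‖(w t : ℂ)‖ ≤ D * (a ^ (2 * k + 6))⁻¹ := by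
    rw [Complex.norm_real, Real.norm_of_nonneg (hw.w0 t)]
    exact (hD t).1
  have e1 : (a ^ (2 * k + 6))⁻¹ * a ^ (2 * k + 2) ≤ (a ^ 2)⁻¹ := bl_inv_le ha1 (by omega)
  have e2 : (ρ ^ N)⁻¹ * ρ ^ k ≤ (ρ ^ 4)⁻¹ := bl_inv_le hρ1 hN4
  have e3 : F ^ 2 * K ^ 2 * (7 * A + 1) ^ 2 * 7 ^ k * 7 ^ k * J * D *
      (((a ^ (2 * k + 6))⁻¹ * a ^ (2 * k + 2)) * ((ρ ^ N)⁻¹ * ρ ^ k)) ≤
      F ^ 2 * K ^ 2 * (7 * A + 1) ^ 2 * 7 ^ k * 7 ^ k * J * D * ((a ^ 2)⁻¹ * (ρ ^ 4)⁻¹) := by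
    gcongr
  constructor
  · refine le_trans ?_ e3
    unfold PS
    rw [norm_mul, norm_mul, norm_mul, RCLike.norm_conj, RCLike.norm_conj]
    calc ‖f t‖ * ‖U (X t) ξ‖ * ‖GG U f (X t) (t - 2 * Real.pi * ξ)‖ * ‖(w t : ℂ)‖
        ≤ (F * a ^ k) * (K * ((7 * A + 1) * a) * (ρ ^ N)⁻¹) *
          (K * ((7 * A + 1) * a) * (F * 7 ^ k * (a * (7 * ρ)) ^ k * J)) * (D * (a ^ (2 * k + 6))⁻¹) := by
          gcongr
      _ = _ := by
          rw [mul_pow a, mul_pow 7 ρ]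
          ring
  · refine le_trans ?_ e3
    unfold P2
    rw [norm_mul, norm_mul, norm_mul, RCLike.norm_conj, RCLike.norm_conj]
    calc ‖f (t + 2 * Real.pi * ξ)‖ * ‖U (X t) ξ‖ * ‖GG U f (X t) t‖ * ‖(w t : ℂ)‖
        ≤ (F * 7 ^ k * a ^ k * ρ ^ k) * (K * ((7 * A + 1) * a) * (ρ ^ N)⁻¹) *
          (K * ((7 * A + 1) * a) * (F * 7 ^ k * (1 + |t|) ^ k * J)) * (D * (a ^ (2 * k + 6))⁻¹) := by
          gcongr
      _ = _ := by
          rw [← ha]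
          ring

theorem bl_prodint : Integrable (fun p : ℝ × ℝ => ((1 + |p.1|) ^ 2)⁻¹ * ((1 + |p.2|) ^ 2)⁻¹) (volume.prod volume) :=
  (bl_int (le_refl 2)).mul_prod (bl_int (le_refl 2))

theorem bl_ints (h : Dat k B N₁ N F K A U f X) (hw : Wg k B w Om) :
    Integrable (Function.uncurry (PS U f X w)) (volume.prod volume) ∧
    Integrable (Function.uncurry fun s ξ => PS U f X w (s + 2 * Real.pi * ξ) ξ) (volume.prod volume) ∧
    Integrable (Function.uncurry (P2 U f X w)) (volume.prod volume) := by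
  obtain ⟨c, hc0, hc⟩ := bl_bnd h hw
  have h1 : ∀ a ξ : ℝ, 0 ≤ a → c * (a * ((1 + |ξ|) ^ 4)⁻¹) ≤ c * (a * ((1 + |ξ|) ^ 2)⁻¹) := by
    intro a ξ ha
    have h2 : ((1 + |ξ|) ^ 4)⁻¹ ≤ ((1 + |ξ|) ^ 2)⁻¹ := by
      apply inv_anti₀ (by positivity)
      exact pow_le_pow_right₀ (by linarith [abs_nonneg ξ]) (by norm_num)
    gcongr
  refine ⟨?_, ?_, ?_⟩
  · refine (bl_prodint.const_mul c).mono' (bl_measS h hw).aestronglyMeasurable (Eventually.of_forall fun p => ?_)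
    exact (hc p.1 p.2).1.trans (h1 _ _ (by positivity))
  · have hm : StronglyMeasurable (Function.uncurry fun s ξ => PS U f X w (s + 2 * Real.pi * ξ) ξ) :=
      (bl_measS h hw).comp_measurable (g := fun p : ℝ × ℝ => (p.1 + 2 * Real.pi * p.2, p.2)) (by fun_prop)
    refine (bl_prodint.const_mul (49 * c)).mono' hm.aestronglyMeasurable (Eventually.of_forall fun p => ?_)
    obtain ⟨s, ξ⟩ := p
    simp only [Function.uncurry]
    refine (hc _ _).1.trans ?_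
    have h2 := bl_shift (s + 2 * Real.pi * ξ) (-ξ)
    rw [mul_neg, ← sub_eq_add_neg, add_sub_cancel_right, abs_neg] at h2
    have hs := abs_nonneg s
    have hξ := abs_nonneg ξ
    have ht := abs_nonneg (s + 2 * Real.pi * ξ)
    have h3 : (1 + |s|) ^ 2 ≤ (1 + |s + 2 * Real.pi * ξ|) ^ 2 * (49 * (1 + |ξ|) ^ 2) := by
      refine (pow_le_pow_left₀ (by positivity) h2 2).trans (le_of_eq (by ring))
    have h4 : ((1 + |s + 2 * Real.pi * ξ|) ^ 2)⁻¹ ≤ ((1 + |s|) ^ 2)⁻¹ * (49 * (1 + |ξ|) ^ 2) := by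
      rw [inv_mul_eq_div, le_div_iff₀ (by positivity), inv_mul_le_iff₀ (by positivity)]
      exact h3
    calc c * (((1 + |s + 2 * Real.pi * ξ|) ^ 2)⁻¹ * ((1 + |ξ|) ^ 4)⁻¹)
        ≤ c * ((((1 + |s|) ^ 2)⁻¹ * (49 * (1 + |ξ|) ^ 2)) * ((1 + |ξ|) ^ 4)⁻¹) := by gcongr
      _ = 49 * c * (((1 + |s|) ^ 2)⁻¹ * (((1 + |ξ|) ^ 4)⁻¹ * (1 + |ξ|) ^ 2)) := by ring
      _ ≤ 49 * c * (((1 + |s|) ^ 2)⁻¹ * ((1 + |ξ|) ^ 2)⁻¹) := by
          have h5 : ((1 + |ξ|) ^ 4)⁻¹ * (1 + |ξ|) ^ 2 ≤ ((1 + |ξ|) ^ 2)⁻¹ := bl_inv_le (by linarith) (by norm_num)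
          gcongr
  · refine (bl_prodint.const_mul c).mono' (bl_measP h hw).aestronglyMeasurable (Eventually.of_forall fun p => ?_)
    exact (hc p.1 p.2).2.trans (h1 _ _ (by positivity))

/-! ### the two integrals -/

theorem bl_e1 (t : ℝ) : ∫ ξ, PS U f X w t ξ =
    f t * (starRingEnd ℂ) (∫ ξ, U (X t) ξ * GG U f (X t) (t - 2 * Real.pi * ξ)) * (w t : ℂ) := by
  have h1 : ∀ ξ, PS U f X w t ξ =
      (f t * (w t : ℂ)) * (starRingEnd ℂ) (U (X t) ξ * GG U f (X t) (t - 2 * Real.pi * ξ)) := by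
    intro ξ
    unfold PS
    rw [map_mul]
    ring
  rw [integral_congr_ae (Eventually.of_forall h1), integral_const_mul, integral_conj]
  ring

theorem bl_e2 (hU : KB K N U) (s : ℝ) : ∫ ξ, P2 U f X w s ξ = ((‖GG U f (X s) s‖ ^ 2 * w s : ℝ) : ℂ) := by
  have h1 : ∀ ξ, P2 U f X w s ξ =
      (f (s + 2 * Real.pi * ξ) * U (X s) (-ξ)) * ((starRingEnd ℂ) (GG U f (X s) s) * (w s : ℂ)) := by
    intro ξ
    unfold P2
    rw [hU.cj]
    ring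
  have h2 : ∫ ξ, f (s + 2 * Real.pi * ξ) * U (X s) (-ξ) = GG U f (X s) s := by
    unfold GG
    rw [← integral_neg_eq_self (fun ξ : ℝ => U (X s) ξ * f (s - 2 * Real.pi * ξ))]
    refine integral_congr_ae (Eventually.of_forall fun ξ => ?_)
    simp only [mul_neg, sub_neg_eq_add]
    ring
  rw [integral_congr_ae (Eventually.of_forall h1), integral_mul_const, h2, ← mul_assoc, Complex.mul_conj']
  push_cast
  ring

theorem bl_core (h : Dat k B N₁ N F K A U f X) (hw : Wg k B w Om) {C : ℝ}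
    (hS1 : Integrable (fun s => Kf N₁ f s ^ 2 * (lg s ^ 3 * Om s)))
    (hS2 : ∫ s, Kf N₁ f s ^ 2 * (lg s ^ 3 * Om s) ≤ C * ∫ s, ‖f s‖ ^ 2 * (lg s ^ 3 * Om s)) :
    Integrable (fun t => f t * (starRingEnd ℂ) (∫ ξ, U (X t) ξ * GG U f (X t) (t - 2 * Real.pi * ξ)) * (w t : ℂ)) ∧
    Integrable (fun t => ‖GG U f (X t) t‖ ^ 2 * w t) ∧
    ‖(∫ t, f t * (starRingEnd ℂ) (∫ ξ, U (X t) ξ * GG U f (X t) (t - 2 * Real.pi * ξ)) * (w t : ℂ)) -
      ((∫ t, ‖GG U f (X t) t‖ ^ 2 * w t : ℝ) : ℂ)‖ ≤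
      K ^ 2 * (7 * A + 1) ^ 2 * 7 ^ B * (196 * A + 1) * (C * ∫ s, ‖f s‖ ^ 2 * (lg s ^ 3 * Om s)) := by
  obtain ⟨iS, iS', iP⟩ := bl_ints h hw
  have hK := h.hU.K0
  have hA := h.A0
  have hN12 : k + 2 ≤ N₁ := by
    have := h.hN1
    omega
  set C1 := K ^ 2 * (7 * A + 1) ^ 2 * 7 ^ B * (196 * A + 1) with hC1
  have hC10 : 0 ≤ C1 := by positivity
  have j1 : Integrable (fun t => ∫ ξ, PS U f X w t ξ) := iS.integral_prod_left
  have j2 : Integrable (fun s => ∫ ξ, P2 U f X w s ξ) := iP.integral_prod_left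
  have j3 : Integrable (fun s => ∫ ξ, PS U f X w (s + 2 * Real.pi * ξ) ξ) := iS'.integral_prod_left
  have k1 : (fun t => ∫ ξ, PS U f X w t ξ) = fun t => f t *
      (starRingEnd ℂ) (∫ ξ, U (X t) ξ * GG U f (X t) (t - 2 * Real.pi * ξ)) * (w t : ℂ) := funext bl_e1
  have k2 : (fun s => ∫ ξ, P2 U f X w s ξ) = fun s => ((‖GG U f (X s) s‖ ^ 2 * w s : ℝ) : ℂ) :=
    funext fun s => bl_e2 h.hU s
  refine ⟨by rwa [k1] at j1, ?_, ?_⟩
  · rw [k2] at j2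
    have := j2.re
    simpa only [RCLike.re_eq_complex_re, Complex.ofReal_re] using this
  · have I1 : (∫ t, f t * (starRingEnd ℂ) (∫ ξ, U (X t) ξ * GG U f (X t) (t - 2 * Real.pi * ξ)) * (w t : ℂ)) =
        ∫ s, ∫ ξ, PS U f X w (s + 2 * Real.pi * ξ) ξ := by
      rw [← integral_congr_ae (Eventually.of_forall bl_e1), integral_integral_swap iS,
        integral_integral_swap iS']
      refine integral_congr_ae (Eventually.of_forall fun ξ => ?_)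
      exact (integral_add_right_eq_self (fun t => PS U f X w t ξ) (2 * Real.pi * ξ)).symm
    have I2 : ((∫ t, ‖GG U f (X t) t‖ ^ 2 * w t : ℝ) : ℂ) = ∫ s, ∫ ξ, P2 U f X w s ξ := by
      rw [k2]
      exact integral_ofReal.symm
    rw [I1, I2, ← integral_sub j3 j2]
    have hb : ∀ᵐ s, ‖(∫ ξ, PS U f X w (s + 2 * Real.pi * ξ) ξ) - ∫ ξ, P2 U f X w s ξ‖ ≤
        C1 * (Kf N₁ f s ^ 2 * (lg s ^ 3 * Om s)) := by
      filter_upwards [iS'.prod_right_ae, iP.prod_right_ae] with s a1 a2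
      simp only [Function.uncurry] at a1 a2
      rw [← integral_sub a1 a2]
      have a3 : Integrable (fun ξ : ℝ => ((1 + |ξ|) ^ N₁)⁻¹ * ‖f (s + 2 * Real.pi * ξ)‖) := by
        have := (bl_kint h.hf h.F0 h.hF hN12 s).1.comp_neg
        simpa only [abs_neg, mul_neg, sub_neg_eq_add] using this
      refine (norm_integral_le_of_norm_le
        ((a3.mul_const (lg s ^ 3 * Kf N₁ f s * Om s)).const_mul C1)
        (Eventually.of_forall fun ξ => bl_pt h hw s ξ)).trans (le_of_eq ?_)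
      rw [integral_const_mul, integral_mul_const, bl_krefl]
      ring
    refine (norm_integral_le_of_norm_le (hS1.const_mul C1) hb).trans ?_
    rw [integral_const_mul]
    exact mul_le_mul_of_nonneg_left hS2 hC10

end BL

/-- **PI-BL** -/
theorem t_BL (hKN : S_KN) (hSY : S_SY) (hSC : S_SC) (hXT : S_XT) : S_BL := by
  intro k v hk hv B
  obtain ⟨A, hA0, hXc, hXT'⟩ := hXT k
  obtain ⟨K, hKB, hTst⟩ := bl_kb hKN hSY hv (B + k + 5 + B + 4)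
  obtain ⟨C, hC0, hC⟩ := hSC (B + 3) k (B + k + 5) (by omega) (by omega)
  have hPG : PG k (ff k) := CG.t_ZG k
  have hF : ∃ F : ℝ, 0 ≤ F ∧ ∀ t, ‖ff k t‖ ≤ F * (1 + |t|) ^ k := by
    obtain ⟨-, F, hF⟩ := hPG
    refine ⟨|F|, abs_nonneg F, fun t => (hF t).trans ?_⟩
    exact mul_le_mul_of_nonneg_right (le_abs_self F) (by positivity)
  obtain ⟨F, hF0, hF⟩ := hF
  have hX1 : ∀ s, 1 ≤ Xt k s := fun s => le_max_left _ _
  have hD : Dat k B (B + k + 5) (B + k + 5 + B + 4) F K A (fun X ξ => uu (Vx v X) ξ) (ff k) (Xt k) :=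
    ⟨hKB, hPG.1, hF0, hF, hA0, hXc, hX1, fun s => (hXT' s).1, fun s u => (hXT' s).2 u, rfl, le_rfl⟩
  have hK := hKB.K0
  refine ⟨K ^ 2 * (7 * A + 1) ^ 2 * 7 ^ B * (196 * A + 1) * C, by positivity, fun w Om hw => ?_⟩
  have hO : ∀ s, 0 ≤ Om s := fun s => bl_om0 hw s
  have hl0 : ∀ s, 0 ≤ lg s := fun s => by linarith [bl_lg_one s]
  obtain ⟨D, hD'⟩ := hw.dec
  have hWm : Measurable (fun s => lg s ^ 3 * Om s) := (bl_lg_cont.measurable.pow_const 3).mul hw.mO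
  have hfi : Integrable (fun s => ‖ff k s‖ ^ 2 * (lg s ^ 3 * Om s)) := by
    refine ((bl_int (show 2 ≤ 3 by norm_num)).const_mul (F ^ 2 * D)).mono' ?_ (Eventually.of_forall fun s => ?_)
    · exact ((hPG.1.norm.pow 2).measurable.mul hWm).aestronglyMeasurable
    · have ha1 : 1 ≤ 1 + |s| := by linarith [abs_nonneg s]
      rw [Real.norm_of_nonneg (by have := hO s; have := hl0 s; positivity)]
      have c1 : ‖ff k s‖ ^ 2 ≤ (F * (1 + |s|) ^ k) ^ 2 := pow_le_pow_left₀ (norm_nonneg _) (hF s) 2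
      have c2 : lg s ^ 3 ≤ (1 + |s|) ^ 3 := pow_le_pow_left₀ (hl0 s) (bl_lg_le s) 3
      have c3 := (hD' s).2
      have hD0 : 0 ≤ D := by
        have h1 := (hw.w0 0).trans (hD' 0).1
        simpa using h1
      have := hO s
      have := hl0 s
      calc ‖ff k s‖ ^ 2 * (lg s ^ 3 * Om s)
          ≤ (F * (1 + |s|) ^ k) ^ 2 * ((1 + |s|) ^ 3 * (D * ((1 + |s|) ^ (2 * k + 6))⁻¹)) := by gcongr
        _ = F ^ 2 * D * (((1 + |s|) ^ (2 * k + 6))⁻¹ * (1 + |s|) ^ (2 * k + 3)) := by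
            rw [mul_pow, ← pow_mul, pow_add _ (2 * k) 3, mul_comm k 2]
            ring
        _ ≤ F ^ 2 * D * ((1 + |s|) ^ 3)⁻¹ := by
            have := bl_inv_le ha1 (a := 2 * k + 3) (b := 3) (n := 2 * k + 6) (by omega)
            gcongr
  obtain ⟨-, hS1, hS2⟩ := hC (fun s => lg s ^ 3 * Om s) hWm
    (fun s => mul_nonneg (pow_nonneg (hl0 s) 3) (hO s)) (fun s u => by
      have c1 : lg (s + u) ^ 3 ≤ ((1 + |u|) * lg s) ^ 3 := pow_le_pow_left₀ (hl0 _) (bl_lg_shift s u) 3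
      have c2 := hw.tame s u
      have := hO (s + u)
      have := hl0 s
      calc lg (s + u) ^ 3 * Om (s + u) ≤ ((1 + |u|) * lg s) ^ 3 * ((1 + |u|) ^ B * Om s) := by gcongr
        _ = (1 + |u|) ^ (B + 3) * (lg s ^ 3 * Om s) := by rw [pow_add]; ring) (ff k) hPG hfi
  have main := bl_core hD hw hS1 hS2
  have hcomp : ∀ t, Ax (Gx v (Xt k t)) (ff k) t = ∫ ξ, (fun X ξ => uu (Vx v X) ξ) (Xt k t) ξ *
      GG (fun X ξ => uu (Vx v X) ξ) (ff k) (Xt k t) (t - 2 * Real.pi * ξ) :=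
    fun t => bl_comp (hTst (Xt k t) (hX1 t)) hPG.1 hF0 hF t
  have hax : ∀ t, Ax (Vx v (Xt k t)) (ff k) t = GG (fun X ξ => uu (Vx v X) ξ) (ff k) (Xt k t) t := fun t => rfl
  have hfin : ∫ s, ‖ff k s‖ ^ 2 * (lg s ^ 3 * Om s) = ∫ s, ‖ff k s‖ ^ 2 * lg s ^ 3 * Om s := by
    refine integral_congr_ae (Eventually.of_forall fun s => ?_)
    simp only
    ring
  rw [hfin] at main
  simp only [hcomp, hax]
  refine ⟨main.1, main.2.1, main.2.2.trans (le_of_eq (by ring))⟩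

end Pool.Agent.J6H39.PI
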