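import Pool.Agent.J6H39.PI.Stm
import Pool.Agent.J6H39.CG.D1
import Pool.Agent.J6H39.CG.Base

/-! PI-DA: the Dirichlet polynomial is the multiplier applied to `ζ^k`. -/

set_option autoImplicit false

open MeasureTheory Set Filter Topology Complex
open scoped ContDiff

namespace Pool.Agent.J6H39.PI

open Pool.Agent.J6H39.CG (zh uu PG Tst Dp Aop hh)
open Pool.Agent.J6H39.KV (dv)

lemma sy_tst {R : ℝ} {M : ℕ → ℝ} {V : ℝ → ℝ} (h : Sy R M V) : Tst V where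
  smooth := h.smooth
  cpt := by
    refine HasCompactSupport.intro (K := Icc (-R) R) isCompact_Icc fun x hx => h.supp x ?_
    by_contra hlt
    push Not at hlt
    exact hx ⟨(abs_le.mp hlt).1, (abs_le.mp hlt).2⟩

lemma sy_nonneg {R : ℝ} {M : ℕ → ℝ} {V : ℝ → ℝ} (h : Sy R M V) (j : ℕ) : 0 ≤ M j :=
  (abs_nonneg _).trans (h.bd j 0)

/-- the multiplier at the scale `1/7` -/
lemma aop_seven {V : ℝ → ℝ} (hV : Tst V) (g : ℝ → ℂ) (t : ℝ) :
    Aop (fun x => V (x / (1 / 7))) (Real.exp 7) g t = Ax V g t := by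
  obtain ⟨-, -, -, -, -, -, -, -, hM⟩ := Pool.Agent.J6H39.CG.t_F V hV
  obtain ⟨-, h2⟩ := hM (1 / 7) (by norm_num)
  unfold Aop Ax
  have h3 : (fun ξ : ℝ => uu (fun x => V (x / (1 / 7))) ξ * g (t - hh (Real.exp 7) * ξ)) =
      fun ξ => (fun η : ℝ => (1 / 7 : ℂ) * (uu V η * g (t - 2 * Real.pi * η))) ((1 / 7) * ξ) := by
    funext ξ
    rw [h2]
    have h4 : hh (Real.exp 7) * ξ = 2 * Real.pi * (1 / 7 * ξ) := by
      unfold hh
      rw [Real.log_exp]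
      ring
    rw [h4]
    push_cast
    ring
  rw [h3, Measure.integral_comp_mul_left
    (fun η : ℝ => (1 / 7 : ℂ) * (uu V η * g (t - 2 * Real.pi * η))) (1 / 7), integral_const_mul]
  have h5 : |(1 / 7 : ℝ)⁻¹| = 7 := by norm_num
  rw [h5, Complex.real_smul, ← mul_assoc]
  push_cast
  norm_num

lemma dp_seven (k : ℕ) (V : ℝ → ℝ) (t : ℝ) :
    Dp k (fun x => V (x / (1 / 7))) (Real.exp 7) t = Dv k V t := by
  unfold Dp Dv
  refine tsum_congr fun n => ?_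
  have h : Real.log n / Real.log (Real.exp 7) / (1 / 7) = Real.log n := by
    rw [Real.log_exp]
    field_simp
  show (dv k n : ℂ) * (n : ℂ) ^ (-(1 / 2 + (t : ℂ) * I)) *
    (V (Real.log n / Real.log (Real.exp 7) / (1 / 7)) : ℂ) = _
  rw [h]

theorem t_DA (hLP : S_LP) : S_DA := by
  intro k N
  obtain ⟨c, hc⟩ := Pool.Agent.J6H39.CG.t_D1 Pool.Agent.J6H39.CG.t_F k
  choose C hC0 hC using fun p => hLP p N
  refine ⟨∑ p ∈ Finset.range k, ‖c p‖ * C p,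
    Finset.sum_nonneg fun p _ => mul_nonneg (norm_nonneg _) (hC0 p), ?_⟩
  intro R M V hR hV t ht
  have hT := sy_tst hV
  obtain ⟨-, -, -, -, -, -, -, -, hM⟩ := Pool.Agent.J6H39.CG.t_F V hT
  obtain ⟨h7, -⟩ := hM (1 / 7) (by norm_num)
  have h1 := hc _ h7 (Real.exp 7) le_rfl t
  rw [dp_seven, aop_seven hT, Real.log_exp] at h1
  have h2 : ∀ x : ℝ, V (x / 7 / (1 / 7)) = V x := by
    intro x
    congr 1
    field_simp
  simp only [h2] at h1
  have h3 : Dv k V t - Ax V (ff k) t = ∑ p ∈ Finset.range k,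
      c p * ∫ x : ℝ, (x : ℂ) ^ p * (V x : ℂ) * cexp ((1 / 2 - (t : ℂ) * I) * x) := h1
  rw [h3]
  have hS : 0 ≤ ∑ j ∈ Finset.range (N + 1), M j := Finset.sum_nonneg fun j _ => sy_nonneg hV j
  have ht0 : 0 ≤ (|t| ^ N)⁻¹ := by positivity
  refine (norm_sum_le _ _).trans ?_
  rw [Finset.sum_mul, Finset.sum_mul, Finset.sum_mul, Finset.sum_mul]
  refine Finset.sum_le_sum fun p hp => ?_
  rw [norm_mul]
  have h4 := hC p R M V hR hV t ht
  have h5 : R ^ (p + 1) ≤ R ^ k := pow_le_pow_right₀ hR (Finset.mem_range.mp hp)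
  calc ‖c p‖ * ‖∫ x : ℝ, (x : ℂ) ^ p * (V x : ℂ) * cexp ((1 / 2 - (t : ℂ) * I) * x)‖
      ≤ ‖c p‖ * (C p * R ^ (p + 1) * (∑ j ∈ Finset.range (N + 1), M j) * Real.exp (R / 2) *
          (|t| ^ N)⁻¹) := mul_le_mul_of_nonneg_left h4 (norm_nonneg _)
    _ ≤ ‖c p‖ * (C p * R ^ k * (∑ j ∈ Finset.range (N + 1), M j) * Real.exp (R / 2) *
          (|t| ^ N)⁻¹) := by
        have := hC0 p
        gcongr
    _ = ‖c p‖ * C p * R ^ k * (∑ j ∈ Finset.range (N + 1), M j) * Real.exp (R / 2) *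
          (|t| ^ N)⁻¹ := by ring

end Pool.Agent.J6H39.PI
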