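import Pool.Agent.J6H73.PI.DQ0
import Pool.Agent.J6H39.SP.EQ2

/-! Project PI, module DQ: the integrated diagonal terms (helper73). -/

set_option autoImplicit false

open MeasureTheory Set Filter Topology

namespace Pool.Agent.J6H39.PI

open Pool.Agent.J6H39.KV (dv)
open Pool.Agent.J6H39.SP (Mt)
open Pool.Agent.J6H73.DQ

theorem dia_ii (hOF : S_OF) (k : ℕ) (v : ℝ → ℝ) (hv : Adm v) (a b : ℝ) :
    IntervalIntegrable (dia k v) volume a b := by
  obtain ⟨-, hm, -, B, C, hC⟩ := hOF k v hv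
  refine IntervalIntegrable.mono_fun' (g := fun t => C * (1 + |t|) ^ B) ?_ hm.aestronglyMeasurable ?_
  · exact (by fun_prop : Continuous fun t : ℝ => C * (1 + |t|) ^ B).intervalIntegrable a b
  · exact Eventually.of_forall fun t => by simpa only [Real.norm_eq_abs] using hC t

theorem t_DQ (hDM : S_DM) (hFA : S_FA) (hOF : S_OF) : S_DQ := by
  intro k v hk hv
  have hk0 : (0 : ℝ) < k := by exact_mod_cast hk
  obtain ⟨Q1, hQ1, H1⟩ := SS_bd hDM hFA k v hk hv
  let Q : Polynomial ℝ := Polynomial.C 2 * Q1.comp (Polynomial.C ((k : ℝ) / 2) * Polynomial.X)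
  have hQe : ∀ x, Q.eval x = 2 * Q1.eval ((k : ℝ) / 2 * x) := by
    intro x
    simp [Q]
  refine ⟨Q, ?_, fun ε hε => ?_⟩
  · refine (Polynomial.natDegree_C_mul_le _ _).trans ?_
    rw [Polynomial.natDegree_comp]
    have h1 : (Polynomial.C ((k : ℝ) / 2) * Polynomial.X : Polynomial ℝ).natDegree ≤ 1 :=
      (Polynomial.natDegree_C_mul_le _ _).trans Polynomial.natDegree_X_le
    calc _ ≤ Q1.natDegree * 1 := Nat.mul_le_mul_left _ h1
      _ ≤ _ := by omega
  obtain ⟨δ, hδ0, hδ1, hδ2⟩ : ∃ δ : ℝ, 0 < δ ∧ δ ≤ 1 / 4 ∧ δ ≤ ε / k :=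
    ⟨min (1 / 4) (ε / k), lt_min (by norm_num) (by positivity), min_le_left _ _, min_le_right _ _⟩
  have hkδ : k * δ ≤ ε := by
    have h1 := mul_le_mul_of_nonneg_left hδ2 hk0.le
    rwa [mul_div_cancel₀ _ hk0.ne'] at h1
  obtain ⟨C, hC0, hC⟩ := H1 δ hδ0 (by linarith)
  set M : ℝ := max 0 (1 - (k : ℝ) / 4) with hM
  have hM0 : 0 ≤ M := le_max_left _ _
  have hM1 : 1 - (k : ℝ) / 4 ≤ M := le_max_right _ _
  set μ : ℝ := M + k * δ / 2 with hμ
  have hμ0 : 0 < μ := by positivity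
  let f : ℝ → ℝ := fun t => 2 * dia k v t - Q.eval (Real.log (t / (2 * Real.pi)))
  have fii : ∀ {a b : ℝ}, 0 ≤ a → 0 ≤ b → IntervalIntegrable f volume a b := by
    intro a b ha hb
    exact ((dia_ii hOF k v hv a b).const_mul 2).sub (Pool.Agent.J6H39.SP.EQ2.mt_ii Q ha hb)
  let D : ℝ := 2 * C * (2 * Real.pi) ^ ((k : ℝ) / 2 * (1 / 2 - δ))
  have hD0 : 0 ≤ D := by positivity
  have hpi : 0 < 2 * Real.pi := by positivity
  have hf : ∀ t : ℝ, 1 ≤ t → |f t| ≤ D * t ^ (μ - 1) := by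
    intro t ht
    have ht0 : 0 < t := by linarith
    have h1 : f t = 2 * (SS v k (Xk k t) - Q1.eval (Xk k t)) := by
      simp only [f, hQe]
      unfold SS dia Xk
      ring
    have h2 : Real.exp (-((1 / 2 - δ) * Xk k t)) =
        (2 * Real.pi) ^ ((k : ℝ) / 2 * (1 / 2 - δ)) * t ^ (-((k : ℝ) / 2 * (1 / 2 - δ))) := by
      rw [Real.rpow_def_of_pos hpi, Real.rpow_def_of_pos ht0, ← Real.exp_add]
      congr 1
      unfold Xk
      rw [Real.log_div ht0.ne' hpi.ne']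
      ring
    have h3 : t ^ (-((k : ℝ) / 2 * (1 / 2 - δ))) ≤ t ^ (μ - 1) := by
      refine Real.rpow_le_rpow_of_exponent_le ht ?_
      rw [hμ]
      linarith
    rw [h1, abs_mul, abs_of_pos (by norm_num : (0:ℝ) < 2)]
    calc 2 * |SS v k (Xk k t) - Q1.eval (Xk k t)| ≤ 2 * (C * Real.exp (-((1 / 2 - δ) * Xk k t))) := by
          linarith [hC (Xk k t)]
      _ = D * t ^ (-((k : ℝ) / 2 * (1 / 2 - δ))) := by rw [h2]; ring
      _ ≤ D * t ^ (μ - 1) := mul_le_mul_of_nonneg_left h3 hD0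
  refine ⟨|∫ t in (0:ℝ)..1, f t| + D / μ, fun T hT => ?_⟩
  have hT1 : (1 : ℝ) ≤ T := by linarith
  have hT0 : (0 : ℝ) < T := by linarith
  have e1 : 2 * (∫ t in (0:ℝ)..T, dia k v t) - Mt Q T = ∫ t in (0:ℝ)..T, f t := by
    unfold Mt
    simp only [f]
    rw [intervalIntegral.integral_sub ((dia_ii hOF k v hv 0 T).const_mul 2)
      (Pool.Agent.J6H39.SP.EQ2.mt_ii Q le_rfl hT0.le), intervalIntegral.integral_const_mul]
  have e2 : ∫ t in (0:ℝ)..T, f t = (∫ t in (0:ℝ)..1, f t) + ∫ t in (1:ℝ)..T, f t :=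
    (intervalIntegral.integral_add_adjacent_intervals (fii le_rfl zero_le_one)
      (fii zero_le_one hT0.le)).symm
  have e3 : |∫ t in (1:ℝ)..T, f t| ≤ D / μ * T ^ μ := by
    have h1 : ‖∫ t in (1:ℝ)..T, f t‖ ≤ ∫ t in (1:ℝ)..T, D * t ^ (μ - 1) := by
      refine intervalIntegral.norm_integral_le_of_norm_le hT1 ?_ ?_
      · exact Eventually.of_forall fun t ht => by
          rw [Real.norm_eq_abs]
          exact hf t ht.1.le
      · exact (intervalIntegral.intervalIntegrable_rpow' (by linarith)).const_mul _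
    rw [Real.norm_eq_abs] at h1
    refine h1.trans ?_
    rw [intervalIntegral.integral_const_mul, integral_rpow (Or.inl (by linarith)), sub_add_cancel,
      Real.one_rpow, div_mul_eq_mul_div, mul_div_assoc]
    refine mul_le_mul_of_nonneg_left ?_ hD0
    exact div_le_div_of_nonneg_right (by linarith) hμ0.le
  have e4 : T ^ μ ≤ T ^ (M + ε) := Real.rpow_le_rpow_of_exponent_le hT1 (by rw [hμ]; linarith)
  have e5 : 1 ≤ T ^ (M + ε) := Real.one_le_rpow hT1 (by linarith)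
  rw [e1, e2]
  calc |(∫ t in (0:ℝ)..1, f t) + ∫ t in (1:ℝ)..T, f t|
      ≤ |∫ t in (0:ℝ)..1, f t| + |∫ t in (1:ℝ)..T, f t| := abs_add_le _ _
    _ ≤ |∫ t in (0:ℝ)..1, f t| * T ^ (M + ε) + D / μ * T ^ (M + ε) := by
        refine add_le_add (le_mul_of_one_le_right (abs_nonneg _) e5) (e3.trans ?_)
        exact mul_le_mul_of_nonneg_left e4 (by positivity)
    _ = _ := by ring

end Pool.Agent.J6H39.PI
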