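import Pool.Agent.J6H39.PI.Stm
import Pool.Agent.J6H39.SP.EQ2

/-!
# Project PI, module EQ: the two error terms have the same exponent (helper5)
-/

set_option autoImplicit false

open MeasureTheory Set Filter Topology Complex

namespace Pool.Agent.J6H39.PI.EQ

open Pool.Agent.J6H39.SP (Mt F)
open Pool.Agent.J6H39.SP.EQ2

lemma ff_sq (k : ℕ) (t : ℝ) : ‖ff k t‖ ^ 2 = F k t := by
  unfold ff F
  rw [norm_pow, ← pow_mul, mul_comm]

/-- `f T ≤ C T^α` for `T ≥ a` -/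
def Bt (a : ℝ) (f : ℝ → ℝ) (α : ℝ) : Prop := ∃ C : ℝ, 0 ≤ C ∧ ∀ T : ℝ, a ≤ T → f T ≤ C * T ^ α

lemma Bt.mono {a : ℝ} (ha : 1 ≤ a) {f : ℝ → ℝ} {α β : ℝ} (h : Bt a f α) (hab : α ≤ β) : Bt a f β := by
  obtain ⟨C, hC0, hC⟩ := h
  exact ⟨C, hC0, fun T hT => (hC T hT).trans (mul_le_mul_of_nonneg_left
    (Real.rpow_le_rpow_of_exponent_le (by linarith) hab) hC0)⟩

lemma Bt.add {a : ℝ} {f g : ℝ → ℝ} {α : ℝ} (hf : Bt a f α) (hg : Bt a g α) : Bt a (fun T => f T + g T) α := by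
  obtain ⟨C, hC0, hC⟩ := hf
  obtain ⟨K, hK0, hK⟩ := hg
  refine ⟨C + K, by positivity, fun T hT => ?_⟩
  have h1 := hC T hT
  have h2 := hK T hT
  rw [add_mul]
  linarith

lemma Bt.le {a : ℝ} {f g : ℝ → ℝ} {α : ℝ} (hg : Bt a g α) (h : ∀ T : ℝ, a ≤ T → f T ≤ g T) : Bt a f α := by
  obtain ⟨C, hC0, hC⟩ := hg
  exact ⟨C, hC0, fun T hT => (h T hT).trans (hC T hT)⟩

lemma Bt.cmul {a : ℝ} {f : ℝ → ℝ} {α : ℝ} (hf : Bt a f α) {c : ℝ} (hc : 0 ≤ c) : Bt a (fun T => c * f T) α := by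
  obtain ⟨C, hC0, hC⟩ := hf
  refine ⟨c * C, by positivity, fun T hT => ?_⟩
  rw [mul_assoc]
  exact mul_le_mul_of_nonneg_left (hC T hT) hc

lemma Bt.rmul {a : ℝ} (ha : 1 ≤ a) {f : ℝ → ℝ} {α : ℝ} (hf : Bt a f α) (β : ℝ) :
    Bt a (fun T => T ^ β * f T) (α + β) := by
  obtain ⟨C, hC0, hC⟩ := hf
  refine ⟨C, hC0, fun T hT => ?_⟩
  have hT0 : 0 < T := by linarith
  calc T ^ β * f T ≤ T ^ β * (C * T ^ α) := mul_le_mul_of_nonneg_left (hC T hT) (Real.rpow_nonneg hT0.le β)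
    _ = C * T ^ (α + β) := by rw [Real.rpow_add hT0]; ring

lemma Bt.const {a : ℝ} (ha : 1 ≤ a) {α : ℝ} (hα : 0 ≤ α) (c : ℝ) : Bt a (fun _ => c) α := by
  refine ⟨|c|, abs_nonneg _, fun T hT => ?_⟩
  exact (le_abs_self c).trans (le_mul_of_one_le_right (abs_nonneg _) (Real.one_le_rpow (by linarith) hα))

lemma Bt.large {f : ℝ → ℝ} {α : ℝ} (hα : 0 ≤ α) (h : Bt 16 f α) (K : ℝ)
    (hK : ∀ T : ℝ, 2 ≤ T → T ≤ 16 → f T ≤ K) : Bt 2 f α := by
  obtain ⟨C, hC0, hC⟩ := h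
  refine ⟨C + |K|, by positivity, fun T hT => ?_⟩
  have h1 : 1 ≤ T ^ α := Real.one_le_rpow (by linarith) hα
  rw [add_mul]
  rcases le_total T 16 with h16 | h16
  · have h2 := hK T hT h16
    have h3 := le_mul_of_one_le_right (abs_nonneg K) h1
    have h4 : 0 ≤ C * T ^ α := by positivity
    linarith [le_abs_self K]
  · have h2 := hC T h16
    have h4 : 0 ≤ |K| * T ^ α := by positivity
    linarith

/-- the integral with the weight `1/(1+t)` -/
lemma parts (k : ℕ) {κ : ℝ} (hκ : 0 < κ) (h : Bt 2 (fun T => ∫ t in (0:ℝ)..T, F k t) (κ + 1)) :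
    Bt 2 (fun T => ∫ t in (0:ℝ)..T, F k t / (1 + t)) κ := by
  obtain ⟨C, hC0, hC⟩ := h
  obtain ⟨M, hM⟩ : ∃ M : ℝ → ℝ, M = fun T => ∫ t in (0:ℝ)..T, F k t := ⟨_, rfl⟩
  have hM' : ∀ T, M T = ∫ t in (0:ℝ)..T, F k t := fun T => by rw [hM]
  have hM2 : 0 ≤ M 2 := by rw [hM']; exact int_nonneg k (by norm_num)
  obtain ⟨K, hK0, hK⟩ : ∃ K : ℝ, 0 ≤ K ∧ ∀ T : ℝ, 0 ≤ T → M T ≤ K * (1 + T) ^ (κ + 1) := by
    refine ⟨C + M 2, add_nonneg hC0 hM2, fun T hT => ?_⟩
    have h1 : 1 ≤ (1 + T) ^ (κ + 1) := Real.one_le_rpow (by linarith) (by linarith)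
    have h0 : 0 ≤ (1 + T) ^ (κ + 1) := by linarith
    rw [add_mul]
    rcases le_total 2 T with h2T | h2T
    · have h3 := hC T h2T
      simp only [← hM'] at h3
      have h4 : T ^ (κ + 1) ≤ (1 + T) ^ (κ + 1) := Real.rpow_le_rpow (by linarith) (by linarith) (by linarith)
      have h5 := mul_le_mul_of_nonneg_left h4 hC0
      have h6 : 0 ≤ M 2 * (1 + T) ^ (κ + 1) := mul_nonneg hM2 h0
      linarith
    · have h3 : M T ≤ M 2 := by
        have h7 := int_split k 0 T 2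
        have h8 := int_nonneg k h2T
        rw [hM', hM']; linarith
      have h5 := le_mul_of_one_le_right hM2 h1
      have h6 : 0 ≤ C * (1 + T) ^ (κ + 1) := mul_nonneg hC0 h0
      linarith
  have hder : ∀ T : ℝ, HasDerivAt M (F k T) T := fun T => by
    rw [hM]
    exact intervalIntegral.integral_hasDerivAt_right (F_ii k 0 T)
      ((F_cont k).stronglyMeasurableAtFilter _ _) (F_cont k).continuousAt
  have hMc : Continuous M := continuous_iff_continuousAt.2 fun T => (hder T).continuousAt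
  refine ⟨K * (1 + κ⁻¹) * 2 ^ κ, by positivity, fun T hT => ?_⟩
  have hT0 : 0 ≤ T := by linarith
  have hpos : ∀ x ∈ uIcc 0 T, 0 < 1 + x := fun x hx => by
    rw [uIcc_of_le hT0] at hx; linarith [hx.1]
  have hc1 : ContinuousOn (fun t : ℝ => F k t / (1 + t)) (uIcc 0 T) :=
    (F_cont k).continuousOn.div (by fun_prop) fun x hx => (hpos x hx).ne'
  have hc2 : ContinuousOn (fun t : ℝ => M t / (1 + t) ^ 2) (uIcc 0 T) :=
    hMc.continuousOn.div (by fun_prop) fun x hx => (pow_pos (hpos x hx) 2).ne'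
  have hd : ∀ x ∈ uIcc 0 T, HasDerivAt (fun t => M t / (1 + t)) (F k x / (1 + x) - M x / (1 + x) ^ 2) x := by
    intro x hx
    have h1x := (hpos x hx).ne'
    refine HasDerivAt.congr_deriv (f' := (F k x * (1 + x) - M x * 1) / (1 + x) ^ 2)
      ((hder x).div ((hasDerivAt_id' x).const_add 1) h1x) ?_
    field_simp
  have hp := intervalIntegral.integral_eq_sub_of_hasDerivAt hd (hc1.intervalIntegrable.sub hc2.intervalIntegrable)
  rw [intervalIntegral.integral_sub hc1.intervalIntegrable hc2.intervalIntegrable] at hp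
  have hM0 : M 0 = 0 := by rw [hM']; exact intervalIntegral.integral_same
  rw [hM0, zero_div, sub_zero] at hp
  -- the second integral
  have hd2 : ∀ x ∈ uIcc 0 T, HasDerivAt (fun t : ℝ => (1 + t) ^ κ) (κ * (1 + x) ^ (κ - 1)) x := by
    intro x hx
    have h := ((hasDerivAt_id x).const_add 1).rpow_const (p := κ) (Or.inl (hpos x hx).ne')
    simpa using h
  have hc3 : ContinuousOn (fun t : ℝ => κ * (1 + t) ^ (κ - 1)) (uIcc 0 T) :=
    ContinuousOn.mul continuousOn_const (ContinuousOn.rpow_const (by fun_prop) fun x hx => Or.inl (hpos x hx).ne')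
  have hq := intervalIntegral.integral_eq_sub_of_hasDerivAt hd2 hc3.intervalIntegrable
  have hle : ∫ t in (0:ℝ)..T, M t / (1 + t) ^ 2 ≤ ∫ t in (0:ℝ)..T, K * κ⁻¹ * (κ * (1 + t) ^ (κ - 1)) := by
    refine intervalIntegral.integral_mono_on hT0 hc2.intervalIntegrable
      (ContinuousOn.intervalIntegrable (ContinuousOn.mul continuousOn_const hc3)) fun t ht => ?_
    have ht1 : 0 < 1 + t := by linarith [ht.1]
    rw [div_le_iff₀ (by positivity)]
    calc M t ≤ K * (1 + t) ^ (κ + 1) := hK t ht.1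
      _ = K * κ⁻¹ * (κ * (1 + t) ^ (κ - 1)) * (1 + t) ^ 2 := by
        have h5 : (1 + t) ^ (κ + 1) = (1 + t) ^ (κ - 1) * (1 + t) ^ 2 := by
          rw [← Real.rpow_natCast (1 + t) 2, ← Real.rpow_add ht1]
          congr 1; push_cast; ring
        rw [h5]
        field_simp
  rw [intervalIntegral.integral_const_mul, hq, add_zero, Real.one_rpow] at hle
  have hMT : M T / (1 + T) ≤ K * (1 + T) ^ κ := by
    rw [div_le_iff₀ (by linarith)]
    refine (hK T hT0).trans (le_of_eq ?_)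
    rw [Real.rpow_add_one (by linarith)]
    ring
  have h2T : (1 + T) ^ κ ≤ 2 ^ κ * T ^ κ := by
    rw [← Real.mul_rpow (by norm_num) hT0]
    exact Real.rpow_le_rpow (by linarith) (by linarith) hκ.le
  have hK' : 0 ≤ K * κ⁻¹ := by positivity
  have h9 := mul_le_mul_of_nonneg_left h2T (show 0 ≤ K * (1 + κ⁻¹) by positivity)
  calc ∫ t in (0:ℝ)..T, F k t / (1 + t) = M T / (1 + T) + ∫ t in (0:ℝ)..T, M t / (1 + t) ^ 2 := by linarith
    _ ≤ K * (1 + T) ^ κ + K * κ⁻¹ * (1 + T) ^ κ := by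
      have h10 : K * κ⁻¹ * ((1 + T) ^ κ - 1) ≤ K * κ⁻¹ * (1 + T) ^ κ :=
        mul_le_mul_of_nonneg_left (by linarith) hK'
      linarith
    _ = K * (1 + κ⁻¹) * (1 + T) ^ κ := by ring
    _ ≤ K * (1 + κ⁻¹) * (2 ^ κ * T ^ κ) := h9
    _ = K * (1 + κ⁻¹) * 2 ^ κ * T ^ κ := by ring

lemma core (hSH : S_SH) {k : ℕ} {v : ℝ → ℝ} (hk : 1 ≤ k) (hv : Adm v) {θ e : ℝ} (hθ : 0 ≤ θ) (he : 0 < e)
    (h1 : Bt 2 (fun T => ∫ t in (T - T ^ e)..(T + T ^ e), F k t) (θ + 2 * e))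
    (h2 : Bt 2 (fun T => ∫ t in (0:ℝ)..T, F k t) (max 1 θ + 2 * e)) :
    Bt 2 (fun T => |(∫ t in (0:ℝ)..T, F k t) - 2 * ∫ t in (0:ℝ)..T, ‖DD k v t‖ ^ 2|)
      (θ + (2 * k + 2) * e + e) := by
  obtain ⟨C, hC0, hC⟩ := hSH k v hk hv e he
  have hk0 : (0:ℝ) ≤ k := Nat.cast_nonneg k
  have hke : 0 ≤ (k : ℝ) * e := by positivity
  have hm1 : max 1 θ ≤ 1 + θ := max_le (by linarith) (by linarith)
  have hm2 : 1 ≤ max 1 θ := le_max_left _ _
  have h3 : Bt 2 (fun T => ∫ t in (0 - T ^ e)..(0 + T ^ e), F k t) ((2 * k + 1) * e) := by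
    refine ⟨2 * 32 ^ (2 * k), by positivity, fun T hT => ?_⟩
    have hT0 : 0 < T := by linarith
    have h5 : 1 ≤ T ^ e := Real.one_le_rpow (by linarith) he.le
    simp only [zero_sub, zero_add]
    calc ∫ t in (-(T ^ e))..(T ^ e), F k t ≤ 2 * T ^ e * (16 * (1 + T ^ e)) ^ (2 * k) := int_short k (by linarith)
      _ ≤ 2 * T ^ e * (32 * T ^ e) ^ (2 * k) := by
        refine mul_le_mul_of_nonneg_left (pow_le_pow_left₀ (by linarith) (by linarith) _) (by linarith)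
      _ = 2 * 32 ^ (2 * k) * T ^ ((2 * (k : ℝ) + 1) * e) := by
        rw [mul_pow, ← Real.rpow_mul_natCast hT0.le,
          show (2 * (k : ℝ) + 1) * e = e + e * ((2 * k : ℕ) : ℝ) by push_cast; ring,
          Real.rpow_add hT0]
        ring
  have h4 : Bt 2 (fun T => ∫ t in (0:ℝ)..T, F k t / (1 + t)) (max 1 θ - 1 + 2 * e) := by
    refine parts k (by linarith) ?_
    rw [show max 1 θ - 1 + 2 * e + 1 = max 1 θ + 2 * e by ring]
    exact h2
  have hE : 0 ≤ θ + (2 * k + 2) * e := by positivity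
  have key := ((((h3.mono (by norm_num) (show (2 * (k:ℝ) + 1) * e ≤ θ + (2 * k + 2) * e by linarith)).add
    (h1.mono (by norm_num) (show θ + 2 * e ≤ θ + (2 * k + 2) * e by linarith))).add
    (h4.mono (by norm_num) (show max 1 θ - 1 + 2 * e ≤ θ + (2 * k + 2) * e by linarith))).add
    (Bt.const (by norm_num) hE 1))
  refine ((key.rmul (by norm_num) e).cmul hC0).le fun T hT => ?_
  have h := hC T hT 0 T le_rfl (by linarith) le_rfl
  simp only [ff_sq] at h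
  calc _ ≤ _ := h
    _ = _ := by ring

/-- short increments -/
lemma incr (P : Polynomial ℝ) {e : ℝ} (he : 0 < e) (he1 : e ≤ 1) : ∃ C : ℝ, 0 ≤ C ∧ ∀ T a b : ℝ, 2 ≤ T →
    1 ≤ a → a ≤ b → b ≤ 4 * T → b - a ≤ 8 * T ^ e → |Mt P b - Mt P a| ≤ C * T ^ (2 * e) := by
  obtain ⟨C, hC0, hC⟩ := mt_incr P he he1
  refine ⟨C * 32, by positivity, fun T a b hT ha hab hb hba => (hC a b ha hab).trans ?_⟩
  have hT0 : 0 < T := by linarith
  have h1 : b ^ e ≤ 4 * T ^ e := by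
    calc b ^ e ≤ (4 * T) ^ e := Real.rpow_le_rpow (by linarith) hb he.le
      _ = 4 ^ e * T ^ e := Real.mul_rpow (by norm_num) hT0.le
      _ ≤ 4 * T ^ e := by
          refine mul_le_mul_of_nonneg_right ?_ (Real.rpow_nonneg hT0.le _)
          calc (4 : ℝ) ^ e ≤ 4 ^ (1 : ℝ) := Real.rpow_le_rpow_of_exponent_le (by norm_num) he1
            _ = 4 := Real.rpow_one _
  have h2 : T ^ (2 * e) = T ^ e * T ^ e := by rw [← Real.rpow_add hT0]; congr 1; ring
  have h3 : 0 ≤ T ^ e := Real.rpow_nonneg hT0.le _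
  calc C * b ^ e * (b - a) ≤ C * (4 * T ^ e) * (8 * T ^ e) := by
        refine mul_le_mul (mul_le_mul_of_nonneg_left h1 hC0) hba (by linarith) (by positivity)
    _ = C * 32 * T ^ (2 * e) := by rw [h2]; ring

/-- the size of the main term -/
lemma size (P : Polynomial ℝ) {e : ℝ} (he : 0 < e) (he1 : e ≤ 1) : Bt 2 (fun T => |Mt P T|) (1 + e) := by
  obtain ⟨C, hC0, hC⟩ := mt_incr P he he1
  refine ⟨|Mt P 2| + C, by positivity, fun T hT => ?_⟩
  have hT0 : 0 < T := by linarith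
  have h1 := hC 2 T (by norm_num) hT
  have h2 : |Mt P T| ≤ |Mt P 2| + |Mt P T - Mt P 2| := by
    have := abs_add_le (Mt P 2) (Mt P T - Mt P 2)
    rwa [add_sub_cancel] at this
  have h3 : 1 ≤ T ^ (1 + e) := Real.one_le_rpow (by linarith) (by linarith)
  have h4 : C * T ^ e * (T - 2) ≤ C * T ^ (1 + e) := by
    rw [Real.rpow_add hT0, Real.rpow_one]
    have h5 : 0 ≤ C * T ^ e := mul_nonneg hC0 (Real.rpow_nonneg hT0.le _)
    calc C * T ^ e * (T - 2) ≤ C * T ^ e * T := mul_le_mul_of_nonneg_left (by linarith) h5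
      _ = _ := by ring
  have h6 := le_mul_of_one_le_right (abs_nonneg (Mt P 2)) h3
  rw [add_mul]
  linarith

/-- increments of a function with the given asymptotics -/
lemma window (P : Polynomial ℝ) {θ e : ℝ} (hθ : 0 ≤ θ) (he : 0 < e) (he1 : e ≤ 1) {X : ℝ → ℝ}
    (hX : Bt 2 (fun T => |X T - Mt P T|) (θ + e)) : ∃ C : ℝ, 0 ≤ C ∧ ∀ T a b : ℝ, 2 ≤ T →
    2 ≤ a → a ≤ b → b ≤ 4 * T → b - a ≤ 8 * T ^ e → X b - X a ≤ C * T ^ (θ + 2 * e) := by
  obtain ⟨C, hC0, hC⟩ := hX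
  obtain ⟨K, hK0, hK⟩ := incr P he he1
  refine ⟨2 * (C * 4 ^ (θ + e)) + K, by positivity, fun T a b hT ha hab hb hba => ?_⟩
  have hT0 : 0 < T := by linarith
  have h0 : ∀ c : ℝ, 2 ≤ c → c ≤ 4 * T → |X c - Mt P c| ≤ C * 4 ^ (θ + e) * T ^ (θ + 2 * e) := by
    intro c hc hc4
    refine (hC c hc).trans ?_
    rw [mul_assoc]
    refine mul_le_mul_of_nonneg_left ?_ hC0
    calc c ^ (θ + e) ≤ (4 * T) ^ (θ + e) := Real.rpow_le_rpow (by linarith) hc4 (by linarith)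
      _ = 4 ^ (θ + e) * T ^ (θ + e) := Real.mul_rpow (by norm_num) hT0.le
      _ ≤ 4 ^ (θ + e) * T ^ (θ + 2 * e) := mul_le_mul_of_nonneg_left
        (Real.rpow_le_rpow_of_exponent_le (by linarith) (by linarith)) (by positivity)
  have h1 := (abs_le.1 (h0 b (by linarith) hb)).2
  have h2 := (abs_le.1 (h0 a ha (by linarith))).1
  have h3 := (abs_le.1 (hK T a b hT (by linarith) hab hb hba)).2
  have h4 : K * T ^ (2 * e) ≤ K * T ^ (θ + 2 * e) := mul_le_mul_of_nonneg_left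
    (Real.rpow_le_rpow_of_exponent_le (by linarith) (by linarith)) hK0
  rw [add_mul, mul_assoc 2]
  linarith

/-- size of a function with the given asymptotics, at a shifted point -/
lemma shifted (P : Polynomial ℝ) {θ e : ℝ} (he : 0 < e) (he1 : e ≤ 1) {X : ℝ → ℝ}
    (hX : Bt 2 (fun T => |X T - Mt P T|) (θ + e)) : ∃ C : ℝ, 0 ≤ C ∧ ∀ T c : ℝ, 2 ≤ T →
    2 ≤ c → c ≤ 4 * T → X c ≤ C * T ^ (max 1 θ + 2 * e) := by
  have h1 : θ ≤ max 1 θ := le_max_right _ _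
  have h2 : 1 ≤ max 1 θ := le_max_left _ _
  obtain ⟨C, hC0, hC⟩ := (hX.mono (β := max 1 θ + 2 * e) (by norm_num) (by linarith)).add
    ((size P he he1).mono (β := max 1 θ + 2 * e) (by norm_num) (by linarith))
  refine ⟨C * 4 ^ (max 1 θ + 2 * e), by positivity, fun T c hT hc hc4 => ?_⟩
  have hT0 : 0 < T := by linarith
  have h3 := hC c hc
  have h4 : X c ≤ |X c - Mt P c| + |Mt P c| := by
    have := abs_add_le (X c - Mt P c) (Mt P c)
    rw [sub_add_cancel] at this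
    exact (le_abs_self _).trans this
  refine h4.trans (h3.trans ?_)
  rw [mul_assoc]
  refine mul_le_mul_of_nonneg_left ?_ hC0
  rw [← Real.mul_rpow (by norm_num) hT0.le]
  exact Real.rpow_le_rpow (by linarith) hc4 (by linarith)

lemma rp {e T : ℝ} (he : 0 < e) (he1 : e ≤ 1 / 16) (hT : 2 ≤ T) : 1 ≤ T ^ e ∧ T ^ e ≤ T ∧
    (2 * T) ^ e ≤ 2 * T ^ e ∧ (16 ≤ T → 4 * T ^ e ≤ T) := by
  have hT0 : 0 ≤ T := by linarith
  refine ⟨Real.one_le_rpow (by linarith) he.le, ?_, ?_, fun h16 => ?_⟩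
  · calc T ^ e ≤ T ^ (1 : ℝ) := Real.rpow_le_rpow_of_exponent_le (by linarith) (by linarith)
      _ = T := Real.rpow_one _
  · rw [Real.mul_rpow (by norm_num) hT0]
    refine mul_le_mul_of_nonneg_right ?_ (Real.rpow_nonneg hT0 _)
    calc (2 : ℝ) ^ e ≤ 2 ^ (1 : ℝ) := Real.rpow_le_rpow_of_exponent_le (by norm_num) (by linarith)
      _ = 2 := Real.rpow_one _
  · have h3 : T ^ e ≤ Real.sqrt T := by
      rw [Real.sqrt_eq_rpow]
      exact Real.rpow_le_rpow_of_exponent_le (by linarith) (by linarith)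
    have h4 : Real.sqrt T ≤ T / 4 := by
      rw [Real.sqrt_le_left (by positivity)]
      nlinarith
    linarith

/-- the short window about `T`, bounded `T` -/
lemma small_window (k : ℕ) {e T : ℝ} (he : 0 < e) (he1 : e ≤ 1 / 16) (hT : 2 ≤ T) (hT16 : T ≤ 16) :
    ∫ t in (T - T ^ e)..(T + T ^ e), F k t ≤ ∫ t in (-32:ℝ)..32, F k t := by
  obtain ⟨s1, s2, s3, s4⟩ := rp he he1 hT
  have h1 := int_split k (-32) (T - T ^ e) (T + T ^ e)
  have h2 := int_split k (-32) (T + T ^ e) 32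
  have h3 := int_nonneg k (a := -32) (b := T - T ^ e) (by linarith)
  have h4 := int_nonneg k (a := T + T ^ e) (b := 32) (by linarith)
  linarith

lemma DD_ii {k : ℕ} {v : ℝ → ℝ} (hm : Measurable (DD k v)) {B : ℕ} {C : ℝ}
    (hB : ∀ t, ‖DD k v t‖ ≤ C * (1 + |t|) ^ B) (a b : ℝ) :
    IntervalIntegrable (fun t => ‖DD k v t‖ ^ 2) volume a b := by
  have hg : Continuous fun t : ℝ => (C * (1 + |t|) ^ B) ^ 2 := by fun_prop
  refine (hg.intervalIntegrable a b).mono_fun' ((hm.norm.pow_const 2).aestronglyMeasurable) ?_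
  refine Eventually.of_forall fun t => ?_
  simp only
  rw [Real.norm_of_nonneg (by positivity)]
  exact pow_le_pow_left₀ (norm_nonneg _) (hB t) 2

end Pool.Agent.J6H39.PI.EQ

namespace Pool.Agent.J6H39.PI

open EQ
open Pool.Agent.J6H39.SP (F Mt)
open Pool.Agent.J6H39.SP.EQ2

theorem t_EQ (hSH : S_SH) (hUP : S_UP) (hDG : S_DG) : S_EQ := by
  intro k v hk hv P θ hθ
  obtain ⟨hm, B, CB, hB⟩ := hDG k v hv
  have Dii : ∀ a b : ℝ, IntervalIntegrable (fun t => ‖DD k v t‖ ^ 2) volume a b := DD_ii hm hB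
  have Dsplit : ∀ a b c : ℝ, (∫ t in a..b, ‖DD k v t‖ ^ 2) + ∫ t in b..c, ‖DD k v t‖ ^ 2 =
      ∫ t in a..c, ‖DD k v t‖ ^ 2 := fun a b c =>
    intervalIntegral.integral_add_adjacent_intervals (Dii a b) (Dii b c)
  have hk0 : (0:ℝ) ≤ k := Nat.cast_nonneg k
  have hB0 : (0:ℝ) ≤ B := Nat.cast_nonneg B
  simp only [ff_sq]
  constructor
  · intro hA ε hε
    obtain ⟨e, he, he1, heε⟩ : ∃ e : ℝ, 0 < e ∧ e ≤ 1 / 16 ∧ (2 * k + 3) * e ≤ ε := by
      refine ⟨min (1 / 16) (ε / (2 * k + 3)), by positivity, min_le_left _ _, ?_⟩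
      rw [mul_comm, ← le_div_iff₀ (by positivity)]
      exact min_le_right _ _
    obtain ⟨C₀, hC₀⟩ := hA e he
    have hX : Bt 2 (fun T => |(∫ t in (0:ℝ)..T, F k t) - Mt P T|) (θ + e) :=
      ⟨|C₀|, abs_nonneg _, fun T hT => (hC₀ T hT).trans (mul_le_mul_of_nonneg_right (le_abs_self _)
        (Real.rpow_nonneg (by linarith) _))⟩
    obtain ⟨C₁, hC₁0, hC₁⟩ := window P hθ he (by linarith) hX
    obtain ⟨C₂, hC₂0, hC₂⟩ := shifted P he (by linarith) hX
    have h1 : Bt 2 (fun T => ∫ t in (T - T ^ e)..(T + T ^ e), F k t) (θ + 2 * e) := by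
      refine Bt.large (by linarith) ⟨C₁, hC₁0, fun T hT => ?_⟩ _ fun T hT hT16 => small_window k he he1 hT hT16
      obtain ⟨s1, s2, s3, s4⟩ := rp he he1 (show 2 ≤ T by linarith)
      have s5 := s4 hT
      have h := hC₁ T (T - T ^ e) (T + T ^ e) (by linarith) (by linarith) (by linarith) (by linarith) (by linarith)
      have h' := int_split k 0 (T - T ^ e) (T + T ^ e)
      linarith
    have h2 : Bt 2 (fun T => ∫ t in (0:ℝ)..T, F k t) (max 1 θ + 2 * e) :=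
      ⟨C₂, hC₂0, fun T hT => hC₂ T T hT hT (by linarith)⟩
    obtain ⟨C, hC0, hC⟩ := ((core hSH hk hv hθ he h1 h2).mono (β := θ + ε) (by norm_num) (by linarith)).add
      (hX.mono (β := θ + ε) (by norm_num) (by nlinarith))
    refine ⟨C, fun T hT => le_trans ?_ (hC T hT)⟩
    beta_reduce
    rw [abs_sub_comm (∫ t in (0:ℝ)..T, F k t) (2 * ∫ t in (0:ℝ)..T, ‖DD k v t‖ ^ 2)]
    refine le_trans (le_of_eq ?_) (abs_add_le _ _)
    congr 1
    ring
  · intro hA ε hε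
    obtain ⟨e, he, he1, heε, heB⟩ : ∃ e : ℝ, 0 < e ∧ e ≤ 1 / 16 ∧ (2 * k + 3) * e ≤ ε ∧ (2 * B + 1) * e ≤ 1 := by
      refine ⟨min (1 / 16) (min (ε / (2 * k + 3)) (1 / (2 * B + 1))), by positivity, min_le_left _ _, ?_, ?_⟩
      · rw [mul_comm, ← le_div_iff₀ (by positivity)]
        exact (min_le_right _ _).trans (min_le_left _ _)
      · rw [mul_comm, ← le_div_iff₀ (by positivity)]
        exact (min_le_right _ _).trans (min_le_right _ _)
    obtain ⟨C₀, hC₀⟩ := hA e he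
    have hX : Bt 2 (fun T => |2 * (∫ t in (0:ℝ)..T, ‖DD k v t‖ ^ 2) - Mt P T|) (θ + e) :=
      ⟨|C₀|, abs_nonneg _, fun T hT => (hC₀ T hT).trans (mul_le_mul_of_nonneg_right (le_abs_self _)
        (Real.rpow_nonneg (by linarith) _))⟩
    obtain ⟨C₁, hC₁0, hC₁⟩ := window P hθ he (by linarith) (X := fun T => 2 * ∫ t in (0:ℝ)..T, ‖DD k v t‖ ^ 2) hX
    obtain ⟨C₂, hC₂0, hC₂⟩ := shifted P he (by linarith) (X := fun T => 2 * ∫ t in (0:ℝ)..T, ‖DD k v t‖ ^ 2) hX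
    obtain ⟨C₃, hC₃0, hC₃⟩ := hUP k v hk hv e he
    simp only [ff_sq] at hC₃
    have hm2 : 1 ≤ max 1 θ := le_max_left _ _
    have h1 : Bt 2 (fun T => ∫ t in (T - T ^ e)..(T + T ^ e), F k t) (θ + 2 * e) := by
      refine Bt.large (by linarith) ⟨C₃ * (C₁ + 1), by positivity, fun T hT => ?_⟩ _
        fun T hT hT16 => small_window k he he1 hT hT16
      obtain ⟨s1, s2, s3, s4⟩ := rp he he1 (show 2 ≤ T by linarith)
      have s5 := s4 hT
      have h0 := hC₃ (2 * T) (by linarith) (T - T ^ e) (T + T ^ e) (by linarith) (by linarith) (by linarith)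
      have s6 : 0 ≤ (2 * T) ^ e := Real.rpow_nonneg (by linarith) _
      have h := hC₁ T (T - T ^ e - (2 * T) ^ e) (T + T ^ e + (2 * T) ^ e) (by linarith) (by linarith) (by linarith)
        (by linarith) (by linarith)
      have h' := Dsplit 0 (T - T ^ e - (2 * T) ^ e) (T + T ^ e + (2 * T) ^ e)
      have h5 : 1 ≤ T ^ (θ + 2 * e) := Real.one_le_rpow (by linarith) (by linarith)
      refine h0.trans ?_
      rw [mul_assoc]
      refine mul_le_mul_of_nonneg_left ?_ hC₃0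
      have h6 : 0 ≤ C₁ * T ^ (θ + 2 * e) := by positivity
      rw [add_mul, one_mul]
      linarith
    have h2 : Bt 2 (fun T => ∫ t in (0:ℝ)..T, F k t) (max 1 θ + 2 * e) := by
      have h3 : Bt 2 (fun T => ∫ t in (0 - T ^ e)..0, ‖DD k v t‖ ^ 2) (max 1 θ + 2 * e) := by
        refine Bt.mono (α := (2 * B + 1) * e) (by norm_num) ⟨(|CB| * 2 ^ B) ^ 2, by positivity, fun T hT => ?_⟩ (by linarith)
        obtain ⟨s1, s2, s3, s4⟩ := rp he he1 hT
        have hT0 : 0 < T := by linarith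
        have h4 : ∫ t in (0 - T ^ e)..0, ‖DD k v t‖ ^ 2 ≤ ∫ _t in (0 - T ^ e)..0, (|CB| * (2 * T ^ e) ^ B) ^ 2 := by
          refine intervalIntegral.integral_mono_on (by linarith) (Dii _ _) (by simp) fun t ht => ?_
          refine pow_le_pow_left₀ (norm_nonneg _) ((hB t).trans ?_) 2
          have h5 : |t| ≤ T ^ e := abs_le.2 ⟨by linarith [ht.1], by linarith [ht.2]⟩
          refine mul_le_mul (le_abs_self _) (pow_le_pow_left₀ (by positivity) (by linarith) _) (by positivity)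
            (abs_nonneg _)
        refine h4.trans (le_of_eq ?_)
        rw [intervalIntegral.integral_const, smul_eq_mul, sub_sub_cancel, mul_pow 2, ← mul_assoc,
          mul_pow, ← pow_mul (T ^ e), ← Real.rpow_mul_natCast hT0.le,
          show (2 * (B : ℝ) + 1) * e = e + e * ((B * 2 : ℕ) : ℝ) by push_cast; ring,
          Real.rpow_add hT0]
        ring
      have h4 : Bt 2 (fun T => 2 * ∫ t in (0:ℝ)..(T + T ^ e), ‖DD k v t‖ ^ 2) (max 1 θ + 2 * e) := by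
        refine ⟨C₂, hC₂0, fun T hT => ?_⟩
        obtain ⟨s1, s2, s3, s4⟩ := rp he he1 hT
        exact hC₂ T (T + T ^ e) hT (by linarith) (by linarith)
      refine (((h3.add (h4.cmul (c := 1 / 2) (by norm_num))).add
        (Bt.const (by norm_num) (show 0 ≤ max 1 θ + 2 * e by linarith) 1)).cmul hC₃0).le fun T hT => ?_
      have h5 := hC₃ T hT 0 T le_rfl (by linarith) le_rfl
      have h6 := Dsplit (0 - T ^ e) 0 (T + T ^ e)
      refine h5.trans (mul_le_mul_of_nonneg_left ?_ hC₃0)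
      linarith
    obtain ⟨C, hC0, hC⟩ := ((core hSH hk hv hθ he h1 h2).mono (β := θ + ε) (by norm_num) (by linarith)).add
      (hX.mono (β := θ + ε) (by norm_num) (by nlinarith))
    refine ⟨C, fun T hT => le_trans ?_ (hC T hT)⟩
    refine le_trans (le_of_eq ?_) (abs_add_le _ _)
    congr 1
    ring

end Pool.Agent.J6H39.PI
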