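import Mathlib

/-! Auxiliary file for PI-FA: multiplicative functions, summability from local factors. -/

set_option autoImplicit false

open Finset ArithmeticFunction
open scoped ArithmeticFunction.zeta ArithmeticFunction.Moebius

namespace Pool.Agent.J6H39.PI.FA

theorem summable_of_local {f : ℕ → ℝ} (h0 : f 0 = 0) (h1 : f 1 = 1) (hn : ∀ n, 0 ≤ f n)
    (hm : ∀ {m n : ℕ}, m.Coprime n → f (m * n) = f m * f n) (g : ℕ → ℝ) (hg : Summable g)
    (hg0 : ∀ n, 0 ≤ g n) (hs : ∀ p : ℕ, p.Prime → Summable (fun j => f (p ^ j)))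
    (hl : ∀ p : ℕ, p.Prime → ∑' j, f (p ^ j) ≤ 1 + g p) : Summable f := by
  refine summable_of_sum_le (c := Real.exp (∑' n, g n)) hn ?_
  intro F
  obtain ⟨N, hN⟩ : ∃ N, ∀ n ∈ F, n < N := by
    refine ⟨F.sup id + 1, fun n hn => ?_⟩
    have : n ≤ F.sup id := Finset.le_sup (f := id) hn
    omega
  have hE := EulerProduct.summable_and_hasSum_factoredNumbers_prod_filter_prime_tsum (f := f) h1 hm
    (fun {p} hp => by
      have := hs p hp
      refine this.congr fun j => ?_
      rw [Real.norm_of_nonneg (hn _)]) (Finset.range N)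
  have h2 := hE.2
  have h3 : HasSum (Set.indicator (Nat.factoredNumbers (Finset.range N)) f)
      (∏ p ∈ Finset.range N with p.Prime, ∑' j : ℕ, f (p ^ j)) := by
    rw [← hasSum_subtype_iff_indicator]
    exact h2
  have h4 : ∑ n ∈ F, f n ≤ ∏ p ∈ Finset.range N with p.Prime, ∑' j : ℕ, f (p ^ j) := by
    have e1 : ∑ n ∈ F, f n = ∑ n ∈ F, Set.indicator (Nat.factoredNumbers (Finset.range N)) f n := by
      refine Finset.sum_congr rfl fun n hnF => ?_
      rcases Nat.eq_zero_or_pos n with rfl | hpos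
      · rw [h0]
        by_cases h : (0 : ℕ) ∈ Nat.factoredNumbers (Finset.range N)
        · rw [Set.indicator_of_mem h, h0]
        · rw [Set.indicator_of_notMem h]
      · rw [Set.indicator_of_mem]
        rw [Nat.mem_factoredNumbers']
        intro p hp hpd
        rw [Finset.mem_range]
        exact (Nat.le_of_dvd hpos hpd).trans_lt (hN n hnF)
    rw [e1]
    refine sum_le_hasSum F (fun n _ => ?_) h3
    exact Set.indicator_nonneg (fun _ _ => hn _) _
  refine h4.trans ?_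
  have h5 : ∏ p ∈ Finset.range N with p.Prime, ∑' j : ℕ, f (p ^ j) ≤
      ∏ p ∈ Finset.range N with p.Prime, Real.exp (g p) := by
    refine Finset.prod_le_prod (fun p _ => tsum_nonneg fun j => hn _) fun p hp => ?_
    refine (hl p (Finset.mem_filter.1 hp).2).trans ?_
    rw [add_comm]
    exact Real.add_one_le_exp _
  refine h5.trans ?_
  rw [← Real.exp_sum]
  exact Real.exp_le_exp.2 (hg.sum_le_tsum _ fun n _ => hg0 n)

theorem mul_pp {R : Type*} [CommSemiring R] (f g : ArithmeticFunction R) {p : ℕ} (hp : p.Prime)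
    (j : ℕ) : (f * g) (p ^ j) = ∑ i ∈ range (j + 1), f (p ^ i) * g (p ^ (j - i)) := by
  rw [ArithmeticFunction.mul_apply, Nat.sum_divisorsAntidiagonal (fun a b => f a * g b),
    Nat.divisors_prime_pow hp, Finset.sum_map]
  refine Finset.sum_congr rfl fun i hi => ?_
  rw [Finset.mem_range] at hi
  simp only [Function.Embedding.coeFn_mk]
  rw [Nat.pow_div (by omega) hp.pos]

theorem pow_pp_le (f : ArithmeticFunction ℤ) {p : ℕ} (hp : p.Prime) (hf : ∀ j, |f (p ^ j)| ≤ 1)
    (m j : ℕ) : |(f ^ m) (p ^ j)| ≤ (1 + j : ℤ) ^ m := by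
  induction m generalizing j with
  | zero =>
    rw [pow_zero, pow_zero, ArithmeticFunction.one_apply]
    split_ifs <;> simp
  | succ m ih =>
    rw [pow_succ, mul_pp _ _ hp]
    calc |∑ i ∈ range (j + 1), (f ^ m) (p ^ i) * f (p ^ (j - i))| ≤
        ∑ i ∈ range (j + 1), |(f ^ m) (p ^ i) * f (p ^ (j - i))| := Finset.abs_sum_le_sum_abs _ _
      _ ≤ ∑ _i ∈ range (j + 1), (1 + j : ℤ) ^ m := by
          refine Finset.sum_le_sum fun i hi => ?_
          rw [Finset.mem_range] at hi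
          rw [abs_mul]
          have h1 : |(f ^ m) (p ^ i)| ≤ (1 + j : ℤ) ^ m := by
            refine (ih i).trans ?_
            have : (1 + i : ℤ) ≤ 1 + j := by omega
            exact pow_le_pow_left₀ (by positivity) this m
          calc |(f ^ m) (p ^ i)| * |f (p ^ (j - i))| ≤ (1 + j : ℤ) ^ m * 1 :=
                mul_le_mul h1 (hf _) (abs_nonneg _) (by positivity)
            _ = _ := mul_one _
      _ = _ := by
          rw [Finset.sum_const, Finset.card_range, nsmul_eq_mul]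
          push_cast
          ring

theorem pow_p (f : ArithmeticFunction ℤ) (hf : f.IsMultiplicative) {p : ℕ} (hp : p.Prime) (m : ℕ) :
    (f ^ m) p = m * f p := by
  induction m with
  | zero =>
    rw [pow_zero, ArithmeticFunction.one_apply, if_neg hp.one_lt.ne']
    simp
  | succ m ih =>
    have h1 := mul_pp (f ^ m) f hp 1
    rw [pow_one] at h1
    rw [pow_succ, h1]
    simp only [Finset.sum_range_succ, Finset.sum_range_zero, pow_zero, pow_one, Nat.sub_zero,
      Nat.sub_self, zero_add]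
    rw [(hf.pow (k := m)).map_one, hf.map_one, ih]
    push_cast
    ring

/-- `d_k` as an arithmetic function with integral values -/
noncomputable def zk (k : ℕ) : ArithmeticFunction ℤ := (ζ : ArithmeticFunction ℤ) ^ k

theorem natCoe_pow' (f : ArithmeticFunction ℕ) (k : ℕ) :
    ((f ^ k : ArithmeticFunction ℕ) : ArithmeticFunction ℤ) = (f : ArithmeticFunction ℤ) ^ k := by
  induction k with
  | zero => rw [pow_zero, pow_zero, ArithmeticFunction.natCoe_one]
  | succ k ih => rw [pow_succ, ArithmeticFunction.natCoe_mul, ih, pow_succ]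

theorem zk_eq (k n : ℕ) : ((((ζ : ArithmeticFunction ℕ) ^ k) n : ℕ) : ℤ) = zk k n := by
  rw [zk, ← natCoe_pow', ArithmeticFunction.natCoe_apply]

theorem zeta_mult : (ζ : ArithmeticFunction ℤ).IsMultiplicative :=
  isMultiplicative_zeta.natCast

/-- the factor -/
noncomputable def AA (k : ℕ) : ArithmeticFunction ℤ := (zk k).pmul (zk k) * μ ^ (k ^ 2)

theorem AA_mult (k : ℕ) : (AA k).IsMultiplicative := by
  refine ArithmeticFunction.IsMultiplicative.mul ?_ isMultiplicative_moebius.pow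
  exact zeta_mult.pow.pmul zeta_mult.pow

theorem AA_mul (k : ℕ) : zk (k ^ 2) * AA k = (zk k).pmul (zk k) := by
  rw [AA, zk, mul_comm ((zk k).pmul (zk k)), ← mul_assoc, ← mul_pow, coe_zeta_mul_moebius, one_pow,
    one_mul]

theorem zeta_le {p : ℕ} (j : ℕ) : |(ζ : ArithmeticFunction ℤ) (p ^ j)| ≤ 1 := by
  rw [ArithmeticFunction.natCoe_apply, ArithmeticFunction.zeta_apply]
  split_ifs <;> simp

theorem AA_pp (k : ℕ) {p : ℕ} (hp : p.Prime) (j : ℕ) :
    |AA k (p ^ j)| ≤ (1 + j : ℤ) ^ (1 + 2 * k + k ^ 2) := by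
  rw [AA, mul_pp _ _ hp]
  calc |∑ i ∈ range (j + 1), ((zk k).pmul (zk k)) (p ^ i) * (μ ^ (k ^ 2)) (p ^ (j - i))| ≤
      ∑ i ∈ range (j + 1), |((zk k).pmul (zk k)) (p ^ i) * (μ ^ (k ^ 2)) (p ^ (j - i))| :=
        Finset.abs_sum_le_sum_abs _ _
    _ ≤ ∑ _i ∈ range (j + 1), (1 + j : ℤ) ^ (2 * k) * (1 + j : ℤ) ^ (k ^ 2) := by
        refine Finset.sum_le_sum fun i hi => ?_
        rw [Finset.mem_range] at hi
        rw [abs_mul, ArithmeticFunction.pmul_apply, abs_mul]
        have h1 : |zk k (p ^ i)| ≤ (1 + j : ℤ) ^ k := by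
          refine (pow_pp_le _ hp (fun j => zeta_le j) k i).trans ?_
          have : (1 + i : ℤ) ≤ 1 + j := by omega
          exact pow_le_pow_left₀ (by positivity) this k
        have h2 : |(μ ^ (k ^ 2)) (p ^ (j - i))| ≤ (1 + j : ℤ) ^ (k ^ 2) := by
          refine (pow_pp_le _ hp (fun j => abs_moebius_le_one) (k ^ 2) (j - i)).trans ?_
          have : (1 + ((j - i : ℕ) : ℤ)) ≤ 1 + j := by omega
          exact pow_le_pow_left₀ (by positivity) this _
        have h3 : |zk k (p ^ i)| * |zk k (p ^ i)| ≤ (1 + j : ℤ) ^ (2 * k) := by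
          rw [two_mul, pow_add]
          exact mul_le_mul h1 h1 (abs_nonneg _) (by positivity)
        exact mul_le_mul h3 h2 (abs_nonneg _) (by positivity)
    _ = _ := by
        rw [Finset.sum_const, Finset.card_range, nsmul_eq_mul]
        push_cast
        ring

theorem AA_p (k : ℕ) {p : ℕ} (hp : p.Prime) : AA k p = 0 := by
  have h1 := mul_pp ((zk k).pmul (zk k)) (μ ^ (k ^ 2)) hp 1
  rw [pow_one] at h1
  rw [AA, h1]
  simp only [Finset.sum_range_succ, Finset.sum_range_zero, pow_zero, pow_one, Nat.sub_zero,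
    Nat.sub_self, zero_add, ArithmeticFunction.pmul_apply]
  rw [zk, pow_p _ zeta_mult hp, pow_p _ isMultiplicative_moebius hp, (zeta_mult.pow (k := k)).map_one,
    (isMultiplicative_moebius.pow (k := k ^ 2)).map_one, moebius_apply_prime hp,
    ArithmeticFunction.natCoe_apply, ArithmeticFunction.zeta_apply_ne hp.ne_zero]
  push_cast
  ring

theorem sum_AA (k : ℕ) {s : ℝ} (hs : 1 / 2 < s) :
    Summable (fun n : ℕ => |((AA k n : ℤ) : ℝ)| * (n : ℝ) ^ (-s)) := by
  set B := 1 + 2 * k + k ^ 2 with hB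
  set ρ : ℝ := (2 : ℝ) ^ (-s) with hρ
  have hρ0 : 0 < ρ := Real.rpow_pos_of_pos (by norm_num) _
  have hρ1 : ρ < 1 := Real.rpow_lt_one_of_one_lt_of_neg (by norm_num) (by linarith)
  have hsum : Summable (fun j : ℕ => ((3 + j : ℝ)) ^ B * ρ ^ j) := by
    have h1 : Summable (fun j : ℕ => (j : ℝ) ^ B * ρ ^ j) :=
      summable_pow_mul_geometric_of_norm_lt_one B (by rw [Real.norm_of_nonneg hρ0.le]; exact hρ1)
    have h2 := (summable_nat_add_iff 3).2 h1
    have h3 := h2.mul_right ((ρ ^ 3)⁻¹)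
    refine h3.congr fun j => ?_
    push_cast
    rw [pow_add]
    field_simp
    ring
  set K := ∑' j : ℕ, ((3 + j : ℝ)) ^ B * ρ ^ j with hK
  have hK0 : 0 ≤ K := tsum_nonneg fun j => by positivity
  have hM := AA_mult k
  have hloc : ∀ p : ℕ, p.Prime → ∀ j : ℕ,
      |((AA k (p ^ (j + 2)) : ℤ) : ℝ)| * (((p ^ (j + 2) : ℕ) : ℝ)) ^ (-s) ≤
        ((p : ℝ) ^ (-(2 * s))) * (((3 + j : ℝ)) ^ B * ρ ^ j) := by
    intro p hp j
    have hp0 : (0 : ℝ) < p := by exact_mod_cast hp.pos
    have h1 : |((AA k (p ^ (j + 2)) : ℤ) : ℝ)| ≤ (3 + j : ℝ) ^ B := by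
      have := AA_pp k hp (j + 2)
      have h2 : ((|AA k (p ^ (j + 2))| : ℤ) : ℝ) ≤ (((1 + ((j + 2 : ℕ) : ℤ)) ^ B : ℤ) : ℝ) :=
        Int.cast_le.2 this
      push_cast at h2
      calc _ ≤ _ := h2
        _ = _ := by ring
    have h2 : (((p ^ (j + 2) : ℕ) : ℝ)) ^ (-s) = (p : ℝ) ^ (-(2 * s)) * ((p : ℝ) ^ (-s)) ^ j := by
      push_cast
      rw [← Real.rpow_natCast, ← Real.rpow_natCast, ← Real.rpow_mul hp0.le, ← Real.rpow_mul hp0.le,
        ← Real.rpow_add hp0]
      congr 1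
      push_cast
      ring
    have h3 : (p : ℝ) ^ (-s) ≤ ρ := by
      rw [hρ]
      refine Real.rpow_le_rpow_of_nonpos (by norm_num) ?_ (by linarith)
      exact_mod_cast hp.two_le
    have h4 : 0 ≤ (p : ℝ) ^ (-s) := Real.rpow_nonneg hp0.le _
    have h5 : 0 ≤ (p : ℝ) ^ (-(2 * s)) := Real.rpow_nonneg hp0.le _
    rw [h2]
    calc |((AA k (p ^ (j + 2)) : ℤ) : ℝ)| * ((p : ℝ) ^ (-(2 * s)) * ((p : ℝ) ^ (-s)) ^ j) ≤
        (3 + j : ℝ) ^ B * ((p : ℝ) ^ (-(2 * s)) * ρ ^ j) := by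
          refine mul_le_mul h1 ?_ (by positivity) (by positivity)
          exact mul_le_mul_of_nonneg_left (pow_le_pow_left₀ h4 h3 j) h5
      _ = _ := by ring
  refine summable_of_local (g := fun n => K * (n : ℝ) ^ (-(2 * s))) ?_ ?_ ?_ ?_ ?_ ?_ ?_ ?_
  · simp
  · rw [hM.map_one]
    simp
  · intro n
    positivity
  · intro m n hmn
    rw [hM.map_mul_of_coprime hmn]
    push_cast
    rw [abs_mul, Real.mul_rpow (by positivity) (by positivity)]
    ring
  · exact (Real.summable_nat_rpow.2 (by linarith)).mul_left K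
  · intro n
    positivity
  · intro p hp
    rw [← summable_nat_add_iff 2]
    exact Summable.of_nonneg_of_le (fun j => by positivity) (hloc p hp) (hsum.mul_left _)
  · intro p hp
    have hS : Summable (fun j : ℕ => |((AA k (p ^ j) : ℤ) : ℝ)| * (((p ^ j : ℕ) : ℝ)) ^ (-s)) := by
      rw [← summable_nat_add_iff 2]
      exact Summable.of_nonneg_of_le (fun j => by positivity) (hloc p hp) (hsum.mul_left _)
    rw [← hS.sum_add_tsum_nat_add 2]
    have h1 : ∑ i ∈ range 2, |((AA k (p ^ i) : ℤ) : ℝ)| * (((p ^ i : ℕ) : ℝ)) ^ (-s) = 1 := by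
      rw [Finset.sum_range_succ, Finset.sum_range_one, pow_zero, pow_one, AA_p k hp, hM.map_one]
      simp
    rw [h1]
    have h2 : ∑' j : ℕ, |((AA k (p ^ (j + 2)) : ℤ) : ℝ)| * (((p ^ (j + 2) : ℕ) : ℝ)) ^ (-s) ≤
        ∑' j : ℕ, ((p : ℝ) ^ (-(2 * s))) * (((3 + j : ℝ)) ^ B * ρ ^ j) :=
      Summable.tsum_le_tsum (hloc p hp) ((summable_nat_add_iff 2).2 hS) (hsum.mul_left _)
    rw [tsum_mul_left] at h2
    have h3 : (p : ℝ) ^ (-(2 * s)) * K = K * (p : ℝ) ^ (-(2 * s)) := mul_comm _ _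
    rw [← hK, h3] at h2
    linarith

end Pool.Agent.J6H39.PI.FA
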