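import Pool.Agent.J6H39.PI.Stm2
import Pool.Agent.J6H39.PI.FAaux

/-! PI-FA: the factorisation of `∑ d_k(n)² n^(-s)`. -/

set_option autoImplicit false

open scoped ArithmeticFunction.zeta

namespace Pool.Agent.J6H39.PI

open Pool.Agent.J6H39.KV (dv)

theorem t_FA : S_FA := by
  intro k _
  refine ⟨fun n => ((FA.AA k n : ℤ) : ℝ), ?_, ?_, ?_⟩
  · show ((FA.AA k 1 : ℤ) : ℝ) = 1
    rw [(FA.AA_mult k).map_one]
    simp
  · intro n _
    have h := congrArg (fun F : ArithmeticFunction ℤ => ((F n : ℤ) : ℝ)) (FA.AA_mul k)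
    simp only [ArithmeticFunction.mul_apply, ArithmeticFunction.pmul_apply] at h
    push_cast at h
    have e : ∀ m j : ℕ, ((FA.zk m j : ℤ) : ℝ) = (dv m j : ℝ) := by
      intro m j
      rw [← FA.zk_eq]
      simp [dv]
    simp only [e] at h
    rw [pow_two]
    exact h.symm
  · intro s hs
    exact FA.sum_AA k hs

end Pool.Agent.J6H39.PI
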