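import Pool.Agent.J6H39.PI.Stm2

/-! Project PI: expansion of the square of the Dirichlet polynomial (`S_OF`). -/

set_option autoImplicit false

open MeasureTheory Set Filter Topology Complex

namespace Pool.Agent.J6H39.PI

open Pool.Agent.J6H39.KV (dv)

namespace OF

theorem v_zero {v : ℝ → ℝ} (hv : Adm v) {x : ℝ} (hx : 1 ≤ x) : v x = 0 := by
  have h := hv.sq x
  rw [hv.one (-x) (by linarith)] at h
  have h2 : v x ^ 2 = 0 := by linarith
  exact pow_eq_zero_iff (two_ne_zero) |>.1 h2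

theorem v_sq_le {v : ℝ → ℝ} (hv : Adm v) (x : ℝ) : v x ^ 2 ≤ 1 := by
  have h := hv.sq x
  nlinarith [sq_nonneg (v (-x))]

theorem dv_zero (k : ℕ) : dv k 0 = 0 := by simp [dv]

theorem dv_le (k : ℕ) {n : ℕ} (hn : 1 ≤ n) : dv k n ≤ n ^ k := by
  induction k generalizing n with
  | zero =>
    simp only [dv, pow_zero, ArithmeticFunction.one_apply]
    split_ifs <;> omega
  | succ k ih =>
    have e : dv (k + 1) n = ∑ i ∈ n.divisors, dv k i := by
      simp only [dv, pow_succ']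
      rw [ArithmeticFunction.zeta_mul_apply]
    rw [e, pow_succ']
    calc ∑ i ∈ n.divisors, dv k i ≤ ∑ i ∈ n.divisors, n ^ k := by
          refine Finset.sum_le_sum fun i hi => ?_
          have h1 : 1 ≤ i := Nat.pos_of_mem_divisors hi
          exact (ih h1).trans (Nat.pow_le_pow_left (Nat.divisor_le hi) k)
      _ = n.divisors.card * n ^ k := by simp
      _ ≤ n * n ^ k := Nat.mul_le_mul_right _ (Nat.card_divisors_le_self n)

/-- the number of terms -/
noncomputable def N0 (k : ℕ) (t : ℝ) : ℕ := ⌈Real.exp (Xk k t + 1)⌉₊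

theorem v_N0 {v : ℝ → ℝ} (hv : Adm v) {k : ℕ} {t : ℝ} {n : ℕ} (hn : N0 k t ≤ n) :
    v (Real.log n - Xk k t) = 0 := by
  refine v_zero hv ?_
  have h1 : Real.exp (Xk k t + 1) ≤ n := (Nat.le_ceil _).trans (by exact_mod_cast hn)
  have h0 : (0 : ℝ) < n := (Real.exp_pos _).trans_le h1
  have := (Real.le_log_iff_exp_le h0).2 h1
  linarith

theorem N0_le (k : ℕ) (t : ℝ) : (N0 k t : ℝ) ≤ 4 * (1 + |t|) ^ k := by
  have h1 : Real.log (t / (2 * Real.pi)) ≤ Real.log (1 + |t|) := by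
    rcases eq_or_ne t 0 with rfl | ht
    · simp
    · rw [← Real.log_abs]
      refine Real.log_le_log (abs_pos.2 (div_ne_zero ht (by positivity))) ?_
      rw [abs_div, abs_of_pos Real.two_pi_pos, div_le_iff₀ Real.two_pi_pos]
      nlinarith [abs_nonneg t, Real.pi_gt_three]
  have h2 : 0 ≤ Real.log (1 + |t|) := Real.log_nonneg (by linarith [abs_nonneg t])
  have h3 : Xk k t ≤ k * Real.log (1 + |t|) := by
    unfold Xk
    calc (k : ℝ) / 2 * Real.log (t / (2 * Real.pi)) ≤ (k : ℝ) / 2 * Real.log (1 + |t|) := by gcongr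
      _ ≤ k * Real.log (1 + |t|) := by
        gcongr
        linarith [(Nat.cast_nonneg k : (0 : ℝ) ≤ k)]
  have h4 : Real.exp (Xk k t) ≤ (1 + |t|) ^ k := by
    calc Real.exp (Xk k t) ≤ Real.exp (k * Real.log (1 + |t|)) := Real.exp_le_exp.2 h3
      _ = (1 + |t|) ^ k := by
        rw [mul_comm, Real.exp_mul, Real.exp_log (by positivity), Real.rpow_natCast]
  have h5 : (1 : ℝ) ≤ (1 + |t|) ^ k := one_le_pow₀ (by linarith [abs_nonneg t])
  have h6 : (N0 k t : ℝ) < Real.exp (Xk k t + 1) + 1 := Nat.ceil_lt_add_one (Real.exp_pos _).le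
  have h7 : Real.exp (Xk k t + 1) ≤ (1 + |t|) ^ k * 3 := by
    rw [Real.exp_add]
    have : Real.exp 1 ≤ 3 := by
      have := Real.exp_one_lt_d9
      linarith
    gcongr
  linarith

/-- the summands -/
noncomputable def z (k : ℕ) (v : ℝ → ℝ) (t : ℝ) (n : ℕ) : ℂ :=
  (dv k n : ℂ) * (n : ℂ) ^ (-(1 / 2 + (t : ℂ) * I)) * (v (Real.log n - Xk k t) : ℂ)

theorem z_eq (k : ℕ) (v : ℝ → ℝ) (t : ℝ) {n : ℕ} (hn : 1 ≤ n) :
    z k v t n = ((dv k n * (n : ℝ) ^ (-(1 / 2) : ℝ) * v (Real.log n - Xk k t) : ℝ) : ℂ) *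
      cexp (-((t * Real.log n : ℝ) : ℂ) * I) := by
  have h0 : (n : ℂ) ≠ 0 := by
    have : n ≠ 0 := by omega
    exact_mod_cast this
  have h1 : (0 : ℝ) < n := by exact_mod_cast hn
  have e : (n : ℂ) ^ (-(1 / 2 + (t : ℂ) * I)) =
      (((n : ℝ) ^ (-(1 / 2) : ℝ) : ℝ) : ℂ) * cexp (-((t * Real.log n : ℝ) : ℂ) * I) := by
    rw [Complex.ofReal_cpow h1.le, neg_add, Complex.cpow_add _ _ h0, Complex.ofReal_natCast]
    congr 1
    · push_cast; rfl
    · rw [Complex.cpow_def_of_ne_zero h0, ← Complex.natCast_log]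
      congr 1
      push_cast
      ring
  unfold z
  rw [e]
  push_cast
  ring

theorem pair (k : ℕ) (v : ℝ → ℝ) (t : ℝ) (m n : ℕ) :
    (z k v t m * (starRingEnd ℂ) (z k v t n)).re =
      (if m = n then (dv k n : ℝ) ^ 2 * (n : ℝ)⁻¹ * v (Real.log n - Xk k t) ^ 2 else 0) +
      (if m ≠ n then (dv k m : ℝ) * (dv k n : ℝ) * ((m : ℝ) * (n : ℝ)) ^ (-(1 / 2) : ℝ) *
        v (Real.log m - Xk k t) * v (Real.log n - Xk k t) *
          Real.cos (t * Real.log ((m : ℝ) / (n : ℝ))) else 0) := by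
  rcases Nat.eq_zero_or_pos m with rfl | hm
  · simp [z, dv_zero]
    intro h
    subst h
    simp [dv_zero]
  rcases Nat.eq_zero_or_pos n with rfl | hn
  · simp [z, dv_zero]
  have hm' : (0 : ℝ) < m := by exact_mod_cast hm
  have hn' : (0 : ℝ) < n := by exact_mod_cast hn
  have key : (z k v t m * (starRingEnd ℂ) (z k v t n)).re =
      (dv k m : ℝ) * (dv k n : ℝ) * ((m : ℝ) * (n : ℝ)) ^ (-(1 / 2) : ℝ) *
        v (Real.log m - Xk k t) * v (Real.log n - Xk k t) *
          Real.cos (t * Real.log ((m : ℝ) / (n : ℝ))) := by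
    rw [z_eq k v t hm, z_eq k v t hn, map_mul, Complex.conj_ofReal, ← Complex.exp_conj]
    have e1 : (starRingEnd ℂ) (-((t * Real.log n : ℝ) : ℂ) * I) = ((t * Real.log n : ℝ) : ℂ) * I := by
      rw [map_mul, map_neg, Complex.conj_ofReal, Complex.conj_I]
      ring
    rw [e1]
    have e2 : ∀ a b : ℝ, ((a : ℂ) * cexp (-((t * Real.log m : ℝ) : ℂ) * I)) *
        ((b : ℂ) * cexp (((t * Real.log n : ℝ) : ℂ) * I)) =
        ((a * b : ℝ) : ℂ) * cexp (((-(t * Real.log ((m : ℝ) / (n : ℝ))) : ℝ) : ℂ) * I) := by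
      intro a b
      have : (((-(t * Real.log ((m : ℝ) / (n : ℝ))) : ℝ) : ℂ) * I) =
          (-((t * Real.log m : ℝ) : ℂ) * I) + (((t * Real.log n : ℝ) : ℂ) * I) := by
        rw [Real.log_div hm'.ne' hn'.ne']
        push_cast
        ring
      rw [this, Complex.exp_add]
      push_cast
      ring
    rw [e2, Complex.re_ofReal_mul, Complex.exp_ofReal_mul_I_re, Real.cos_neg,
      Real.mul_rpow hm'.le hn'.le]
    ring
  rw [key]
  by_cases h : m = n
  · subst h
    rw [if_pos rfl, if_neg (by simp)]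
    rw [div_self hm'.ne', Real.log_one, mul_zero, Real.cos_zero]
    have : ((m : ℝ) * (m : ℝ)) ^ (-(1 / 2) : ℝ) = (m : ℝ)⁻¹ := by
      rw [Real.mul_rpow hm'.le hm'.le, ← Real.rpow_add hm', ← Real.rpow_neg_one]
      norm_num
    rw [this]
    ring
  · rw [if_neg h, if_pos h]
    ring

/-- the summands of `off` -/
noncomputable def oo (k : ℕ) (v : ℝ → ℝ) (t : ℝ) (p : ℕ × ℕ) : ℝ :=
  if p.1 ≠ p.2 then (dv k p.1 : ℝ) * (dv k p.2 : ℝ) * ((p.1 : ℝ) * (p.2 : ℝ)) ^ (-(1 / 2) : ℝ) *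
    v (Real.log p.1 - Xk k t) * v (Real.log p.2 - Xk k t) *
      Real.cos (t * Real.log ((p.1 : ℝ) / (p.2 : ℝ))) else 0

theorem off_eq {v : ℝ → ℝ} (hv : Adm v) {k : ℕ} {t : ℝ} {N : ℕ} (hN : N0 k t ≤ N) :
    off k v t = ∑ p ∈ Finset.range N ×ˢ Finset.range N, oo k v t p := by
  unfold off
  refine tsum_eq_sum (f := oo k v t) fun p hp => ?_
  unfold oo
  rw [Finset.mem_product, Finset.mem_range, Finset.mem_range, not_and_or] at hp
  have h : v (Real.log p.1 - Xk k t) = 0 ∨ v (Real.log p.2 - Xk k t) = 0 := by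
    rcases hp with hp | hp
    · exact Or.inl (v_N0 hv (by omega))
    · exact Or.inr (v_N0 hv (by omega))
  split_ifs with h1
  · rcases h with h | h <;> rw [h] <;> ring
  · rfl

theorem dia_eq {v : ℝ → ℝ} (hv : Adm v) {k : ℕ} {t : ℝ} {N : ℕ} (hN : N0 k t ≤ N) :
    dia k v t = ∑ n ∈ Finset.range N,
      (dv k n : ℝ) ^ 2 * (n : ℝ)⁻¹ * v (Real.log n - Xk k t) ^ 2 := by
  unfold dia
  refine tsum_eq_sum fun n hn => ?_
  rw [Finset.mem_range, not_lt] at hn
  rw [v_N0 hv (hN.trans hn)]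
  ring

theorem DD_eq {v : ℝ → ℝ} (hv : Adm v) {k : ℕ} {t : ℝ} {N : ℕ} (hN : N0 k t ≤ N) :
    DD k v t = ∑ n ∈ Finset.range N, z k v t n := by
  unfold DD
  refine tsum_eq_sum fun n hn => ?_
  rw [Finset.mem_range, not_lt] at hn
  rw [v_N0 hv (hN.trans hn)]
  simp

theorem expand {v : ℝ → ℝ} (hv : Adm v) (k : ℕ) (t : ℝ) :
    ‖DD k v t‖ ^ 2 = dia k v t + off k v t := by
  have h1 : ‖DD k v t‖ ^ 2 = (DD k v t * (starRingEnd ℂ) (DD k v t)).re := by
    rw [Complex.mul_conj, Complex.ofReal_re, Complex.normSq_eq_norm_sq]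
  rw [h1, DD_eq hv le_rfl, dia_eq hv le_rfl, off_eq hv le_rfl, map_sum, Finset.sum_mul_sum,
    Complex.re_sum, Finset.sum_product]
  simp only [Complex.re_sum]
  rw [← Finset.sum_add_distrib]
  refine Finset.sum_congr rfl fun m hm => ?_
  simp only [pair]
  rw [Finset.sum_add_distrib]
  congr 1
  rw [Finset.sum_ite_eq (Finset.range (N0 k t)) m, if_pos hm]

theorem meas_X (k : ℕ) : Measurable (Xk k) := by
  unfold Xk
  exact (Real.measurable_log.comp (measurable_id.div_const _)).const_mul _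

theorem meas_dia {v : ℝ → ℝ} (hv : Adm v) (k : ℕ) : Measurable (dia k v) := by
  have hvm : Measurable v := hv.smooth.continuous.measurable
  have hX := meas_X k
  refine measurable_of_tendsto_metrizable (f := fun N t => ∑ n ∈ Finset.range N,
      (dv k n : ℝ) ^ 2 * (n : ℝ)⁻¹ * v (Real.log n - Xk k t) ^ 2) (fun N => ?_) ?_
  · exact Finset.measurable_sum _ fun n _ => by fun_prop
  · rw [tendsto_pi_nhds]
    intro t
    exact tendsto_atTop_of_eventually_const (i₀ := N0 k t) fun N hN => (dia_eq hv hN).symm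

theorem meas_off {v : ℝ → ℝ} (hv : Adm v) (k : ℕ) : Measurable (off k v) := by
  have hvm : Measurable v := hv.smooth.continuous.measurable
  have hX := meas_X k
  refine measurable_of_tendsto_metrizable (f := fun N t =>
      ∑ p ∈ Finset.range N ×ˢ Finset.range N, oo k v t p) (fun N => ?_) ?_
  · refine Finset.measurable_sum _ fun p _ => ?_
    unfold oo
    by_cases h : p.1 ≠ p.2
    · simp only [if_pos h]
      fun_prop
    · simp only [if_neg h]
      exact measurable_const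
  · rw [tendsto_pi_nhds]
    intro t
    exact tendsto_atTop_of_eventually_const (i₀ := N0 k t) fun N hN => (off_eq hv hN).symm

theorem bound {v : ℝ → ℝ} (hv : Adm v) (k : ℕ) (t : ℝ) :
    |dia k v t| ≤ 4 ^ (2 * k + 1) * (1 + |t|) ^ (k * (2 * k + 1)) := by
  rw [dia_eq hv le_rfl, abs_of_nonneg (Finset.sum_nonneg fun n _ => by positivity)]
  calc ∑ n ∈ Finset.range (N0 k t), (dv k n : ℝ) ^ 2 * (n : ℝ)⁻¹ * v (Real.log n - Xk k t) ^ 2
      ≤ ∑ n ∈ Finset.range (N0 k t), (N0 k t : ℝ) ^ (2 * k) := by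
        refine Finset.sum_le_sum fun n hn => ?_
        rcases Nat.eq_zero_or_pos n with rfl | h
        · rw [dv_zero]
          simp
        have h1 : (dv k n : ℝ) ≤ (n : ℝ) ^ k := by exact_mod_cast dv_le k h
        have h2 : (n : ℝ)⁻¹ ≤ 1 := inv_le_one_of_one_le₀ (by exact_mod_cast h)
        have h3 := v_sq_le hv (Real.log n - Xk k t)
        have h4 : (n : ℝ) ≤ N0 k t := by exact_mod_cast (Finset.mem_range.1 hn).le
        calc (dv k n : ℝ) ^ 2 * (n : ℝ)⁻¹ * v (Real.log n - Xk k t) ^ 2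
            ≤ ((n : ℝ) ^ k) ^ 2 * 1 * 1 := by gcongr
          _ = (n : ℝ) ^ (2 * k) := by rw [mul_one, mul_one, ← pow_mul, mul_comm k 2]
          _ ≤ (N0 k t : ℝ) ^ (2 * k) := by gcongr
    _ = (N0 k t : ℝ) ^ (2 * k + 1) := by
        rw [Finset.sum_const, Finset.card_range, nsmul_eq_mul, pow_succ']
    _ ≤ (4 * (1 + |t|) ^ k) ^ (2 * k + 1) := by
        have := N0_le k t
        gcongr
    _ = _ := by rw [mul_pow, ← pow_mul]

end OF

open OF

theorem t_OF : S_OF := by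
  intro k v hv
  exact ⟨expand hv k, meas_dia hv k, meas_off hv k, k * (2 * k + 1), 4 ^ (2 * k + 1), bound hv k⟩

end Pool.Agent.J6H39.PI
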