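import Pool.Agent.J6H39.PI.Stm3
import Pool.Agent.J6H39.PI.OF
import Pool.Agent.H306R2.Asy

/-!
# The leading term of the diagonal (module PI-L2, written by helper23)
-/

set_option autoImplicit false

open MeasureTheory Set Filter Topology

namespace Pool.Agent.J6H39.PI.L2m

open Pool.Agent.J6H39.KV (dv)
open Pool.Agent.H306R2 (aF wt pos)

theorem coe_pow (k : ℕ) : (((ArithmeticFunction.zeta ^ k : ArithmeticFunction ℕ)) :
    ArithmeticFunction ℝ) = ((ArithmeticFunction.zeta : ArithmeticFunction ℕ) :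
    ArithmeticFunction ℝ) ^ k := by
  induction k with
  | zero => rw [pow_zero, pow_zero, ArithmeticFunction.natCoe_one]
  | succ k ih => rw [pow_succ, pow_succ, ArithmeticFunction.natCoe_mul, ih]

theorem dv_cast (k n : ℕ) : (dv k n : ℝ) = Pool.Agent.H306R2.dv k n := by
  rw [← Pool.Agent.H306R2.dA_apply, Pool.Agent.H306R2.dA_nat, Pool.Agent.H306R2.zR, ← coe_pow,
    ArithmeticFunction.natCoe_apply]
  rfl

/-- the smoothed sum -/
noncomputable def SS (k : ℕ) (v : ℝ → ℝ) (Y : ℝ) : ℝ :=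
  ∑' n : ℕ, (dv k n : ℝ) ^ 2 * (n : ℝ)⁻¹ * v (Real.log n - Y) ^ 2

theorem summ {v : ℝ → ℝ} (hv : Adm v) (k : ℕ) (Y : ℝ) :
    Summable fun n : ℕ => (dv k n : ℝ) ^ 2 * (n : ℝ)⁻¹ * v (Real.log n - Y) ^ 2 := by
  refine summable_of_ne_finset_zero (s := Finset.range (⌈Real.exp (Y + 1)⌉₊ + 1)) fun n hn => ?_
  have h0 : ⌈Real.exp (Y + 1)⌉₊ + 1 ≤ n := by simpa using hn
  have h1 : Real.exp (Y + 1) ≤ n := by
    refine (Nat.le_ceil _).trans ?_
    exact_mod_cast (Nat.le_succ _).trans h0
  have h2 := Real.log_le_log (Real.exp_pos _) h1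
  rw [Real.log_exp] at h2
  rw [OF.v_zero hv (by linarith : 1 ≤ Real.log n - Y)]
  simp

/-- a sum over `ℕ` as a sum over tuples -/
theorem tsum_fin (f : ℕ → ℝ) : ∑' b : Fin 1 → ℕ, f (b 0) = ∑' n, f n :=
  (Equiv.funUnique (Fin 1) ℕ).tsum_eq f

theorem summable_fin {f : ℕ → ℝ} (h : Summable f) : Summable fun b : Fin 1 → ℕ => f (b 0) :=
  (Equiv.funUnique (Fin 1) ℕ).summable_iff.2 h

theorem sum_one (x : ℝ) : ∑ _i : Fin 1, x = x := by simp

theorem sum_one' (x : ℝ) : ∑ _i : Fin (0 + 1), x = x := by simp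

theorem wt_eq (k : ℕ) (b : Fin 1 → ℕ) :
    wt (k : ℝ) (fun _ : Fin 1 => (k : ℝ)) b = (dv k (b 0) : ℝ) ^ 2 * (b 0 : ℝ)⁻¹ := by
  unfold wt
  simp only [Finset.univ_unique, Finset.prod_singleton, Fin.default_eq_zero]
  rw [dv_cast]
  ring

theorem gam (k : ℕ) : Real.Gamma ((k : ℝ) * k + 1) = (k ^ 2).factorial := by
  rw [← Real.Gamma_nat_eq_factorial]
  congr 1
  push_cast
  ring

theorem upper {v : ℝ → ℝ} (hv : Adm v) {k : ℕ} (hk : 1 ≤ k) {C : ℝ}
    (hC : aF k / (k ^ 2).factorial < C) : ∀ᶠ Y : ℝ in atTop, SS k v Y ≤ C * (Y + 1) ^ (k ^ 2) := by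
  have hk0 : (0 : ℝ) < k := by exact_mod_cast hk
  have h := Pool.Agent.H306R2.wt_upper (r := 1) (fun _ => (k : ℝ)) (fun _ => hk0) one_pos
    (fun _ => 1) (fun _ => one_pos) C (by
      simp only [sum_one]
      simp only [Finset.univ_unique, Finset.prod_singleton, Real.one_rpow]
      rw [gam, mul_one_div]
      exact hC)
  simp only [sum_one] at h
  have h' := (tendsto_atTop_add_const_right atTop (1 : ℝ) tendsto_id).eventually h
  filter_upwards [h', eventually_gt_atTop 0] with Y hY hY0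
  simp only [id] at hY
  have h1 := hY (fun b => (dv k (b 0) : ℝ) ^ 2 * ((b 0 : ℕ) : ℝ)⁻¹ * v (Real.log (b 0 : ℕ) - Y) ^ 2)
    (summable_fin (summ hv k Y)) (fun b _ => by
      rw [wt_eq]
      have := OF.v_sq_le hv (Real.log (b 0 : ℕ) - Y)
      have h2 : 0 ≤ (dv k (b 0) : ℝ) ^ 2 * ((b 0 : ℕ) : ℝ)⁻¹ := by positivity
      nlinarith) (fun b hb => by
      have h3 : 1 ≤ Real.log (b 0 : ℕ) - Y := by
        by_contra hcon
        apply hb
        intro i
        rw [Fin.fin_one_eq_zero i, pos, div_le_one (by linarith)]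
        linarith
      rw [OF.v_zero hv h3]
      simp)
  rw [tsum_fin (fun n => (dv k n : ℝ) ^ 2 * (n : ℝ)⁻¹ * v (Real.log n - Y) ^ 2)] at h1
  have e : ((k : ℝ)) ^ 2 = ((k ^ 2 : ℕ) : ℝ) := by push_cast; rfl
  rw [e, Real.rpow_natCast] at h1
  exact h1

theorem lower {v : ℝ → ℝ} (hv : Adm v) {k : ℕ} (hk : 1 ≤ k) {c : ℝ}
    (hc : c < aF k / (k ^ 2).factorial) : ∀ᶠ Y : ℝ in atTop, c * (Y - 1) ^ (k ^ 2) ≤ SS k v Y := by
  have hk0 : (0 : ℝ) < k := by exact_mod_cast hk
  have hk1 : (1 : ℝ) ≤ k := by exact_mod_cast hk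
  have h := Pool.Agent.H306R2.wt_lower (n := 0) (fun _ => (k : ℝ)) (fun _ => hk0)
    (fun i => i.elim0) (fun i => i.elim0) (by simp) (by
      simp only [sum_one']
      nlinarith) c (by
      simp only [sum_one']
      simp only [Finset.univ_eq_empty, Finset.prod_empty, Finset.sum_empty, sub_zero,
        Real.one_rpow, one_mul]
      rw [gam, mul_one_div]
      exact hc)
  simp only [sum_one'] at h
  have h' := (tendsto_atTop_add_const_right atTop (-1 : ℝ) tendsto_id).eventually h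
  filter_upwards [h', eventually_gt_atTop 1] with Y hY hY0
  simp only [id] at hY
  have h1 := hY (fun b => (dv k (b 0) : ℝ) ^ 2 * ((b 0 : ℕ) : ℝ)⁻¹ * v (Real.log (b 0 : ℕ) - Y) ^ 2)
    (summable_fin (summ hv k Y)) (fun b => by positivity) (fun b hb _ => by
      rw [wt_eq]
      have h3 : Real.log (b 0 : ℕ) - Y ≤ -1 := by
        rw [Fin.sum_univ_succ, Finset.univ_eq_empty, Finset.sum_empty, add_zero, pos,
          div_le_one (by linarith)] at hb
        linarith
      rw [hv.one _ h3]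
      simp)
  rw [tsum_fin (fun n => (dv k n : ℝ) ^ 2 * (n : ℝ)⁻¹ * v (Real.log n - Y) ^ 2)] at h1
  have e : ((k : ℝ)) ^ 2 = ((k ^ 2 : ℕ) : ℝ) := by push_cast; rfl
  rw [e, Real.rpow_natCast] at h1
  exact h1

theorem ratio (s : ℝ) (K : ℕ) : Tendsto (fun Y : ℝ => ((Y + s) / Y) ^ K) atTop (𝓝 1) := by
  have h : Tendsto (fun Y : ℝ => 1 + s / Y) atTop (𝓝 (1 + 0)) :=
    tendsto_const_nhds.add (tendsto_const_nhds.div_atTop tendsto_id)
  rw [add_zero] at h
  have h2 := h.pow K
  rw [one_pow] at h2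
  refine h2.congr' ?_
  filter_upwards [eventually_gt_atTop 0] with Y hY
  congr 1
  field_simp

theorem SS_lim {v : ℝ → ℝ} (hv : Adm v) {k : ℕ} (hk : 1 ≤ k) :
    Tendsto (fun Y => SS k v Y / Y ^ (k ^ 2)) atTop (𝓝 (aF k / (k ^ 2).factorial)) := by
  refine tendsto_order.2 ⟨fun a ha => ?_, fun a ha => ?_⟩
  · obtain ⟨c, hc1, hc2⟩ := exists_between ha
    have h1 := (ratio (-1) (k ^ 2)).const_mul c
    rw [mul_one] at h1
    filter_upwards [lower hv hk hc2, h1.eventually_const_lt hc1, eventually_gt_atTop 0] with Y h2 h3 h4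
    refine lt_of_lt_of_le h3 ?_
    rw [div_pow, ← mul_div_assoc]
    exact div_le_div_of_nonneg_right (by rwa [sub_eq_add_neg] at h2) (by positivity)
  · obtain ⟨c, hc1, hc2⟩ := exists_between ha
    have h1 := (ratio 1 (k ^ 2)).const_mul c
    rw [mul_one] at h1
    filter_upwards [upper hv hk hc1, h1.eventually_lt_const hc2, eventually_gt_atTop 0] with Y h2 h3 h4
    refine lt_of_le_of_lt ?_ h3
    rw [div_pow, ← mul_div_assoc]
    exact div_le_div_of_nonneg_right h2 (by positivity)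

theorem log_div (c : ℝ) (hc : 0 < c) : Tendsto (fun t : ℝ => Real.log (c * t) / Real.log t) atTop
    (𝓝 1) := by
  have h : Tendsto (fun t : ℝ => Real.log c / Real.log t + 1) atTop (𝓝 (0 + 1)) :=
    (tendsto_const_nhds.div_atTop Real.tendsto_log_atTop).add tendsto_const_nhds
  rw [zero_add] at h
  refine h.congr' ?_
  filter_upwards [eventually_gt_atTop 1] with t ht
  have h1 : Real.log t ≠ 0 := (Real.log_pos ht).ne'
  rw [Real.log_mul hc.ne' (by linarith)]
  field_simp

theorem dia_lim {v : ℝ → ℝ} (hv : Adm v) {k : ℕ} (hk : 1 ≤ k) :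
    Tendsto (fun t => dia k v t / Real.log t ^ (k ^ 2)) atTop
      (𝓝 (aF k / (k ^ 2).factorial * ((k : ℝ) / 2) ^ (k ^ 2))) := by
  have hk0 : (0 : ℝ) < k := by exact_mod_cast hk
  have hpi : 0 < (2 * Real.pi)⁻¹ := by positivity
  have h1 : Tendsto (fun t : ℝ => Xk k t / Real.log t) atTop (𝓝 ((k : ℝ) / 2)) := by
    have h := (log_div _ hpi).const_mul ((k : ℝ) / 2)
    rw [mul_one] at h
    refine h.congr fun t => ?_
    rw [Xk, div_eq_inv_mul t, mul_div_assoc]
  have h2 : Tendsto (Xk k) atTop atTop := by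
    have h3 : Tendsto (fun t : ℝ => t / (2 * Real.pi)) atTop atTop :=
      tendsto_id.atTop_div_const (by positivity)
    exact (Real.tendsto_log_atTop.comp h3).const_mul_atTop (by positivity)
  have h3 := ((SS_lim hv hk).comp h2).mul (h1.pow (k ^ 2))
  refine h3.congr' ?_
  filter_upwards [h2.eventually_gt_atTop 0] with t ht
  simp only [Function.comp_apply]
  rw [div_pow, div_mul_div_comm, mul_comm (Xk k t ^ _), mul_div_mul_right _ _ (by positivity)]
  rfl

/-- Cesàro means -/
theorem ces {g : ℝ → ℝ} (hg0 : ∀ t, 0 ≤ g t) (hint : ∀ a b, IntervalIntegrable g volume a b) (K : ℕ)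
    {ℓ : ℝ} (h : Tendsto (fun t => g t / Real.log t ^ K) atTop (𝓝 ℓ)) :
    Tendsto (fun T : ℝ => (∫ t in (0:ℝ)..T, g t) / (T * Real.log T ^ K)) atTop (𝓝 ℓ) := by
  have hℓ : 0 ≤ ℓ := by
    refine ge_of_tendsto h ?_
    filter_upwards [eventually_gt_atTop 1] with t ht
    exact div_nonneg (hg0 t) (pow_nonneg (Real.log_nonneg ht.le) _)
  refine tendsto_order.2 ⟨fun c hc => ?_, fun C hC => ?_⟩
  · by_cases hc0 : c < 0
    · filter_upwards [eventually_gt_atTop 1] with T hT
      refine lt_of_lt_of_le hc0 (div_nonneg ?_ ?_)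
      · exact intervalIntegral.integral_nonneg (by linarith) fun t _ => hg0 t
      · exact mul_nonneg (by linarith) (pow_nonneg (Real.log_nonneg hT.le) _)
    · rw [not_lt] at hc0
      obtain ⟨c', hc1, hc2⟩ := exists_between hc
      obtain ⟨δ, hδ0, hδ1, hδc⟩ : ∃ δ : ℝ, 0 < δ ∧ δ < 1 ∧ c < c' * (1 - δ) := by
        have hc' : 0 < c' := lt_of_le_of_lt hc0 hc1
        refine ⟨(c' - c) / (2 * c'), by apply div_pos <;> linarith, ?_, ?_⟩
        · rw [div_lt_one (by linarith)]
          linarith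
        · field_simp
          linarith
      have hc' : 0 < c' := lt_of_le_of_lt hc0 hc1
      obtain ⟨T0, hT0⟩ := eventually_atTop.1 (h.eventually_const_lt hc2)
      have h1 : Tendsto (fun T : ℝ => c' * (1 - δ) * (Real.log (δ * T) / Real.log T) ^ K) atTop
          (𝓝 (c' * (1 - δ))) := by
        have := ((log_div δ hδ0).pow K).const_mul (c' * (1 - δ))
        rwa [one_pow, mul_one] at this
      filter_upwards [h1.eventually_const_lt hδc, eventually_gt_atTop 1,
        eventually_ge_atTop (max T0 2 / δ)] with T h2 h3 h4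
      refine lt_of_lt_of_le h2 ?_
      have h5 : max T0 2 ≤ δ * T := by
        rw [div_le_iff₀ hδ0] at h4
        linarith
      have h6 : T0 ≤ δ * T := (le_max_left _ _).trans h5
      have h7 : 2 ≤ δ * T := (le_max_right _ _).trans h5
      have h8 : δ * T ≤ T := by nlinarith
      have hlog : 0 < Real.log T := Real.log_pos h3
      have h9 : (∫ t in (δ * T)..T, g t) ≤ ∫ t in (0:ℝ)..T, g t := by
        rw [← intervalIntegral.integral_add_adjacent_intervals (hint 0 (δ * T)) (hint (δ * T) T)]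
        have : 0 ≤ ∫ t in (0:ℝ)..(δ * T), g t :=
          intervalIntegral.integral_nonneg (by linarith) fun t _ => hg0 t
        linarith
      have h10 : (∫ _t in (δ * T)..T, c' * Real.log (δ * T) ^ K) ≤ ∫ t in (δ * T)..T, g t := by
        refine intervalIntegral.integral_mono_on h8 intervalIntegrable_const (hint _ _) fun t ht => ?_
        have h11 := hT0 t (h6.trans ht.1)
        have h12 : 0 < Real.log t := Real.log_pos (by linarith [ht.1])
        rw [lt_div_iff₀ (by positivity)] at h11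
        refine le_trans ?_ h11.le
        have h13 : Real.log (δ * T) ≤ Real.log t := Real.log_le_log (by linarith) ht.1
        have h14 : 0 ≤ Real.log (δ * T) := Real.log_nonneg (by linarith)
        gcongr
      rw [intervalIntegral.integral_const, smul_eq_mul] at h10
      rw [le_div_iff₀ (by positivity)]
      refine le_trans (le_of_eq ?_) (h10.trans h9)
      rw [div_pow]
      field_simp
  · obtain ⟨C', hC1, hC2⟩ := exists_between hC
    have hC' : 0 < C' := lt_of_le_of_lt hℓ hC1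
    obtain ⟨T1, hT1⟩ := eventually_atTop.1 (h.eventually_lt_const hC1)
    obtain ⟨T0, hT0⟩ : ∃ T0, T0 = max T1 (Real.exp 1) := ⟨_, rfl⟩
    have h01 : T1 ≤ T0 := hT0 ▸ le_max_left _ _
    have h02 : Real.exp 1 ≤ T0 := hT0 ▸ le_max_right _ _
    have he : 1 < Real.exp 1 := by
      have := Real.add_one_lt_exp (x := 1) one_ne_zero
      linarith
    have h1 : Tendsto (fun T : ℝ => |∫ t in (0:ℝ)..T0, g t| / T + C') atTop (𝓝 (0 + C')) :=
      (tendsto_const_nhds.div_atTop tendsto_id).add tendsto_const_nhds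
    rw [zero_add] at h1
    filter_upwards [h1.eventually_lt_const hC2, eventually_ge_atTop T0] with T h2 h3
    refine lt_of_le_of_lt ?_ h2
    have hT : 1 < T := by linarith
    have hlog1 : 1 ≤ Real.log T := by
      rw [Real.le_log_iff_exp_le (by linarith)]
      linarith
    have hL : 1 ≤ Real.log T ^ K := one_le_pow₀ hlog1
    have h4 : (∫ t in T0..T, g t) ≤ ∫ _t in T0..T, C' * Real.log T ^ K := by
      refine intervalIntegral.integral_mono_on h3 (hint _ _) intervalIntegrable_const fun t ht => ?_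
      have h11 := hT1 t (h01.trans ht.1)
      have h12 : 0 < Real.log t := Real.log_pos (by linarith [ht.1])
      rw [div_lt_iff₀ (by positivity)] at h11
      refine h11.le.trans ?_
      have h13 : Real.log t ≤ Real.log T := Real.log_le_log (by linarith [ht.1]) ht.2
      gcongr
    rw [intervalIntegral.integral_const, smul_eq_mul] at h4
    rw [← intervalIntegral.integral_add_adjacent_intervals (hint 0 T0) (hint T0 T)]
    have h5 : (T - T0) * (C' * Real.log T ^ K) ≤ T * (C' * Real.log T ^ K) := by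
      have : 0 ≤ C' * Real.log T ^ K := by positivity
      nlinarith
    rw [div_le_iff₀ (by positivity)]
    have h6 : (|∫ t in (0:ℝ)..T0, g t| / T + C') * (T * Real.log T ^ K) =
        |∫ t in (0:ℝ)..T0, g t| * Real.log T ^ K + T * (C' * Real.log T ^ K) := by
      field_simp
    rw [h6]
    have h7 : |∫ t in (0:ℝ)..T0, g t| ≤ |∫ t in (0:ℝ)..T0, g t| * Real.log T ^ K :=
      le_mul_of_one_le_right (abs_nonneg _) hL
    linarith [le_abs_self (∫ t in (0:ℝ)..T0, g t)]

theorem dia_nonneg (k : ℕ) (v : ℝ → ℝ) (t : ℝ) : 0 ≤ dia k v t :=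
  tsum_nonneg fun n => by positivity

theorem dia_int {v : ℝ → ℝ} (hv : Adm v) (k : ℕ) (a b : ℝ) :
    IntervalIntegrable (dia k v) volume a b := by
  obtain ⟨-, hm, -, B, C, hC⟩ := t_OF k v hv
  have hc : Continuous fun t : ℝ => C * (1 + |t|) ^ B := by fun_prop
  refine (hc.intervalIntegrable a b).mono_fun' hm.aestronglyMeasurable ?_
  exact Eventually.of_forall fun t => hC t

end Pool.Agent.J6H39.PI.L2m

namespace Pool.Agent.J6H39.PI

open L2m in
theorem t_L2 : S_L2 := by
  intro k v hk hv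
  have h := (ces (dia_nonneg k v) (dia_int hv k) (k ^ 2) (dia_lim hv hk)).const_mul 2
  have e : 2 * (Pool.Agent.H306R2.aF k / ((k ^ 2).factorial : ℝ) * ((k : ℝ) / 2) ^ (k ^ 2)) =
      2 * ((k : ℝ) / 2) ^ (k ^ 2) * Pool.Agent.H306R2.aF k / (k ^ 2).factorial := by ring
  rw [e] at h
  refine h.congr fun T => ?_
  rw [mul_div_assoc]

end Pool.Agent.J6H39.PI
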