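import Pool.Agent.J6H47.PI.L3

/-!
# Module PI-L3
-/

set_option autoImplicit false

namespace Pool.Agent.J6H39.PI

theorem t_L3 : S_L3 := Pool.Agent.J6H47.PI.t_L3

end Pool.Agent.J6H39.PI
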