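import Pool.Agent.J6H39.PI.LGa
import Pool.Agent.J6H39.SP.CT

/-! Project PI: `ζ^k` as a long smooth Dirichlet polynomial (`S_LG`). -/

set_option autoImplicit false

open MeasureTheory Set Filter Topology Complex
open scoped FourierTransform ContDiff

namespace Pool.Agent.J6H39.PI

open H345 (XX)
open Pool.Agent.J6H39.KV (dv dv_series)
open Pool.Agent.J6H39.CG (zh)
open Pool.Agent.E8helper52.OR

namespace LG

open Pool.Agent.J6H39.SP.CT (zeta_strip XX_strip shift)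

/-! ### growth -/

theorem growth : ∃ K : ℝ, 0 ≤ K ∧ ∀ u : ℂ, -(1 / 2) ≤ u.re → u.re ≤ 5 / 4 → 1 ≤ |u.im| →
    ‖riemannZeta u‖ ≤ K * (3 + |u.im|) ^ 4 := by
  obtain ⟨K, hK, hX⟩ := XX_strip
  refine ⟨3 * K + 3, by positivity, fun u h1 h2 h3 => ?_⟩
  have h0 : (1 : ℝ) ≤ 3 + |u.im| := by linarith
  have h0' : (3 + |u.im|) ^ 2 ≤ (3 + |u.im|) ^ 4 := pow_le_pow_right₀ h0 (by norm_num)
  have h0'' : 0 ≤ (3 + |u.im|) ^ 4 := by positivity
  rcases le_total (1 / 2) u.re with h | h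
  · refine (zeta_strip h (by linarith) h3).trans ?_
    nlinarith
  · have e1 : (1 - u).re = 1 - u.re := by simp
    have e2 : |(1 - u).im| = |u.im| := by simp
    have hx := hX (1 - u) (by rw [e1]; linarith) (by rw [e1]; linarith) (by rw [e2]; exact h3)
    have hz := zeta_strip (s := 1 - u) (by rw [e1]; linarith) (by rw [e1]; linarith) (by rw [e2]; exact h3)
    rw [e2] at hx hz
    have hs1 : (1 - u) ≠ 1 := by
      intro h
      have := congrArg Complex.im h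
      simp only [sub_im, one_im, zero_sub, neg_eq_zero] at this
      rw [this] at h3
      simp at h3
      linarith
    have fe : riemannZeta (1 - (1 - u)) = XX (1 - u) * riemannZeta (1 - u) := by
      refine H345.zeta_fe (1 - u) (fun n hn => ?_) hs1
      have h5 := congrArg Complex.im hn
      simp only [sub_im, one_im, zero_sub, neg_im, natCast_im, neg_zero, neg_eq_zero] at h5
      rw [h5] at h3
      simp at h3
      linarith
    rw [sub_sub_cancel] at fe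
    rw [fe, norm_mul]
    calc ‖XX (1 - u)‖ * ‖riemannZeta (1 - u)‖ ≤ (K * (3 + |u.im|) ^ 2) * (3 * (3 + |u.im|) ^ 2) := by
          gcongr
      _ = 3 * K * (3 + |u.im|) ^ 4 := by ring
      _ ≤ _ := by nlinarith

theorem growth_left : ∃ K : ℝ, 0 ≤ K ∧ ∀ y : ℝ,
    ‖riemannZeta (((-(1 / 2) : ℝ) : ℂ) + y * I)‖ ≤ K * (3 + |y|) ^ 4 := by
  obtain ⟨K, hK, h⟩ := growth
  have hne : ∀ z : ℂ, z.re = -(1 / 2) → z ≠ 1 := by
    rintro z hz rfl
    rw [one_re] at hz
    norm_num at hz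
  have hc : Continuous (fun y : ℝ => riemannZeta (((-(1 / 2) : ℝ) : ℂ) + y * I)) :=
    cont_line (fun z hz => differentiableAt_riemannZeta (hne z hz))
  obtain ⟨M, hM⟩ := (isCompact_Icc (a := (-1 : ℝ)) (b := 1)).exists_bound_of_continuousOn hc.continuousOn
  have hM0 : 0 ≤ M := (norm_nonneg _).trans (hM 0 ⟨by norm_num, by norm_num⟩)
  refine ⟨K + M, by positivity, fun y => ?_⟩
  have h1 : (1 : ℝ) ≤ (3 + |y|) ^ 4 := one_le_pow₀ (by have := abs_nonneg y; linarith)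
  rcases le_total 1 |y| with hy | hy
  · have := h (((-(1 / 2) : ℝ) : ℂ) + y * I) (by simp) (by simp; norm_num) (by simpa using hy)
    have e : (((-(1 / 2) : ℝ) : ℂ) + y * I).im = y := by simp
    rw [e] at this
    nlinarith
  · have := hM y (abs_le.1 hy)
    nlinarith

theorem three_le {t x : ℝ} (ht : 0 ≤ t) : 3 + |x| ≤ (3 + t) * (1 + |x - t|) := by
  have h1 : |x| ≤ |x - t| + |t| := by
    have := abs_add_le (x - t) t
    rwa [sub_add_cancel] at this
  rw [abs_of_nonneg ht] at h1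
  nlinarith [abs_nonneg (x - t)]

/-! ### the integrand -/

/-- the integrand -/
noncomputable def Fu (k : ℕ) (m : ℝ) (s u : ℂ) : ℂ :=
  riemannZeta u ^ k * (Q (u - s) / (u - s) * cexp (m * (u - s)))

/-- the point -/
noncomputable def pt (t : ℝ) : ℂ := 1 / 2 + (t : ℂ) * I

theorem pt_re (t : ℝ) : (pt t).re = 1 / 2 := by simp [pt]

theorem pt_im (t : ℝ) : (pt t).im = t := by simp [pt]

theorem diff1 (m : ℝ) (s u : ℂ) : DifferentiableAt ℂ (fun u => Q (u - s)) u ∧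
    DifferentiableAt ℂ (fun u => cexp (m * (u - s))) u := by
  constructor
  · exact DifferentiableAt.comp u (g := Q) (Q_diff _) (by fun_prop)
  · fun_prop

theorem Fu_diff (k : ℕ) (m : ℝ) {s u : ℂ} (h1 : u ≠ 1) (h2 : u ≠ s) :
    DifferentiableAt ℂ (Fu k m s) u := by
  obtain ⟨d1, d2⟩ := diff1 m s u
  have d3 : DifferentiableAt ℂ (fun u => riemannZeta u ^ k) u :=
    (differentiableAt_riemannZeta h1).fun_pow k
  have d4 : DifferentiableAt ℂ (fun u : ℂ => u - s) u := by fun_prop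
  have d5 : DifferentiableAt ℂ (fun u => Q (u - s) / (u - s)) u := d1.fun_div d4 (sub_ne_zero.2 h2)
  have d6 : DifferentiableAt ℂ (fun u => Q (u - s) / (u - s) * cexp (m * (u - s))) u := d5.fun_mul d2
  exact d3.fun_mul d6

theorem key_le {τ x d : ℝ} (hτ : 0 < τ) (hd : 0 < d) (hx : 0 < x ^ 2) (hxx : x ^ 2 ≤ (τ * d) ^ 2) (j : ℕ) :
    (τ * d) ^ j * (d ^ (j + 2))⁻¹ ≤ τ ^ (j + 2) / x ^ 2 := by
  rw [le_div_iff₀ hx]
  have h1 : 0 ≤ (τ * d) ^ j * (d ^ (j + 2))⁻¹ := by positivity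
  have h2 : (τ * d) ^ j * (d ^ (j + 2))⁻¹ * (τ * d) ^ 2 = τ ^ (j + 2) := by
    have h3 : d ^ (j + 2) ≠ 0 := (pow_pos hd _).ne'
    have h4 : (τ * d) ^ j * (d ^ (j + 2))⁻¹ * (τ * d) ^ 2 = τ ^ (j + 2) * (d ^ (j + 2) * (d ^ (j + 2))⁻¹) := by
      rw [mul_pow, mul_pow, pow_add τ, pow_add d]
      ring
    rw [h4, mul_inv_cancel₀ h3, mul_one]
  rw [← h2]
  exact mul_le_mul_of_nonneg_left hxx h1

theorem exp_le {m t : ℝ} {u : ℂ} (hm : 0 ≤ m) (hr : |(u - pt t).re| ≤ 1) :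
    ‖cexp (m * (u - pt t))‖ ≤ Real.exp m := by
  rw [Complex.norm_exp]
  apply Real.exp_le_exp.2
  rw [Complex.re_ofReal_mul]
  have := (abs_le.1 hr).2
  nlinarith

theorem zk_le {K x τ d : ℝ} {k : ℕ} {z : ℂ} (hK : 0 ≤ K) (hz : ‖z‖ ≤ K * (3 + |x|) ^ 4)
    (h3 : 3 + |x| ≤ τ * d) : ‖z‖ ^ k ≤ K ^ k * (τ * d) ^ (4 * k) := by
  have h0 : 0 ≤ 3 + |x| := by positivity
  calc ‖z‖ ^ k ≤ (K * (3 + |x|) ^ 4) ^ k := pow_le_pow_left₀ (norm_nonneg _) hz k
    _ ≤ (K * (τ * d) ^ 4) ^ k :=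
        pow_le_pow_left₀ (by positivity) (mul_le_mul_of_nonneg_left (pow_le_pow_left₀ h0 h3 4) hK) k
    _ = _ := by rw [mul_pow, ← pow_mul]

theorem two_mul_le {a b A B : ℝ} (ha : a ≤ A) (hb : b ≤ B) (hb0 : 0 ≤ b) (hA : 0 ≤ A) : a * b ≤ A * B :=
  mul_le_mul ha hb hb0 hA

/-- a bound away from the real axis -/
theorem bound0 (k : ℕ) : ∃ C : ℝ, 0 ≤ C ∧ ∀ (m t : ℝ) (u : ℂ), 0 ≤ m → 0 ≤ t → -(1 / 2) ≤ u.re →
    u.re ≤ 5 / 4 → 1 ≤ |u.im| →
    ‖riemannZeta u ^ k * (Q (u - pt t) * cexp (m * (u - pt t)))‖ ≤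
      C * Real.exp m * ((3 + t) ^ (4 * k + 2) / u.im ^ 2) ∧
    ‖Q (u - pt t) * cexp (m * (u - pt t))‖ ≤ C * Real.exp m * ((3 + t) ^ 2 / u.im ^ 2) := by
  obtain ⟨K, hK, hz⟩ := growth
  obtain ⟨A, hA, hQ⟩ := Q_decay (4 * k + 2)
  refine ⟨K ^ k * A + A, by positivity, fun m t u hm ht h1 h2 h3 => ?_⟩
  have hr : |(u - pt t).re| ≤ 1 := by
    rw [sub_re, pt_re, abs_le]
    constructor <;> linarith
  have hi : (u - pt t).im = u.im - t := by rw [sub_im, pt_im]
  have hq := hQ _ hr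
  rw [hi] at hq
  have hi2 : 0 < u.im ^ 2 := by rw [← sq_abs]; positivity
  have he := exp_le hm hr
  have hzu := hz u h1 h2 h3
  generalize u.im = x at *
  obtain ⟨d, hd⟩ : ∃ d, d = 1 + |x - t| := ⟨_, rfl⟩
  have hd1 : 1 ≤ d := by rw [hd]; linarith [abs_nonneg (x - t)]
  have ht3 := three_le (x := x) ht
  rw [← hd] at ht3 hq
  have hxx : x ^ 2 ≤ ((3 + t) * d) ^ 2 := by
    rw [← sq_abs]
    exact pow_le_pow_left₀ (abs_nonneg _) (by linarith) 2
  have hkey := key_le (τ := 3 + t) (d := d) (x := x) (by linarith) (by linarith) hi2 hxx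
  have hx0 : 0 ≤ (3 + t) ^ (4 * k + 2) / x ^ 2 := by positivity
  have hx0' : 0 ≤ (3 + t) ^ 2 / x ^ 2 := by positivity
  have hE : 0 ≤ Real.exp m := (Real.exp_pos m).le
  have hdi : 0 ≤ (d ^ (4 * k + 2))⁻¹ := inv_nonneg.2 (pow_nonneg (by linarith) _)
  have hKA : 0 ≤ K ^ k * A := by positivity
  constructor
  · rw [norm_mul, norm_mul, norm_pow]
    have hzz := zk_le (k := k) hK hzu ht3
    have h5 : ‖Q (u - pt t)‖ * ‖cexp (m * (u - pt t))‖ ≤ (A * (d ^ (4 * k + 2))⁻¹) * Real.exp m :=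
      mul_le_mul hq he (norm_nonneg _) (mul_nonneg hA hdi)
    have h6 : 0 ≤ K ^ k * ((3 + t) * d) ^ (4 * k) :=
      mul_nonneg (pow_nonneg hK _) (pow_nonneg (mul_nonneg (by linarith) (by linarith)) _)
    calc ‖riemannZeta u‖ ^ k * (‖Q (u - pt t)‖ * ‖cexp (m * (u - pt t))‖)
        ≤ (K ^ k * ((3 + t) * d) ^ (4 * k)) * ((A * (d ^ (4 * k + 2))⁻¹) * Real.exp m) :=
          mul_le_mul hzz h5 (mul_nonneg (norm_nonneg _) (norm_nonneg _)) h6
      _ = K ^ k * A * Real.exp m * (((3 + t) * d) ^ (4 * k) * (d ^ (4 * k + 2))⁻¹) := by ring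
      _ ≤ K ^ k * A * Real.exp m * ((3 + t) ^ (4 * k + 2) / x ^ 2) :=
          mul_le_mul_of_nonneg_left (hkey _) (mul_nonneg hKA hE)
      _ ≤ (K ^ k * A + A) * Real.exp m * ((3 + t) ^ (4 * k + 2) / x ^ 2) :=
          mul_le_mul_of_nonneg_right (mul_le_mul_of_nonneg_right (by linarith) hE) hx0
  · rw [norm_mul]
    have h4 : (d ^ (4 * k + 2))⁻¹ ≤ (d ^ (0 + 2))⁻¹ := by
      apply inv_anti₀ (pow_pos (by linarith) _)
      exact pow_le_pow_right₀ hd1 (by omega)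
    have h5 := hkey 0
    rw [pow_zero, one_mul] at h5
    calc ‖Q (u - pt t)‖ * ‖cexp (m * (u - pt t))‖ ≤ (A * (d ^ (4 * k + 2))⁻¹) * Real.exp m :=
          mul_le_mul hq he (norm_nonneg _) (mul_nonneg hA hdi)
      _ ≤ (A * ((3 + t) ^ 2 / x ^ 2)) * Real.exp m :=
          mul_le_mul_of_nonneg_right (mul_le_mul_of_nonneg_left (h4.trans h5) hA) hE
      _ ≤ ((K ^ k * A + A) * ((3 + t) ^ 2 / x ^ 2)) * Real.exp m :=
          mul_le_mul_of_nonneg_right (mul_le_mul_of_nonneg_right (by linarith) hx0') hE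
      _ = _ := by ring

/-- integrals over vertical lines -/
theorem line_eq (f : ℂ → ℂ) (a t : ℝ) :
    ∫ y : ℝ, f (((1 / 2 + a : ℝ) : ℂ) + y * I) = ∫ v : ℝ, f (pt t + (a + v * I)) := by
  rw [← integral_add_left_eq_self (fun y : ℝ => f (((1 / 2 + a : ℝ) : ℂ) + y * I)) t]
  refine integral_congr_ae (Eventually.of_forall fun v => ?_)
  simp only [pt]
  congr 1
  push_cast
  ring

theorem f2_int {a : ℝ} (ha : a ≠ 0) (ha1 : |a| ≤ 1) (m : ℝ) :
    Integrable (fun v : ℝ => ker a (-m) v) := by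
  have h1 := (Qline_int ha ha1 0).mul_const (Real.exp (a * m))
  simp only [pow_zero, one_mul] at h1
  refine h1.mono' ?_ (Eventually.of_forall fun v => ?_)
  · exact ((cont_Qline ha).mul (by fun_prop)).aestronglyMeasurable
  · unfold ker
    rw [norm_mul, Complex.norm_exp]
    apply le_of_eq
    congr 2
    simp

/-! ### step 1: the Dirichlet series -/

theorem V_eq (m : ℝ) {n : ℕ} (hn : n ≠ 0) :
    ee (Real.log n) ^ 2 * ee (m - Real.log n) ^ 2 = q (Real.log n - m) := by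
  have h1 : ee (Real.log n) = 1 := by
    unfold ee
    apply Real.smoothTransition.one_of_one_le
    have := Real.log_natCast_nonneg n
    linarith
  rw [h1, q, neg_sub]
  ring

theorem dirichlet (k : ℕ) {m : ℝ} (t : ℝ) :
    ∫ v : ℝ, Fu k m (pt t) (pt t + (((3 / 4 : ℝ) : ℂ) + v * I)) =
      2 * Real.pi * Dv k (fun x => ee x ^ 2 * ee (m - x) ^ 2) t := by
  set a : ℝ := 3 / 4 with ha
  have ha0 : a ≠ 0 := by norm_num [ha]
  have ha1 : |a| ≤ 1 := by norm_num [ha, abs_le]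
  set T : ℕ → ℝ → ℂ := fun n v => LSeries.term (fun n => (dv k n : ℂ)) (pt t + (a + v * I)) n *
    (Q (a + v * I) / (a + v * I) * cexp (m * (a + v * I))) with hT
  have hre : ∀ v : ℝ, (pt t + ((a : ℂ) + v * I)).re = 5 / 4 := by
    intro v
    rw [add_re, pt_re]
    simp [ha]
    norm_num
  have hF : ∀ v : ℝ, Fu k m (pt t) (pt t + (a + v * I)) = ∑' n, T n v := by
    intro v
    have hs : 1 < (pt t + ((a : ℂ) + v * I)).re := by rw [hre]; norm_num
    rw [Fu, ← (dv_series k hs).2, add_sub_cancel_left, LSeries, ← tsum_mul_right]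
  have hterm : ∀ n : ℕ, n ≠ 0 → ∀ v : ℝ, T n v = ((dv k n : ℂ) * (n : ℂ) ^ (-(1 / 2 + (t : ℂ) * I))) *
      ker a (Real.log n - m) v := by
    intro n hn v
    have hn' : (n : ℂ) ≠ 0 := by exact_mod_cast hn
    simp only [hT, ker, LSeries.term_of_ne_zero hn]
    have h1 : (n : ℂ) ^ (pt t + ((a : ℂ) + v * I)) = (n : ℂ) ^ (pt t) * cexp ((a + v * I) * (Real.log n : ℝ)) := by
      rw [Complex.cpow_add _ _ hn']
      congr 1
      rw [Complex.cpow_def_of_ne_zero hn', Complex.natCast_log, mul_comm]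
    have h2 : (n : ℂ) ^ (-(1 / 2 + (t : ℂ) * I)) = ((n : ℂ) ^ (pt t))⁻¹ := by
      rw [Complex.cpow_neg, pt]
    have h3 : cexp (-(((a : ℂ) + v * I) * ((Real.log n - m : ℝ) : ℂ))) =
        cexp (m * (a + v * I)) * (cexp ((a + v * I) * (Real.log n : ℝ)))⁻¹ := by
      rw [← Complex.exp_neg, ← Complex.exp_add]
      congr 1
      push_cast
      ring
    rw [h1, h2, h3]
    rw [div_eq_mul_inv, mul_inv]
    ring
  have hint : ∀ n, Integrable (T n) := by
    intro n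
    rcases eq_or_ne n 0 with rfl | hn
    · have : T 0 = fun _ => 0 := by
        funext v
        simp [hT]
      rw [this]
      exact integrable_zero _ _ _
    · have : T n = fun v => ((dv k n : ℂ) * (n : ℂ) ^ (-(1 / 2 + (t : ℂ) * I))) *
          ker a (-(m - Real.log n)) v := by
        funext v
        rw [hterm n hn v, neg_sub]
      rw [this]
      exact (f2_int ha0 ha1 _).const_mul _
  have hnorm : ∀ (n : ℕ) (v : ℝ), ‖T n v‖ =
      ‖LSeries.term (fun n => (dv k n : ℂ)) ((5 / 4 : ℝ) : ℂ) n‖ *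
        (Real.exp (m * a) * ‖Q (a + v * I) / (a + v * I)‖) := by
    intro n v
    simp only [hT]
    rw [norm_mul, norm_mul, Complex.norm_exp, Complex.re_ofReal_mul]
    have h1 : ((a : ℂ) + v * I).re = a := by simp
    rw [h1, mul_comm (‖Q (a + v * I) / (a + v * I)‖)]
    congr 1
    rcases eq_or_ne n 0 with rfl | hn
    · simp
    · rw [LSeries.term_of_ne_zero hn, LSeries.term_of_ne_zero hn, norm_div, norm_div,
        Complex.norm_natCast_cpow_of_pos (by omega), Complex.norm_natCast_cpow_of_pos (by omega), hre,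
        ofReal_re]
  have hsum : Summable (fun n => ∫ v, ‖T n v‖) := by
    have h1 : ∀ n, ∫ v, ‖T n v‖ = ‖LSeries.term (fun n => (dv k n : ℂ)) ((5 / 4 : ℝ) : ℂ) n‖ *
        ∫ v : ℝ, Real.exp (m * a) * ‖Q (a + v * I) / (a + v * I)‖ := by
      intro n
      simp_rw [hnorm]
      rw [integral_const_mul]
    simp_rw [h1]
    apply Summable.mul_right
    exact (dv_series k (s := ((5 / 4 : ℝ) : ℂ)) (by norm_num)).1.norm
  have key := hasSum_integral_of_summable_integral_norm hint hsum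
  simp_rw [hF]
  rw [← key.tsum_eq, Dv, ← tsum_mul_left]
  congr 1
  funext n
  rcases eq_or_ne n 0 with rfl | hn
  · have : T 0 = fun _ => 0 := by
      funext v
      simp [hT]
    rw [this]
    simp [dv]
  · have h1 : ∫ v, T n v = ((dv k n : ℂ) * (n : ℂ) ^ (-(1 / 2 + (t : ℂ) * I))) *
        ∫ v, ker a (Real.log n - m) v := by
      rw [← integral_const_mul]
      exact integral_congr_ae (Eventually.of_forall fun v => hterm n hn v)
    rw [h1, inversion ha0 ha1, V_eq m hn, e0, if_neg (by norm_num [ha]), sub_zero, qc]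
    ring

/-! ### lines -/

/-- the kernel part of the integrand -/
noncomputable def Kn (m : ℝ) (s u : ℂ) : ℂ := Q (u - s) / (u - s) * cexp (m * (u - s))

theorem Fu_eq (k : ℕ) (m : ℝ) (s u : ℂ) : Fu k m s u =
    (riemannZeta u ^ k * (Q (u - s) * cexp (m * (u - s)))) * (u - s)⁻¹ := by
  unfold Fu
  rw [div_eq_mul_inv]
  ring

theorem Kn_eq (m : ℝ) (s u : ℂ) : Kn m s u = (Q (u - s) * cexp (m * (u - s))) * (u - s)⁻¹ := by
  unfold Kn
  rw [div_eq_mul_inv]
  ring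

theorem Kn_diff (m : ℝ) {s u : ℂ} (h2 : u ≠ s) : DifferentiableAt ℂ (Kn m s) u := by
  obtain ⟨d1, d2⟩ := diff1 m s u
  have d4 : DifferentiableAt ℂ (fun u : ℂ => u - s) u := by fun_prop
  have d5 : DifferentiableAt ℂ (fun u => Q (u - s) / (u - s)) u := d1.fun_div d4 (sub_ne_zero.2 h2)
  exact d5.fun_mul d2

theorem ne_pt {t a : ℝ} (ha : a ≠ 0) {z : ℂ} (hz : z.re = 1 / 2 + a) : z ≠ pt t := by
  rintro rfl
  rw [pt_re] at hz
  apply ha
  linarith

theorem inv_le_re {t a : ℝ} (ha : 0 < a) {z : ℂ} (hz : a ≤ |(z - pt t).re|) : ‖(z - pt t)⁻¹‖ ≤ a⁻¹ := by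
  rw [norm_inv]
  apply inv_anti₀ ha
  exact hz.trans (Complex.abs_re_le_norm _)

theorem int_line (k : ℕ) {m t a : ℝ} (hm : 0 ≤ m) (ht : 0 ≤ t) (ha : a ≠ 0) (ha1 : -1 ≤ a)
    (ha2 : a ≤ 3 / 4) (ha3 : 1 / 2 + a ≠ 1) :
    Integrable (fun y : ℝ => Fu k m (pt t) (((1 / 2 + a : ℝ) : ℂ) + y * I)) ∧
    Integrable (fun y : ℝ => Kn m (pt t) (((1 / 2 + a : ℝ) : ℂ) + y * I)) := by
  obtain ⟨C, hC, hb⟩ := bound0 k
  have hre : ∀ y : ℝ, (((1 / 2 + a : ℝ) : ℂ) + y * I).re = 1 / 2 + a := fun y => by simp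
  have him : ∀ y : ℝ, (((1 / 2 + a : ℝ) : ℂ) + y * I).im = y := fun y => by simp
  have hinv : ∀ y : ℝ, ‖((((1 / 2 + a : ℝ) : ℂ) + y * I) - pt t)⁻¹‖ ≤ |a|⁻¹ := fun y => by
    apply inv_le_re (abs_pos.2 ha)
    rw [sub_re, hre, pt_re]
    apply le_of_eq
    congr 1
    ring
  have hE : 0 ≤ Real.exp m := (Real.exp_pos m).le
  constructor
  · have hc : Continuous (fun y : ℝ => Fu k m (pt t) (((1 / 2 + a : ℝ) : ℂ) + y * I)) :=
      cont_line (fun z hz => Fu_diff k m (by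
        rintro rfl
        rw [one_re] at hz
        exact ha3 hz.symm) (ne_pt ha hz))
    obtain ⟨C', -, hC'⟩ := global_bd hc (C := C * Real.exp m * (3 + t) ^ (4 * k + 2) * |a|⁻¹)
      (by positivity) le_rfl (fun y hy => by
        have h1 := (hb m t (((1 / 2 + a : ℝ) : ℂ) + y * I) hm ht (by rw [hre]; linarith)
          (by rw [hre]; linarith) (by rw [him]; exact hy)).1
        rw [Fu_eq, norm_mul]
        rw [him] at h1
        have h2 := mul_le_mul h1 (hinv y) (norm_nonneg _) (by positivity)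
        refine h2.trans (le_of_eq ?_)
        ring)
    exact integrable_of_bd hc hC'
  · have hc : Continuous (fun y : ℝ => Kn m (pt t) (((1 / 2 + a : ℝ) : ℂ) + y * I)) :=
      cont_line (fun z hz => Kn_diff m (ne_pt ha hz))
    obtain ⟨C', -, hC'⟩ := global_bd hc (C := C * Real.exp m * (3 + t) ^ 2 * |a|⁻¹)
      (by positivity) le_rfl (fun y hy => by
        have h1 := (hb m t (((1 / 2 + a : ℝ) : ℂ) + y * I) hm ht (by rw [hre]; linarith)
          (by rw [hre]; linarith) (by rw [him]; exact hy)).2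
        rw [Kn_eq, norm_mul]
        rw [him] at h1
        have h2 := mul_le_mul h1 (hinv y) (norm_nonneg _) (by positivity)
        refine h2.trans (le_of_eq ?_)
        ring)
    exact integrable_of_bd hc hC'

theorem Kn_line {m t a : ℝ} (ha : a ≠ 0) (ha1 : |a| ≤ 1) (hm : 0 ≤ m) :
    ∫ y : ℝ, Kn m (pt t) (((1 / 2 + a : ℝ) : ℂ) + y * I) = 2 * Real.pi * (1 - e0 a) := by
  rw [line_eq (Kn m (pt t)) a t]
  have h1 : ∀ v : ℝ, Kn m (pt t) (pt t + (a + v * I)) = ker a (-m) v := by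
    intro v
    unfold Kn ker
    rw [add_sub_cancel_left]
    congr 2
    push_cast
    ring
  simp_rw [h1]
  rw [inversion ha ha1, qc, q_one (by linarith)]
  norm_num

/-! ### step 2: the pole at 1 -/

theorem step2 (k N : ℕ) : ∃ C : ℝ, 0 ≤ C ∧ ∀ m t : ℝ, 1 ≤ m → 1 ≤ t →
    ‖(∫ y : ℝ, Fu k m (pt t) (((1 / 2 + 1 / 4 : ℝ) : ℂ) + y * I)) -
      ∫ y : ℝ, Fu k m (pt t) (((1 / 2 + 3 / 4 : ℝ) : ℂ) + y * I)‖ ≤ C * (Real.exp m * (t ^ N)⁻¹) := by
  obtain ⟨C₀, hC₀, hb⟩ := bound0 k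
  obtain ⟨A, hA, hQ⟩ := Q_decay N
  have hM : ∃ M : ℝ, 0 ≤ M ∧ ∀ z : ℂ, 3 / 4 ≤ z.re → z.re ≤ 5 / 4 → |z.im| ≤ 1 / 4 → 1 / 4 ≤ ‖z - 1‖ →
      ‖riemannZeta z ^ k‖ ≤ M := by
    set S : Set ℂ := Metric.closedBall (1 : ℂ) 2 ∩ {z : ℂ | 1 / 4 ≤ ‖z - 1‖} with hS
    have hSc : IsCompact S := by
      refine (isCompact_closedBall (1 : ℂ) 2).inter_right ?_
      exact isClosed_le continuous_const (by fun_prop)
    have hcont : ContinuousOn (fun z : ℂ => riemannZeta z ^ k) S := by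
      intro z hz
      have hz1 : z ≠ 1 := by
        rintro rfl
        have := hz.2
        simp only [mem_setOf_eq, sub_self, norm_zero] at this
        linarith
      exact ((differentiableAt_riemannZeta hz1).continuousAt.pow k).continuousWithinAt
    obtain ⟨M, hM⟩ := hSc.exists_bound_of_continuousOn hcont
    refine ⟨max M 0, le_max_right _ _, fun z h1 h2 h3 h4 => (hM z ⟨?_, h4⟩).trans (le_max_left _ _)⟩
    rw [Metric.mem_closedBall, dist_eq_norm]
    refine (Complex.norm_le_abs_re_add_abs_im _).trans ?_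
    simp only [sub_re, one_re, sub_im, one_im, sub_zero]
    have : |z.re - 1| ≤ 1 / 4 := abs_le.2 ⟨by linarith, by linarith⟩
    linarith
  obtain ⟨M, hM0, hM⟩ := hM
  refine ⟨8 * (M * A), by positivity, fun m t hm ht => ?_⟩
  have hE : 0 ≤ Real.exp m := (Real.exp_pos m).le
  have hinv : ∀ z : ℂ, 3 / 4 ≤ z.re → ‖(z - pt t)⁻¹‖ ≤ 4 := by
    intro z hz
    have := inv_le_re (t := t) (a := 1 / 4) (by norm_num) (z := z) (by
      rw [sub_re, pt_re]
      refine le_trans ?_ (le_abs_self _)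
      linarith)
    norm_num at this ⊢
    exact this
  have h := shift (f := Fu k m (pt t)) (r := 1 / 4) (M := M * A * (Real.exp m * (t ^ N)⁻¹) * 4)
    (C := C₀ * Real.exp m * (3 + t) ^ (4 * k + 2) * 4) (by norm_num) (by norm_num) (by positivity)
    (fun z h1 h2 h3 => Fu_diff k m h3 (by
      rintro rfl
      rw [pt_re] at h1
      norm_num at h1))
    (fun z h1 h2 h3 => by
      have e1 := (hb m t z (by linarith) (by linarith) (by linarith) (by linarith) h3).1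
      rw [Fu_eq, norm_mul]
      refine (mul_le_mul e1 (hinv z (by linarith)) (norm_nonneg _) (by positivity)).trans (le_of_eq ?_)
      ring)
    (fun z h1 h2 h3 h4 => by
      have hr : |(z - pt t).re| ≤ 1 := by
        rw [sub_re, pt_re, abs_le]
        constructor <;> linarith
      have e1 := hM z (by linarith) (by linarith) h3 h4
      have e2 := hQ _ hr
      have e3 := exp_le (by linarith : (0 : ℝ) ≤ m) hr
      have e4 : ((1 + |(z - pt t).im|) ^ N)⁻¹ ≤ (t ^ N)⁻¹ := by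
        apply inv_anti₀ (by positivity)
        apply pow_le_pow_left₀ (by linarith)
        rw [sub_im, pt_im]
        have h5 := abs_sub_abs_le_abs_sub t z.im
        rw [abs_of_nonneg (by linarith : (0 : ℝ) ≤ t), abs_sub_comm] at h5
        linarith
      rw [Fu_eq, norm_mul, norm_mul, norm_mul]
      have e5 : ‖Q (z - pt t)‖ * ‖cexp (m * (z - pt t))‖ ≤ (A * (t ^ N)⁻¹) * Real.exp m :=
        mul_le_mul (e2.trans (mul_le_mul_of_nonneg_left e4 hA)) e3 (norm_nonneg _) (by positivity)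
      refine (mul_le_mul (mul_le_mul e1 e5 (by positivity) hM0) (hinv z (by linarith)) (norm_nonneg _)
        (by positivity)).trans (le_of_eq ?_)
      ring)
  have c1 : (1 - 1 / 4 : ℝ) = 1 / 2 + 1 / 4 := by norm_num
  have c2 : (1 + 1 / 4 : ℝ) = 1 / 2 + 3 / 4 := by norm_num
  rw [c1, c2] at h
  refine h.trans (le_of_eq ?_)
  ring

/-! ### step 3: the pole at `1/2+it` -/

theorem step3 (k : ℕ) {m t : ℝ} (hm : 1 ≤ m) (ht : 1 ≤ t) :
    ∫ y : ℝ, Fu k m (pt t) (((1 / 2 + 1 / 4 : ℝ) : ℂ) + y * I) =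
      (∫ y : ℝ, Fu k m (pt t) (((1 / 2 + -1 : ℝ) : ℂ) + y * I)) + 2 * Real.pi * riemannZeta (pt t) ^ k := by
  obtain ⟨C₀, hC₀, hb⟩ := bound0 k
  set Z : ℂ → ℂ := fun u => riemannZeta u ^ k with hZ
  set f1 : ℂ → ℂ := fun u => dslope Z (pt t) u * (Q (u - pt t) * cexp (m * (u - pt t))) with hf1
  have hE : 0 ≤ Real.exp m := (Real.exp_pos m).le
  have hne : ∀ u, u ≠ pt t → f1 u = Fu k m (pt t) u - Z (pt t) * Kn m (pt t) u := by
    intro u hu
    simp only [hf1]
    rw [dslope_of_ne _ hu, slope_def_field, Fu_eq, Kn_eq, div_eq_mul_inv]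
    ring
  have hS : IsOpen {u : ℂ | u.re < 1} := isOpen_lt Complex.continuous_re continuous_const
  have hZd : DifferentiableOn ℂ Z {u : ℂ | u.re < 1} := by
    intro u hu
    have hu1 : u ≠ 1 := by
      rintro rfl
      have : (1 : ℂ).re < 1 := hu
      simp at this
    exact ((differentiableAt_riemannZeta hu1).fun_pow k).differentiableWithinAt
  have hptS : {u : ℂ | u.re < 1} ∈ 𝓝 (pt t) := hS.mem_nhds (by
    show (pt t).re < 1
    rw [pt_re]
    norm_num)
  have hds : DifferentiableOn ℂ (dslope Z (pt t)) {u : ℂ | u.re < 1} :=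
    (Complex.differentiableOn_dslope hptS).2 hZd
  have hf1d : ∀ z : ℂ, z.re ≤ 3 / 4 → DifferentiableAt ℂ f1 z := by
    intro z hz
    obtain ⟨d1, d2⟩ := diff1 m (pt t) z
    have d3 : DifferentiableAt ℂ (dslope Z (pt t)) z := hds.differentiableAt (hS.mem_nhds (by
      show z.re < 1
      linarith))
    exact d3.fun_mul (d1.fun_mul d2)
  have key := strip_shift (f := f1) (a := 1 / 2 + -1) (b := 1 / 2 + 1 / 4) (by norm_num)
    (fun z _ h2 => hf1d z (by linarith)) (C := C₀ * Real.exp m * (3 + t) ^ (4 * k + 2) +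
      ‖Z (pt t)‖ * (C₀ * Real.exp m * (3 + t) ^ 2)) (T := t + 1) (by positivity) (by linarith)
    (fun z h1 h2 h3 => by
      have him : 1 ≤ |z.im - t| := by
        have := abs_sub_abs_le_abs_sub z.im t
        rw [abs_of_nonneg (by linarith : (0 : ℝ) ≤ t)] at this
        linarith
      have hzne : z ≠ pt t := by
        rintro rfl
        rw [pt_im, sub_self, abs_zero] at him
        linarith
      have hinv : ‖(z - pt t)⁻¹‖ ≤ 1 := by
        rw [norm_inv]
        apply inv_le_one_of_one_le₀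
        refine him.trans ?_
        have := Complex.abs_im_le_norm (z - pt t)
        rwa [sub_im, pt_im] at this
      obtain ⟨b1, b2⟩ := hb m t z (by linarith) (by linarith) (by linarith) (by linarith) (by linarith)
      rw [hne z hzne, Fu_eq, Kn_eq]
      refine (norm_sub_le _ _).trans ?_
      rw [norm_mul, norm_mul (Z (pt t)), norm_mul (Q (z - pt t) * cexp (m * (z - pt t)))]
      have c1 := mul_le_mul b1 hinv (norm_nonneg _) (by positivity)
      have c2 := mul_le_mul b2 hinv (norm_nonneg _) (by positivity)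
      have c3 := mul_le_mul_of_nonneg_left c2 (norm_nonneg (Z (pt t)))
      refine (add_le_add c1 c3).trans (le_of_eq ?_)
      ring)
  have hline : ∀ a : ℝ, a ≠ 0 → -1 ≤ a → a ≤ 1 / 4 → ∫ y : ℝ, f1 (((1 / 2 + a : ℝ) : ℂ) + y * I) =
      (∫ y : ℝ, Fu k m (pt t) (((1 / 2 + a : ℝ) : ℂ) + y * I)) - Z (pt t) * (2 * Real.pi * (1 - e0 a)) := by
    intro a ha0 ha1 ha2
    obtain ⟨i1, i2⟩ := int_line k (m := m) (t := t) (by linarith) (by linarith) ha0 ha1 (by linarith)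
      (by intro h; linarith)
    rw [← Kn_line (m := m) (t := t) ha0 (abs_le.2 ⟨ha1, by linarith⟩) (by linarith),
      ← integral_const_mul, ← integral_sub i1 (i2.const_mul _)]
    refine integral_congr_ae (Eventually.of_forall fun y => ?_)
    simp only
    exact hne _ (ne_pt ha0 (by simp))
  rw [hline (-1) (by norm_num) le_rfl (by norm_num), hline (1 / 4) (by norm_num) (by norm_num) le_rfl,
    e0, e0, if_pos (by norm_num), if_neg (by norm_num)] at key
  have : Z (pt t) = riemannZeta (pt t) ^ k := rfl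
  rw [← this]
  linear_combination -key

/-! ### step 4: the left line -/

theorem step4 (k : ℕ) : ∃ C : ℝ, 0 ≤ C ∧ ∀ m t : ℝ, 1 ≤ m → 1 ≤ t →
    ‖∫ y : ℝ, Fu k m (pt t) (((1 / 2 + -1 : ℝ) : ℂ) + y * I)‖ ≤ C * (t ^ (4 * k) * Real.exp (-m)) := by
  obtain ⟨K, hK, hz⟩ := growth_left
  have hi := Qline_int (a := -1) (by norm_num) (by norm_num) (4 * k)
  set J : ℝ := ∫ v : ℝ, (1 + |v|) ^ (4 * k) * ‖Q (((-1 : ℝ) : ℂ) + v * I) / (((-1 : ℝ) : ℂ) + v * I)‖ with hJ
  have hJ0 : 0 ≤ J := integral_nonneg fun v => by positivity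
  refine ⟨K ^ k * 4 ^ (4 * k) * J, by positivity, fun m t hm ht => ?_⟩
  rw [line_eq (Fu k m (pt t)) (-1) t]
  have hpt : ∀ v : ℝ, pt t + (((-1 : ℝ) : ℂ) + v * I) = ((-(1 / 2) : ℝ) : ℂ) + ((t + v : ℝ) : ℂ) * I := by
    intro v
    unfold pt
    push_cast
    ring
  have hb : ∀ v : ℝ, ‖Fu k m (pt t) (pt t + (((-1 : ℝ) : ℂ) + v * I))‖ ≤
      (K ^ k * (4 ^ (4 * k) * t ^ (4 * k)) * Real.exp (-m)) *
        ((1 + |v|) ^ (4 * k) * ‖Q (((-1 : ℝ) : ℂ) + v * I) / (((-1 : ℝ) : ℂ) + v * I)‖) := by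
    intro v
    unfold Fu
    rw [add_sub_cancel_left, norm_mul, norm_mul, norm_pow, Complex.norm_exp, Complex.re_ofReal_mul, hpt]
    have h1 : (((-1 : ℝ) : ℂ) + v * I).re = -1 := by simp
    rw [h1, mul_neg_one]
    have h2 := hz (t + v)
    have h3 : 3 + |t + v| ≤ (4 * t) * (1 + |v|) := by
      have := abs_add_le t v
      rw [abs_of_nonneg (by linarith : (0 : ℝ) ≤ t)] at this
      nlinarith [abs_nonneg v]
    have h4 := zk_le (k := k) hK h2 h3
    have h5 : K ^ k * (4 * t * (1 + |v|)) ^ (4 * k) =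
        K ^ k * (4 ^ (4 * k) * t ^ (4 * k)) * (1 + |v|) ^ (4 * k) := by
      rw [mul_pow, mul_pow]
      ring
    rw [h5] at h4
    refine (mul_le_mul_of_nonneg_right h4 (by positivity)).trans (le_of_eq ?_)
    ring
  refine (norm_integral_le_of_norm_le (hi.const_mul _) (Eventually.of_forall hb)).trans ?_
  rw [integral_const_mul, ← hJ]
  apply le_of_eq
  ring

end LG

open LG in
theorem t_LG : S_LG := by
  intro k
  refine ⟨4 * k, fun N => ?_⟩
  obtain ⟨C2, hC2, h2⟩ := step2 k N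
  obtain ⟨C4, hC4, h4⟩ := step4 k
  refine ⟨C2 + C4, by positivity, fun m t hm ht => ?_⟩
  have e2 := h2 m t hm ht
  have e3 := step3 k hm ht
  have e4 := h4 m t hm ht
  have e1 := dirichlet k (m := m) t
  rw [← line_eq (Fu k m (pt t)) (3 / 4) t] at e1
  have hff : ff k t = riemannZeta (pt t) ^ k := rfl
  rw [hff]
  set D := Dv k (fun x => ee x ^ 2 * ee (m - x) ^ 2) t with hD
  set A1 := ∫ y : ℝ, Fu k m (pt t) (((1 / 2 + 1 / 4 : ℝ) : ℂ) + y * I)
  set A2 := ∫ y : ℝ, Fu k m (pt t) (((1 / 2 + 3 / 4 : ℝ) : ℂ) + y * I)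
  set A3 := ∫ y : ℝ, Fu k m (pt t) (((1 / 2 + -1 : ℝ) : ℂ) + y * I)
  have e5 : 2 * Real.pi * (riemannZeta (pt t) ^ k - D) = (A1 - A2) - A3 := by
    rw [e3, e1]
    ring
  have hpi : (1 : ℝ) ≤ 2 * Real.pi := by
    have := Real.pi_gt_three
    linarith
  have e6 : ‖riemannZeta (pt t) ^ k - D‖ ≤ ‖2 * Real.pi * (riemannZeta (pt t) ^ k - D)‖ := by
    rw [norm_mul]
    have : ‖(2 * Real.pi : ℂ)‖ = 2 * Real.pi := by
      rw [norm_mul, Complex.norm_real, Real.norm_of_nonneg Real.pi_pos.le]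
      simp
    rw [this]
    exact le_mul_of_one_le_left (norm_nonneg _) hpi
  refine e6.trans ?_
  rw [e5]
  refine (norm_sub_le _ _).trans ((add_le_add e2 e4).trans ?_)
  have h7 : 0 ≤ t ^ (4 * k) * Real.exp (-m) := by positivity
  have h8 : 0 ≤ Real.exp m * (t ^ N)⁻¹ := by positivity
  nlinarith

end Pool.Agent.J6H39.PI
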