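import Pool.Agent.J6H39.PI.Stm
import Pool.Agent.J6H73.PI.LP0

/-! PI-LP: N integrations by parts. -/

set_option autoImplicit false

namespace Pool.Agent.J6H39.PI

theorem t_LP : S_LP := by
  intro p N
  obtain ⟨C, hC, h⟩ := Pool.Agent.J6H73.PI.lp p N
  exact ⟨C, hC, fun R M V hR hV t ht => h R M V hR hV.smooth hV.supp hV.bd t ht⟩

end Pool.Agent.J6H39.PI
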