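import Pool.Agent.J6H39.PI.SC
import Pool.Agent.J6H39.CG.Ker
import Pool.Agent.J6H59.CG.PH

/-! Project PI: the identity with general weights (`S_MS`). -/

set_option autoImplicit false

open MeasureTheory Set Filter Topology Complex

namespace Pool.Agent.J6H39.PI

open Pool.Agent.J6H39.CG (PG zh uu)
open Pool.Agent.J6H39.KV (dv)
open H345 (XX)

namespace MSp

theorem one_le_lg (t : ℝ) : 1 ≤ lg t := by
  unfold lg
  have := Real.log_nonneg (x := 1 + |t|) (by linarith [abs_nonneg t])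
  linarith

theorem lg_le (t : ℝ) : lg t ≤ 1 + |t| := by
  unfold lg
  have := Real.log_le_sub_one_of_pos (x := 1 + |t|) (by positivity)
  linarith

theorem lg_shift (s u : ℝ) : lg (s + u) ≤ (1 + |u|) * lg s := by
  have h1 : 1 + |s + u| ≤ (1 + |s|) * (1 + |u|) := by
    nlinarith [abs_add_le s u, abs_nonneg s, abs_nonneg u, mul_nonneg (abs_nonneg s) (abs_nonneg u)]
  have h2 : Real.log (1 + |s + u|) ≤ Real.log (1 + |s|) + Real.log (1 + |u|) := by
    rw [← Real.log_mul (by positivity) (by positivity)]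
    exact Real.log_le_log (by positivity) h1
  have h3 : Real.log (1 + |u|) ≤ |u| := by
    have := Real.log_le_sub_one_of_pos (x := 1 + |u|) (by positivity)
    linarith
  have h4 := one_le_lg s
  have h5 : |u| ≤ |u| * lg s := le_mul_of_one_le_right (abs_nonneg u) h4
  have h6 : lg (s + u) ≤ lg s + |u| := by
    unfold lg
    linarith
  linarith

theorem lg_meas : Measurable lg := by
  unfold lg
  fun_prop

theorem int_of {m : ℕ} {φ Ω : ℝ → ℝ} {A A' : ℝ} (h1 : Measurable φ) (h2 : Measurable Ω)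
    (hφ : ∀ s, |φ s| ≤ A * (1 + |s|) ^ m) (hΩ : ∀ s, |Ω s| ≤ A' * ((1 + |s|) ^ (m + 2))⁻¹) :
    Integrable (fun s => φ s * Ω s) := by
  refine (SC.k2_int.const_mul (A * A')).mono' (h1.mul h2).aestronglyMeasurable
    (Eventually.of_forall fun s => ?_)
  rw [Real.norm_eq_abs, abs_mul]
  calc |φ s| * |Ω s| ≤ (A * (1 + |s|) ^ m) * (A' * ((1 + |s|) ^ (m + 2))⁻¹) :=
        mul_le_mul (hφ s) (hΩ s) (abs_nonneg _) (le_trans (abs_nonneg _) (hφ s))
    _ = A * A' * ((1 + |s|) ^ 2)⁻¹ := by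
        have : (1 + |s|) ≠ 0 := by positivity
        rw [pow_add]
        field_simp

theorem pg_ff (k : ℕ) : PG k (ff k) := Pool.Agent.J6H39.CG.t_ZG k

/-- the functional equation -/
theorem fe (k : ℕ) (t : ℝ) :
    (starRingEnd ℂ) (ff k t) * (starRingEnd ℂ) (XX (1 / 2 + (t : ℂ) * I)) ^ k = ff k t := by
  have := Pool.Agent.J6H59.CG.zh_pow_fe k t
  unfold Pool.Agent.J6H59.CG.Xh at this
  unfold ff
  rw [mul_comm]
  exact this.symm

/-- the real part -/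
theorem pt1 (k : ℕ) (t : ℝ) (G : ℂ) :
    |‖ff k t‖ ^ 2 - 2 * (ff k t * (starRingEnd ℂ) G).re| ≤
      ‖ff k t‖ * ‖ff k t - G - (starRingEnd ℂ) (XX (1 / 2 + (t : ℂ) * I)) ^ k * (starRingEnd ℂ) G‖ := by
  have h1 := fe k t
  generalize (starRingEnd ℂ) (XX (1 / 2 + (t : ℂ) * I)) ^ k = Y at *
  generalize ff k t = F at *
  have h2 : ((‖F‖ ^ 2 - 2 * (F * (starRingEnd ℂ) G).re : ℝ) : ℂ) =
      (starRingEnd ℂ) F * (F - G - Y * (starRingEnd ℂ) G) := by
    have e1 : (starRingEnd ℂ) F * F = ((‖F‖ ^ 2 : ℝ) : ℂ) := by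
      rw [mul_comm, Complex.mul_conj, Complex.normSq_eq_norm_sq]
    have e2 : ((2 * (F * (starRingEnd ℂ) G).re : ℝ) : ℂ) =
        F * (starRingEnd ℂ) G + (starRingEnd ℂ) F * G := by
      have := Complex.add_conj (F * (starRingEnd ℂ) G)
      rw [map_mul, Complex.conj_conj] at this
      rw [this]
    have e3 : (starRingEnd ℂ) F * (F - G - Y * (starRingEnd ℂ) G) =
        (starRingEnd ℂ) F * F - (starRingEnd ℂ) F * G - ((starRingEnd ℂ) F * Y) * (starRingEnd ℂ) G := by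
      ring
    rw [e3, h1, e1, Complex.ofReal_sub, e2]
    ring
  have h3 : ‖((‖F‖ ^ 2 - 2 * (F * (starRingEnd ℂ) G).re : ℝ) : ℂ)‖ =
      |‖F‖ ^ 2 - 2 * (F * (starRingEnd ℂ) G).re| := Complex.norm_real _
  rw [← h3, h2, norm_mul, Complex.norm_conj]

/-- the multiplier is dominated by `Kf` -/
theorem Ax_le (hKN : S_KN) {k N : ℕ} (hN : k + 2 ≤ N) : ∃ C : ℝ, 0 ≤ C ∧
    ∀ (R : ℝ) (M : ℕ → ℝ) (V : ℝ → ℝ), 1 ≤ R → Sy R M V → ∀ t,
      ‖Ax V (ff k) t‖ ≤ C * R * (∑ j ∈ Finset.range (N + 1), M j) * Kf N (ff k) t := by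
  obtain ⟨C, hC, H⟩ := hKN N
  refine ⟨C, hC, fun R M V hR hV t => ?_⟩
  unfold Ax Kf
  rw [← integral_const_mul]
  refine norm_integral_le_of_norm_le ((SC.int1 hN (pg_ff k) t).const_mul _)
    (Eventually.of_forall fun ξ => ?_)
  rw [norm_mul]
  calc ‖uu V ξ‖ * ‖ff k (t - 2 * Real.pi * ξ)‖
      ≤ (C * R * (∑ j ∈ Finset.range (N + 1), M j) * ((1 + |ξ|) ^ N)⁻¹) *
        ‖ff k (t - 2 * Real.pi * ξ)‖ := by
        gcongr
        exact H R M V hR hV ξ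
    _ = _ := by ring

theorem ee_one {x : ℝ} (hx : 0 ≤ x) : ee x = 1 := by
  unfold ee
  exact Real.smoothTransition.one_of_one_le (by linarith)

theorem dv_zero (k : ℕ) : dv k 0 = 0 := by
  unfold dv
  simp

/-- `D` is the Dirichlet polynomial with the symbol `Vx` -/
theorem DD_eq (k : ℕ) (v : ℝ → ℝ) (t : ℝ) : DD k v t = Dv k (Vx v (Xk k t)) t := by
  unfold DD Dv
  refine tsum_congr fun n => ?_
  rcases Nat.eq_zero_or_pos n with rfl | hn
  · rw [dv_zero]; simp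
  · unfold Vx
    rw [ee_one (Real.log_nonneg (by exact_mod_cast hn)), one_mul]

/-- `D` and the multiplier -/
theorem DD_Ax (hDA : S_DA) (hSY : S_SY) (k : ℕ) (v : ℝ → ℝ) (hv : Adm v) : ∃ C : ℝ, 0 ≤ C ∧
    ∀ t : ℝ, 1 ≤ t → 1 ≤ Xk k t → ‖DD k v t - Ax (Vx v (Xk k t)) (ff k) t‖ ≤ C * (t ^ 3)⁻¹ := by
  obtain ⟨C, hC, H⟩ := hDA k (2 * k + 3)
  obtain ⟨M, hM, -⟩ := hSY v hv
  set S := ∑ j ∈ Finset.range (2 * k + 3 + 1), M j with hS
  have hS0 : 0 ≤ S := by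
    refine Finset.sum_nonneg fun j _ => ?_
    exact (abs_nonneg _).trans ((hM 1 le_rfl).1.bd j 0)
  refine ⟨C * ((k + 1 : ℝ) ^ k) * S * Real.exp (1 / 2), by positivity, fun t ht hX => ?_⟩
  have ht0 : 0 < t := by linarith
  rw [DD_eq]
  have h1 := H (Xk k t + 1) M _ (by linarith) (hM _ hX).1 t (by rw [abs_of_pos ht0]; exact ht)
  refine h1.trans ?_
  have hl0 : 0 ≤ Real.log t := Real.log_nonneg ht
  have hl1 : Real.log (t / (2 * Real.pi)) ≤ Real.log t := by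
    refine Real.log_le_log (by positivity) ?_
    rw [div_le_iff₀ Real.two_pi_pos]
    have := Real.two_le_pi
    nlinarith
  have hk0 : (0 : ℝ) ≤ k := Nat.cast_nonneg k
  have hlt : Real.log t ≤ t := (Real.log_le_sub_one_of_pos ht0).trans (by linarith)
  have hX1 : Xk k t ≤ k * Real.log t := by
    unfold Xk
    calc (k : ℝ) / 2 * Real.log (t / (2 * Real.pi)) ≤ k / 2 * Real.log t := by gcongr
      _ ≤ k * Real.log t := by
        have : 0 ≤ (k : ℝ) * Real.log t := by positivity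
        linarith
  have hR : Xk k t + 1 ≤ (k + 1) * t := by
    have : (k : ℝ) * Real.log t ≤ k * t := by gcongr
    linarith
  have he : Real.exp ((Xk k t + 1) / 2) ≤ Real.exp (1 / 2) * t ^ k := by
    have e1 : (t : ℝ) ^ k = Real.exp (k * Real.log t) := by
      rw [mul_comm, ← Real.rpow_def_of_pos ht0, Real.rpow_natCast]
    rw [e1, ← Real.exp_add]
    refine Real.exp_le_exp.2 ?_
    have : Xk k t / 2 ≤ Xk k t := by linarith
    linarith
  have hR0 : 0 ≤ Xk k t + 1 := by linarith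
  rw [abs_of_pos ht0, ← hS]
  calc C * (Xk k t + 1) ^ k * S * Real.exp ((Xk k t + 1) / 2) * (t ^ (2 * k + 3))⁻¹
      ≤ C * ((k + 1) * t) ^ k * S * (Real.exp (1 / 2) * t ^ k) * (t ^ (2 * k + 3))⁻¹ := by gcongr
    _ = C * ((k + 1 : ℝ) ^ k) * S * Real.exp (1 / 2) * (t ^ 3)⁻¹ := by
        rw [mul_pow, pow_add, two_mul, pow_add]
        field_simp


theorem inv_le {t : ℝ} (ht : 1 ≤ t) : (t ^ 2)⁻¹ ≤ 4 * ((1 + |t|) ^ 2)⁻¹ := by
  rw [abs_of_pos (by linarith), ← div_eq_mul_inv, inv_eq_one_div, div_le_div_iff₀ (by positivity) (by positivity)]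
  nlinarith

/-- the first pointwise bound -/
theorem pb1 {t F K L w O E e C : ℝ} (ht : 1 ≤ t) (hL : 1 ≤ L) (hC : 0 ≤ C) (hw : 0 ≤ w)
    (hO : 0 ≤ O) (hwO : w ≤ (1 + |t|) * O) (hF : 0 ≤ F) (hE : |E| ≤ F * e)
    (he : e ≤ C * (L / t * K + (t ^ 3)⁻¹)) :
    |E * w| ≤ C * ((2 * F ^ 2 + K ^ 2 + 4 * ((1 + |t|) ^ 2)⁻¹) * (L ^ 4 * O)) := by
  have ht0 : 0 < t := by linarith
  have hw2 : w ≤ 2 * t * O := by
    rw [abs_of_pos ht0] at hwO
    nlinarith
  have h1 : |E * w| ≤ F * (C * (L / t * K + (t ^ 3)⁻¹)) * w := by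
    rw [abs_mul, abs_of_nonneg hw]
    refine mul_le_mul_of_nonneg_right (hE.trans ?_) hw
    exact mul_le_mul_of_nonneg_left he hF
  have hL4 : L ≤ L ^ 4 := le_self_pow₀ hL (by norm_num)
  have hL1 : 1 ≤ L ^ 4 := one_le_pow₀ hL
  have h2 := inv_le ht
  have ht3 : (t ^ 3)⁻¹ * t = (t ^ 2)⁻¹ := by field_simp
  have ht4 : (t ^ 2)⁻¹ ≤ 1 := inv_le_one_of_one_le₀ (one_le_pow₀ ht)
  have ht5 : 0 ≤ (t ^ 2)⁻¹ := by positivity
  set τ := (t ^ 2)⁻¹ with hτ
  set q := ((1 + |t|) ^ 2)⁻¹ with hq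
  -- `F * (L/t*K + t⁻³) * 2t = 2 F (L K + τ)`
  by_cases hpos : 0 ≤ F * (C * (L / t * K + (t ^ 3)⁻¹))
  · have h3 : F * (C * (L / t * K + (t ^ 3)⁻¹)) * w ≤
        F * (C * (L / t * K + (t ^ 3)⁻¹)) * (2 * t * O) := mul_le_mul_of_nonneg_left hw2 hpos
    have h4 : F * (C * (L / t * K + (t ^ 3)⁻¹)) * (2 * t * O) = C * ((2 * F * (L * K + τ)) * O) := by
      rw [← ht3]
      field_simp
    rw [h4] at h3
    refine h1.trans (h3.trans (mul_le_mul_of_nonneg_left ?_ hC))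
    rw [← mul_assoc]
    refine mul_le_mul_of_nonneg_right ?_ hO
    have h5 : 2 * F * (L * K) ≤ (F ^ 2 + K ^ 2) * L ^ 4 := by
      have : 2 * F * K ≤ F ^ 2 + K ^ 2 := by nlinarith [sq_nonneg (F - K)]
      calc 2 * F * (L * K) = (2 * F * K) * L := by ring
        _ ≤ (F ^ 2 + K ^ 2) * L := by gcongr
        _ ≤ (F ^ 2 + K ^ 2) * L ^ 4 := by gcongr
    have h6 : 2 * F * τ ≤ (F ^ 2 + 4 * q) * L ^ 4 := by
      have h7 : 2 * F * τ ≤ F ^ 2 + 4 * q := by nlinarith [sq_nonneg (F - τ)]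
      have h8 : 0 ≤ F ^ 2 + 4 * q := by positivity
      calc 2 * F * τ ≤ (F ^ 2 + 4 * q) * 1 := by linarith
        _ ≤ _ := by gcongr
    calc 2 * F * (L * K + τ) = 2 * F * (L * K) + 2 * F * τ := by ring
      _ ≤ (F ^ 2 + K ^ 2) * L ^ 4 + (F ^ 2 + 4 * q) * L ^ 4 := add_le_add h5 h6
      _ = _ := by ring
  · push Not at hpos
    have h3 : F * (C * (L / t * K + (t ^ 3)⁻¹)) * w ≤ 0 := mul_nonpos_of_nonpos_of_nonneg hpos.le hw
    refine h1.trans (h3.trans ?_)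
    positivity

/-- the second pointwise bound -/
theorem pb2 {t K L w O a b C D : ℝ} (ht : 1 ≤ t) (hL : 1 ≤ L) (hC : 0 ≤ C) (hD : 0 ≤ D) (hK : 0 ≤ K)
    (hw : 0 ≤ w) (hO : 0 ≤ O) (hwO : w ≤ (1 + |t|) * O) (ha : 0 ≤ a) (hb : 0 ≤ b)
    (hab : |a - b| ≤ C * (t ^ 3)⁻¹) (hbK : b ≤ D * L * K) :
    |a ^ 2 * w - b ^ 2 * w| ≤
      (2 * C * D * K ^ 2 + (2 * C * D + 2 * C ^ 2) * (4 * ((1 + |t|) ^ 2)⁻¹)) * (L ^ 4 * O) := by
  have ht0 : 0 < t := by linarith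
  have hw2 : w ≤ 2 * t * O := by
    rw [abs_of_pos ht0] at hwO
    nlinarith
  have hL4 : L ≤ L ^ 4 := le_self_pow₀ hL (by norm_num)
  have hL1 : 1 ≤ L ^ 4 := one_le_pow₀ hL
  have h2 := inv_le ht
  have ht4 : (t ^ 2)⁻¹ ≤ 1 := inv_le_one_of_one_le₀ (one_le_pow₀ ht)
  have ht5 : 0 ≤ (t ^ 2)⁻¹ := by positivity
  have hu : 0 ≤ (t ^ 3)⁻¹ := by positivity
  have h1 : |a ^ 2 * w - b ^ 2 * w| ≤ (C * (t ^ 3)⁻¹) * (2 * (D * L * K) + C * (t ^ 3)⁻¹) * w := by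
    rw [← sub_mul, abs_mul, abs_of_nonneg hw]
    refine mul_le_mul_of_nonneg_right ?_ hw
    rw [sq_sub_sq, abs_mul, mul_comm]
    refine mul_le_mul hab ?_ (abs_nonneg _) (by positivity)
    rw [abs_of_nonneg (by positivity)]
    have := (abs_le.1 hab).2
    linarith
  have hDLK : 0 ≤ D * L * K := by positivity
  have h3 : (C * (t ^ 3)⁻¹) * (2 * (D * L * K) + C * (t ^ 3)⁻¹) * w ≤
      (C * (t ^ 3)⁻¹) * (2 * (D * L * K) + C * (t ^ 3)⁻¹) * (2 * t * O) :=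
    mul_le_mul_of_nonneg_left hw2 (by positivity)
  refine h1.trans (h3.trans ?_)
  set τ := (t ^ 2)⁻¹ with hτ
  set q := ((1 + |t|) ^ 2)⁻¹ with hq
  have ht3 : (t ^ 3)⁻¹ * t = τ := by rw [hτ]; field_simp
  have ht6 : (t ^ 3)⁻¹ ≤ 1 := inv_le_one_of_one_le₀ (one_le_pow₀ ht)
  have h4 : (C * (t ^ 3)⁻¹) * (2 * (D * L * K) + C * (t ^ 3)⁻¹) * (2 * t * O) =
      (4 * C * D * (L * K * τ) + 2 * C ^ 2 * (τ * (t ^ 3)⁻¹)) * O := by
    rw [← ht3]; ring
  have e9 : (2 * C * D * K ^ 2 + (2 * C * D + 2 * C ^ 2) * (4 * q)) * (L ^ 4 * O) =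
      ((2 * C * D * K ^ 2 + (2 * C * D + 2 * C ^ 2) * (4 * q)) * L ^ 4) * O := by ring
  rw [h4, e9]
  refine mul_le_mul_of_nonneg_right ?_ hO
  have h5 : 2 * (L * K * τ) ≤ (K ^ 2 + 4 * q) * L ^ 4 := by
    have h7 : 2 * (K * τ) ≤ K ^ 2 + 4 * q := by nlinarith [sq_nonneg (K - τ)]
    calc 2 * (L * K * τ) = (2 * (K * τ)) * L := by ring
      _ ≤ (K ^ 2 + 4 * q) * L := by gcongr
      _ ≤ (K ^ 2 + 4 * q) * L ^ 4 := by
        have : 0 ≤ K ^ 2 + 4 * q := by positivity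
        gcongr
  have h6 : τ * (t ^ 3)⁻¹ ≤ 4 * q * L ^ 4 := by
    have h8 : 0 ≤ 4 * q := by positivity
    calc τ * (t ^ 3)⁻¹ ≤ τ * 1 := by gcongr
      _ ≤ 4 * q * 1 := by linarith
      _ ≤ _ := by gcongr
  calc 4 * C * D * (L * K * τ) + 2 * C ^ 2 * (τ * (t ^ 3)⁻¹)
      = 2 * C * D * (2 * (L * K * τ)) + 2 * C ^ 2 * (τ * (t ^ 3)⁻¹) := by ring
    _ ≤ 2 * C * D * ((K ^ 2 + 4 * q) * L ^ 4) + 2 * C ^ 2 * (4 * q * L ^ 4) := by gcongr
    _ = _ := by ring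

end MSp


open MSp in
/-- **PI-MS** -/
theorem t_MS (hAF : S_AF) (hBL : S_BL) (hDA : S_DA) (hSY : S_SY) (hKN : S_KN) (hSC : S_SC)
    (hXT : S_XT) (hDG : S_DG) : S_MS := by
  intro k v hk hv B
  set N : ℕ := k + B + 8 with hN
  obtain ⟨C1, t1, hC1, ht1, HAF⟩ := hAF k v hk hv N (by omega)
  obtain ⟨C2, hC2, HDA⟩ := DD_Ax hDA hSY k v hv
  obtain ⟨C3, hC3, HKN⟩ := Ax_le hKN (k := k) (N := N) (by omega)
  obtain ⟨C4, hC4, HSC⟩ := hSC (B + 4) k N (by omega) (by omega)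
  obtain ⟨C5, hC5, hXc, HXT⟩ := hXT k
  obtain ⟨C6, hC6, HBL⟩ := hBL k v hk hv B
  obtain ⟨hDm, -⟩ := hDG k v hv
  obtain ⟨M, hM, -⟩ := hSY v hv
  set S := ∑ j ∈ Finset.range (N + 1), M j with hS
  have hS0 : 0 ≤ S := Finset.sum_nonneg fun j _ => (abs_nonneg _).trans ((hM 1 le_rfl).1.bd j 0)
  set C7 : ℝ := C3 * (C5 + 1) * S with hC7
  have hC70 : 0 ≤ C7 := by positivity
  obtain ⟨hfc, A, hA⟩ := pg_ff k
  have hfm : Measurable (ff k) := hfc.measurable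
  refine ⟨C1 * (2 + C4 + 4) + 2 * C6 + 2 * (2 * C2 * C7 * C4 + (2 * C2 * C7 + 2 * C2 ^ 2) * 4),
    t1, by positivity, ht1, fun w Om hW hw0 => ?_⟩
  obtain ⟨Cd, hCd⟩ := hW.dec
  -- positivity of the majorant
  have hOm0 : ∀ s, 0 ≤ Om s := fun s => by
    have h1 := (hW.w0 s).trans (hW.loc s)
    have h2 : 0 < 1 + |s| := by positivity
    exact nonneg_of_mul_nonneg_right h1 h2
  have hOmb : ∀ s, |Om s| ≤ Cd * ((1 + |s|) ^ (2 * k + 4 + 2))⁻¹ := fun s => by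
    rw [abs_of_nonneg (hOm0 s)]
    exact (hCd s).2
  have hwb : ∀ s, |w s| ≤ Cd * ((1 + |s|) ^ (2 * k + 4 + 2))⁻¹ := fun s => by
    rw [abs_of_nonneg (hW.w0 s)]
    exact (hCd s).1
  have h1s : ∀ s : ℝ, 1 ≤ 1 + |s| := fun s => by linarith [abs_nonneg s]
  have hA0 : 0 ≤ A := by
    have := (norm_nonneg _).trans (hA 0)
    simpa using this
  have hF2 : ∀ s, ‖ff k s‖ ^ 2 ≤ A ^ 2 * (1 + |s|) ^ (2 * k) := fun s => by
    calc ‖ff k s‖ ^ 2 ≤ (A * (1 + |s|) ^ k) ^ 2 := by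
          gcongr
          exact hA s
      _ = _ := by rw [mul_pow, ← pow_mul, mul_comm k 2]
  -- integrability
  have I1 : Integrable (fun t => ‖ff k t‖ ^ 2 * w t) := by
    refine int_of (m := 2 * k + 4) (A := A ^ 2) (by fun_prop) hW.mw (fun s => ?_) hwb
    rw [abs_of_nonneg (by positivity)]
    refine (hF2 s).trans ?_
    gcongr
    · exact h1s s
    · omega
  have I5 : ∀ j : ℕ, j ≤ 4 → Integrable (fun t => ‖ff k t‖ ^ 2 * lg t ^ j * Om t) := fun j hj => by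
    refine int_of (m := 2 * k + 4) (A := A ^ 2) (by have := lg_meas; fun_prop) hW.mO (fun s => ?_) hOmb
    have hl := one_le_lg s
    rw [abs_of_nonneg (by positivity)]
    calc ‖ff k s‖ ^ 2 * lg s ^ j ≤ A ^ 2 * (1 + |s|) ^ (2 * k) * (1 + |s|) ^ 4 := by
          refine mul_le_mul (hF2 s) ?_ (by positivity) (by positivity)
          exact (pow_le_pow_right₀ hl hj).trans (pow_le_pow_left₀ (by linarith) (lg_le s) 4)
      _ = _ := by rw [mul_assoc, ← pow_add]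
  have I6 : Integrable (fun t => ((1 + |t|) ^ 2)⁻¹ * lg t ^ 4 * Om t) := by
    refine int_of (m := 2 * k + 4) (A := 1) (by have := lg_meas; fun_prop) hW.mO (fun s => ?_) hOmb
    have hl := one_le_lg s
    rw [abs_of_nonneg (by positivity)]
    calc ((1 + |s|) ^ 2)⁻¹ * lg s ^ 4 ≤ 1 * (1 + |s|) ^ 4 := by
          refine mul_le_mul ?_ (pow_le_pow_left₀ (by linarith) (lg_le s) 4) (by positivity) (by positivity)
          exact inv_le_one_of_one_le₀ (one_le_pow₀ (h1s s))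
      _ ≤ 1 * (1 + |s|) ^ (2 * k + 4) := by
          gcongr
          · exact h1s s
          · omega
  obtain ⟨hKc, IK, HK⟩ := HSC (fun s => lg s ^ 4 * Om s) (by have := lg_meas; have := hW.mO; fun_prop)
    (fun s => mul_nonneg (by have := one_le_lg s; positivity) (hOm0 s))
    (fun s u => by
      have h1 := lg_shift s u
      have h2 := hW.tame s u
      have h3 := one_le_lg (s + u)
      have h4 := one_le_lg s
      calc lg (s + u) ^ 4 * Om (s + u) ≤ ((1 + |u|) * lg s) ^ 4 * ((1 + |u|) ^ B * Om s) := by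
            refine mul_le_mul (pow_le_pow_left₀ (by linarith) h1 4) h2 (hOm0 _) (by positivity)
        _ = _ := by rw [mul_pow, pow_add]; ring)
    (ff k) (pg_ff k) (by
      have := I5 4 le_rfl
      refine this.congr (Eventually.of_forall fun s => ?_)
      simp only
      ring)
  obtain ⟨IG, IP, HB⟩ := HBL w Om hW
  set J := ∫ t, ‖ff k t‖ ^ 2 * (lg t ^ 4 * Om t) with hJ
  set J2 := ∫ t, ((1 + |t|) ^ 2)⁻¹ * (lg t ^ 4 * Om t) with hJ2
  have I5' : Integrable (fun t => ‖ff k t‖ ^ 2 * (lg t ^ 4 * Om t)) := by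
    refine (I5 4 le_rfl).congr (Eventually.of_forall fun s => ?_)
    simp only
    ring
  have I6' : Integrable (fun t => ((1 + |t|) ^ 2)⁻¹ * (lg t ^ 4 * Om t)) := by
    refine I6.congr (Eventually.of_forall fun s => ?_)
    simp only
    ring
  have hKf : Measurable (Kf N (ff k)) := hKc.measurable
  -- pointwise facts for `t ≥ t1`
  have hXt : ∀ t, t1 ≤ t → Xt k t = Xk k t := fun t ht => by
    unfold Xt
    exact max_eq_right (HAF t ht).1
  have hPK : ∀ t, t1 ≤ t → ‖Ax (Vx v (Xt k t)) (ff k) t‖ ≤ C7 * lg t * Kf N (ff k) t := fun t ht => by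
    have hX1 : 1 ≤ Xt k t := by unfold Xt; exact le_max_left _ _
    have h1 := HKN (Xt k t + 1) M _ (by linarith) (hM _ hX1).1 t
    have hK0 : 0 ≤ Kf N (ff k) t := by
      unfold Kf
      exact integral_nonneg fun ξ => by positivity
    refine h1.trans ?_
    have h2 : Xt k t + 1 ≤ (C5 + 1) * lg t := by
      have := (HXT t).1
      have := one_le_lg t
      linarith
    calc C3 * (Xt k t + 1) * S * Kf N (ff k) t ≤ C3 * ((C5 + 1) * lg t) * S * Kf N (ff k) t := by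
          gcongr
      _ = _ := by rw [hC7]; ring
  have P1 : ∀ t, |(‖ff k t‖ ^ 2 - 2 * (ff k t * (starRingEnd ℂ) (Ax (Gx v (Xt k t)) (ff k) t)).re) * w t| ≤
      C1 * ((2 * ‖ff k t‖ ^ 2 + Kf N (ff k) t ^ 2 + 4 * ((1 + |t|) ^ 2)⁻¹) * (lg t ^ 4 * Om t)) := by
    intro t
    rcases lt_or_ge t t1 with h | h
    · rw [hw0 t h, mul_zero, abs_zero]
      have := one_le_lg t
      have := hOm0 t
      positivity
    · have h1 := pt1 k t (Ax (Gx v (Xk k t)) (ff k) t)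
      rw [hXt t h]
      exact pb1 (ht1.trans h) (one_le_lg t) hC1 (hW.w0 t) (hOm0 t) (hW.loc t) (norm_nonneg _) h1 (HAF t h).2
  have P2 : ∀ t, |‖DD k v t‖ ^ 2 * w t - ‖Ax (Vx v (Xt k t)) (ff k) t‖ ^ 2 * w t| ≤
      (2 * C2 * C7 * Kf N (ff k) t ^ 2 + (2 * C2 * C7 + 2 * C2 ^ 2) * (4 * ((1 + |t|) ^ 2)⁻¹)) *
        (lg t ^ 4 * Om t) := by
    intro t
    have hK0 : 0 ≤ Kf N (ff k) t := by
      unfold Kf
      exact integral_nonneg fun ξ => by positivity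
    rcases lt_or_ge t t1 with h | h
    · rw [hw0 t h, mul_zero, mul_zero, sub_zero, abs_zero]
      have := one_le_lg t
      have := hOm0 t
      positivity
    · have h1 := HDA t (ht1.trans h) (HAF t h).1
      rw [← hXt t h] at h1
      exact pb2 (ht1.trans h) (one_le_lg t) hC2 hC70 hK0 (hW.w0 t) (hOm0 t) (hW.loc t) (norm_nonneg _)
        (norm_nonneg _) ((abs_norm_sub_norm_le _ _).trans h1) (hPK t h)
  have IB2 : Integrable (fun t => (2 * C2 * C7 * Kf N (ff k) t ^ 2 +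
      (2 * C2 * C7 + 2 * C2 ^ 2) * (4 * ((1 + |t|) ^ 2)⁻¹)) * (lg t ^ 4 * Om t)) := by
    refine ((IK.const_mul (2 * C2 * C7)).add (I6'.const_mul ((2 * C2 * C7 + 2 * C2 ^ 2) * 4))).congr
      (Eventually.of_forall fun s => ?_)
    simp only [Pi.add_apply]
    ring
  have IB1 : Integrable (fun t => C1 * ((2 * ‖ff k t‖ ^ 2 + Kf N (ff k) t ^ 2 +
      4 * ((1 + |t|) ^ 2)⁻¹) * (lg t ^ 4 * Om t))) := by
    refine ((((I5'.const_mul 2).add IK).add (I6'.const_mul 4)).const_mul C1).congr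
      (Eventually.of_forall fun s => ?_)
    simp only [Pi.add_apply]
    ring
  have ID : Integrable (fun t => ‖DD k v t‖ ^ 2 * w t) := by
    have hm : AEStronglyMeasurable (fun t => ‖DD k v t‖ ^ 2 * w t) :=
      ((hDm.norm.pow_const 2).mul hW.mw).aestronglyMeasurable
    refine (IP.add IB2).mono' hm (Eventually.of_forall fun t => ?_)
    have h1 := (abs_le.1 (P2 t)).2
    rw [Real.norm_of_nonneg (mul_nonneg (by positivity) (hW.w0 t))]
    simp only [Pi.add_apply]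
    linarith
  refine ⟨I1, ID, ?_⟩
  -- first step
  have IR : Integrable (fun t => (ff k t * (starRingEnd ℂ) (Ax (Gx v (Xt k t)) (ff k) t)).re * w t) := by
    refine IG.re.congr (Eventually.of_forall fun t => ?_)
    simp only [RCLike.re_eq_complex_re]
    rw [Complex.re_mul_ofReal]
  have ER : ∫ t, (ff k t * (starRingEnd ℂ) (Ax (Gx v (Xt k t)) (ff k) t)).re * w t =
      (∫ t, ff k t * (starRingEnd ℂ) (Ax (Gx v (Xt k t)) (ff k) t) * (w t : ℂ)).re := by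
    have := integral_re (𝕜 := ℂ) IG
    simp only [RCLike.re_eq_complex_re] at this
    rw [← this]
    refine integral_congr_ae (Eventually.of_forall fun t => ?_)
    simp only
    rw [Complex.re_mul_ofReal]
  have Q1 : |(∫ t, ‖ff k t‖ ^ 2 * w t) -
      2 * (∫ t, ff k t * (starRingEnd ℂ) (Ax (Gx v (Xt k t)) (ff k) t) * (w t : ℂ)).re| ≤
      C1 * (2 * J + C4 * J + 4 * J2) := by
    rw [← ER, ← integral_const_mul, ← integral_sub I1 (IR.const_mul 2)]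
    refine (abs_integral_le_integral_abs).trans ?_
    have h1 : ∫ t, |‖ff k t‖ ^ 2 * w t -
        2 * ((ff k t * (starRingEnd ℂ) (Ax (Gx v (Xt k t)) (ff k) t)).re * w t)| ≤
        ∫ t, C1 * ((2 * ‖ff k t‖ ^ 2 + Kf N (ff k) t ^ 2 + 4 * ((1 + |t|) ^ 2)⁻¹) * (lg t ^ 4 * Om t)) := by
      refine integral_mono (I1.sub (IR.const_mul 2)).abs IB1 fun t => ?_
      have := P1 t
      have e : (‖ff k t‖ ^ 2 - 2 * (ff k t * (starRingEnd ℂ) (Ax (Gx v (Xt k t)) (ff k) t)).re) * w t =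
        ‖ff k t‖ ^ 2 * w t -
        2 * ((ff k t * (starRingEnd ℂ) (Ax (Gx v (Xt k t)) (ff k) t)).re * w t) := by ring
      rw [e] at this
      exact this
    refine h1.trans ?_
    have h2 : ∫ t, C1 * ((2 * ‖ff k t‖ ^ 2 + Kf N (ff k) t ^ 2 + 4 * ((1 + |t|) ^ 2)⁻¹) * (lg t ^ 4 * Om t)) =
        C1 * (2 * J + (∫ t, Kf N (ff k) t ^ 2 * (lg t ^ 4 * Om t)) + 4 * J2) := by
      have I12 : Integrable (fun t => 2 * (‖ff k t‖ ^ 2 * (lg t ^ 4 * Om t)) +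
          Kf N (ff k) t ^ 2 * (lg t ^ 4 * Om t)) := (I5'.const_mul 2).add IK
      rw [integral_const_mul, hJ, hJ2, ← integral_const_mul (2 : ℝ), ← integral_const_mul (4 : ℝ),
        ← integral_add (I5'.const_mul 2) IK, ← integral_add I12 (I6'.const_mul 4)]
      congr 1
      refine integral_congr_ae (Eventually.of_forall fun t => ?_)
      simp only
      ring
    rw [h2]
    gcongr
  have Q2 : |(∫ t, ff k t * (starRingEnd ℂ) (Ax (Gx v (Xt k t)) (ff k) t) * (w t : ℂ)).re -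
      ∫ t, ‖Ax (Vx v (Xt k t)) (ff k) t‖ ^ 2 * w t| ≤ C6 * J := by
    have h1 := (Complex.abs_re_le_norm _).trans HB
    rw [Complex.sub_re, Complex.ofReal_re] at h1
    refine h1.trans ?_
    refine mul_le_mul_of_nonneg_left ?_ hC6
    refine integral_mono (I5 3 (by norm_num)) I5' fun t => ?_
    have hl := one_le_lg t
    simp only
    rw [← mul_assoc]
    refine mul_le_mul_of_nonneg_right ?_ (hOm0 t)
    exact mul_le_mul_of_nonneg_left (pow_le_pow_right₀ hl (by norm_num)) (by positivity)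
  have Q3 : |(∫ t, ‖DD k v t‖ ^ 2 * w t) - ∫ t, ‖Ax (Vx v (Xt k t)) (ff k) t‖ ^ 2 * w t| ≤
      2 * C2 * C7 * (C4 * J) + (2 * C2 * C7 + 2 * C2 ^ 2) * 4 * J2 := by
    rw [← integral_sub ID IP]
    refine (abs_integral_le_integral_abs).trans ?_
    refine (integral_mono (ID.sub IP).abs IB2 fun t => P2 t).trans ?_
    have h2 : ∫ t, (2 * C2 * C7 * Kf N (ff k) t ^ 2 +
      (2 * C2 * C7 + 2 * C2 ^ 2) * (4 * ((1 + |t|) ^ 2)⁻¹)) * (lg t ^ 4 * Om t) =
        2 * C2 * C7 * (∫ t, Kf N (ff k) t ^ 2 * (lg t ^ 4 * Om t)) +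
          (2 * C2 * C7 + 2 * C2 ^ 2) * 4 * J2 := by
      rw [hJ2, ← integral_const_mul, ← integral_const_mul,
        ← integral_add (IK.const_mul _) (I6'.const_mul _)]
      refine integral_congr_ae (Eventually.of_forall fun t => ?_)
      simp only
      ring
    rw [h2]
    gcongr
  have hJ0 : 0 ≤ J := integral_nonneg fun t => by
    have := one_le_lg t
    have := hOm0 t
    simp only [Pi.zero_apply]
    positivity
  have hJ20 : 0 ≤ J2 := integral_nonneg fun t => by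
    have := one_le_lg t
    have := hOm0 t
    simp only [Pi.zero_apply]
    positivity
  have EJ : ∫ s, (‖ff k s‖ ^ 2 + ((1 + |s|) ^ 2)⁻¹) * lg s ^ 4 * Om s = J + J2 := by
    rw [hJ, hJ2, ← integral_add I5' I6']
    refine integral_congr_ae (Eventually.of_forall fun t => ?_)
    simp only
    ring
  rw [EJ]
  generalize (∫ t, ff k t * (starRingEnd ℂ) (Ax (Gx v (Xt k t)) (ff k) t) * (w t : ℂ)).re = x1 at *
  generalize (∫ t, ‖Ax (Vx v (Xt k t)) (ff k) t‖ ^ 2 * w t) = x2 at *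
  generalize (∫ t, ‖DD k v t‖ ^ 2 * w t) = x3 at *
  generalize (∫ t, ‖ff k t‖ ^ 2 * w t) = x4 at *
  have T1 : |x4 - 2 * x3| ≤ |x4 - 2 * x1| + 2 * |x1 - x2| + 2 * |x3 - x2| := by
    have e : x4 - 2 * x3 = (x4 - 2 * x1) + 2 * (x1 - x2) - 2 * (x3 - x2) := by ring
    rw [e]
    refine (abs_sub _ _).trans ?_
    refine add_le_add ((abs_add_le _ _).trans ?_) ?_
    · rw [abs_mul, abs_two]
    · rw [abs_mul, abs_two]
  refine T1.trans ?_
  have hc1 : 0 ≤ C1 * J2 := by positivity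
  have hc2 : 0 ≤ C1 * J := by positivity
  have hc3 : 0 ≤ C1 * C4 * J2 := by positivity
  have hc4 : 0 ≤ C6 * J2 := by positivity
  have hc5 : 0 ≤ C2 * C7 * C4 * J2 := by positivity
  have hc6 : 0 ≤ (2 * C2 * C7 + 2 * C2 ^ 2) * 4 * J := by positivity
  calc |x4 - 2 * x1| + 2 * |x1 - x2| + 2 * |x3 - x2|
      ≤ C1 * (2 * J + C4 * J + 4 * J2) + 2 * (C6 * J) +
        2 * (2 * C2 * C7 * (C4 * J) + (2 * C2 * C7 + 2 * C2 ^ 2) * 4 * J2) := by gcongr
    _ ≤ _ := by nlinarith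

end Pool.Agent.J6H39.PI
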