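import Pool.Agent.J6H39.PI.Stm
import Pool.Agent.J6H39.CG.Ker
import Pool.Agent.J6H59.CG.PH

/-! Project PI, module RF: reflection by the functional equation. -/

set_option autoImplicit false

open MeasureTheory Set Filter Topology Complex
open scoped FourierTransform ContDiff

namespace Pool.Agent.J6H39.PI

open Pool.Agent.J6H39.CG (zh uu PG Tst Ker t_F t_ZG)
open Pool.Agent.J6H59.CG (Xh norm_Xh zh_pow_fe pow_sub_le conj_exp_real)
open H345 (XX)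

namespace RF

theorem local_bound : ∃ K T₀ : ℝ, 0 ≤ K ∧ 2 ≤ T₀ ∧ ∀ t : ℝ, T₀ ≤ t → ∀ ξ : ℝ,
    ‖cexp (((2 * Real.pi * ξ * Real.log (t / (2 * Real.pi)) : ℝ) : ℂ) * I) * Xh (t - 2 * Real.pi * ξ) - Xh t‖ ≤
      K / t * (1 + ξ ^ 2) := by
  obtain ⟨C1, T1, hC1, hT1, hX⟩ := H345.XX_local
  have hpi := Real.pi_pos
  have hpi4 : Real.pi ≤ 4 := Real.pi_le_four
  refine ⟨C1 * 64 + 2 * 256, T1, by positivity, hT1, ?_⟩
  intro t ht ξ
  have ht2 : 2 ≤ t := hT1.trans ht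
  have ht0 : 0 < t := by linarith
  have hE : ∀ x : ℝ, ‖cexp ((x : ℂ) * I)‖ = 1 := fun x => Complex.norm_exp_ofReal_mul_I x
  have hq : (2 * Real.pi * ξ) ^ 2 ≤ 64 * ξ ^ 2 := by
    have : (2 * Real.pi) ^ 2 ≤ 64 := by nlinarith
    calc (2 * Real.pi * ξ) ^ 2 = (2 * Real.pi) ^ 2 * ξ ^ 2 := by ring
      _ ≤ 64 * ξ ^ 2 := by gcongr
  by_cases hcase : |2 * Real.pi * ξ| ≤ t / 2
  · have h1 := hX t ht (-(2 * Real.pi * ξ)) (by rw [abs_neg]; exact hcase)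
    set α : ℝ := 2 * Real.pi * ξ * Real.log (t / (2 * Real.pi)) with hα
    have h2 : ‖Xh (t - 2 * Real.pi * ξ) - Xh t * cexp (((-α : ℝ) : ℂ) * I)‖ ≤
        C1 * (1 + (2 * Real.pi * ξ) ^ 2) / t := by
      have e1 : -(2 * Real.pi * ξ) * Real.log (t / (2 * Real.pi)) = -α := by rw [hα]; ring
      rw [e1, neg_sq] at h1
      refine le_of_eq_of_le ?_ h1
      rw [Xh, Xh, sub_eq_add_neg t]
    have h4 : cexp ((α : ℂ) * I) * Xh (t - 2 * Real.pi * ξ) - Xh t =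
        cexp ((α : ℂ) * I) * (Xh (t - 2 * Real.pi * ξ) - Xh t * cexp (((-α : ℝ) : ℂ) * I)) := by
      have : cexp ((α : ℂ) * I) * cexp (((-α : ℝ) : ℂ) * I) = 1 := by
        rw [← Complex.exp_add]
        have : (α : ℂ) * I + ((-α : ℝ) : ℂ) * I = 0 := by push_cast; ring
        rw [this, Complex.exp_zero]
      calc _ = cexp ((α : ℂ) * I) * Xh (t - 2 * Real.pi * ξ) -
            Xh t * (cexp ((α : ℂ) * I) * cexp (((-α : ℝ) : ℂ) * I)) := by rw [this, mul_one]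
        _ = _ := by ring
    rw [h4, norm_mul, hE, one_mul]
    refine h2.trans ?_
    have h5 : C1 * (1 + (2 * Real.pi * ξ) ^ 2) ≤ C1 * 64 * (1 + ξ ^ 2) := by
      have : 1 + (2 * Real.pi * ξ) ^ 2 ≤ 64 * (1 + ξ ^ 2) := by nlinarith
      calc C1 * (1 + (2 * Real.pi * ξ) ^ 2) ≤ C1 * (64 * (1 + ξ ^ 2)) := by gcongr
        _ = _ := by ring
    calc C1 * (1 + (2 * Real.pi * ξ) ^ 2) / t ≤ C1 * 64 * (1 + ξ ^ 2) / t := by gcongr
      _ ≤ (C1 * 64 + 2 * 256) * (1 + ξ ^ 2) / t := by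
          gcongr
          linarith
      _ = (C1 * 64 + 2 * 256) / t * (1 + ξ ^ 2) := by ring
  · rw [not_le] at hcase
    have h1 : ‖cexp (((2 * Real.pi * ξ * Real.log (t / (2 * Real.pi)) : ℝ) : ℂ) * I) *
        Xh (t - 2 * Real.pi * ξ) - Xh t‖ ≤ 2 := by
      refine (norm_sub_le _ _).trans ?_
      rw [norm_mul, hE, norm_Xh, norm_Xh]
      norm_num
    have h3 : (t / 2) ^ 2 ≤ 64 * ξ ^ 2 := by
      refine le_trans ?_ hq
      rw [← sq_abs (2 * Real.pi * ξ)]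
      exact pow_le_pow_left₀ (by positivity) hcase.le 2
    have h4 : t ≤ 256 * (1 + ξ ^ 2) := by nlinarith [sq_nonneg ξ]
    have h5 : 1 ≤ 256 * (1 + ξ ^ 2) / t := by
      rw [le_div_iff₀ ht0]
      linarith
    have h6 : 0 ≤ C1 * 64 / t * (1 + ξ ^ 2) := by positivity
    calc _ ≤ 2 := h1
      _ ≤ 2 * (256 * (1 + ξ ^ 2) / t) := by linarith
      _ ≤ 2 * (256 * (1 + ξ ^ 2) / t) + C1 * 64 / t * (1 + ξ ^ 2) := by linarith
      _ = (C1 * 64 + 2 * 256) / t * (1 + ξ ^ 2) := by ring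

theorem int_ker {κ : ℝ → ℝ} (hκ : Ker κ) {B : ℕ} {g : ℝ → ℂ} (hg : PG B g) (t : ℝ) :
    Integrable (fun ξ => κ ξ * ‖g (t - 2 * Real.pi * ξ)‖) := by
  obtain ⟨hc, C, hC⟩ := hg
  have hpi := Real.pi_pos
  have hC0 : 0 ≤ C := by
    have := (norm_nonneg _).trans (hC 0)
    simpa using this
  have hcont : Continuous fun ξ : ℝ => κ ξ * ‖g (t - 2 * Real.pi * ξ)‖ :=
    hκ.cont.mul ((hc.comp (by fun_prop : Continuous fun ξ : ℝ => t - 2 * Real.pi * ξ)).norm)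
  refine ((hκ.mom B).const_mul (C * ((1 + |t|) * (1 + 2 * Real.pi)) ^ B)).mono'
    hcont.aestronglyMeasurable (Eventually.of_forall fun ξ => ?_)
  have hk := hκ.nonneg ξ
  rw [Real.norm_eq_abs, abs_of_nonneg (mul_nonneg hk (norm_nonneg _))]
  have h1 : 1 + |t - 2 * Real.pi * ξ| ≤ (1 + |t|) * (1 + 2 * Real.pi) * (1 + |ξ|) := by
    have h2 : |t - 2 * Real.pi * ξ| ≤ |t| + 2 * Real.pi * |ξ| := by
      refine (abs_sub _ _).trans ?_
      rw [abs_mul, abs_of_pos (show (0:ℝ) < 2 * Real.pi by positivity)]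
    have h3 : 0 ≤ |t| * (2 * Real.pi) := by positivity
    have h4 : 0 ≤ |t| * |ξ| := by positivity
    have h5 : 0 ≤ |t| * (2 * Real.pi) * |ξ| := by positivity
    have h6 : (1 + |t|) * (1 + 2 * Real.pi) * (1 + |ξ|) = 1 + |t| + 2 * Real.pi * |ξ| +
      (2 * Real.pi + |ξ| + |t| * (2 * Real.pi) + |t| * |ξ| + |t| * (2 * Real.pi) * |ξ|) := by ring
    rw [h6]
    have := abs_nonneg ξ
    linarith
  calc κ ξ * ‖g (t - 2 * Real.pi * ξ)‖ ≤ κ ξ * (C * (1 + |t - 2 * Real.pi * ξ|) ^ B) := by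
        gcongr
        exact hC _
    _ ≤ κ ξ * (C * ((1 + |t|) * (1 + 2 * Real.pi) * (1 + |ξ|)) ^ B) := by gcongr
    _ = C * ((1 + |t|) * (1 + 2 * Real.pi)) ^ B * ((1 + |ξ|) ^ B * κ ξ) := by
        rw [mul_pow ((1 + |t|) * (1 + 2 * Real.pi))]
        ring

theorem int_uu {V : ℝ → ℝ} (hV : Tst V) (k : ℕ) (t : ℝ) :
    Integrable (fun ξ => uu V ξ * ff k (t - 2 * Real.pi * ξ)) := by
  have h1 := int_ker (t_F V hV).2.1 (t_ZG k) t
  refine h1.mono' ?_ (Eventually.of_forall fun ξ => ?_)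
  · refine (Continuous.mul (t_F V hV).1 ?_).aestronglyMeasurable
    exact (t_ZG k).1.comp (by fun_prop : Continuous fun ξ : ℝ => t - 2 * Real.pi * ξ)
  · rw [norm_mul]
    rfl

end RF

theorem t_RF : S_RF := by
  intro k
  obtain ⟨K, T₀, hK, hT₀, hloc⟩ := RF.local_bound
  refine ⟨k * K, T₀, by positivity, by linarith, ?_⟩
  intro t ht V hV
  obtain ⟨_, hker, hker2, _, _, _, _, hrefl, _⟩ := t_F V hV
  have hint2 := RF.int_ker hker2 (t_ZG k) t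
  have hpt : ∀ ξ : ℝ, uu (fun x => V (2 * Xk k t - x)) ξ * ff k (t - 2 * Real.pi * ξ) -
      (starRingEnd ℂ) (Xh t) ^ k * (starRingEnd ℂ) (uu V ξ * ff k (t - 2 * Real.pi * ξ)) =
      (starRingEnd ℂ) (uu V ξ * ff k (t - 2 * Real.pi * ξ)) *
        (starRingEnd ℂ) ((cexp (((2 * Real.pi * ξ * Real.log (t / (2 * Real.pi)) : ℝ) : ℂ) * I) *
          Xh (t - 2 * Real.pi * ξ)) ^ k - Xh t ^ k) := by
    intro ξ
    have h1 := (hrefl (2 * Xk k t)).2 ξ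
    rw [h1]
    have h2 : ff k (t - 2 * Real.pi * ξ) = (starRingEnd ℂ) (Xh (t - 2 * Real.pi * ξ)) ^ k *
        (starRingEnd ℂ) (ff k (t - 2 * Real.pi * ξ)) := zh_pow_fe k _
    have h3 : (starRingEnd ℂ) (cexp (((2 * Real.pi * ξ * Real.log (t / (2 * Real.pi)) : ℝ) : ℂ) * I)) ^ k =
        cexp (-(2 * Real.pi * I * ((2 * Xk k t : ℝ) : ℂ) * ξ)) := by
      rw [conj_exp_real, ← Complex.exp_nat_mul]
      congr 1
      unfold Xk
      push_cast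
      ring
    have h5 : (starRingEnd ℂ) ((cexp (((2 * Real.pi * ξ * Real.log (t / (2 * Real.pi)) : ℝ) : ℂ) * I) *
        Xh (t - 2 * Real.pi * ξ)) ^ k - Xh t ^ k) =
        cexp (-(2 * Real.pi * I * ((2 * Xk k t : ℝ) : ℂ) * ξ)) * (starRingEnd ℂ) (Xh (t - 2 * Real.pi * ξ)) ^ k -
          (starRingEnd ℂ) (Xh t) ^ k := by
      rw [map_sub, map_pow, map_pow, map_mul, mul_pow, h3]
    rw [h5]
    have h4 : cexp (-(2 * Real.pi * I * ((2 * Xk k t : ℝ) : ℂ) * ξ)) * (starRingEnd ℂ) (uu V ξ) *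
          ff k (t - 2 * Real.pi * ξ) =
        cexp (-(2 * Real.pi * I * ((2 * Xk k t : ℝ) : ℂ) * ξ)) * (starRingEnd ℂ) (uu V ξ) *
          ((starRingEnd ℂ) (Xh (t - 2 * Real.pi * ξ)) ^ k * (starRingEnd ℂ) (ff k (t - 2 * Real.pi * ξ))) := by
      rw [← h2]
    rw [h4, map_mul]
    ring
  have hAB1 : Integrable (fun ξ => uu (fun x => V (2 * Xk k t - x)) ξ * ff k (t - 2 * Real.pi * ξ)) :=
    RF.int_uu (hrefl (2 * Xk k t)).1 k t
  have hAB2 : Integrable (fun ξ => uu V ξ * ff k (t - 2 * Real.pi * ξ)) := RF.int_uu hV k t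
  have hAB2c : Integrable (fun ξ => (starRingEnd ℂ) (uu V ξ * ff k (t - 2 * Real.pi * ξ))) := by
    refine hAB2.norm.mono' (Complex.continuous_conj.comp_aestronglyMeasurable hAB2.aestronglyMeasurable) ?_
    exact Eventually.of_forall fun ξ => by rw [RCLike.norm_conj]
  have hAop2 : (starRingEnd ℂ) (Ax V (ff k) t) =
      ∫ ξ, (starRingEnd ℂ) (uu V ξ * ff k (t - 2 * Real.pi * ξ)) := by
    rw [Ax, ← integral_conj]
  change ‖Ax (fun x => V (2 * Xk k t - x)) (ff k) t -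
      (starRingEnd ℂ) (Xh t) ^ k * (starRingEnd ℂ) (Ax V (ff k) t)‖ ≤ _
  rw [hAop2, Ax, ← integral_const_mul, ← integral_sub hAB1 (hAB2c.const_mul _), ← integral_const_mul]
  refine norm_integral_le_of_norm_le (hint2.const_mul _) (Eventually.of_forall fun ξ => ?_)
  rw [hpt, norm_mul, RCLike.norm_conj, RCLike.norm_conj, norm_mul]
  have hn1 : ‖cexp (((2 * Real.pi * ξ * Real.log (t / (2 * Real.pi)) : ℝ) : ℂ) * I) *
      Xh (t - 2 * Real.pi * ξ)‖ = 1 := by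
    rw [norm_mul, Complex.norm_exp_ofReal_mul_I, norm_Xh, one_mul]
  have h1 := pow_sub_le hn1 (norm_Xh t) k
  have h2 := hloc t ht ξ
  calc ‖uu V ξ‖ * ‖ff k (t - 2 * Real.pi * ξ)‖ * _
      ≤ ‖uu V ξ‖ * ‖ff k (t - 2 * Real.pi * ξ)‖ * (k * (K / t * (1 + ξ ^ 2))) := by
        gcongr
        exact h1.trans (by gcongr)
    _ = k * K / t * (‖uu V ξ‖ * (1 + ξ ^ 2) * ‖ff k (t - 2 * Real.pi * ξ)‖) := by ring

end Pool.Agent.J6H39.PI
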