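import Pool.Agent.J6H39.PI.Stm

/-! Project PI: Schur's test (`S_SC`). -/

set_option autoImplicit false

open MeasureTheory Set Filter Topology Complex

namespace Pool.Agent.J6H39.PI

open Pool.Agent.J6H39.CG (PG)

namespace SC

theorem k2_int : Integrable (fun ξ : ℝ => ((1 + |ξ|) ^ 2)⁻¹) := by
  refine integrable_inv_one_add_sq.mono' (by fun_prop) (Eventually.of_forall fun ξ => ?_)
  rw [Real.norm_of_nonneg (by positivity)]
  refine inv_anti₀ (by positivity) ?_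
  nlinarith [abs_nonneg ξ, sq_abs ξ]

theorem km_int {m N : ℕ} (h : m + 2 ≤ N) :
    Integrable (fun ξ : ℝ => (1 + |ξ|) ^ m * ((1 + |ξ|) ^ N)⁻¹) := by
  refine k2_int.mono' ?_ (Eventually.of_forall fun ξ => ?_)
  · exact Measurable.aestronglyMeasurable (by fun_prop)
  have h1 : (1 : ℝ) ≤ 1 + |ξ| := by linarith [abs_nonneg ξ]
  rw [Real.norm_of_nonneg (by positivity)]
  rw [← div_eq_mul_inv, div_le_iff₀ (by positivity), ← div_eq_inv_mul, le_div_iff₀ (by positivity),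
    ← pow_add]
  exact pow_le_pow_right₀ h1 h

theorem kN_int {N : ℕ} (h : 2 ≤ N) : Integrable (fun ξ : ℝ => ((1 + |ξ|) ^ N)⁻¹) := by
  have := km_int (m := 0) (N := N) (by omega)
  simpa using this

theorem pi7 : 2 * Real.pi ≤ 7 := by
  have := Real.pi_lt_d2
  linarith

theorem one_add_le (t ξ : ℝ) : 1 + |t - 2 * Real.pi * ξ| ≤ 7 * ((1 + |t|) * (1 + |ξ|)) := by
  have h1 : |t - 2 * Real.pi * ξ| ≤ |t| + 7 * |ξ| := by
    refine (abs_sub _ _).trans ?_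
    rw [abs_mul, abs_of_pos Real.two_pi_pos]
    have := mul_le_mul_of_nonneg_right pi7 (abs_nonneg ξ)
    linarith
  nlinarith [abs_nonneg t, abs_nonneg ξ, mul_nonneg (abs_nonneg t) (abs_nonneg ξ)]

theorem one_add_le' (ξ : ℝ) : 1 + |2 * Real.pi * ξ| ≤ 7 * (1 + |ξ|) := by
  rw [abs_mul, abs_of_pos Real.two_pi_pos]
  have := mul_le_mul_of_nonneg_right pi7 (abs_nonneg ξ)
  linarith

theorem pt {N b : ℕ} {g : ℝ → ℂ} {C : ℝ} (hC : ∀ t, ‖g t‖ ≤ C * (1 + |t|) ^ b) (t ξ : ℝ) :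
    ((1 + |ξ|) ^ N)⁻¹ * ‖g (t - 2 * Real.pi * ξ)‖ ≤
      C * (7 ^ b * (1 + |t|) ^ b) * ((1 + |ξ|) ^ b * ((1 + |ξ|) ^ N)⁻¹) := by
  have hC0 : 0 ≤ C := by
    have := (norm_nonneg _).trans (hC 0)
    simpa using this
  calc ((1 + |ξ|) ^ N)⁻¹ * ‖g (t - 2 * Real.pi * ξ)‖
      ≤ ((1 + |ξ|) ^ N)⁻¹ * (C * (1 + |t - 2 * Real.pi * ξ|) ^ b) := by
        gcongr
        exact hC _
    _ ≤ ((1 + |ξ|) ^ N)⁻¹ * (C * (7 * ((1 + |t|) * (1 + |ξ|))) ^ b) := by
        gcongr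
        exact one_add_le t ξ
    _ = _ := by
        rw [mul_pow, mul_pow]; ring

theorem int1 {N b : ℕ} (hN : b + 2 ≤ N) {g : ℝ → ℂ} (hg : PG b g) (t : ℝ) :
    Integrable (fun ξ : ℝ => ((1 + |ξ|) ^ N)⁻¹ * ‖g (t - 2 * Real.pi * ξ)‖) := by
  obtain ⟨hc, C, hC⟩ := hg
  refine ((km_int hN).const_mul (C * (7 ^ b * (1 + |t|) ^ b))).mono' ?_
    (Eventually.of_forall fun ξ => ?_)
  · exact Measurable.aestronglyMeasurable (by have := hc.measurable; fun_prop)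
  · rw [Real.norm_of_nonneg (by positivity)]
    exact pt hC t ξ

theorem cont {N b : ℕ} (hN : b + 2 ≤ N) {g : ℝ → ℂ} (hg : PG b g) : Continuous (Kf N g) := by
  have hg' := hg
  obtain ⟨hc, C, hC⟩ := hg
  have hC0 : 0 ≤ C := by
    have := (norm_nonneg _).trans (hC 0)
    simpa using this
  rw [continuous_iff_continuousAt]
  intro t0
  refine continuousAt_of_dominated
    (bound := fun ξ => C * (7 ^ b * (2 + |t0|) ^ b) * ((1 + |ξ|) ^ b * ((1 + |ξ|) ^ N)⁻¹)) ?_ ?_ ?_ ?_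
  · exact Eventually.of_forall fun t => (int1 hN hg' t).aestronglyMeasurable
  · filter_upwards [Metric.ball_mem_nhds t0 one_pos] with t ht
    refine Eventually.of_forall fun ξ => ?_
    rw [Real.norm_of_nonneg (by positivity)]
    refine (pt hC t ξ).trans ?_
    have h1 : |t| ≤ 1 + |t0| := by
      rw [Metric.mem_ball, Real.dist_eq] at ht
      have := abs_sub_abs_le_abs_sub t t0
      linarith
    have h2 : 1 + |t| ≤ 2 + |t0| := by linarith
    gcongr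
  · exact (km_int hN).const_mul _
  · refine Eventually.of_forall fun ξ => ?_
    have : Continuous fun t : ℝ => ((1 + |ξ|) ^ N)⁻¹ * ‖g (t - 2 * Real.pi * ξ)‖ := by fun_prop
    exact this.continuousAt

theorem cs_int {κ a : ℝ → ℝ} (h0 : ∀ x, 0 ≤ κ x) (h1 : Integrable κ)
    (h2 : Integrable (fun x => κ x * a x)) (h3 : Integrable (fun x => κ x * a x ^ 2)) :
    (∫ x, κ x * a x) ^ 2 ≤ (∫ x, κ x) * ∫ x, κ x * a x ^ 2 := by
  have key : ∀ l : ℝ, 0 ≤ (∫ x, κ x) * (l * l) + (-(2 * ∫ x, κ x * a x)) * l + ∫ x, κ x * a x ^ 2 := by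
    intro l
    have e : (∫ x, κ x) * (l * l) + (-(2 * ∫ x, κ x * a x)) * l + ∫ x, κ x * a x ^ 2 =
        ∫ x, κ x * (a x - l) ^ 2 := by
      have e1 : (fun x => κ x * (a x - l) ^ 2) =
          fun x => (κ x * (l * l) + (κ x * a x) * (-(2 * l))) + κ x * a x ^ 2 := by
        funext x; ring
      have i1 : Integrable (fun x => κ x * (l * l)) := h1.mul_const _
      have i2 : Integrable (fun x => (κ x * a x) * (-(2 * l))) := h2.mul_const _
      have i12 : Integrable (fun x => κ x * (l * l) + (κ x * a x) * (-(2 * l))) := i1.add i2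
      rw [e1, integral_add i12 h3, integral_add i1 i2, integral_mul_const, integral_mul_const]
      ring
    rw [e]
    exact integral_nonneg fun x => mul_nonneg (h0 x) (sq_nonneg _)
  have := discrim_le_zero key
  unfold discrim at this
  nlinarith

end SC

open SC

theorem t_SC : S_SC := by
  intro B b N hB hb
  have hA0 : 0 ≤ ∫ ξ : ℝ, ((1 + |ξ|) ^ N)⁻¹ := integral_nonneg fun ξ => by positivity
  have hM0 : 0 ≤ ∫ ξ : ℝ, 7 ^ B * ((1 + |ξ|) ^ B * ((1 + |ξ|) ^ N)⁻¹) :=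
    integral_nonneg fun ξ => by positivity
  refine ⟨(∫ ξ : ℝ, ((1 + |ξ|) ^ N)⁻¹) * ∫ ξ : ℝ, 7 ^ B * ((1 + |ξ|) ^ B * ((1 + |ξ|) ^ N)⁻¹),
    mul_nonneg hA0 hM0, fun W hW hW0 hWs g hg hgi => ?_⟩
  have hkc := cont hb hg
  have hgc := hg.1
  have hI0 : 0 ≤ ∫ s, ‖g s‖ ^ 2 * W s := integral_nonneg fun s => mul_nonneg (by positivity) (hW0 s)
  have hmeas : AEStronglyMeasurable
      (fun p : ℝ × ℝ => ((1 + |p.1|) ^ N)⁻¹ * ‖g (p.2 - 2 * Real.pi * p.1)‖ ^ 2 * W p.2)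
      (volume.prod volume) := by
    have := hgc.measurable
    exact Measurable.aestronglyMeasurable (by fun_prop)
  -- translation
  have hsl : ∀ ξ : ℝ, Integrable (fun t => ‖g (t - 2 * Real.pi * ξ)‖ ^ 2 * W t) ∧
      ∫ t, ‖g (t - 2 * Real.pi * ξ)‖ ^ 2 * W t ≤ 7 ^ B * (1 + |ξ|) ^ B * ∫ s, ‖g s‖ ^ 2 * W s := by
    intro ξ
    have hle : ∀ s, ‖g s‖ ^ 2 * W (s + 2 * Real.pi * ξ) ≤
        7 ^ B * (1 + |ξ|) ^ B * (‖g s‖ ^ 2 * W s) := by
      intro s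
      calc ‖g s‖ ^ 2 * W (s + 2 * Real.pi * ξ)
          ≤ ‖g s‖ ^ 2 * ((1 + |2 * Real.pi * ξ|) ^ B * W s) := by
            gcongr
            exact hWs s _
        _ ≤ ‖g s‖ ^ 2 * ((7 * (1 + |ξ|)) ^ B * W s) := by
            have := hW0 s
            gcongr
            exact one_add_le' ξ
        _ = _ := by rw [mul_pow]; ring
    have h1 : Integrable (fun s => ‖g s‖ ^ 2 * W (s + 2 * Real.pi * ξ)) := by
      refine (hgi.const_mul (7 ^ B * (1 + |ξ|) ^ B)).mono' ?_ (Eventually.of_forall fun s => ?_)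
      · have := hgc.measurable
        exact Measurable.aestronglyMeasurable (by fun_prop)
      · rw [Real.norm_of_nonneg (mul_nonneg (by positivity) (hW0 _))]
        exact hle s
    have e : (fun t => ‖g (t - 2 * Real.pi * ξ)‖ ^ 2 * W t) =
        fun t => (fun s => ‖g s‖ ^ 2 * W (s + 2 * Real.pi * ξ)) (t - 2 * Real.pi * ξ) := by
      funext t
      simp
    rw [e]
    refine ⟨h1.comp_sub_right _, ?_⟩
    rw [integral_sub_right_eq_self (fun s => ‖g s‖ ^ 2 * W (s + 2 * Real.pi * ξ)),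
      ← integral_const_mul]
    exact integral_mono h1 (hgi.const_mul _) hle
  have hprod : Integrable
      (fun p : ℝ × ℝ => ((1 + |p.1|) ^ N)⁻¹ * ‖g (p.2 - 2 * Real.pi * p.1)‖ ^ 2 * W p.2)
      (volume.prod volume) := by
    rw [integrable_prod_iff hmeas]
    constructor
    · refine Eventually.of_forall fun ξ => ?_
      have := (hsl ξ).1.const_mul (((1 + |ξ|) ^ N)⁻¹)
      simpa only [mul_assoc] using this
    · have e : ∀ ξ : ℝ, ∫ t, ‖((1 + |ξ|) ^ N)⁻¹ * ‖g (t - 2 * Real.pi * ξ)‖ ^ 2 * W t‖ =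
          ((1 + |ξ|) ^ N)⁻¹ * ∫ t, ‖g (t - 2 * Real.pi * ξ)‖ ^ 2 * W t := by
        intro ξ
        rw [← integral_const_mul]
        refine integral_congr_ae (Eventually.of_forall fun t => ?_)
        simp only
        rw [Real.norm_of_nonneg (mul_nonneg (by positivity) (hW0 t))]
        ring
      refine ((km_int hB).const_mul (7 ^ B * ∫ s, ‖g s‖ ^ 2 * W s)).mono' ?_
        (Eventually.of_forall fun ξ => ?_)
      · exact hmeas.norm.integral_prod_right'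
      · simp only
        rw [e ξ, Real.norm_of_nonneg (mul_nonneg (by positivity)
          (integral_nonneg fun t => mul_nonneg (by positivity) (hW0 t)))]
        calc ((1 + |ξ|) ^ N)⁻¹ * ∫ t, ‖g (t - 2 * Real.pi * ξ)‖ ^ 2 * W t
            ≤ ((1 + |ξ|) ^ N)⁻¹ * (7 ^ B * (1 + |ξ|) ^ B * ∫ s, ‖g s‖ ^ 2 * W s) :=
              mul_le_mul_of_nonneg_left (hsl ξ).2 (by positivity)
          _ = _ := by ring
  have hpt : ∀ᵐ t : ℝ, Kf N g t ^ 2 * W t ≤
      (∫ ξ : ℝ, ((1 + |ξ|) ^ N)⁻¹) *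
        ∫ ξ : ℝ, ((1 + |ξ|) ^ N)⁻¹ * ‖g (t - 2 * Real.pi * ξ)‖ ^ 2 * W t := by
    filter_upwards [hprod.prod_left_ae] with t ht
    rw [integral_mul_const, ← mul_assoc]
    rcases (hW0 t).eq_or_lt with h | h
    · rw [← h]; simp
    refine mul_le_mul_of_nonneg_right ?_ h.le
    refine cs_int (κ := fun ξ : ℝ => ((1 + |ξ|) ^ N)⁻¹) (fun ξ => by positivity)
      (kN_int (by omega)) (int1 hb hg t) ?_
    have h2 := ht.mul_const (W t)⁻¹
    refine h2.congr (Eventually.of_forall fun ξ => ?_)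
    simp only
    field_simp
  have hint2 : Integrable
      (fun t => ∫ ξ : ℝ, ((1 + |ξ|) ^ N)⁻¹ * ‖g (t - 2 * Real.pi * ξ)‖ ^ 2 * W t) :=
    hprod.integral_prod_right
  have hki : Integrable (fun t => Kf N g t ^ 2 * W t) := by
    refine (hint2.const_mul (∫ ξ : ℝ, ((1 + |ξ|) ^ N)⁻¹)).mono' ?_ ?_
    · have := hkc.measurable
      exact Measurable.aestronglyMeasurable (by fun_prop)
    · filter_upwards [hpt] with t ht
      rw [Real.norm_of_nonneg (mul_nonneg (by positivity) (hW0 t))]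
      exact ht
  refine ⟨hkc, hki, ?_⟩
  have hsw := integral_integral_swap
    (f := fun ξ t : ℝ => ((1 + |ξ|) ^ N)⁻¹ * ‖g (t - 2 * Real.pi * ξ)‖ ^ 2 * W t) hprod
  calc ∫ t, Kf N g t ^ 2 * W t
      ≤ ∫ t, (∫ ξ : ℝ, ((1 + |ξ|) ^ N)⁻¹) *
          ∫ ξ : ℝ, ((1 + |ξ|) ^ N)⁻¹ * ‖g (t - 2 * Real.pi * ξ)‖ ^ 2 * W t :=
        integral_mono_ae hki (hint2.const_mul _) hpt
    _ = (∫ ξ : ℝ, ((1 + |ξ|) ^ N)⁻¹) *
          ∫ ξ : ℝ, ∫ t, ((1 + |ξ|) ^ N)⁻¹ * ‖g (t - 2 * Real.pi * ξ)‖ ^ 2 * W t := by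
        rw [integral_const_mul, hsw]
    _ ≤ (∫ ξ : ℝ, ((1 + |ξ|) ^ N)⁻¹) *
          ∫ ξ : ℝ, (7 ^ B * ((1 + |ξ|) ^ B * ((1 + |ξ|) ^ N)⁻¹)) * ∫ s, ‖g s‖ ^ 2 * W s := by
        refine mul_le_mul_of_nonneg_left ?_ hA0
        refine integral_mono hprod.integral_prod_left
          (((km_int hB).const_mul (7 ^ B)).mul_const _) fun ξ => ?_
        simp only
        have e : ∫ t, ((1 + |ξ|) ^ N)⁻¹ * ‖g (t - 2 * Real.pi * ξ)‖ ^ 2 * W t =
            ((1 + |ξ|) ^ N)⁻¹ * ∫ t, ‖g (t - 2 * Real.pi * ξ)‖ ^ 2 * W t := by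
          rw [← integral_const_mul]
          simp only [mul_assoc]
        rw [e]
        calc ((1 + |ξ|) ^ N)⁻¹ * ∫ t, ‖g (t - 2 * Real.pi * ξ)‖ ^ 2 * W t
            ≤ ((1 + |ξ|) ^ N)⁻¹ * (7 ^ B * (1 + |ξ|) ^ B * ∫ s, ‖g s‖ ^ 2 * W s) :=
              mul_le_mul_of_nonneg_left (hsl ξ).2 (by positivity)
          _ = _ := by ring
    _ = _ := by
        rw [integral_mul_const]; ring

end Pool.Agent.J6H39.PI
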