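import Pool.Agent.J6H39.PI.Stm
import Pool.Agent.J6H39.CG.Ker

/-!
# Project PI: sharp cutoffs (module PI-SH)
-/

set_option autoImplicit false

open MeasureTheory Set Filter Topology Complex

namespace Pool.Agent.J6H39.PI.SHa

open Pool.Agent.J6H39.CG (zh PG)
open Pool.Agent.J6H39.SP (ds)

/-! ### elementary facts -/

/-- the kernel `(1+|s-c|)^(-N)` -/
noncomputable def Ek (N : ℕ) (c s : ℝ) : ℝ := ((1 + |s - c|) ^ N)⁻¹

theorem one_le_abs (x : ℝ) : 1 ≤ 1 + |x| := by linarith [abs_nonneg x]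

theorem pos_abs (x : ℝ) : 0 < 1 + |x| := by linarith [abs_nonneg x]

theorem Ek_nonneg (N : ℕ) (c s : ℝ) : 0 ≤ Ek N c s := by
  unfold Ek
  have := pos_abs (s - c)
  positivity

theorem Ek_le_one (N : ℕ) (c s : ℝ) : Ek N c s ≤ 1 := by
  unfold Ek
  exact inv_le_one_of_one_le₀ (one_le_pow₀ (one_le_abs _))

theorem Ek_meas (N : ℕ) (c : ℝ) : Measurable (Ek N c) := by
  unfold Ek; fun_prop

theorem tri (c s : ℝ) : 1 + |s| ≤ (1 + |c|) * (1 + |s - c|) := by
  have h1 : |s| ≤ |c| + |s - c| := by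
    calc |s| = |c + (s - c)| := by ring_nf
      _ ≤ _ := abs_add_le _ _
  nlinarith [abs_nonneg c, abs_nonneg (s - c), mul_nonneg (abs_nonneg c) (abs_nonneg (s - c))]

theorem inv_pow_le {x y z : ℝ} (N : ℕ) (hx : 0 < x) (hz : 0 < z) (h : z ≤ y * x) :
    (x ^ N)⁻¹ ≤ y ^ N * (z ^ N)⁻¹ := by
  have h1 : z ^ N ≤ y ^ N * x ^ N := by
    rw [← mul_pow]
    exact pow_le_pow_left₀ hz.le h N
  rw [← div_eq_mul_inv, le_div_iff₀ (by positivity), inv_mul_le_iff₀ (by positivity), mul_comm]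
  exact h1

theorem Ek_shift (N : ℕ) (c s u : ℝ) : Ek N c (s + u) ≤ (1 + |u|) ^ N * Ek N c s := by
  unfold Ek
  refine inv_pow_le N (pos_abs _) (pos_abs _) ?_
  have h1 : |s - c| ≤ |u| + |s + u - c| := by
    calc |s - c| = |(s + u - c) - u| := by ring_nf
      _ ≤ |s + u - c| + |u| := by
        rw [sub_eq_add_neg, ← abs_neg u]
        exact abs_add_le _ _
      _ = _ := by ring
  nlinarith [abs_nonneg u, abs_nonneg (s + u - c), mul_nonneg (abs_nonneg u) (abs_nonneg (s + u - c))]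

theorem ds_nonneg (a b s : ℝ) : 0 ≤ ds a b s := le_max_left _ _

theorem ds_shift (a b s u : ℝ) : ds a b s ≤ ds a b (s + u) + |u| := by
  unfold ds
  have h1 := neg_abs_le u
  have h2 := le_abs_self u
  have h3 : (0 : ℝ) ≤ max 0 (max (a - (s + u)) (s + u - b)) := le_max_left _ _
  have h4 : a - (s + u) ≤ max 0 (max (a - (s + u)) (s + u - b)) :=
    (le_max_left _ _).trans (le_max_right _ _)
  have h5 : s + u - b ≤ max 0 (max (a - (s + u)) (s + u - b)) :=
    (le_max_right _ _).trans (le_max_right _ _)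
  refine max_le ?_ (max_le ?_ ?_) <;> linarith [abs_nonneg u]

theorem ds_zero {a b s : ℝ} (h1 : a ≤ s) (h2 : s ≤ b) : ds a b s = 0 := by
  unfold ds
  rw [max_eq_left]
  exact max_le (by linarith) (by linarith)

theorem abs_le_ds {a b s : ℝ} (ha : 0 ≤ a) (hab : a ≤ b) : |s| ≤ ds a b s + b := by
  unfold ds
  have h4 : a - s ≤ max 0 (max (a - s) (s - b)) := (le_max_left _ _).trans (le_max_right _ _)
  have h5 : s - b ≤ max 0 (max (a - s) (s - b)) := (le_max_right _ _).trans (le_max_right _ _)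
  rw [abs_le]
  constructor <;> linarith

/-- the majorant of the increments -/
noncomputable def Om (N : ℕ) (a b s : ℝ) : ℝ :=
  Ek N a s + Ek N b s + (1 + |s|)⁻¹ * ((1 + ds a b s) ^ N)⁻¹

theorem ds_meas (a b : ℝ) : Measurable (ds a b) := by
  unfold ds; fun_prop

theorem Om_meas (N : ℕ) (a b : ℝ) : Measurable (Om N a b) := by
  unfold Om
  have h1 := Ek_meas N a
  have h2 := Ek_meas N b
  have h3 := ds_meas a b
  fun_prop

theorem Om_nonneg (N : ℕ) (a b s : ℝ) : 0 ≤ Om N a b s := by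
  unfold Om
  have h1 := Ek_nonneg N a s
  have h2 := Ek_nonneg N b s
  have h3 := ds_nonneg a b s
  have h4 := pos_abs s
  positivity

/-- pointwise bound of `Om` -/
theorem Om_le (N : ℕ) (a b s : ℝ) :
    Om N a b s ≤ 2 * Ek N a s + 2 * Ek N b s +
      (Ioc a b).indicator (fun s => (1 + |s|)⁻¹) s := by
  unfold Om
  have h1 := Ek_nonneg N a s
  have h2 := Ek_nonneg N b s
  have h3 := ds_nonneg a b s
  have h4 := one_le_abs s
  have h5 : (1 + |s|)⁻¹ ≤ 1 := inv_le_one_of_one_le₀ h4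
  have h50 : 0 ≤ (1 + |s|)⁻¹ := by positivity
  have h6 : ((1 + ds a b s) ^ N)⁻¹ ≤ 1 := inv_le_one_of_one_le₀ (one_le_pow₀ (by linarith))
  have h60 : 0 ≤ ((1 + ds a b s) ^ N)⁻¹ := by positivity
  have key : (1 + |s|)⁻¹ * ((1 + ds a b s) ^ N)⁻¹ ≤ Ek N a s + Ek N b s +
      (Ioc a b).indicator (fun s => (1 + |s|)⁻¹) s := by
    by_cases hs : s ∈ Ioc a b
    · rw [indicator_of_mem hs]
      nlinarith
    · rw [indicator_of_notMem hs]
      have h7 : (1 + |s|)⁻¹ * ((1 + ds a b s) ^ N)⁻¹ ≤ ((1 + ds a b s) ^ N)⁻¹ := by nlinarith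
      refine h7.trans ?_
      rw [mem_Ioc, not_and_or, not_lt, not_le] at hs
      rcases hs with hs | hs
      · have h8 : |s - a| ≤ ds a b s := by
          rw [abs_of_nonpos (by linarith)]
          unfold ds
          refine le_trans ?_ ((le_max_left _ _).trans (le_max_right _ _))
          linarith
        have h9 : ((1 + ds a b s) ^ N)⁻¹ ≤ Ek N a s := by
          unfold Ek
          have := pos_abs (s - a)
          gcongr
        linarith
      · have h8 : |s - b| ≤ ds a b s := by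
          rw [abs_of_pos (by linarith)]
          exact (le_max_right _ _).trans (le_max_right _ _)
        have h9 : ((1 + ds a b s) ^ N)⁻¹ ≤ Ek N b s := by
          unfold Ek
          have := pos_abs (s - b)
          gcongr
        linarith
  linarith

/-- the weight -/
noncomputable def wi (a b : ℝ) : ℝ → ℝ := (Ioc a b).indicator fun _ => 1

theorem wg {k N : ℕ} (hN : 2 * k + 6 ≤ N) {a b : ℝ} (ha : 0 ≤ a) (hab : a ≤ b) :
    Wg k (N + 1) (wi a b) (Om N a b) := by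
  have hOm1 : ∀ s, Ek N a s + Ek N b s ≤ Om N a b s := by
    intro s
    unfold Om
    have h3 := ds_nonneg a b s
    have h4 := pos_abs s
    have : 0 ≤ (1 + |s|)⁻¹ * ((1 + ds a b s) ^ N)⁻¹ := by positivity
    linarith
  refine ⟨measurable_const.indicator measurableSet_Ioc, Om_meas N a b, ?_, ?_, ?_, ?_, ?_⟩
  · intro s
    exact indicator_nonneg (fun _ _ => zero_le_one) s
  · intro s u
    have hu := one_le_abs u
    by_cases hcase : |s - a| ≤ |u| ∨ |s - b| ≤ |u|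
    · have h1 : |wi a b (s + u) - wi a b s| ≤ 1 := by
        unfold wi
        by_cases h1 : s + u ∈ Ioc a b <;> by_cases h2 : s ∈ Ioc a b
        · rw [indicator_of_mem h1, indicator_of_mem h2]; norm_num
        · rw [indicator_of_mem h1, indicator_of_notMem h2]; norm_num
        · rw [indicator_of_notMem h1, indicator_of_mem h2]; norm_num
        · rw [indicator_of_notMem h1, indicator_of_notMem h2]; norm_num
      refine h1.trans ?_
      have hk : ∀ c : ℝ, |s - c| ≤ |u| → 1 ≤ (1 + |u|) ^ (N + 1) * Ek N c s := by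
        intro c hc
        unfold Ek
        have h5 := pos_abs (s - c)
        rw [← div_eq_mul_inv, le_div_iff₀ (by positivity), one_mul]
        calc (1 + |s - c|) ^ N ≤ (1 + |u|) ^ N := by gcongr
          _ ≤ (1 + |u|) ^ (N + 1) := pow_le_pow_right₀ hu (Nat.le_succ N)
      have hp : 0 ≤ (1 + |u|) ^ (N + 1) := by positivity
      have e1 := mul_le_mul_of_nonneg_left (hOm1 s) hp
      have e2 := mul_nonneg hp (Ek_nonneg N a s)
      have e3 := mul_nonneg hp (Ek_nonneg N b s)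
      rcases hcase with hc | hc
      · have := hk a hc
        nlinarith
      · have := hk b hc
        nlinarith
    · push Not at hcase
      have h1 : wi a b (s + u) = wi a b s := by
        unfold wi
        have h3 : s + u ∈ Ioc a b ↔ s ∈ Ioc a b := by
          rw [mem_Ioc, mem_Ioc]
          have h5 := hcase.1
          have h6 := hcase.2
          have h7 := neg_abs_le u
          have h8 := le_abs_self u
          rcases le_or_gt s a with h9 | h9
          · rw [abs_of_nonpos (by linarith : s - a ≤ 0)] at h5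
            constructor
            · rintro ⟨h10, -⟩
              exfalso; linarith
            · rintro ⟨h10, -⟩
              exfalso; linarith
          · rw [abs_of_pos (by linarith : 0 < s - a)] at h5
            rcases le_or_gt s b with h11 | h11
            · rw [abs_of_nonpos (by linarith : s - b ≤ 0)] at h6
              constructor
              · intro _; exact ⟨h9, h11⟩
              · intro _; constructor <;> linarith
            · rw [abs_of_pos (by linarith : 0 < s - b)] at h6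
              constructor
              · rintro ⟨-, h10⟩
                exfalso; linarith
              · rintro ⟨-, h10⟩
                exfalso; linarith
        by_cases h4 : s ∈ Ioc a b
        · rw [indicator_of_mem h4, indicator_of_mem (h3.2 h4)]
        · rw [indicator_of_notMem h4, indicator_of_notMem (fun h => h4 (h3.1 h))]
      rw [h1, sub_self, abs_zero]
      have := Om_nonneg N a b s
      positivity
  · intro s
    have h4 := pos_abs s
    by_cases hs : s ∈ Ioc a b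
    · unfold wi
      rw [indicator_of_mem hs]
      have h5 : ds a b s = 0 := ds_zero hs.1.le hs.2
      have h6 : (1 + |s|)⁻¹ ≤ Om N a b s := by
        unfold Om
        rw [h5]
        have h1 := Ek_nonneg N a s
        have h2 := Ek_nonneg N b s
        simp only [add_zero, one_pow, inv_one, mul_one]
        linarith
      calc (1 : ℝ) = (1 + |s|) * (1 + |s|)⁻¹ := (mul_inv_cancel₀ h4.ne').symm
        _ ≤ _ := mul_le_mul_of_nonneg_left h6 h4.le
    · unfold wi
      rw [indicator_of_notMem hs]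
      exact mul_nonneg h4.le (Om_nonneg N a b s)
  · intro s u
    unfold Om
    have hu := one_le_abs u
    have h1 := Ek_shift N a s u
    have h2 := Ek_shift N b s u
    have hp : (1 + |u|) ^ N ≤ (1 + |u|) ^ (N + 1) := pow_le_pow_right₀ hu (Nat.le_succ N)
    have h1' := mul_le_mul_of_nonneg_right hp (Ek_nonneg N a s)
    have h2' := mul_le_mul_of_nonneg_right hp (Ek_nonneg N b s)
    have h3 : (1 + |s + u|)⁻¹ ≤ (1 + |u|) * (1 + |s|)⁻¹ := by
      have h5 : 1 + |s| ≤ (1 + |u|) * (1 + |s + u|) := by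
        have := tri (s + u) s
        rw [show s - (s + u) = -u by ring, abs_neg] at this
        linarith [mul_comm (1 + |u|) (1 + |s + u|)]
      have := inv_pow_le 1 (pos_abs (s + u)) (pos_abs s) h5
      simpa using this
    have h4 : ((1 + ds a b (s + u)) ^ N)⁻¹ ≤ (1 + |u|) ^ N * ((1 + ds a b s) ^ N)⁻¹ := by
      have e1 := ds_nonneg a b (s + u)
      have e2 := ds_nonneg a b s
      have e3 := ds_shift a b s u
      refine inv_pow_le N (by linarith) (by linarith) ?_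
      nlinarith [abs_nonneg u]
    have h6 : (1 + |s + u|)⁻¹ * ((1 + ds a b (s + u)) ^ N)⁻¹ ≤
        (1 + |u|) ^ (N + 1) * ((1 + |s|)⁻¹ * ((1 + ds a b s) ^ N)⁻¹) := by
      have e1 := ds_nonneg a b (s + u)
      have e4 := pos_abs s
      calc _ ≤ ((1 + |u|) * (1 + |s|)⁻¹) * ((1 + |u|) ^ N * ((1 + ds a b s) ^ N)⁻¹) :=
            mul_le_mul h3 h4 (by positivity) (by positivity)
        _ = _ := by ring
    nlinarith
  · have hb : 0 ≤ b := ha.trans hab
    refine ⟨(1 + b) ^ (2 * k + 6) + ((1 + |a|) ^ N + (1 + |b|) ^ N + (1 + b) ^ N), fun s => ?_⟩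
    have h4 := pos_abs s
    have h41 := one_le_abs s
    have hNK : ((1 + |s|) ^ N)⁻¹ ≤ ((1 + |s|) ^ (2 * k + 6))⁻¹ := by
      gcongr
    have hE : ∀ c : ℝ, Ek N c s ≤ (1 + |c|) ^ N * ((1 + |s|) ^ (2 * k + 6))⁻¹ := by
      intro c
      have := inv_pow_le N (pos_abs (s - c)) (pos_abs s) (tri c s)
      refine this.trans (mul_le_mul_of_nonneg_left hNK (by positivity))
    have hD : (1 + |s|)⁻¹ * ((1 + ds a b s) ^ N)⁻¹ ≤
        (1 + b) ^ N * ((1 + |s|) ^ (2 * k + 6))⁻¹ := by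
      have e1 := ds_nonneg a b s
      have e2 : ((1 + ds a b s) ^ N)⁻¹ ≤ (1 + b) ^ N * ((1 + |s|) ^ N)⁻¹ := by
        refine inv_pow_le N (by linarith) (pos_abs _) ?_
        have := abs_le_ds (s := s) ha hab
        nlinarith
      have e3 : (1 + |s|)⁻¹ ≤ 1 := inv_le_one_of_one_le₀ h41
      have e4 : 0 ≤ ((1 + ds a b s) ^ N)⁻¹ := by positivity
      calc _ ≤ 1 * ((1 + ds a b s) ^ N)⁻¹ := mul_le_mul_of_nonneg_right e3 e4
        _ ≤ (1 + b) ^ N * ((1 + |s|) ^ N)⁻¹ := by rw [one_mul]; exact e2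
        _ ≤ _ := mul_le_mul_of_nonneg_left hNK (by positivity)
    have hp : 0 < ((1 + |s|) ^ (2 * k + 6))⁻¹ := by positivity
    constructor
    · have h7 : wi a b s ≤ (1 + b) ^ (2 * k + 6) * ((1 + |s|) ^ (2 * k + 6))⁻¹ := by
        by_cases hs : s ∈ Ioc a b
        · unfold wi
          rw [indicator_of_mem hs, ← div_eq_mul_inv, le_div_iff₀ (by positivity), one_mul]
          have : |s| ≤ b := by
            rw [abs_of_nonneg (ha.trans hs.1.le)]
            exact hs.2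
          gcongr
        · unfold wi
          rw [indicator_of_notMem hs]
          positivity
      refine h7.trans (mul_le_mul_of_nonneg_right ?_ hp.le)
      have : 0 ≤ (1 + |a|) ^ N + (1 + |b|) ^ N + (1 + b) ^ N := by positivity
      linarith
    · unfold Om
      have e1 := hE a
      have e2 := hE b
      have e3 : 0 ≤ (1 + b) ^ (2 * k + 6) * ((1 + |s|) ^ (2 * k + 6))⁻¹ := by positivity
      nlinarith

/-! ### analysis -/

theorem lg_nonneg (s : ℝ) : 0 ≤ lg s := by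
  unfold lg
  have := Real.log_nonneg (one_le_abs s)
  linarith

theorem lg_cont : Continuous lg := by
  unfold lg
  exact continuous_const.add ((continuous_const.add continuous_abs).log fun s => (pos_abs s).ne')

theorem lg4 (δ : ℝ) (hδ : 0 < δ) : ∃ C : ℝ, 0 ≤ C ∧ ∀ s, lg s ^ 4 ≤ C * (1 + |s|) ^ δ := by
  refine ⟨(1 + 4 / δ) ^ 4, by positivity, fun s => ?_⟩
  have h1 : Real.log (1 + |s|) ≤ (1 + |s|) ^ (δ / 4) / (δ / 4) :=
    Real.log_le_rpow_div (pos_abs s).le (by positivity)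
  have h2 : 1 ≤ (1 + |s|) ^ (δ / 4) := Real.one_le_rpow (one_le_abs s) (by positivity)
  have h3 : lg s ≤ (1 + 4 / δ) * (1 + |s|) ^ (δ / 4) := by
    unfold lg
    have : (1 + |s|) ^ (δ / 4) / (δ / 4) = 4 / δ * (1 + |s|) ^ (δ / 4) := by field_simp
    nlinarith
  calc lg s ^ 4 ≤ ((1 + 4 / δ) * (1 + |s|) ^ (δ / 4)) ^ 4 := pow_le_pow_left₀ (lg_nonneg s) h3 4
    _ = (1 + 4 / δ) ^ 4 * (1 + |s|) ^ δ := by
      rw [mul_pow, ← Real.rpow_natCast ((1 + |s|) ^ (δ / 4)) 4, ← Real.rpow_mul (pos_abs s).le]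
      congr 2
      push_cast
      ring

/-- the logarithm on the range `|s| ≤ T + T ^ ε` -/
theorem lgT (ε : ℝ) (hε : 0 < ε) : ∃ C : ℝ, 0 ≤ C ∧ ∀ T : ℝ, 2 ≤ T → ∀ s : ℝ, |s| ≤ T + T ^ ε →
    lg s ^ 4 ≤ C * T ^ ε := by
  obtain ⟨C, hC, h⟩ := lg4 (ε / (1 + ε)) (by positivity)
  refine ⟨C * 3 ^ (ε / (1 + ε)), by positivity, fun T hT s hs => ?_⟩
  have hT0 : 0 < T := by linarith
  have hT1 : 1 ≤ T := by linarith
  have e1 : T ≤ T ^ (1 + ε) := by
    calc T = T ^ (1 : ℝ) := (Real.rpow_one T).symm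
      _ ≤ _ := Real.rpow_le_rpow_of_exponent_le hT1 (by linarith)
  have e2 : T ^ ε ≤ T ^ (1 + ε) := Real.rpow_le_rpow_of_exponent_le hT1 (by linarith)
  have e3 : 1 + |s| ≤ 3 * T ^ (1 + ε) := by linarith
  calc lg s ^ 4 ≤ C * (1 + |s|) ^ (ε / (1 + ε)) := h s
    _ ≤ C * (3 * T ^ (1 + ε)) ^ (ε / (1 + ε)) :=
        mul_le_mul_of_nonneg_left (Real.rpow_le_rpow (pos_abs s).le e3 (by positivity)) hC
    _ = C * 3 ^ (ε / (1 + ε)) * T ^ ε := by
        rw [Real.mul_rpow (by norm_num) (by positivity), ← Real.rpow_mul hT0.le,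
          mul_div_cancel₀ ε (by positivity : (1 + ε) ≠ 0), mul_assoc]

theorem ff_cont (k : ℕ) : Continuous (ff k) := (Pool.Agent.J6H39.CG.t_ZG k).1

theorem F_cont (k : ℕ) : Continuous fun s => ‖ff k s‖ ^ 2 := (ff_cont k).norm.pow 2

theorem F_bd (k : ℕ) : ∃ C : ℝ, 0 ≤ C ∧ ∀ s, ‖ff k s‖ ^ 2 ≤ C * (1 + |s|) ^ (2 * k) := by
  obtain ⟨-, C, hC⟩ := Pool.Agent.J6H39.CG.t_ZG k
  refine ⟨C ^ 2, sq_nonneg C, fun s => ?_⟩
  calc ‖ff k s‖ ^ 2 ≤ (C * (1 + |s|) ^ k) ^ 2 := pow_le_pow_left₀ (norm_nonneg _) (hC s) 2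
    _ = _ := by rw [mul_pow, ← pow_mul, mul_comm k 2]

theorem FL_bd (k : ℕ) : ∃ C : ℝ, 0 ≤ C ∧ ∀ s, ‖ff k s‖ ^ 2 * lg s ^ 4 ≤
    C * (1 + |s|) ^ (2 * k + 1) := by
  obtain ⟨C, hC, h⟩ := F_bd k
  obtain ⟨C', hC', h'⟩ := lg4 1 one_pos
  refine ⟨C * C', by positivity, fun s => ?_⟩
  have e1 := h' s
  rw [Real.rpow_one] at e1
  have := pos_abs s
  calc ‖ff k s‖ ^ 2 * lg s ^ 4 ≤ (C * (1 + |s|) ^ (2 * k)) * (C' * (1 + |s|)) :=
        mul_le_mul (h s) e1 (pow_nonneg (lg_nonneg s) 4) (by positivity)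
    _ = _ := by ring

theorem int_Ek (c : ℝ) : Integrable (Ek 2 c) ∧ ∫ s, Ek 2 c s = ∫ s, Ek 2 0 s := by
  have h0 : Integrable (Ek 2 0) := by
    have h := integrable_one_add_norm (E := ℝ) (μ := volume) (r := 2)
      (by rw [Module.finrank_self]; norm_num)
    refine h.congr (Eventually.of_forall fun s => ?_)
    change (1 + ‖s‖) ^ (-(2 : ℝ)) = Ek 2 0 s
    unfold Ek
    rw [sub_zero, Real.norm_eq_abs, Real.rpow_neg (pos_abs s).le]
    norm_num
  have h1 : Ek 2 c = fun s => Ek 2 0 (s - c) := by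
    funext s
    unfold Ek
    rw [sub_zero]
  rw [h1]
  exact ⟨h0.comp_sub_right c, integral_sub_right_eq_self _ c⟩

theorem int_P1 : Integrable fun s => ((1 + |s|) ^ 2)⁻¹ * lg s ^ 4 := by
  obtain ⟨C, hC, h⟩ := lg4 (1 / 2) (by norm_num)
  have hi := (integrable_one_add_norm (E := ℝ) (μ := volume) (r := 3 / 2)
      (by rw [Module.finrank_self]; norm_num)).const_mul C
  refine hi.mono' ?_ (Eventually.of_forall fun s => ?_)
  · have := lg_cont
    exact (Measurable.mul (by fun_prop) (this.measurable.pow_const 4)).aestronglyMeasurable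
  · have hp := pos_abs s
    have h2 : 0 ≤ lg s ^ 4 := pow_nonneg (lg_nonneg s) 4
    rw [Real.norm_eq_abs, abs_of_nonneg (by positivity), Real.norm_eq_abs]
    calc ((1 + |s|) ^ 2)⁻¹ * lg s ^ 4 ≤ ((1 + |s|) ^ 2)⁻¹ * (C * (1 + |s|) ^ (1 / 2 : ℝ)) :=
          mul_le_mul_of_nonneg_left (h s) (by positivity)
      _ = C * (1 + |s|) ^ (-(3 / 2 : ℝ)) := by
          have e1 : ((1 + |s|) ^ 2)⁻¹ = (1 + |s|) ^ (-(2 : ℝ)) := by
            rw [Real.rpow_neg hp.le]
            norm_num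
          have e2 : (1 + |s|) ^ (-(3 / 2 : ℝ)) = (1 + |s|) ^ (-(2 : ℝ)) * (1 + |s|) ^ (1 / 2 : ℝ) := by
            rw [← Real.rpow_add hp]
            norm_num
          rw [e1, e2]
          ring

/-- integrability against the kernel -/
theorem intE (k N : ℕ) (hN : 2 * k + 3 ≤ N) (c : ℝ) :
    Integrable fun s => ‖ff k s‖ ^ 2 * lg s ^ 4 * Ek N c s := by
  obtain ⟨C, hC, h⟩ := FL_bd k
  refine ((int_Ek c).1.const_mul (C * (1 + |c|) ^ (2 * k + 1))).mono' ?_
    (Eventually.of_forall fun s => ?_)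
  · exact ((((F_cont k).mul (lg_cont.pow 4)).measurable).mul (Ek_meas N c)).aestronglyMeasurable
  · have h2 : 0 ≤ lg s ^ 4 := pow_nonneg (lg_nonneg s) 4
    have h3 := Ek_nonneg N c s
    rw [Real.norm_eq_abs, abs_of_nonneg (by positivity)]
    have hx := pos_abs (s - c)
    have hx1 := one_le_abs (s - c)
    have h4 : (1 + |s|) ^ (2 * k + 1) ≤ (1 + |c|) ^ (2 * k + 1) * (1 + |s - c|) ^ (2 * k + 1) := by
      rw [← mul_pow]
      exact pow_le_pow_left₀ (pos_abs s).le (tri c s) _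
    have h5 : (1 + |s - c|) ^ (2 * k + 1) * Ek N c s ≤ Ek 2 c s := by
      unfold Ek
      rw [← div_eq_mul_inv, div_le_iff₀ (by positivity), inv_mul_eq_div, le_div_iff₀ (by positivity),
        ← pow_add]
      exact pow_le_pow_right₀ hx1 (by omega)
    have hc := pos_abs c
    calc ‖ff k s‖ ^ 2 * lg s ^ 4 * Ek N c s
        ≤ C * ((1 + |c|) ^ (2 * k + 1) * (1 + |s - c|) ^ (2 * k + 1)) * Ek N c s :=
          mul_le_mul_of_nonneg_right ((h s).trans (mul_le_mul_of_nonneg_left h4 hC)) h3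
      _ = C * (1 + |c|) ^ (2 * k + 1) * ((1 + |s - c|) ^ (2 * k + 1) * Ek N c s) := by ring
      _ ≤ _ := mul_le_mul_of_nonneg_left h5 (by positivity)

/-- the integral against the kernel at a point of `[0, T]` -/
theorem near (k : ℕ) (ε : ℝ) (hε : 0 < ε) (M : ℕ) (hM : 2 * k + 1 ≤ ε * M) :
    ∃ C : ℝ, 0 ≤ C ∧ ∀ T : ℝ, 2 ≤ T → ∀ c : ℝ, 0 ≤ c → c ≤ T →
      ∫ s, ‖ff k s‖ ^ 2 * lg s ^ 4 * Ek (M + (2 * k + 3)) c s ≤
        C * T ^ ε * ((∫ s in (c - T ^ ε)..(c + T ^ ε), ‖ff k s‖ ^ 2) + 1) := by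
  obtain ⟨C1, hC1, h1⟩ := FL_bd k
  obtain ⟨C2, hC2, h2⟩ := lgT ε hε
  obtain ⟨K, hK⟩ : ∃ K : ℝ, K = ∫ s, Ek 2 0 s := ⟨_, rfl⟩
  have hK0 : 0 ≤ K := by
    rw [hK]
    exact integral_nonneg fun s => Ek_nonneg 2 0 s
  refine ⟨C2 + C1 * 2 ^ (2 * k + 1) * K, by positivity, fun T hT c hc0 hcT => ?_⟩
  have hT0 : 0 < T := by linarith
  have hT1 : 1 ≤ T := by linarith
  obtain ⟨h, hh⟩ : ∃ h : ℝ, h = T ^ ε := ⟨_, rfl⟩
  have hh1 : 1 ≤ h := by rw [hh]; exact Real.one_le_rpow hT1 hε.le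
  rw [← hh]
  have hpow : (1 + c) ^ (2 * k + 1) ≤ 2 ^ (2 * k + 1) * h ^ M := by
    have e1 : (1 + c) ^ (2 * k + 1) ≤ (2 * T) ^ (2 * k + 1) :=
      pow_le_pow_left₀ (by linarith) (by linarith) _
    have e2 : T ^ (2 * k + 1) ≤ h ^ M := by
      rw [hh, ← Real.rpow_natCast, ← Real.rpow_natCast (T ^ ε), ← Real.rpow_mul hT0.le]
      refine Real.rpow_le_rpow_of_exponent_le hT1 ?_
      push_cast
      exact hM
    rw [mul_pow] at e1
    exact e1.trans (mul_le_mul_of_nonneg_left e2 (by positivity))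
  have hint : Integrable fun s => C2 * h * (Ioc (c - h) (c + h)).indicator
      (fun s => ‖ff k s‖ ^ 2) s + C1 * 2 ^ (2 * k + 1) * Ek 2 c s := by
    refine Integrable.add ?_ ((int_Ek c).1.const_mul _)
    refine Integrable.const_mul ?_ _
    exact ((F_cont k).integrableOn_Ioc).integrable_indicator measurableSet_Ioc
  have hle : ∫ s, ‖ff k s‖ ^ 2 * lg s ^ 4 * Ek (M + (2 * k + 3)) c s ≤
      ∫ s, (C2 * h * (Ioc (c - h) (c + h)).indicator
      (fun s => ‖ff k s‖ ^ 2) s + C1 * 2 ^ (2 * k + 1) * Ek 2 c s) := by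
    refine integral_mono (intE k _ (by omega) c) hint fun s => ?_
    have hl : 0 ≤ lg s ^ 4 := pow_nonneg (lg_nonneg s) 4
    have hE0 := Ek_nonneg (M + (2 * k + 3)) c s
    have hE1 := Ek_le_one (M + (2 * k + 3)) c s
    have hE2 := Ek_nonneg 2 c s
    have hF : 0 ≤ ‖ff k s‖ ^ 2 := by positivity
    change ‖ff k s‖ ^ 2 * lg s ^ 4 * Ek (M + (2 * k + 3)) c s ≤
      C2 * h * (Ioc (c - h) (c + h)).indicator (fun s => ‖ff k s‖ ^ 2) s +
        C1 * 2 ^ (2 * k + 1) * Ek 2 c s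
    by_cases hs : s ∈ Ioc (c - h) (c + h)
    · rw [indicator_of_mem hs]
      have e1 : |s| ≤ T + T ^ ε := by
        rw [← hh, abs_le]
        constructor <;> linarith [hs.1, hs.2]
      have e2 := h2 T hT s e1
      rw [← hh] at e2
      have e3 : ‖ff k s‖ ^ 2 * lg s ^ 4 * Ek (M + (2 * k + 3)) c s ≤
          ‖ff k s‖ ^ 2 * lg s ^ 4 := mul_le_of_le_one_right (by positivity) hE1
      have e4 : ‖ff k s‖ ^ 2 * lg s ^ 4 ≤ ‖ff k s‖ ^ 2 * (C2 * h) :=
        mul_le_mul_of_nonneg_left e2 hF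
      have e5 : 0 ≤ C1 * 2 ^ (2 * k + 1) * Ek 2 c s := by positivity
      linarith
    · rw [indicator_of_notMem hs, mul_zero, zero_add]
      have hfar : h ≤ 1 + |s - c| := by
        rw [mem_Ioc, not_and_or, not_lt, not_le] at hs
        rcases hs with hs | hs
        · have := neg_abs_le (s - c)
          linarith
        · have := le_abs_self (s - c)
          linarith
      have hx := pos_abs (s - c)
      have e1 : (1 + |s|) ^ (2 * k + 1) ≤
          2 ^ (2 * k + 1) * h ^ M * (1 + |s - c|) ^ (2 * k + 1) := by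
        have e2 := tri c s
        rw [abs_of_nonneg hc0] at e2
        calc (1 + |s|) ^ (2 * k + 1) ≤ ((1 + c) * (1 + |s - c|)) ^ (2 * k + 1) :=
              pow_le_pow_left₀ (pos_abs s).le e2 _
          _ = (1 + c) ^ (2 * k + 1) * (1 + |s - c|) ^ (2 * k + 1) := mul_pow _ _ _
          _ ≤ _ := mul_le_mul_of_nonneg_right hpow (by positivity)
      have e3 : h ^ M ≤ (1 + |s - c|) ^ M := pow_le_pow_left₀ (by linarith) hfar M
      have e4 : h ^ M * (1 + |s - c|) ^ (2 * k + 1) * Ek (M + (2 * k + 3)) c s ≤ Ek 2 c s := by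
        unfold Ek
        rw [← div_eq_mul_inv, div_le_iff₀ (by positivity), inv_mul_eq_div,
          le_div_iff₀ (by positivity)]
        calc h ^ M * (1 + |s - c|) ^ (2 * k + 1) * (1 + |s - c|) ^ 2 ≤
            (1 + |s - c|) ^ M * (1 + |s - c|) ^ (2 * k + 1) * (1 + |s - c|) ^ 2 := by gcongr
          _ = _ := by rw [← pow_add, ← pow_add]; congr 1
      calc ‖ff k s‖ ^ 2 * lg s ^ 4 * Ek (M + (2 * k + 3)) c s ≤
          C1 * (2 ^ (2 * k + 1) * h ^ M * (1 + |s - c|) ^ (2 * k + 1)) *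
            Ek (M + (2 * k + 3)) c s :=
            mul_le_mul_of_nonneg_right ((h1 s).trans (mul_le_mul_of_nonneg_left e1 hC1)) hE0
        _ = C1 * 2 ^ (2 * k + 1) * (h ^ M * (1 + |s - c|) ^ (2 * k + 1) *
            Ek (M + (2 * k + 3)) c s) := by ring
        _ ≤ _ := mul_le_mul_of_nonneg_left e4 (by positivity)
  refine hle.trans ?_
  rw [integral_add, integral_const_mul, integral_const_mul, integral_indicator measurableSet_Ioc,
    (int_Ek c).2, ← hK, intervalIntegral.integral_of_le (by linarith)]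
  · have hI : 0 ≤ ∫ s in Ioc (c - h) (c + h), ‖ff k s‖ ^ 2 :=
      setIntegral_nonneg measurableSet_Ioc fun s _ => by positivity
    set I := ∫ s in Ioc (c - h) (c + h), ‖ff k s‖ ^ 2 with hIdef
    have e1 : C1 * 2 ^ (2 * k + 1) * K ≤ C1 * 2 ^ (2 * k + 1) * K * (h * (I + 1)) := by
      refine le_mul_of_one_le_right (by positivity) ?_
      nlinarith
    have e2 : C2 * h * I ≤ C2 * h * (I + 1) :=
      mul_le_mul_of_nonneg_left (by linarith) (by positivity)
    nlinarith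
  · refine Integrable.const_mul ?_ _
    exact ((F_cont k).integrableOn_Ioc).integrable_indicator measurableSet_Ioc
  · exact (int_Ek c).1.const_mul _

end Pool.Agent.J6H39.PI.SHa

namespace Pool.Agent.J6H39.PI

open Pool.Agent.J6H39.PI.SHa

/-- **PI-SH** -/
theorem t_SH (hMS : S_MS) (hDG : S_DG) : S_SH := by
  intro k v hk hv ε hε
  obtain ⟨M, hM3, hM⟩ : ∃ M : ℕ, 3 ≤ M ∧ 2 * (k : ℝ) + 1 ≤ ε * M := by
    obtain ⟨M, hM⟩ := exists_nat_ge ((2 * (k : ℝ) + 1) / ε)
    refine ⟨M + 3, by omega, ?_⟩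
    rw [div_le_iff₀ hε] at hM
    push_cast
    nlinarith
  have hM' : 2 * (k : ℝ) + 1 ≤ ε * M := hM
  obtain ⟨C0, t0, hC0, ht0, hms⟩ := hMS k v hk hv (M + (2 * k + 3) + 1)
  obtain ⟨CA, hCA, hA⟩ := near k ε hε M hM'
  obtain ⟨C2, hC2, h2⟩ := lgT ε hε
  obtain ⟨hDm, B, CD, hD⟩ := hDG k v hv
  obtain ⟨N, hN⟩ : ∃ N : ℕ, N = M + (2 * k + 3) := ⟨_, rfl⟩
  rw [← hN] at hms
  have hA' : ∀ T : ℝ, 2 ≤ T → ∀ c : ℝ, 0 ≤ c → c ≤ T →
      ∫ s, ‖ff k s‖ ^ 2 * lg s ^ 4 * Ek N c s ≤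
        CA * T ^ ε * ((∫ s in (c - T ^ ε)..(c + T ^ ε), ‖ff k s‖ ^ 2) + 1) := by
    rw [hN]; exact hA
  -- integrability
  have hFi : ∀ x y : ℝ, IntervalIntegrable (fun s => ‖ff k s‖ ^ 2) volume x y := fun x y =>
    (F_cont k).intervalIntegrable x y
  have hGi : ∀ x y : ℝ, IntervalIntegrable (fun s => ‖DD k v s‖ ^ 2) volume x y := by
    intro x y
    have hc : Continuous fun t : ℝ => (CD * (1 + |t|) ^ B) ^ 2 := by fun_prop
    refine (hc.intervalIntegrable x y).mono_fun' (hDm.norm.pow_const 2).aestronglyMeasurable ?_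
    refine Eventually.of_forall fun t => ?_
    change ‖‖DD k v t‖ ^ 2‖ ≤ (CD * (1 + |t|) ^ B) ^ 2
    rw [Real.norm_eq_abs, abs_of_nonneg (by positivity)]
    exact pow_le_pow_left₀ (norm_nonneg _) (hD t) 2
  have hF0 : ∀ x y : ℝ, x ≤ y → 0 ≤ ∫ s in x..y, ‖ff k s‖ ^ 2 := fun x y hxy =>
    intervalIntegral.integral_nonneg hxy fun s _ => by positivity
  have hG0 : ∀ x y : ℝ, x ≤ y → 0 ≤ ∫ s in x..y, ‖DD k v s‖ ^ 2 := fun x y hxy =>
    intervalIntegral.integral_nonneg hxy fun s _ => by positivity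
  have hmono : ∀ (g : ℝ → ℝ), (∀ x y : ℝ, IntervalIntegrable g volume x y) → (∀ s, 0 ≤ g s) →
      ∀ x y : ℝ, 0 ≤ x → x ≤ y → y ≤ t0 → ∫ s in x..y, g s ≤ ∫ s in (0:ℝ)..t0, g s := by
    intro g hg hg0 x y hx hxy hy
    refine intervalIntegral.integral_mono_interval hx hxy hy ?_ (hg _ _)
    exact Eventually.of_forall hg0
  obtain ⟨K1, hK1⟩ : ∃ K1 : ℝ, K1 = (∫ s in (0:ℝ)..t0, ‖ff k s‖ ^ 2) +
    2 * ∫ s in (0:ℝ)..t0, ‖DD k v s‖ ^ 2 := ⟨_, rfl⟩
  have ht00 : 0 ≤ t0 := by linarith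
  have hK10 : 0 ≤ K1 := by
    rw [hK1]
    have := hF0 0 t0 ht00
    have := hG0 0 t0 ht00
    linarith
  obtain ⟨K0, hK0⟩ : ∃ K0 : ℝ, K0 = ∫ s, ((1 + |s|) ^ 2)⁻¹ * lg s ^ 4 := ⟨_, rfl⟩
  have hK00 : 0 ≤ K0 := by
    rw [hK0]
    refine integral_nonneg fun s => ?_
    have := pos_abs s
    have := lg_nonneg s
    positivity
  obtain ⟨CB, hCB⟩ : ∃ CB : ℝ, CB = ∫ s, ‖ff k s‖ ^ 2 * lg s ^ 4 * Ek N t0 s := ⟨_, rfl⟩
  have hCB0 : 0 ≤ CB := by
    rw [hCB]
    refine integral_nonneg fun s => ?_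
    have := Ek_nonneg N t0 s
    have := lg_nonneg s
    positivity
  refine ⟨K1 + C0 * (5 * K0 + 2 * CB + 4 * CA + C2), by positivity, fun T hT a b ha hab hbT => ?_⟩
  have hT0 : 0 < T := by linarith
  have hT1 : 1 ≤ T := by linarith
  obtain ⟨h, hh⟩ : ∃ h : ℝ, h = T ^ ε := ⟨_, rfl⟩
  have hh1 : 1 ≤ h := by rw [hh]; exact Real.one_le_rpow hT1 hε.le
  rw [← hh]
  have hh0 : 0 ≤ h := by linarith
  have hXa := hF0 (a - h) (a + h) (by linarith)
  have hXb := hF0 (b - h) (b + h) (by linarith)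
  have hXc : 0 ≤ ∫ t in a..b, ‖ff k t‖ ^ 2 / (1 + t) :=
    intervalIntegral.integral_nonneg hab fun s hs => by
      have : 0 ≤ s := ha.trans hs.1
      positivity
  set Xa := ∫ t in (a - h)..(a + h), ‖ff k t‖ ^ 2 with hXadef
  set Xb := ∫ t in (b - h)..(b + h), ‖ff k t‖ ^ 2 with hXbdef
  set Xc := ∫ t in a..b, ‖ff k t‖ ^ 2 / (1 + t) with hXcdef
  have hX1 : 1 ≤ h * (Xa + Xb + Xc + 1) := by nlinarith
  have hKX : K1 ≤ K1 * (h * (Xa + Xb + Xc + 1)) := le_mul_of_one_le_right hK10 hX1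
  have hrest : 0 ≤ C0 * (5 * K0 + 2 * CB + 4 * CA + C2) * (h * (Xa + Xb + Xc + 1)) := by
    have : 0 ≤ Xa + Xb + Xc + 1 := by linarith
    positivity
  have hsmall : ∀ x y : ℝ, 0 ≤ x → x ≤ y → y ≤ t0 →
      |(∫ t in x..y, ‖ff k t‖ ^ 2) - 2 * ∫ t in x..y, ‖DD k v t‖ ^ 2| ≤ K1 := by
    intro x y hx hxy hy
    have e1 := hmono _ hFi (fun s => by positivity) x y hx hxy hy
    have e2 := hmono _ hGi (fun s => by positivity) x y hx hxy hy
    have e3 := hF0 x y hxy
    have e4 := hG0 x y hxy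
    have e5 := hF0 0 t0 ht00
    have e6 := hG0 0 t0 ht00
    rw [hK1, abs_le]
    constructor <;> linarith
  rcases lt_or_ge b t0 with hbt | hbt
  · have := hsmall a b ha hab hbt.le
    nlinarith
  obtain ⟨a', ha'⟩ : ∃ a' : ℝ, a' = max a t0 := ⟨_, rfl⟩
  have haa' : a ≤ a' := by rw [ha']; exact le_max_left _ _
  have hta' : t0 ≤ a' := by rw [ha']; exact le_max_right _ _
  have ha'b : a' ≤ b := by rw [ha']; exact max_le hab hbt
  have ha'0 : 0 ≤ a' := ha.trans haa'
  have hfirst : |(∫ t in a..a', ‖ff k t‖ ^ 2) - 2 * ∫ t in a..a', ‖DD k v t‖ ^ 2| ≤ K1 := by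
    rcases le_or_gt a t0 with hc | hc
    · rw [ha', max_eq_right hc]
      exact hsmall a t0 ha hc le_rfl
    · rw [ha', max_eq_left hc.le]
      simp only [intervalIntegral.integral_same, mul_zero, sub_zero, abs_zero]
      exact hK10
  have hwg : Wg k (N + 1) (wi a' b) (Om N a' b) := wg (by omega) ha'0 ha'b
  obtain ⟨-, -, hmain⟩ := hms (wi a' b) (Om N a' b) hwg (fun t ht => by
    unfold wi
    rw [indicator_of_notMem]
    rintro ⟨h1, -⟩
    linarith)
  have hconv : ∀ g : ℝ → ℝ, ∫ t, g t * wi a' b t = ∫ t in a'..b, g t := by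
    intro g
    rw [intervalIntegral.integral_of_le ha'b, ← integral_indicator measurableSet_Ioc]
    congr 1
    funext t
    unfold wi
    by_cases ht : t ∈ Ioc a' b
    · rw [indicator_of_mem ht, indicator_of_mem ht, mul_one]
    · rw [indicator_of_notMem ht, indicator_of_notMem ht, mul_zero]
  rw [hconv, hconv] at hmain
  -- the bound for the right-hand side
  have hIa := intE k N (by omega) a'
  have hIb := intE k N (by omega) b
  have hIc : Integrable ((Ioc a' b).indicator fun s => C2 * h * (‖ff k s‖ ^ 2 / (1 + s))) := by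
    refine IntegrableOn.integrable_indicator ?_ measurableSet_Ioc
    have hcon : ContinuousOn (fun s : ℝ => C2 * h * (‖ff k s‖ ^ 2 / (1 + s))) (Icc a' b) := by
      refine continuousOn_const.mul ((F_cont k).continuousOn.div (by fun_prop) fun s hs => ?_)
      have : 0 ≤ s := ha'0.trans hs.1
      positivity
    exact (hcon.integrableOn_Icc).mono_set Ioc_subset_Icc_self
  have hJ : ∫ s, (‖ff k s‖ ^ 2 + ((1 + |s|) ^ 2)⁻¹) * lg s ^ 4 * Om N a' b s ≤
      5 * K0 + 2 * (∫ s, ‖ff k s‖ ^ 2 * lg s ^ 4 * Ek N a' s) +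
        2 * (∫ s, ‖ff k s‖ ^ 2 * lg s ^ 4 * Ek N b s) + C2 * h * Xc := by
    have hb1 : ∫ s, (‖ff k s‖ ^ 2 + ((1 + |s|) ^ 2)⁻¹) * lg s ^ 4 * Om N a' b s ≤
        ∫ s, (5 * (((1 + |s|) ^ 2)⁻¹ * lg s ^ 4) + 2 * (‖ff k s‖ ^ 2 * lg s ^ 4 * Ek N a' s) +
          2 * (‖ff k s‖ ^ 2 * lg s ^ 4 * Ek N b s) +
          (Ioc a' b).indicator (fun s => C2 * h * (‖ff k s‖ ^ 2 / (1 + s))) s) := by
      refine integral_mono_of_nonneg (Eventually.of_forall fun s => ?_)
        ((((int_P1.const_mul 5).add (hIa.const_mul 2)).add (hIb.const_mul 2)).add hIc)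
        (Eventually.of_forall fun s => ?_)
      · have e1 := Om_nonneg N a' b s
        have e2 := pos_abs s
        have e3 := lg_nonneg s
        change 0 ≤ (‖ff k s‖ ^ 2 + ((1 + |s|) ^ 2)⁻¹) * lg s ^ 4 * Om N a' b s
        positivity
      · change (‖ff k s‖ ^ 2 + ((1 + |s|) ^ 2)⁻¹) * lg s ^ 4 * Om N a' b s ≤
          5 * (((1 + |s|) ^ 2)⁻¹ * lg s ^ 4) + 2 * (‖ff k s‖ ^ 2 * lg s ^ 4 * Ek N a' s) +
          2 * (‖ff k s‖ ^ 2 * lg s ^ 4 * Ek N b s) +
          (Ioc a' b).indicator (fun s => C2 * h * (‖ff k s‖ ^ 2 / (1 + s))) s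
        have hl : 0 ≤ lg s ^ 4 := pow_nonneg (lg_nonneg s) 4
        have e1 := Om_le N a' b s
        have e2 := pos_abs s
        have e3 := Ek_le_one N a' s
        have e4 := Ek_le_one N b s
        have hF : 0 ≤ ‖ff k s‖ ^ 2 := by positivity
        have e5 : (1 + |s|)⁻¹ ≤ 1 := inv_le_one_of_one_le₀ (one_le_abs s)
        have e50 : 0 ≤ (1 + |s|)⁻¹ := by positivity
        have e6 : Om N a' b s ≤ 5 := by
          refine e1.trans ?_
          by_cases hs : s ∈ Ioc a' b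
          · rw [indicator_of_mem hs]; linarith
          · rw [indicator_of_notMem hs]; linarith
        have e7 : ((1 + |s|) ^ 2)⁻¹ * lg s ^ 4 * Om N a' b s ≤
            5 * (((1 + |s|) ^ 2)⁻¹ * lg s ^ 4) := by
          have : 0 ≤ ((1 + |s|) ^ 2)⁻¹ * lg s ^ 4 := by positivity
          nlinarith
        have e8 : ‖ff k s‖ ^ 2 * lg s ^ 4 * Om N a' b s ≤
            2 * (‖ff k s‖ ^ 2 * lg s ^ 4 * Ek N a' s) +
            2 * (‖ff k s‖ ^ 2 * lg s ^ 4 * Ek N b s) +
            (Ioc a' b).indicator (fun s => C2 * h * (‖ff k s‖ ^ 2 / (1 + s))) s := by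
          have hFl : 0 ≤ ‖ff k s‖ ^ 2 * lg s ^ 4 := by positivity
          have e9 := mul_le_mul_of_nonneg_left e1 hFl
          have e10 : ‖ff k s‖ ^ 2 * lg s ^ 4 * (Ioc a' b).indicator (fun s => (1 + |s|)⁻¹) s ≤
              (Ioc a' b).indicator (fun s => C2 * h * (‖ff k s‖ ^ 2 / (1 + s))) s := by
            by_cases hs : s ∈ Ioc a' b
            · rw [indicator_of_mem hs, indicator_of_mem hs]
              have hs0 : 0 ≤ s := ha'0.trans hs.1.le
              have e11 : lg s ^ 4 ≤ C2 * h := by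
                have := h2 T hT s (by
                  rw [abs_of_nonneg hs0, ← hh]
                  linarith [hs.2])
                rw [← hh] at this
                exact this
              rw [abs_of_nonneg hs0, div_eq_mul_inv]
              have e12 : 0 ≤ (1 + s)⁻¹ := by positivity
              calc ‖ff k s‖ ^ 2 * lg s ^ 4 * (1 + s)⁻¹ ≤ ‖ff k s‖ ^ 2 * (C2 * h) * (1 + s)⁻¹ := by
                    gcongr
                _ = _ := by ring
            · rw [indicator_of_notMem hs, indicator_of_notMem hs, mul_zero]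
          nlinarith
        nlinarith
    refine hb1.trans ?_
    have iA : Integrable fun s => 5 * (((1 + |s|) ^ 2)⁻¹ * lg s ^ 4) +
        2 * (‖ff k s‖ ^ 2 * lg s ^ 4 * Ek N a' s) := (int_P1.const_mul 5).add (hIa.const_mul 2)
    have iB : Integrable fun s => 5 * (((1 + |s|) ^ 2)⁻¹ * lg s ^ 4) +
        2 * (‖ff k s‖ ^ 2 * lg s ^ 4 * Ek N a' s) + 2 * (‖ff k s‖ ^ 2 * lg s ^ 4 * Ek N b s) :=
      iA.add (hIb.const_mul 2)
    rw [integral_add iB hIc, integral_add iA (hIb.const_mul 2),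
      integral_add (int_P1.const_mul 5) (hIa.const_mul 2), integral_const_mul,
      integral_const_mul, integral_const_mul, ← hK0, integral_indicator measurableSet_Ioc,
      integral_const_mul]
    have e1 : ∫ s in Ioc a' b, ‖ff k s‖ ^ 2 / (1 + s) ≤ Xc := by
      rw [hXcdef, intervalIntegral.integral_of_le hab]
      refine setIntegral_mono_set ?_ ?_ (Eventually.of_forall (Ioc_subset_Ioc_left haa'))
      · have hcon : ContinuousOn (fun s : ℝ => (‖ff k s‖ ^ 2 / (1 + s))) (Icc a b) := by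
          refine ((F_cont k).continuousOn.div (by fun_prop) fun s hs => ?_)
          have : 0 ≤ s := ha.trans hs.1
          positivity
        exact (hcon.integrableOn_Icc).mono_set Ioc_subset_Icc_self
      · refine (ae_restrict_iff' measurableSet_Ioc).2 (Eventually.of_forall fun s hs => ?_)
        have : 0 ≤ s := ha.trans hs.1.le
        change (0 : ℝ) ≤ ‖ff k s‖ ^ 2 / (1 + s)
        positivity
    have e2 := mul_le_mul_of_nonneg_left e1 (show 0 ≤ C2 * h by positivity)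
    linarith
  have hJb := hA' T hT b (ha.trans hab) hbT
  rw [← hh, ← hXbdef] at hJb
  have hJa : ∫ s, ‖ff k s‖ ^ 2 * lg s ^ 4 * Ek N a' s ≤ CA * h * (Xa + 1) + CB := by
    have hp : 0 ≤ CA * h * (Xa + 1) := by
      have : 0 ≤ Xa + 1 := by linarith
      positivity
    rcases le_or_gt a t0 with hc | hc
    · rw [ha', max_eq_right hc, ← hCB]
      linarith
    · rw [ha', max_eq_left hc.le]
      have := hA' T hT a ha (hab.trans hbT)
      rw [← hh, ← hXadef] at this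
      linarith
  have hJ2 : ∫ s, (‖ff k s‖ ^ 2 + ((1 + |s|) ^ 2)⁻¹) * lg s ^ 4 * Om N a' b s ≤
      (5 * K0 + 2 * CB + 4 * CA + C2) * (h * (Xa + Xb + Xc + 1)) := by
    obtain ⟨X, hX⟩ : ∃ X : ℝ, X = Xa + Xb + Xc + 1 := ⟨_, rfl⟩
    rw [← hX] at hX1 ⊢
    have q1 : 5 * K0 ≤ 5 * K0 * (h * X) := le_mul_of_one_le_right (by positivity) hX1
    have q2 : 2 * CB ≤ 2 * CB * (h * X) := le_mul_of_one_le_right (by positivity) hX1
    have q3 : CA * h * (Xa + 1) ≤ CA * h * X :=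
      mul_le_mul_of_nonneg_left (by linarith) (by positivity)
    have q4 : CA * h * (Xb + 1) ≤ CA * h * X :=
      mul_le_mul_of_nonneg_left (by linarith) (by positivity)
    have q5 : C2 * h * Xc ≤ C2 * h * X :=
      mul_le_mul_of_nonneg_left (by linarith) (by positivity)
    have q6 : (5 * K0 + 2 * CB + 4 * CA + C2) * (h * X) =
        5 * K0 * (h * X) + 2 * CB * (h * X) + 4 * (CA * h * X) + C2 * h * X := by ring
    rw [q6]
    linarith
  have hmain2 : |(∫ t in a'..b, ‖ff k t‖ ^ 2) - 2 * ∫ t in a'..b, ‖DD k v t‖ ^ 2| ≤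
      C0 * ((5 * K0 + 2 * CB + 4 * CA + C2) * (h * (Xa + Xb + Xc + 1))) :=
    hmain.trans (mul_le_mul_of_nonneg_left hJ2 hC0)
  have hsplitF := intervalIntegral.integral_add_adjacent_intervals (hFi a a') (hFi a' b)
  have hsplitG := intervalIntegral.integral_add_adjacent_intervals (hGi a a') (hGi a' b)
  rw [← hsplitF, ← hsplitG]
  have hfin : |(∫ t in a..a', ‖ff k t‖ ^ 2) + (∫ t in a'..b, ‖ff k t‖ ^ 2) -
      2 * ((∫ t in a..a', ‖DD k v t‖ ^ 2) + ∫ t in a'..b, ‖DD k v t‖ ^ 2)| ≤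
      K1 + C0 * ((5 * K0 + 2 * CB + 4 * CA + C2) * (h * (Xa + Xb + Xc + 1))) := by
    have e1 := abs_le.1 hfirst
    have e2 := abs_le.1 hmain2
    rw [abs_le]
    constructor <;> linarith [e1.1, e1.2, e2.1, e2.2]
  refine hfin.trans ?_
  have : (K1 + C0 * (5 * K0 + 2 * CB + 4 * CA + C2)) * h * (Xa + Xb + Xc + 1) =
      K1 * (h * (Xa + Xb + Xc + 1)) +
        C0 * ((5 * K0 + 2 * CB + 4 * CA + C2) * (h * (Xa + Xb + Xc + 1))) := by ring
  rw [this]
  linarith

end Pool.Agent.J6H39.PI
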