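import Pool.Agent.J6H39.PI.Stm

/-!
# Symbol bounds and identities
-/

set_option autoImplicit false

open MeasureTheory Set Filter Topology
open scoped ContDiff

namespace Pool.Agent.J6H39.PI

namespace SYX

/-- smooth, with bounded derivatives -/
def Bd (A : ℕ → ℝ) (g : ℝ → ℝ) : Prop :=
  ContDiff ℝ ∞ g ∧ ∀ j x, |iteratedDeriv j g x| ≤ A j

theorem Bd.nonneg {A : ℕ → ℝ} {g : ℝ → ℝ} (h : Bd A g) (j : ℕ) : 0 ≤ A j :=
  (abs_nonneg _).trans (h.2 j 0)

theorem Bd.mono {A B : ℕ → ℝ} {g : ℝ → ℝ} (h : Bd A g) (hAB : ∀ j, A j ≤ B j) : Bd B g :=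
  ⟨h.1, fun j x => (h.2 j x).trans (hAB j)⟩

theorem contAt {g : ℝ → ℝ} (h : ContDiff ℝ ∞ g) (n : ℕ) (x : ℝ) : ContDiffAt ℝ n g x :=
  (h.of_le (by exact_mod_cast le_top)).contDiffAt

/-- the bounds for a product -/
noncomputable def mb (A B : ℕ → ℝ) (j : ℕ) : ℝ :=
  ∑ i ∈ Finset.range (j + 1), (j.choose i : ℝ) * A i * B (j - i)

theorem Bd.mul {A B : ℕ → ℝ} {f g : ℝ → ℝ} (hf : Bd A f) (hg : Bd B g) :
    Bd (mb A B) (fun x => f x * g x) := by
  refine ⟨hf.1.mul hg.1, fun j x => ?_⟩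
  rw [iteratedDeriv_fun_mul (contAt hf.1 j x) (contAt hg.1 j x)]
  refine (Finset.abs_sum_le_sum_abs _ _).trans (Finset.sum_le_sum fun i _ => ?_)
  rw [abs_mul, abs_mul, Nat.abs_cast]
  have h1 := hf.2 i x
  have h2 := hg.2 (j - i) x
  have h3 := hf.nonneg i
  gcongr

theorem Bd.sub {A B : ℕ → ℝ} {f g : ℝ → ℝ} (hf : Bd A f) (hg : Bd B g) :
    Bd (fun j => A j + B j) (fun x => f x - g x) := by
  refine ⟨hf.1.sub hg.1, fun j x => ?_⟩
  rw [iteratedDeriv_fun_sub (contAt hf.1 j x) (contAt hg.1 j x)]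
  exact (abs_sub _ _).trans (add_le_add (hf.2 j x) (hg.2 j x))

theorem Bd.sq {A : ℕ → ℝ} {f : ℝ → ℝ} (hf : Bd A f) : Bd (mb A A) (fun x => f x ^ 2) := by
  have h := hf.mul hf
  have e : (fun x => f x * f x) = fun x => f x ^ 2 := by
    funext x
    ring
  rwa [e] at h

theorem Bd.sub_const {A : ℕ → ℝ} {f : ℝ → ℝ} (hf : Bd A f) (s : ℝ) : Bd A (fun x => f (x - s)) := by
  refine ⟨hf.1.comp (contDiff_id.sub contDiff_const), fun j x => ?_⟩
  rw [iteratedDeriv_comp_sub_const]
  exact hf.2 j _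

theorem Bd.const_add {A : ℕ → ℝ} {f : ℝ → ℝ} (hf : Bd A f) (s : ℝ) : Bd A (fun x => f (s + x)) := by
  refine ⟨hf.1.comp (contDiff_const.add contDiff_id), fun j x => ?_⟩
  rw [iteratedDeriv_comp_const_add]
  exact hf.2 j _

theorem Bd.const_sub {A : ℕ → ℝ} {f : ℝ → ℝ} (hf : Bd A f) (s : ℝ) : Bd A (fun x => f (s - x)) := by
  refine ⟨hf.1.comp (contDiff_const.sub contDiff_id), fun j x => ?_⟩
  rw [iteratedDeriv_comp_const_sub]
  simp only [smul_eq_mul, abs_mul, abs_pow, abs_neg, abs_one, one_pow, one_mul]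
  exact hf.2 j _

/-- the difference of two translates -/
theorem Bd.diff {A : ℕ → ℝ} {f : ℝ → ℝ} (hf : Bd A f) (X Y : ℝ) :
    Bd (fun j => A (j + 1) * |X - Y|) (fun x => f (x - X) - f (x - Y)) := by
  have h1 := hf.sub_const X
  have h2 := hf.sub_const Y
  refine ⟨h1.1.sub h2.1, fun j x => ?_⟩
  rw [iteratedDeriv_fun_sub (contAt h1.1 j x) (contAt h2.1 j x), iteratedDeriv_comp_sub_const,
    iteratedDeriv_comp_sub_const]
  have hd : Differentiable ℝ (iteratedDeriv j f) :=
    hf.1.differentiable_iteratedDeriv j (by exact_mod_cast ENat.natCast_lt_top j)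
  have h3 := Convex.norm_image_sub_le_of_norm_deriv_le (f := iteratedDeriv j f) (C := A (j + 1))
    (s := Set.univ) (x := x - Y) (y := x - X) (fun z _ => hd z) (fun z _ => by
      rw [← iteratedDeriv_succ, Real.norm_eq_abs]
      exact hf.2 (j + 1) z) convex_univ (Set.mem_univ _) (Set.mem_univ _)
  rw [Real.norm_eq_abs, Real.norm_eq_abs] at h3
  refine h3.trans (le_of_eq ?_)
  rw [show x - X - (x - Y) = -(X - Y) by ring, abs_neg]

/-- smooth functions which are constant outside of a compact interval -/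
theorem exists_bd {g : ℝ → ℝ} (hg : ContDiff ℝ ∞ g) {a b c1 c2 : ℝ} (h1 : ∀ x, x ≤ a → g x = c1)
    (h2 : ∀ x, b ≤ x → g x = c2) : ∃ A : ℕ → ℝ, Bd A g := by
  have key : ∀ j : ℕ, ∃ M : ℝ, ∀ x, |iteratedDeriv j g x| ≤ M := by
    intro j
    have hc : Continuous (iteratedDeriv j g) := hg.continuous_iteratedDeriv j (by exact_mod_cast le_top)
    obtain ⟨M, hM⟩ := (isCompact_Icc (a := a - 1) (b := b + 1)).exists_bound_of_continuousOn
      hc.continuousOn
    refine ⟨max M (max |c1| |c2|), fun x => ?_⟩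
    by_cases hx1 : x < a - 1
    · have e : g =ᶠ[𝓝 x] fun _ => c1 := by
        filter_upwards [gt_mem_nhds hx1] with y hy
        exact h1 y (by linarith)
      rw [e.iteratedDeriv_eq, iteratedDeriv_const]
      split_ifs
      · exact (le_max_left _ _).trans (le_max_right _ _)
      · rw [abs_zero]
        exact (abs_nonneg c1).trans ((le_max_left _ _).trans (le_max_right _ _))
    by_cases hx2 : b + 1 < x
    · have e : g =ᶠ[𝓝 x] fun _ => c2 := by
        filter_upwards [lt_mem_nhds hx2] with y hy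
        exact h2 y (by linarith)
      rw [e.iteratedDeriv_eq, iteratedDeriv_const]
      split_ifs
      · exact (le_max_right _ _).trans (le_max_right _ _)
      · rw [abs_zero]
        exact (abs_nonneg c1).trans ((le_max_left _ _).trans (le_max_right _ _))
    · exact (hM x ⟨not_lt.1 hx1, not_lt.1 hx2⟩).trans (le_max_left _ _)
  choose A hA using key
  exact ⟨A, hg, hA⟩

theorem ee_one {x : ℝ} (h : 0 ≤ x) : ee x = 1 :=
  Real.smoothTransition.one_of_one_le (by linarith)

theorem ee_zero {x : ℝ} (h : x ≤ -1) : ee x = 0 :=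
  Real.smoothTransition.zero_of_nonpos (by linarith)

theorem ee_bd : ∃ E : ℕ → ℝ, Bd E ee := by
  refine exists_bd (a := -1) (b := 0) ?_ (fun x hx => ee_zero hx) (fun x hx => ee_one hx)
  exact Real.smoothTransition.contDiff.comp (contDiff_id.add contDiff_const)

end SYX

open SYX in
theorem t_SY : S_SY := by
  intro v hv
  have v1 : ∀ x, x ≤ -1 → v x = 1 := hv.one
  have v0 : ∀ x, 1 ≤ x → v x = 0 := by
    intro x hx
    have h := hv.sq x
    rw [v1 (-x) (by linarith)] at h
    have : v x ^ 2 = 0 := by linarith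
    exact pow_eq_zero_iff (two_ne_zero) |>.1 this
  obtain ⟨E, hE⟩ := ee_bd
  obtain ⟨A, hA⟩ := exists_bd hv.smooth v1 v0
  -- the functions
  have hV : ∀ X, Bd (mb E A) (Vx v X) := fun X => hE.mul (hA.sub_const X)
  have hG : ∀ X, Bd (mb (mb E A) (mb E A)) (Gx v X) := fun X => (hV X).sq
  have hD : ∀ X Y, Bd (mb E fun j => A (j + 1) * |X - Y|) (fun x => Vx v X x - Vx v Y x) := by
    intro X Y
    have h := hE.mul (hA.diff X Y)
    have e : (fun x => ee x * (v (x - X) - v (x - Y))) = fun x => Vx v X x - Vx v Y x := by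
      funext x
      unfold Vx
      ring
    rwa [e] at h
  have hQ : Bd (mb E E) (fun x => ee x ^ 2) := hE.sq
  have hS : ∀ m, Bd (fun j => mb E E j + mb E E j) (fun x => ee (m + x) ^ 2 - ee x ^ 2) :=
    fun m => (hQ.const_add m).sub hQ
  have hP : ∀ m, Bd (mb (mb E E) (mb E E)) (fun x => ee x ^ 2 * ee (m - x) ^ 2) :=
    fun m => hQ.mul (hQ.const_sub m)
  set M1 := mb E A with hM1
  set M2 := mb (mb E A) (mb E A) with hM2
  set M3 := mb E (fun j => A (j + 1)) with hM3
  set M4 := fun j => mb E E j + mb E E j with hM4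
  set M5 := mb (mb E E) (mb E E) with hM5
  have n1 : ∀ j, 0 ≤ M1 j := fun j => (hV 1).nonneg j
  have n2 : ∀ j, 0 ≤ M2 j := fun j => (hG 1).nonneg j
  have n3 : ∀ j, 0 ≤ M3 j := by
    intro j
    rw [hM3]
    unfold mb
    refine Finset.sum_nonneg fun i _ => ?_
    have := hE.nonneg i
    have := hA.nonneg (j - i + 1)
    positivity
  have n4 : ∀ j, 0 ≤ M4 j := fun j => (hS 1).nonneg j
  have n5 : ∀ j, 0 ≤ M5 j := fun j => (hP 1).nonneg j
  refine ⟨fun j => M1 j + M2 j + M3 j + M4 j + M5 j, ?_, ?_, ?_, ?_, ?_⟩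
  · intro X hX
    have supp : ∀ x, X + 1 < |x| → Vx v X x = 0 := by
      intro x hx
      unfold Vx
      rcases lt_abs.1 hx with h | h
      · rw [v0 (x - X) (by linarith), mul_zero]
      · rw [ee_zero (by linarith), zero_mul]
    refine ⟨⟨(hV X).1, supp, fun j x => ((hV X).2 j x).trans ?_⟩,
      ⟨(hG X).1, fun x hx => ?_, fun j x => ((hG X).2 j x).trans ?_⟩⟩
    · linarith [n1 j, n2 j, n3 j, n4 j, n5 j]
    · unfold Gx
      rw [supp x hx]
      norm_num
    · linarith [n1 j, n2 j, n3 j, n4 j, n5 j]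
  · intro X Y hX hY
    refine ⟨(hD X Y).1, fun x hx => ?_, fun j x => ((hD X Y).2 j x).trans ?_⟩
    · have hX' := le_max_left X Y
      have hY' := le_max_right X Y
      show Vx v X x - Vx v Y x = 0
      unfold Vx
      rcases lt_abs.1 hx with h | h
      · rw [v0 (x - X) (by linarith), v0 (x - Y) (by linarith)]
        ring
      · rw [ee_zero (by linarith)]
        ring
    · have e : mb E (fun j => A (j + 1) * |X - Y|) j = M3 j * |X - Y| := by
        rw [hM3]
        unfold mb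
        rw [Finset.sum_mul]
        exact Finset.sum_congr rfl fun i _ => by ring
      rw [e]
      exact mul_le_mul_of_nonneg_right (by linarith [n1 j, n2 j, n3 j, n4 j, n5 j]) (abs_nonneg _)
  · intro m hm
    refine ⟨⟨(hS m).1, fun x hx => ?_, fun j x => ((hS m).2 j x).trans ?_⟩,
      ⟨(hP m).1, fun x hx => ?_, fun j x => ((hP m).2 j x).trans ?_⟩⟩
    · show ee (m + x) ^ 2 - ee x ^ 2 = 0
      rcases lt_abs.1 hx with h | h
      · rw [ee_one (by linarith), ee_one (by linarith)]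
        ring
      · rw [ee_zero (by linarith), ee_zero (by linarith)]
        ring
    · linarith [n1 j, n2 j, n3 j, n4 j, n5 j]
    · show ee x ^ 2 * ee (m - x) ^ 2 = 0
      rcases lt_abs.1 hx with h | h
      · rw [ee_zero (x := m - x) (by linarith)]
        ring
      · rw [ee_zero (x := x) (by linarith)]
        ring
    · linarith [n1 j, n2 j, n3 j, n4 j, n5 j]
  · intro X hX x
    unfold Gx Vx
    rw [show 2 * X - x - X = X - x by ring]
    rcases lt_or_ge x 0 with h | h
    · rw [v1 (x - X) (by linarith), v0 (X - x) (by linarith), ee_one (x := 2 * X - x) (by linarith)]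
      ring
    rcases le_or_gt x (2 * X) with h' | h'
    · rw [ee_one h, ee_one (x := 2 * X - x) (by linarith)]
      have := hv.sq (x - X)
      rw [neg_sub] at this
      linarith
    · rw [v0 (x - X) (by linarith), v1 (X - x) (by linarith), ee_one h]
      ring
  · intro X m hX hm x
    rw [show m - 2 * X + (2 * X - x) = m - x by ring]
    rcases lt_or_ge x 0 with h | h
    · rw [ee_one (x := m - x) (by linarith), ee_one (x := 2 * X - x) (by linarith)]
      ring
    · rw [ee_one h]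
      ring

end Pool.Agent.J6H39.PI
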