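import Pool.Agent.J6H39.PI.Stm
import Pool.Agent.J6H39.CG.Ker

/-!
# Project PI: upper bound for the moment over an interval (`S_UP`)
-/

set_option autoImplicit false

open MeasureTheory Set Filter Topology Complex
open scoped ContDiff

namespace Pool.Agent.J6H39.PI

open Pool.Agent.J6H39.CG (zh uu PG Tst)
open Pool.Agent.J6H39.SP (ds)

namespace UPx

/-! ### The distance -/

theorem ds_nonneg (a b s : ℝ) : 0 ≤ ds a b s := le_max_left _ _

theorem ds_lip (a b s t : ℝ) : |ds a b s - ds a b t| ≤ |s - t| := by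
  unfold ds
  refine (abs_max_sub_max_le_max _ _ _ _).trans (max_le (by simp) ?_)
  refine (abs_max_sub_max_le_max _ _ _ _).trans (max_le ?_ ?_)
  · rw [show a - s - (a - t) = -(s - t) by ring, abs_neg]
  · rw [show s - b - (t - b) = s - t by ring]

theorem ds_cont (a b : ℝ) : Continuous (ds a b) := by
  unfold ds
  fun_prop

theorem ds_abs {a b : ℝ} (ha : 0 ≤ a) (hab : a ≤ b) (s : ℝ) : ds a b |s| ≤ ds a b s := by
  rcases le_total 0 s with h | h
  · rw [abs_of_nonneg h]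
  · rw [abs_of_nonpos h]
    unfold ds
    refine max_le (le_max_left _ _) (max_le ?_ ?_)
    · exact le_max_of_le_right (le_max_of_le_left (by linarith))
    · exact le_max_of_le_right (le_max_of_le_left (by linarith))

theorem abs_le_ds {a b : ℝ} (ha : 0 ≤ a) (hab : a ≤ b) (s : ℝ) : |s| ≤ b + ds a b s := by
  have h1 : a - s ≤ ds a b s := le_max_of_le_right (le_max_left _ _)
  have h2 : s - b ≤ ds a b s := le_max_of_le_right (le_max_right _ _)
  exact abs_le.2 ⟨by linarith, by linarith⟩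

theorem ds_zero {a b s : ℝ} (h1 : a ≤ s) (h2 : s ≤ b) : ds a b s = 0 := by
  unfold ds
  apply le_antisymm _ (le_max_left _ _)
  exact max_le le_rfl (max_le (by linarith) (by linarith))

theorem lt_ds {a b s E : ℝ} (h : s ∉ Icc (a - E) (b + E)) : E < ds a b s := by
  rw [mem_Icc, not_and_or] at h
  unfold ds
  rcases h with h | h
  · exact lt_max_of_lt_right (lt_max_of_lt_left (by linarith))
  · exact lt_max_of_lt_right (lt_max_of_lt_right (by linarith))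

/-! ### Elementary inequalities -/

theorem inv_pow_le {x y c : ℝ} (hx : 0 < x) (hy : 0 < y) (h : x ≤ c * y) (N : ℕ) :
    (y ^ N)⁻¹ ≤ c ^ N * (x ^ N)⁻¹ := by
  rw [← div_eq_mul_inv, le_div_iff₀ (by positivity), inv_mul_le_iff₀ (by positivity), ← mul_pow,
    mul_comm y c]
  exact pow_le_pow_left₀ hx.le h N

theorem lg_one_le (s : ℝ) : 1 ≤ lg s := by
  unfold lg
  have : 0 ≤ Real.log (1 + |s|) := Real.log_nonneg (by linarith [abs_nonneg s])
  linarith

theorem lg_pow (m : ℕ) (s : ℝ) : lg s ^ m ≤ (m.factorial : ℝ) * Real.exp 1 * (1 + |s|) := by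
  have h0 := lg_one_le s
  have hr : 0 < 1 + |s| := by positivity
  have h1 := Real.pow_div_factorial_le_exp (x := lg s) (by linarith) m
  rw [div_le_iff₀ (by positivity)] at h1
  have h2 : Real.exp (lg s) = Real.exp 1 * (1 + |s|) := by
    unfold lg
    rw [Real.exp_add, Real.exp_log hr]
  rw [h2] at h1
  linarith

/-! ### The weight -/

/-- the weight on the whole line -/
noncomputable def W0 (N : ℕ) (a b H s : ℝ) : ℝ := ((1 + ds a b s / H) ^ N)⁻¹

section wt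

variable {N : ℕ} {a b H : ℝ}

theorem base (hH : 1 ≤ H) (s : ℝ) : 1 ≤ 1 + ds a b s / H := by
  have := ds_nonneg a b s
  have : 0 ≤ ds a b s / H := by positivity
  linarith

theorem W0_pos (hH : 1 ≤ H) (s : ℝ) : 0 < W0 N a b H s := by
  have := base (a := a) (b := b) hH s
  unfold W0
  positivity

theorem W0_le_one (hH : 1 ≤ H) (s : ℝ) : W0 N a b H s ≤ 1 :=
  inv_le_one_of_one_le₀ (one_le_pow₀ (base hH s))

theorem W0_cont (hH : 1 ≤ H) : Continuous (W0 N a b H) := by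
  unfold W0
  have := ds_cont a b
  refine Continuous.inv₀ (by fun_prop) fun s => ?_
  have := base (a := a) (b := b) hH s
  positivity

theorem W0_abs (hH : 1 ≤ H) (ha : 0 ≤ a) (hab : a ≤ b) (s : ℝ) :
    W0 N a b H s ≤ W0 N a b H |s| := by
  unfold W0
  have h1 := base (a := a) (b := b) hH |s|
  have h2 := ds_abs ha hab s
  apply inv_anti₀ (by positivity)
  gcongr

theorem W0_zero {s : ℝ} (h1 : a ≤ s) (h2 : s ≤ b) : W0 N a b H s = 1 := by
  unfold W0
  rw [ds_zero h1 h2]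
  simp

theorem base_shift (hH : 1 ≤ H) (s t : ℝ) :
    1 + ds a b s / H ≤ (1 + |s - t|) * (1 + ds a b t / H) := by
  have h1 := ds_lip a b s t
  have h2 := (abs_le.1 h1).2
  have h3 := base (a := a) (b := b) hH t
  have h4 : ds a b s / H ≤ ds a b t / H + |s - t| / H := by
    rw [← add_div]
    gcongr
    linarith
  have h5 : |s - t| / H ≤ |s - t| := div_le_self (abs_nonneg _) hH
  have h6 : 0 ≤ |s - t| * (ds a b t / H) := mul_nonneg (abs_nonneg _) (by linarith)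
  nlinarith

theorem W0_tame (hH : 1 ≤ H) (s u : ℝ) :
    W0 N a b H (s + u) ≤ (1 + |u|) ^ N * W0 N a b H s := by
  have h := base_shift (a := a) (b := b) hH s (s + u)
  rw [show s - (s + u) = -u by ring, abs_neg] at h
  exact inv_pow_le (by linarith [base (a := a) (b := b) hH s])
    (by linarith [base (a := a) (b := b) hH (s + u)]) h N

theorem W0_shift (hH : 1 ≤ H) (s u : ℝ) :
    |W0 N a b H (s + u) - W0 N a b H s| ≤ N * (1 + |u|) ^ (N + 1) * (W0 N a b H s / H) := by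
  set p := 1 + ds a b s / H with hp
  set q := 1 + ds a b (s + u) / H with hq
  have hp1 : 1 ≤ p := base hH s
  have hq1 : 1 ≤ q := base hH (s + u)
  have hH0 : 0 < H := by linarith
  have h1 : |p - q| ≤ |u| / H := by
    have e : p - q = (ds a b s - ds a b (s + u)) / H := by rw [hp, hq]; ring
    have := ds_lip a b s (s + u)
    rw [show s - (s + u) = -u by ring, abs_neg] at this
    rw [e, abs_div, abs_of_pos hH0]
    exact div_le_div_of_nonneg_right this hH0.le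
  have h2 : p ≤ (1 + |u|) * q := by
    have h := base_shift (a := a) (b := b) hH s (s + u)
    rwa [show s - (s + u) = -u by ring, abs_neg] at h
  have h3 : max |p| |q| ≤ (1 + |u|) * q := by
    rw [abs_of_pos (by linarith), abs_of_pos (by linarith)]
    refine max_le h2 ?_
    have := mul_nonneg (abs_nonneg u) (by linarith : (0 : ℝ) ≤ q)
    linarith
  have h4 := abs_pow_sub_pow_le p q N
  have h5 : max |p| |q| ^ (N - 1) ≤ ((1 + |u|) * q) ^ N := by
    have h6 : 1 ≤ max |p| |q| := le_max_of_le_left (by rw [abs_of_pos (by linarith)]; exact hp1)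
    calc max |p| |q| ^ (N - 1) ≤ max |p| |q| ^ N := pow_le_pow_right₀ h6 (by omega)
      _ ≤ _ := pow_le_pow_left₀ (by linarith) h3 N
  have h7 : |p ^ N - q ^ N| ≤ |u| / H * N * ((1 + |u|) * q) ^ N :=
    h4.trans (by gcongr)
  have hpN : 0 < p ^ N := by positivity
  have hqN : 0 < q ^ N := by positivity
  have h8 : W0 N a b H (s + u) - W0 N a b H s = (p ^ N - q ^ N) / (p ^ N * q ^ N) := by
    show (q ^ N)⁻¹ - (p ^ N)⁻¹ = _
    field_simp
  rw [h8, abs_div, abs_of_pos (by positivity : 0 < p ^ N * q ^ N), div_le_iff₀ (by positivity)]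
  refine h7.trans ?_
  have h9 : (N : ℝ) * (1 + |u|) ^ (N + 1) * (W0 N a b H s / H) * (p ^ N * q ^ N) =
      (1 + |u|) / H * N * ((1 + |u|) * q) ^ N := by
    have e : W0 N a b H s = (p ^ N)⁻¹ := rfl
    rw [e, mul_pow]
    field_simp
    ring
  rw [h9]
  have h10 : |u| ≤ 1 + |u| := by linarith
  gcongr

theorem W0_dec (hH : 1 ≤ H) (ha : 0 ≤ a) (hab : a ≤ b) (s : ℝ) :
    W0 N a b H s ≤ ((1 + b) * H) ^ N * ((1 + |s|) ^ N)⁻¹ := by
  refine inv_pow_le (by positivity) (by linarith [base (a := a) (b := b) hH s]) ?_ N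
  have h1 := abs_le_ds ha hab s
  have h2 := ds_nonneg a b s
  have hH0 : H ≠ 0 := by positivity
  have e : (1 + b) * H * (1 + ds a b s / H) = (1 + b) * (H + ds a b s) := by
    field_simp
  rw [e]
  have hb : 0 ≤ b := ha.trans hab
  have h3 : 0 ≤ b * ds a b s := mul_nonneg hb h2
  have h4 : 0 ≤ b * (H - 1) := mul_nonneg hb (by linarith)
  nlinarith

/-- the weight -/
noncomputable def ww (N : ℕ) (a b H t₀ s : ℝ) : ℝ := if t₀ ≤ s then W0 N a b H s else 0

/-- the majorant of the increments -/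
noncomputable def Om (N : ℕ) (a b H t₀ s : ℝ) : ℝ :=
  (N + 1) * (W0 N a b H s / H + W0 N a b H s / (1 + |s|) + ((1 + |s - t₀|) ^ N)⁻¹)

variable {t₀ : ℝ}

theorem ww_le (hH : 1 ≤ H) (s : ℝ) : ww N a b H t₀ s ≤ W0 N a b H s := by
  unfold ww
  split_ifs
  · exact le_rfl
  · exact (W0_pos hH s).le

theorem ww_nonneg (hH : 1 ≤ H) (s : ℝ) : 0 ≤ ww N a b H t₀ s := by
  unfold ww
  split_ifs
  · exact (W0_pos hH s).le
  · exact le_rfl

theorem ww_meas (hH : 1 ≤ H) : Measurable (ww N a b H t₀) := by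
  unfold ww
  exact Measurable.ite measurableSet_Ici (W0_cont hH).measurable measurable_const

theorem Om_meas (hH : 1 ≤ H) : Measurable (Om N a b H t₀) := by
  unfold Om
  have := (W0_cont (N := N) (a := a) (b := b) hH).measurable
  fun_prop

theorem Om_nonneg (hH : 1 ≤ H) (s : ℝ) : 0 ≤ Om N a b H t₀ s := by
  have := W0_pos (N := N) (a := a) (b := b) hH s
  unfold Om
  positivity

theorem pt_shift (t₀ s u : ℝ) :
    ((1 + |s + u - t₀|) ^ N)⁻¹ ≤ (1 + |u|) ^ N * ((1 + |s - t₀|) ^ N)⁻¹ := by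
  refine inv_pow_le (by positivity) (by positivity) ?_ N
  have h1 : |s - t₀| ≤ |s + u - t₀| + |u| := by
    have := abs_sub (s + u - t₀) u
    rwa [show s + u - t₀ - u = s - t₀ by ring] at this
  have h2 := mul_nonneg (abs_nonneg u) (abs_nonneg (s + u - t₀))
  nlinarith

theorem wg (hH : 1 ≤ H) (ha : 0 ≤ a) (hab : a ≤ b) (ht : 0 ≤ t₀) {k : ℕ} (hN : 2 * k + 6 ≤ N) :
    Wg k (N + 1) (ww N a b H t₀) (Om N a b H t₀) where
  mw := ww_meas hH
  mO := Om_meas hH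
  w0 := ww_nonneg hH
  shift := by
    intro s u
    have hW := W0_pos (N := N) (a := a) (b := b) hH s
    have hW' := W0_pos (N := N) (a := a) (b := b) hH (s + u)
    have hW1 := W0_le_one (N := N) (a := a) (b := b) hH s
    have hW1' := W0_le_one (N := N) (a := a) (b := b) hH (s + u)
    have hH0 : 0 < H := by linarith
    have hu1 : 1 ≤ 1 + |u| := by linarith [abs_nonneg u]
    have key1 : N * (1 + |u|) ^ (N + 1) * (W0 N a b H s / H) ≤
        (1 + |u|) ^ (N + 1) * Om N a b H t₀ s := by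
      have e : (N : ℝ) * (1 + |u|) ^ (N + 1) * (W0 N a b H s / H) =
        (1 + |u|) ^ (N + 1) * (N * (W0 N a b H s / H)) := by ring
      rw [e]
      apply mul_le_mul_of_nonneg_left _ (by positivity)
      unfold Om
      have h1 : 0 ≤ W0 N a b H s / (1 + |s|) := by positivity
      have h2 : 0 ≤ ((1 + |s - t₀|) ^ N)⁻¹ := by positivity
      have h3 : 0 ≤ W0 N a b H s / H := by positivity
      have h4 : (N : ℝ) * (W0 N a b H s / H) ≤ (N + 1) * (W0 N a b H s / H) := by nlinarith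
      refine h4.trans (mul_le_mul_of_nonneg_left (by linarith) (by positivity))
    have key2 : |s - t₀| ≤ |u| → 1 ≤ (1 + |u|) ^ (N + 1) * Om N a b H t₀ s := by
      intro h
      have h1 : 1 ≤ (1 + |u|) ^ N * ((1 + |s - t₀|) ^ N)⁻¹ := by
        rw [← div_eq_mul_inv, one_le_div (by positivity)]
        gcongr
      have h2 : ((1 + |s - t₀|) ^ N)⁻¹ ≤ Om N a b H t₀ s := by
        unfold Om
        have h1 : 0 ≤ W0 N a b H s / (1 + |s|) := by positivity
        have h2 : 0 ≤ ((1 + |s - t₀|) ^ N)⁻¹ := by positivity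
        have h3 : 0 ≤ W0 N a b H s / H := by positivity
        have h4 : (0 : ℝ) ≤ N := Nat.cast_nonneg _
        nlinarith [mul_nonneg h4 h1, mul_nonneg h4 h2, mul_nonneg h4 h3]
      refine h1.trans (mul_le_mul (pow_le_pow_right₀ hu1 (by omega)) h2 (by positivity)
        (by positivity))
    unfold ww
    split_ifs with h1 h2 h2
    · exact (W0_shift hH s u).trans key1
    · refine le_trans ?_ (key2 ?_)
      · rw [sub_zero, abs_of_pos hW']; exact hW1'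
      · push Not at h2
        have h3 : |s - t₀| = t₀ - s := by rw [abs_of_neg (by linarith)]; ring
        rw [h3]
        exact le_trans (by linarith) (le_abs_self u)
    · refine le_trans ?_ (key2 ?_)
      · rw [zero_sub, abs_neg, abs_of_pos hW]; exact hW1
      · push Not at h1
        have h3 : |s - t₀| = s - t₀ := abs_of_nonneg (by linarith)
        rw [h3]
        exact le_trans (by linarith) (neg_le_abs u)
    · rw [sub_zero, abs_zero]
      exact mul_nonneg (by positivity) (Om_nonneg hH s)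
  loc := by
    intro s
    have hW := W0_pos (N := N) (a := a) (b := b) hH s
    have hH0 : 0 < H := by linarith
    refine (ww_le hH s).trans ?_
    have e : W0 N a b H s = (1 + |s|) * (W0 N a b H s / (1 + |s|)) := by field_simp
    have h2 : W0 N a b H s / (1 + |s|) ≤ Om N a b H t₀ s := by
      unfold Om
      have h1 : 0 ≤ W0 N a b H s / (1 + |s|) := by positivity
      have h2 : 0 ≤ ((1 + |s - t₀|) ^ N)⁻¹ := by positivity
      have h3 : 0 ≤ W0 N a b H s / H := by positivity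
      have h4 : (0 : ℝ) ≤ N := Nat.cast_nonneg _
      nlinarith [mul_nonneg h4 h1, mul_nonneg h4 h2, mul_nonneg h4 h3]
    calc W0 N a b H s = (1 + |s|) * (W0 N a b H s / (1 + |s|)) := e
      _ ≤ _ := mul_le_mul_of_nonneg_left h2 (by positivity)
  tame := by
    intro s u
    have hW := W0_pos (N := N) (a := a) (b := b) hH s
    have hH0 : 0 < H := by linarith
    have hu1 : 1 ≤ 1 + |u| := by linarith [abs_nonneg u]
    have hN1 : (1 + |u|) ^ N ≤ (1 + |u|) ^ (N + 1) := pow_le_pow_right₀ hu1 (by omega)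
    have hWt := W0_tame (N := N) (a := a) (b := b) hH s u
    have h1 : W0 N a b H (s + u) / H ≤ (1 + |u|) ^ (N + 1) * (W0 N a b H s / H) := by
      rw [← mul_div_assoc]
      gcongr
      exact hWt.trans (by gcongr)
    have h2 : W0 N a b H (s + u) / (1 + |s + u|) ≤
        (1 + |u|) ^ (N + 1) * (W0 N a b H s / (1 + |s|)) := by
      have h3 : (1 + |s + u|)⁻¹ ≤ (1 + |u|) * (1 + |s|)⁻¹ := by
        have h4 := inv_pow_le (x := 1 + |s|) (y := 1 + |s + u|) (c := 1 + |u|) (by positivity)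
          (by positivity) (by
            have h5 : |s| ≤ |s + u| + |u| := by
              have := abs_sub (s + u) u
              rwa [add_sub_cancel_right] at this
            nlinarith [mul_nonneg (abs_nonneg u) (abs_nonneg (s + u))]) 1
        simpa using h4
      rw [div_eq_mul_inv, div_eq_mul_inv]
      calc W0 N a b H (s + u) * (1 + |s + u|)⁻¹ ≤
          ((1 + |u|) ^ N * W0 N a b H s) * ((1 + |u|) * (1 + |s|)⁻¹) :=
            mul_le_mul hWt h3 (by positivity) (by positivity)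
        _ = _ := by rw [pow_succ]; ring
    have h3 : ((1 + |s + u - t₀|) ^ N)⁻¹ ≤ (1 + |u|) ^ (N + 1) * ((1 + |s - t₀|) ^ N)⁻¹ :=
      (pt_shift t₀ s u).trans (by gcongr)
    unfold Om
    calc ((N : ℝ) + 1) * (W0 N a b H (s + u) / H + W0 N a b H (s + u) / (1 + |s + u|) +
          ((1 + |s + u - t₀|) ^ N)⁻¹) ≤ (N + 1) * ((1 + |u|) ^ (N + 1) * (W0 N a b H s / H) +
          (1 + |u|) ^ (N + 1) * (W0 N a b H s / (1 + |s|)) +
          (1 + |u|) ^ (N + 1) * ((1 + |s - t₀|) ^ N)⁻¹) := by gcongr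
      _ = _ := by ring
  dec := by
    have hH0 : 0 < H := by linarith
    have hb : 0 ≤ b := ha.trans hab
    set K := ((1 + b) * H) ^ N with hK
    have hK0 : 0 ≤ K := by positivity
    have hle : ∀ s : ℝ, ((1 + |s|) ^ N)⁻¹ ≤ ((1 + |s|) ^ (2 * k + 6))⁻¹ := by
      intro s
      apply inv_anti₀ (by positivity)
      exact pow_le_pow_right₀ (by linarith [abs_nonneg s]) hN
    refine ⟨(N + 1) * (K + K + (1 + t₀) ^ N) + K, fun s => ?_⟩
    have h0 := W0_dec (N := N) hH ha hab s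
    have hW := W0_pos (N := N) (a := a) (b := b) hH s
    have hR : 0 ≤ ((1 + |s|) ^ (2 * k + 6))⁻¹ := by positivity
    have h1 : W0 N a b H s ≤ K * ((1 + |s|) ^ (2 * k + 6))⁻¹ :=
      h0.trans (mul_le_mul_of_nonneg_left (hle s) hK0)
    have h2 : ((1 + |s - t₀|) ^ N)⁻¹ ≤ (1 + t₀) ^ N * ((1 + |s|) ^ (2 * k + 6))⁻¹ := by
      refine (inv_pow_le (x := 1 + |s|) (c := 1 + t₀) (by positivity) (by positivity) ?_ N).trans
        (mul_le_mul_of_nonneg_left (hle s) (by positivity))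
      have h5 : |s| ≤ |s - t₀| + t₀ := by
        have := abs_add_le (s - t₀) t₀
        rwa [sub_add_cancel, abs_of_nonneg ht] at this
      nlinarith [mul_nonneg ht (abs_nonneg (s - t₀))]
    constructor
    · refine (ww_le hH s).trans (h1.trans (mul_le_mul_of_nonneg_right ?_ hR))
      have : 0 ≤ ((N : ℝ) + 1) * (K + K + (1 + t₀) ^ N) := by positivity
      linarith
    · unfold Om
      have h3 : W0 N a b H s / H ≤ W0 N a b H s := div_le_self hW.le hH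
      have h4 : W0 N a b H s / (1 + |s|) ≤ W0 N a b H s :=
        div_le_self hW.le (by linarith [abs_nonneg s])
      calc ((N : ℝ) + 1) * (W0 N a b H s / H + W0 N a b H s / (1 + |s|) +
            ((1 + |s - t₀|) ^ N)⁻¹) ≤ (N + 1) * (K * ((1 + |s|) ^ (2 * k + 6))⁻¹ +
            K * ((1 + |s|) ^ (2 * k + 6))⁻¹ + (1 + t₀) ^ N * ((1 + |s|) ^ (2 * k + 6))⁻¹) := by
              gcongr
              · exact h3.trans h1
              · exact h4.trans h1
        _ ≤ _ := by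
              have : 0 ≤ K * ((1 + |s|) ^ (2 * k + 6))⁻¹ := by positivity
              nlinarith

end wt

/-! ### Pointwise bounds -/

theorem key {A : ℝ} (hA : 0 ≤ A) (n₀ M N' : ℕ) (hN' : M + 1 ≤ N') : ∃ K₃ : ℝ, 0 ≤ K₃ ∧
    ∀ T a b H : ℝ, 2 ≤ T → 0 ≤ a → a ≤ b → b ≤ T → 1 ≤ H → H ≤ T → T ≤ H ^ (2 * n₀) → ∀ s : ℝ,
      A * lg s ^ 4 * (W0 (2 * N') a b H s / H + W0 (2 * N') a b H s / (1 + |s|)) ≤
        1 / 8 * W0 (2 * N') a b H s + K₃ * ((1 + |s|) ^ M)⁻¹ := by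
  set C4 : ℝ := (Nat.factorial 4 : ℝ) * Real.exp 1 with hC4
  set C8 : ℝ := (Nat.factorial 8 : ℝ) * Real.exp 1 with hC8
  set Cn : ℝ := (Nat.factorial (32 * n₀) : ℝ) * Real.exp 1 with hCn
  have hC4p : 0 < C4 := by positivity
  have hC8p : 0 < C8 := by positivity
  have hCnp : 0 < Cn := by positivity
  set R₀ : ℝ := 256 * A ^ 2 * C8 with hR₀
  set K₄ : ℝ := 4 * (16 * A) ^ (8 * n₀) * Cn with hK₄
  have hR0 : 0 ≤ R₀ := by positivity
  have hK4 : 0 ≤ K₄ := by positivity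
  refine ⟨2 * A * C4 * R₀ * R₀ ^ M + 2 * A * C4 * K₄ ^ N', by positivity, ?_⟩
  intro T a b H hT ha hab hbT hH hHT hTH s
  set r : ℝ := 1 + |s| with hr
  set L : ℝ := lg s with hL
  set W : ℝ := W0 (2 * N') a b H s with hW
  have hW0 : 0 < W := W0_pos hH s
  have hW1 : W ≤ 1 := W0_le_one hH s
  have hr1 : 1 ≤ r := by rw [hr]; linarith [abs_nonneg s]
  have hr0 : 0 < r := by linarith
  have hH0 : 0 < H := by linarith
  have hL1 : 1 ≤ L := lg_one_le s
  have hL4 : L ^ 4 ≤ C4 * r := lg_pow 4 s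
  have hL8 : L ^ 8 ≤ C8 * r := lg_pow 8 s
  have hLn : L ^ (32 * n₀) ≤ Cn * r := lg_pow (32 * n₀) s
  have hsum : W / H + W / r ≤ 2 * W := by
    have h1 : W / H ≤ W := div_le_self hW0.le hH
    have h2 : W / r ≤ W := div_le_self hW0.le hr1
    linarith
  have hLHS : A * L ^ 4 * (W / H + W / r) ≤ 2 * A * C4 * r * W := by
    calc A * L ^ 4 * (W / H + W / r) ≤ A * (C4 * r) * (2 * W) := by gcongr
      _ = _ := by ring
  have hrM : 0 < (r ^ M)⁻¹ := by positivity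
  by_cases h1 : r < 16 * A * L ^ 4
  · have h2 : r ^ 2 ≤ (16 * A * L ^ 4) ^ 2 := pow_le_pow_left₀ hr0.le h1.le 2
    have h3 : (16 * A * L ^ 4) ^ 2 ≤ R₀ * r := by
      calc (16 * A * L ^ 4) ^ 2 = 256 * A ^ 2 * L ^ 8 := by ring
        _ ≤ 256 * A ^ 2 * (C8 * r) := by gcongr
        _ = _ := by rw [hR₀]; ring
    have h4 : r ≤ R₀ := by
      have h5 : r * r ≤ R₀ * r := by
        calc r * r = r ^ 2 := by ring
          _ ≤ _ := h2.trans h3
      exact le_of_mul_le_mul_right h5 hr0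
    have h5 : 1 ≤ R₀ ^ M * (r ^ M)⁻¹ := by
      rw [← div_eq_mul_inv, one_le_div (by positivity)]
      gcongr
    have h6 : 2 * A * C4 * r * W ≤ 2 * A * C4 * R₀ := by
      calc 2 * A * C4 * r * W ≤ 2 * A * C4 * R₀ * 1 := by gcongr
        _ = _ := by ring
    have h7 : 0 ≤ 2 * A * C4 * R₀ := by positivity
    have h8 : 2 * A * C4 * R₀ ≤ 2 * A * C4 * R₀ * R₀ ^ M * (r ^ M)⁻¹ := by
      have := mul_le_mul_of_nonneg_left h5 h7
      linarith
    have h9 : 0 ≤ 2 * A * C4 * K₄ ^ N' * (r ^ M)⁻¹ := by positivity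
    have h10 : (2 * A * C4 * R₀ * R₀ ^ M + 2 * A * C4 * K₄ ^ N') * (r ^ M)⁻¹ =
      2 * A * C4 * R₀ * R₀ ^ M * (r ^ M)⁻¹ + 2 * A * C4 * K₄ ^ N' * (r ^ M)⁻¹ := by ring
    rw [h10]
    linarith
  · by_cases h2 : H < 16 * A * L ^ 4
    · have h3 : (1 + b) * H ≤ 2 * T ^ 2 := by
        calc (1 + b) * H ≤ (2 * T) * T := by
              apply mul_le_mul _ hHT hH0.le (by linarith)
              linarith
          _ = _ := by ring
      have hb : 0 ≤ b := ha.trans hab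
      have h4 : (2 * T ^ 2) ^ 2 ≤ K₄ * r := by
        have h5 : T ≤ (16 * A * L ^ 4) ^ (2 * n₀) := hTH.trans (pow_le_pow_left₀ hH0.le h2.le _)
        calc (2 * T ^ 2) ^ 2 = 4 * T ^ 4 := by ring
          _ ≤ 4 * ((16 * A * L ^ 4) ^ (2 * n₀)) ^ 4 := by gcongr
          _ = 4 * (16 * A) ^ (8 * n₀) * L ^ (32 * n₀) := by
              rw [← pow_mul, mul_pow, ← pow_mul]
              rw [show 2 * n₀ * 4 = 8 * n₀ by ring, show 4 * (8 * n₀) = 32 * n₀ by ring]
              ring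
          _ ≤ 4 * (16 * A) ^ (8 * n₀) * (Cn * r) := by gcongr
          _ = _ := by rw [hK₄]; ring
      have h6 : W ≤ K₄ ^ N' * (r ^ N')⁻¹ := by
        refine (W0_dec (N := 2 * N') hH ha hab s).trans ?_
        calc ((1 + b) * H) ^ (2 * N') * ((1 + |s|) ^ (2 * N'))⁻¹
            ≤ (2 * T ^ 2) ^ (2 * N') * (r ^ (2 * N'))⁻¹ := by
              rw [← hr]
              gcongr
          _ = ((2 * T ^ 2) ^ 2) ^ N' * (r ^ (2 * N'))⁻¹ := by rw [pow_mul]
          _ ≤ (K₄ * r) ^ N' * (r ^ (2 * N'))⁻¹ := by gcongr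
          _ = _ := by
              rw [mul_pow, show 2 * N' = N' + N' by ring, pow_add]
              field_simp
      have h7 : r * (r ^ N')⁻¹ ≤ (r ^ M)⁻¹ := by
        rw [← div_eq_mul_inv, div_le_iff₀ (by positivity), ← div_eq_inv_mul,
          le_div_iff₀ (by positivity), ← pow_succ']
        exact pow_le_pow_right₀ hr1 hN'
      have h8 : 2 * A * C4 * r * W ≤ 2 * A * C4 * K₄ ^ N' * (r ^ M)⁻¹ := by
        calc 2 * A * C4 * r * W ≤ 2 * A * C4 * r * (K₄ ^ N' * (r ^ N')⁻¹) := by gcongr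
          _ = 2 * A * C4 * K₄ ^ N' * (r * (r ^ N')⁻¹) := by ring
          _ ≤ _ := by gcongr
      have h9 : 0 ≤ 2 * A * C4 * R₀ * R₀ ^ M * (r ^ M)⁻¹ := by positivity
      have h10 : (2 * A * C4 * R₀ * R₀ ^ M + 2 * A * C4 * K₄ ^ N') * (r ^ M)⁻¹ =
        2 * A * C4 * R₀ * R₀ ^ M * (r ^ M)⁻¹ + 2 * A * C4 * K₄ ^ N' * (r ^ M)⁻¹ := by ring
      rw [h10]
      linarith
    · push Not at h1 h2
      have h3 : A * L ^ 4 * (W / H) ≤ 1 / 16 * W := by
        rw [← mul_div_assoc, div_le_iff₀ hH0]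
        have := mul_le_mul_of_nonneg_right h2 hW0.le
        linarith
      have h4 : A * L ^ 4 * (W / r) ≤ 1 / 16 * W := by
        rw [← mul_div_assoc, div_le_iff₀ hr0]
        have := mul_le_mul_of_nonneg_right h1 hW0.le
        linarith
      have h5 : 0 ≤ (2 * A * C4 * R₀ * R₀ ^ M + 2 * A * C4 * K₄ ^ N') * (r ^ M)⁻¹ := by
        positivity
      rw [mul_add]
      linarith

theorem ff_bound (k : ℕ) : ∃ F : ℝ, 0 ≤ F ∧ ∀ s, ‖ff k s‖ ^ 2 ≤ F * (1 + |s|) ^ (2 * k) := by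
  obtain ⟨-, C, hC⟩ := Pool.Agent.J6H39.CG.t_ZG k
  refine ⟨C ^ 2, sq_nonneg _, fun s => ?_⟩
  calc ‖ff k s‖ ^ 2 ≤ (C * (1 + |s|) ^ k) ^ 2 := pow_le_pow_left₀ (norm_nonneg _) (hC s) 2
    _ = _ := by ring

theorem ff_cont (k : ℕ) : Continuous (ff k) := (Pool.Agent.J6H39.CG.t_ZG k).1

theorem ff_neg (k : ℕ) (t : ℝ) : ‖ff k (-t)‖ = ‖ff k t‖ := by
  have h := riemannZeta_conj (1 / 2 + (t : ℂ) * I)
  have e : (starRingEnd ℂ) (1 / 2 + (t : ℂ) * I) = 1 / 2 + ((-t : ℝ) : ℂ) * I := by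
    simp [Complex.conj_ofNat]
  rw [e] at h
  unfold ff zh
  rw [norm_pow, norm_pow, h, RCLike.norm_conj]

theorem ff_abs (k : ℕ) (t : ℝ) : ‖ff k |t|‖ = ‖ff k t‖ := by
  rcases abs_choice t with h | h
  · rw [h]
  · rw [h, ff_neg]

theorem small_bound {F t₀ r : ℝ} (hF : 0 ≤ F) (hr : 0 < r) (h : r ≤ 1 + t₀) (k : ℕ) :
    F * r ^ (2 * k) ≤ F * (1 + t₀) ^ (2 * k + 2) * (r ^ 2)⁻¹ := by
  rw [mul_assoc]
  apply mul_le_mul_of_nonneg_left _ hF
  rw [← div_eq_mul_inv, le_div_iff₀ (by positivity), ← pow_add]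
  exact pow_le_pow_left₀ hr.le h _

theorem pw1 (k : ℕ) {C t₀ : ℝ} (hC : 0 ≤ C) (ht₀ : 1 ≤ t₀) (n₀ N' : ℕ) (hN' : 2 * k + 3 ≤ N') :
    ∃ K : ℝ, 0 ≤ K ∧
    ∀ T a b H : ℝ, 2 ≤ T → 0 ≤ a → a ≤ b → b ≤ T → 1 ≤ H → H ≤ T → T ≤ H ^ (2 * n₀) → ∀ s : ℝ,
      C * ((‖ff k s‖ ^ 2 + ((1 + |s|) ^ 2)⁻¹) * lg s ^ 4 * Om (2 * N') a b H t₀ s) ≤
        1 / 8 * (‖ff k |s|‖ ^ 2 * ww (2 * N') a b H t₀ |s|) + K * ((1 + |s|) ^ 2)⁻¹ := by
  set A : ℝ := C * ((2 * N' : ℕ) + 1) with hA'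
  have hA : 0 ≤ A := by positivity
  obtain ⟨K₃, hK₃, hkey⟩ := key hA n₀ (2 * k + 2) N' hN'
  obtain ⟨F, hF, hFb⟩ := ff_bound k
  set C4 : ℝ := (Nat.factorial 4 : ℝ) * Real.exp 1 with hC4
  have hC4p : 0 < C4 := by positivity
  refine ⟨1 + (F + 1) * K₃ + (F + 1) * A * C4 * (1 + t₀) ^ (2 * N') +
    F * (1 + t₀) ^ (2 * k + 2), by positivity, ?_⟩
  intro T a b H hT ha hab hbT hH hHT hTH s
  have hk := hkey T a b H hT ha hab hbT hH hHT hTH s
  have hFs := hFb s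
  set r : ℝ := 1 + |s| with hr
  set L : ℝ := lg s with hL
  set W : ℝ := W0 (2 * N') a b H s with hW
  set P : ℝ := ‖ff k s‖ ^ 2 with hP
  set Q : ℝ := (r ^ 2)⁻¹ with hQ
  have hW0 : 0 < W := W0_pos hH s
  have hW1 : W ≤ 1 := W0_le_one hH s
  have hr1 : 1 ≤ r := by rw [hr]; linarith [abs_nonneg s]
  have hr0 : 0 < r := by linarith
  have hL1 : 1 ≤ L := lg_one_le s
  have hL4 : L ^ 4 ≤ C4 * r := lg_pow 4 s
  have hP0 : 0 ≤ P := sq_nonneg _
  have hQ0 : 0 < Q := by positivity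
  have hQ1 : Q ≤ 1 := inv_le_one_of_one_le₀ (one_le_pow₀ hr1)
  have hPQ : P + Q ≤ (F + 1) * r ^ (2 * k) := by
    have : 1 ≤ r ^ (2 * k) := one_le_pow₀ hr1
    nlinarith
  have hrk : r ^ (2 * k) * (r ^ (2 * k + 2))⁻¹ = Q := by
    rw [hQ, pow_add]
    field_simp
  have e1 : C * ((P + Q) * L ^ 4 * Om (2 * N') a b H t₀ s) =
      (P + Q) * (A * L ^ 4 * (W / H + W / r)) +
      (P + Q) * (A * L ^ 4 * ((1 + |s - t₀|) ^ (2 * N'))⁻¹) := by
    unfold Om
    rw [hA', hW, hr]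
    ring
  rw [e1]
  have h1 : (P + Q) * (A * L ^ 4 * (W / H + W / r)) ≤ 1 / 8 * (P * W) + Q + (F + 1) * K₃ * Q := by
    have h2 : (P + Q) * (K₃ * (r ^ (2 * k + 2))⁻¹) ≤ (F + 1) * K₃ * Q := by
      calc (P + Q) * (K₃ * (r ^ (2 * k + 2))⁻¹) ≤
          ((F + 1) * r ^ (2 * k)) * (K₃ * (r ^ (2 * k + 2))⁻¹) := by gcongr
        _ = (F + 1) * K₃ * (r ^ (2 * k) * (r ^ (2 * k + 2))⁻¹) := by ring
        _ = _ := by rw [hrk]
    have h3 := mul_le_mul_of_nonneg_left hk (by positivity : 0 ≤ P + Q)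
    have h4 : Q * W ≤ Q := mul_le_of_le_one_right hQ0.le hW1
    have e2 : (P + Q) * (1 / 8 * W + K₃ * (r ^ (2 * k + 2))⁻¹) =
      1 / 8 * (P * W) + 1 / 8 * (Q * W) + (P + Q) * (K₃ * (r ^ (2 * k + 2))⁻¹) := by ring
    rw [e2] at h3
    have h5 : 0 ≤ Q * W := by positivity
    linarith
  have h2 : (P + Q) * (A * L ^ 4 * ((1 + |s - t₀|) ^ (2 * N'))⁻¹) ≤
      (F + 1) * A * C4 * (1 + t₀) ^ (2 * N') * Q := by
    have h3 : ((1 + |s - t₀|) ^ (2 * N'))⁻¹ ≤ (1 + t₀) ^ (2 * N') * (r ^ (2 * N'))⁻¹ := by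
      refine inv_pow_le (by positivity) (by positivity) ?_ _
      have h5 : |s| ≤ |s - t₀| + t₀ := by
        have := abs_add_le (s - t₀) t₀
        rwa [sub_add_cancel, abs_of_nonneg (by linarith : 0 ≤ t₀)] at this
      rw [hr]
      nlinarith [mul_nonneg (by linarith : 0 ≤ t₀) (abs_nonneg (s - t₀))]
    have h4 : r ^ (2 * k) * (r * (r ^ (2 * N'))⁻¹) ≤ Q := by
      rw [hQ, ← mul_assoc, ← pow_succ, ← div_eq_mul_inv, div_le_iff₀ (by positivity),
        ← div_eq_inv_mul, le_div_iff₀ (by positivity), ← pow_add]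
      exact pow_le_pow_right₀ hr1 (by omega)
    calc (P + Q) * (A * L ^ 4 * ((1 + |s - t₀|) ^ (2 * N'))⁻¹) ≤
        ((F + 1) * r ^ (2 * k)) * (A * (C4 * r) * ((1 + t₀) ^ (2 * N') * (r ^ (2 * N'))⁻¹)) := by
          gcongr
      _ = (F + 1) * A * C4 * (1 + t₀) ^ (2 * N') * (r ^ (2 * k) * (r * (r ^ (2 * N'))⁻¹)) := by
          ring
      _ ≤ _ := by gcongr
  have h3 : P * W ≤ ‖ff k |s|‖ ^ 2 * ww (2 * N') a b H t₀ |s| +
      F * (1 + t₀) ^ (2 * k + 2) * Q := by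
    rw [ff_abs, ← hP]
    have hpos : 0 ≤ F * (1 + t₀) ^ (2 * k + 2) * Q := by positivity
    by_cases h4 : t₀ ≤ |s|
    · have e3 : ww (2 * N') a b H t₀ |s| = W0 (2 * N') a b H |s| := by
        unfold ww; rw [if_pos h4]
      rw [e3]
      have := mul_le_mul_of_nonneg_left (W0_abs (N := 2 * N') hH ha hab s) hP0
      linarith
    · push Not at h4
      have h5 := small_bound (F := F) hF hr0 (by rw [hr]; linarith : r ≤ 1 + t₀) k
      have h6 : P * W ≤ P := mul_le_of_le_one_right hP0 hW1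
      have h7 : 0 ≤ P * ww (2 * N') a b H t₀ |s| := mul_nonneg hP0 (ww_nonneg hH _)
      rw [← hQ] at h5
      linarith
  have h4 : 0 ≤ F * (1 + t₀) ^ (2 * k + 2) * Q := by positivity
  have e4 : (1 + (F + 1) * K₃ + (F + 1) * A * C4 * (1 + t₀) ^ (2 * N') +
    F * (1 + t₀) ^ (2 * k + 2)) * Q = Q + (F + 1) * K₃ * Q +
    (F + 1) * A * C4 * (1 + t₀) ^ (2 * N') * Q + F * (1 + t₀) ^ (2 * k + 2) * Q := by ring
  rw [e4]
  linarith

theorem pw2 {D : ℝ → ℂ} {G : ℝ} {B : ℕ} (hD : ∀ s, ‖D s‖ ≤ G * (1 + |s|) ^ B) (n₀ N'' : ℕ)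
    (hN : 2 * B + 2 ≤ N'') : ∃ K : ℝ, 0 ≤ K ∧
    ∀ t₀ T a b H E : ℝ, 2 ≤ T → 0 ≤ a → a ≤ b → b ≤ T → 1 ≤ H → T ≤ (H ^ 2) ^ n₀ → H ^ 2 ≤ E →
      ∀ s : ℝ, ‖D s‖ ^ 2 * ww (2 * ((n₀ + 1) * N'')) a b H t₀ s ≤
        (Icc (a - E) (b + E)).indicator (fun s => ‖D s‖ ^ 2) s + K * ((1 + |s|) ^ 2)⁻¹ := by
  refine ⟨G ^ 2 * 2 ^ N'', by positivity, ?_⟩
  intro t₀ T a b H E hT ha hab hbT hH hTH hHE s
  have hw := ww_le (N := 2 * ((n₀ + 1) * N'')) (a := a) (b := b) (t₀ := t₀) hH s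
  have hw0 := ww_nonneg (N := 2 * ((n₀ + 1) * N'')) (a := a) (b := b) (t₀ := t₀) hH s
  have hW1 := W0_le_one (N := 2 * ((n₀ + 1) * N'')) (a := a) (b := b) hH s
  have hr1 : 1 ≤ 1 + |s| := by linarith [abs_nonneg s]
  have hr0 : 0 < 1 + |s| := by linarith
  have hH0 : 0 < H := by linarith
  by_cases h : s ∈ Icc (a - E) (b + E)
  · rw [indicator_of_mem h]
    have h1 : ‖D s‖ ^ 2 * ww (2 * ((n₀ + 1) * N'')) a b H t₀ s ≤ ‖D s‖ ^ 2 :=
      mul_le_of_le_one_right (sq_nonneg _) (hw.trans hW1)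
    have h2 : 0 ≤ G ^ 2 * 2 ^ N'' * ((1 + |s|) ^ 2)⁻¹ := by positivity
    linarith
  · rw [indicator_of_notMem h, zero_add]
    have h1 := lt_ds h
    set d := ds a b s with hd
    have hd0 : 0 ≤ d := ds_nonneg a b s
    have hdH : H ^ 2 ≤ d := hHE.trans h1.le
    have h2 : 1 + d ≤ (1 + d / H) ^ 2 := by
      have h3 : d ≤ (d / H) ^ 2 := by
        rw [div_pow, le_div_iff₀ (by positivity)]
        calc d * H ^ 2 ≤ d * d := mul_le_mul_of_nonneg_left hdH hd0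
          _ = d ^ 2 := by ring
      have h4 : 0 ≤ d / H := by positivity
      nlinarith
    have h3 : 1 + |s| ≤ 2 * (1 + d) ^ (n₀ + 1) := by
      have h4 := abs_le_ds ha hab s
      rw [← hd] at h4
      have h5 : T ≤ (1 + d) ^ (n₀ + 1) := by
        calc T ≤ (H ^ 2) ^ n₀ := hTH
          _ ≤ (1 + d) ^ n₀ := pow_le_pow_left₀ (by positivity) (by linarith) _
          _ ≤ _ := pow_le_pow_right₀ (by linarith) (by omega)
      have h6 : 1 + d ≤ (1 + d) ^ (n₀ + 1) := le_self_pow₀ (by linarith) (by omega)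
      linarith
    have h4 : W0 (2 * ((n₀ + 1) * N'')) a b H s ≤ 2 ^ N'' * ((1 + |s|) ^ N'')⁻¹ := by
      calc W0 (2 * ((n₀ + 1) * N'')) a b H s = (((1 + d / H) ^ 2) ^ ((n₀ + 1) * N''))⁻¹ := by
            unfold W0
            rw [← pow_mul]
        _ ≤ ((1 + d) ^ ((n₀ + 1) * N''))⁻¹ := by
            apply inv_anti₀ (by positivity)
            exact pow_le_pow_left₀ (by positivity) h2 _
        _ = (((1 + d) ^ (n₀ + 1)) ^ N'')⁻¹ := by rw [pow_mul]
        _ ≤ _ := inv_pow_le hr0 (by positivity) h3 N''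
    have h5 : ‖D s‖ ^ 2 ≤ G ^ 2 * (1 + |s|) ^ (2 * B) := by
      calc ‖D s‖ ^ 2 ≤ (G * (1 + |s|) ^ B) ^ 2 := pow_le_pow_left₀ (norm_nonneg _) (hD s) 2
        _ = _ := by ring
    have h6 : (1 + |s|) ^ (2 * B) * ((1 + |s|) ^ N'')⁻¹ ≤ ((1 + |s|) ^ 2)⁻¹ := by
      rw [← div_eq_mul_inv, div_le_iff₀ (by positivity), ← div_eq_inv_mul,
        le_div_iff₀ (by positivity), ← pow_add]
      exact pow_le_pow_right₀ hr1 hN
    calc ‖D s‖ ^ 2 * ww (2 * ((n₀ + 1) * N'')) a b H t₀ s ≤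
        (G ^ 2 * (1 + |s|) ^ (2 * B)) * (2 ^ N'' * ((1 + |s|) ^ N'')⁻¹) :=
          mul_le_mul h5 (hw.trans h4) hw0 (by positivity)
      _ = G ^ 2 * 2 ^ N'' * ((1 + |s|) ^ (2 * B) * ((1 + |s|) ^ N'')⁻¹) := by ring
      _ ≤ _ := by gcongr

theorem pw3 (k : ℕ) {t₀ : ℝ} (ht₀ : 1 ≤ t₀) : ∃ K : ℝ, 0 ≤ K ∧
    ∀ (N : ℕ) (a b H : ℝ), 0 ≤ a → 1 ≤ H → ∀ s : ℝ,
      (Ioc a b).indicator (fun s => ‖ff k s‖ ^ 2) s ≤
        ‖ff k s‖ ^ 2 * ww N a b H t₀ s + K * ((1 + |s|) ^ 2)⁻¹ := by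
  obtain ⟨F, hF, hFb⟩ := ff_bound k
  refine ⟨F * (1 + t₀) ^ (2 * k + 2), by positivity, fun N a b H ha hH s => ?_⟩
  have h0 : 0 ≤ ‖ff k s‖ ^ 2 * ww N a b H t₀ s := mul_nonneg (sq_nonneg _) (ww_nonneg hH s)
  have h1 : 0 ≤ F * (1 + t₀) ^ (2 * k + 2) * ((1 + |s|) ^ 2)⁻¹ := by positivity
  by_cases h : s ∈ Ioc a b
  · rw [indicator_of_mem h]
    by_cases h2 : t₀ ≤ s
    · have e : ww N a b H t₀ s = 1 := by
        unfold ww
        rw [if_pos h2, W0_zero h.1.le h.2]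
      rw [e, mul_one]
      linarith
    · push Not at h2
      have h3 : |s| = s := abs_of_nonneg (ha.trans h.1.le)
      have h4 := small_bound (F := F) (t₀ := t₀) (r := 1 + |s|) hF (by positivity)
        (by rw [h3]; linarith) k
      linarith [hFb s]
  · rw [indicator_of_notMem h]
    linarith

theorem J_int : Integrable (fun s : ℝ => ((1 + |s|) ^ 2)⁻¹) := by
  have h := integrable_one_add_norm (E := ℝ) (μ := volume) (r := 2) (by simp)
  refine h.congr (Eventually.of_forall fun s => ?_)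
  show (1 + ‖s‖) ^ (-(2 : ℝ)) = _
  rw [Real.rpow_neg (by positivity), Real.norm_eq_abs, Real.rpow_two]

theorem abs_int {g : ℝ → ℝ} (hg : Measurable g) (h0 : ∀ s, 0 ≤ g s) (hi : Integrable g) :
    Integrable (fun s => g |s|) := by
  have h1 : Measurable (fun s : ℝ => |s|) := continuous_abs.measurable
  refine (hi.add hi.comp_neg).mono' (hg.comp h1).aestronglyMeasurable
    (Eventually.of_forall fun s => ?_)
  show ‖g |s|‖ ≤ g s + g (-s)
  rw [Real.norm_of_nonneg (h0 _)]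
  have h2 := h0 s
  have h3 := h0 (-s)
  rcases abs_choice s with h | h <;> rw [h] <;> linarith

theorem D_int {D : ℝ → ℂ} (hm : Measurable D) {G : ℝ} {B : ℕ} (hD : ∀ s, ‖D s‖ ≤ G * (1 + |s|) ^ B)
    (p q : ℝ) : IntegrableOn (fun s => ‖D s‖ ^ 2) (Icc p q) := by
  refine Measure.integrableOn_of_bounded (M := (|G| * (1 + (|p| + |q|)) ^ B) ^ 2)
    (by simp) (hm.norm.pow_const 2).aestronglyMeasurable ?_
  refine (ae_restrict_mem measurableSet_Icc).mono fun s hs => ?_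
  rw [Real.norm_of_nonneg (sq_nonneg _)]
  refine pow_le_pow_left₀ (norm_nonneg _) ((hD s).trans ?_) 2
  have h1 : |s| ≤ |p| + |q| := by
    rw [abs_le]
    have h2 := neg_abs_le p
    have h3 := le_abs_self q
    have h4 := abs_nonneg p
    have h5 := abs_nonneg q
    constructor
    · linarith [hs.1]
    · linarith [hs.2]
  have h2 : G ≤ |G| := le_abs_self G
  gcongr

end UPx

open UPx in
/-- **PI-UP** -/
theorem t_UP (hMS : S_MS) (hDG : S_DG) : S_UP := by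
  intro k v hk hv ε hε
  obtain ⟨hDm, B, G, hG⟩ := hDG k v hv
  obtain ⟨δ, hδ, hδ1, hδε⟩ : ∃ δ : ℝ, 0 < δ ∧ δ ≤ 1 ∧ δ ≤ ε :=
    ⟨min ε 1, lt_min hε one_pos, min_le_right _ _, min_le_left _ _⟩
  obtain ⟨n₀, hn₀⟩ : ∃ n₀ : ℕ, 1 ≤ δ * n₀ := by
    obtain ⟨n, hn⟩ := exists_nat_ge (1 / δ)
    refine ⟨n, ?_⟩
    rw [div_le_iff₀ hδ] at hn
    linarith
  obtain ⟨N'', hN''⟩ : ∃ N'' : ℕ, N'' = 2 * B + 2 * k + 6 := ⟨_, rfl⟩
  obtain ⟨N', hN'⟩ : ∃ N' : ℕ, N' = (n₀ + 1) * N'' := ⟨_, rfl⟩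
  have hNN : N'' ≤ N' := by rw [hN']; exact Nat.le_mul_of_pos_left _ (by omega)
  obtain ⟨C, t₀, hC, ht₀, hM⟩ := hMS k v hk hv (2 * N' + 1)
  obtain ⟨K₁, hK₁, h1⟩ := pw1 k hC ht₀ n₀ N' (by omega)
  obtain ⟨K₂, hK₂, h2⟩ := pw2 hG n₀ N'' (by omega)
  obtain ⟨K₃, hK₃, h3⟩ := pw3 k ht₀
  rw [← hN'] at h2
  set J := ∫ s : ℝ, ((1 + |s|) ^ 2)⁻¹ with hJ
  have hJ0 : 0 ≤ J := integral_nonneg fun s => by positivity
  refine ⟨3 + (2 * (2 * K₂ + K₁) + K₃) * J, by positivity, ?_⟩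
  intro T hT a b ha hab hbT
  have hT1 : (1 : ℝ) ≤ T := by linarith
  have hT0 : (0 : ℝ) ≤ T := by linarith
  set H : ℝ := T ^ (δ / 2) with hHdef
  have hH : 1 ≤ H := Real.one_le_rpow hT1 (by linarith)
  have hHT : H ≤ T := by
    calc H ≤ T ^ (1 : ℝ) := Real.rpow_le_rpow_of_exponent_le hT1 (by linarith)
      _ = T := Real.rpow_one T
  have hH2 : H ^ 2 = T ^ δ := by
    rw [hHdef, ← Real.rpow_natCast, ← Real.rpow_mul hT0]
    congr 1
    push_cast
    ring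
  have hTH : T ≤ (H ^ 2) ^ n₀ := by
    rw [hH2, ← Real.rpow_natCast, ← Real.rpow_mul hT0]
    calc T = T ^ (1 : ℝ) := (Real.rpow_one T).symm
      _ ≤ _ := Real.rpow_le_rpow_of_exponent_le hT1 hn₀
  have hTH' : T ≤ H ^ (2 * n₀) := by rw [pow_mul]; exact hTH
  have hHE : H ^ 2 ≤ T ^ ε := by
    rw [hH2]; exact Real.rpow_le_rpow_of_exponent_le hT1 hδε
  have hwg : Wg k (2 * N' + 1) (ww (2 * N') a b H t₀) (Om (2 * N') a b H t₀) :=
    wg hH ha hab (by linarith) (by omega)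
  have hw0 : ∀ t, t < t₀ → ww (2 * N') a b H t₀ t = 0 := by
    intro t ht
    unfold ww
    rw [if_neg (not_le.2 ht)]
  obtain ⟨i1, i2, i3⟩ := hM _ _ hwg hw0
  set g : ℝ → ℝ := fun t => ‖ff k t‖ ^ 2 * ww (2 * N') a b H t₀ t with hg
  have hg0 : ∀ t, 0 ≤ g t := fun t => mul_nonneg (sq_nonneg _) (ww_nonneg hH t)
  have hgm : Measurable g := ((ff_cont k).norm.pow 2).measurable.mul (ww_meas hH)
  set X := ∫ t, g t with hX
  set Y := ∫ t, ‖DD k v t‖ ^ 2 * ww (2 * N') a b H t₀ t with hY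
  set Z := ∫ t in (a - T ^ ε)..(b + T ^ ε), ‖DD k v t‖ ^ 2 with hZ
  -- first bound
  have b1 : C * ∫ s, (‖ff k s‖ ^ 2 + ((1 + |s|) ^ 2)⁻¹) * lg s ^ 4 * Om (2 * N') a b H t₀ s ≤
      1 / 4 * X + K₁ * J := by
    rw [← integral_const_mul]
    have hI := (abs_int hgm hg0 i1).const_mul (1 / 8)
    have hI2 := J_int.const_mul K₁
    have e1 : ∫ s, (1 / 8 * g |s| + K₁ * ((1 + |s|) ^ 2)⁻¹) = 1 / 8 * (∫ s, g |s|) + K₁ * J := by
      rw [integral_add hI hI2, integral_const_mul, integral_const_mul]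
    have e2 : ∫ s, g |s| ≤ 2 * X := by
      rw [integral_comp_abs]
      have := setIntegral_le_integral (s := Ioi (0 : ℝ)) i1 (Eventually.of_forall hg0)
      linarith
    refine (integral_mono_of_nonneg (Eventually.of_forall fun s => ?_) (hI.add hI2)
      (Eventually.of_forall fun s => h1 T a b H hT ha hab hbT hH hHT hTH' s)).trans ?_
    · have := lg_one_le s
      have := Om_nonneg (N := 2 * N') (a := a) (b := b) (t₀ := t₀) hH s
      show 0 ≤ C * ((‖ff k s‖ ^ 2 + ((1 + |s|) ^ 2)⁻¹) * lg s ^ 4 * Om (2 * N') a b H t₀ s)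
      positivity
    · show ∫ s, (1 / 8 * g |s| + K₁ * ((1 + |s|) ^ 2)⁻¹) ≤ _
      rw [e1]
      linarith
  -- second bound
  have hTe : 0 ≤ T ^ ε := Real.rpow_nonneg hT0 _
  have hle : a - T ^ ε ≤ b + T ^ ε := by linarith
  have b2 : Y ≤ Z + K₂ * J := by
    have hI := (D_int hDm hG (a - T ^ ε) (b + T ^ ε)).integrable_indicator measurableSet_Icc
    have hI2 := J_int.const_mul K₂
    have e1 : ∫ s, ((Icc (a - T ^ ε) (b + T ^ ε)).indicator (fun s => ‖DD k v s‖ ^ 2) s +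
        K₂ * ((1 + |s|) ^ 2)⁻¹) = Z + K₂ * J := by
      rw [integral_add hI hI2, integral_const_mul, integral_indicator measurableSet_Icc,
        integral_Icc_eq_integral_Ioc, hZ, intervalIntegral.integral_of_le hle]
    rw [← e1]
    exact integral_mono i2 (hI.add hI2) fun s => h2 t₀ T a b H (T ^ ε) hT ha hab hbT hH hTH hHE s
  -- third bound
  have b3 : ∫ t in a..b, ‖ff k t‖ ^ 2 ≤ X + K₃ * J := by
    have hI2 := J_int.const_mul K₃
    have e1 : ∫ s, (g s + K₃ * ((1 + |s|) ^ 2)⁻¹) = X + K₃ * J := by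
      rw [integral_add i1 hI2, integral_const_mul]
    rw [← e1, intervalIntegral.integral_of_le hab, ← integral_indicator measurableSet_Ioc]
    refine integral_mono_of_nonneg (Eventually.of_forall fun s => ?_) (i1.add hI2)
      (Eventually.of_forall fun s => h3 (2 * N') a b H ha hH s)
    exact indicator_nonneg (fun s _ => sq_nonneg _) s
  have hZ0 : 0 ≤ Z := intervalIntegral.integral_nonneg hle fun s _ => sq_nonneg _
  have b4 := (abs_le.1 (i3.trans b1)).2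
  have hK : (2 * (2 * K₂ + K₁) + K₃) * J * Z ≥ 0 := by positivity
  have hf : ∫ t in a..b, ‖ff k t‖ ^ 2 ≤ 3 * Z + (2 * (2 * K₂ + K₁) + K₃) * J := by
    have e3 : (2 * (2 * K₂ + K₁) + K₃) * J = 4 * (K₂ * J) + 2 * (K₁ * J) + K₃ * J := by ring
    rw [e3]
    have h7 : 0 ≤ K₂ * J := by positivity
    have h8 : 0 ≤ K₁ * J := by positivity
    linarith
  have e5 : (3 + (2 * (2 * K₂ + K₁) + K₃) * J) * (Z + 1) =
    3 * Z + 3 + (2 * (2 * K₂ + K₁) + K₃) * J * Z + (2 * (2 * K₂ + K₁) + K₃) * J := by ring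
  rw [e5]
  linarith

end Pool.Agent.J6H39.PI
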