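import Pool.Agent.J6H39.PI.Stm

/-! Modules XT and DG of project PI. -/

set_option autoImplicit false

open MeasureTheory Set Filter Topology Complex
open scoped ContDiff

namespace Pool.Agent.J6H39.PI

open Pool.Agent.J6H39.KV (dv)

/-! ### XT -/

/-- `max (|t|/2π) 1` -/
noncomputable def mx (t : ℝ) : ℝ := max (|t| / (2 * Real.pi)) 1

lemma one_le_mx (t : ℝ) : 1 ≤ mx t := le_max_right _ _

lemma Xt_eq (k : ℕ) (t : ℝ) : Xt k t = max 1 (k / 2 * Real.log (mx t)) := by
  unfold Xt Xk mx
  have hpi : 0 < 2 * Real.pi := by positivity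
  have h0 : Real.log (t / (2 * Real.pi)) = Real.log (|t| / (2 * Real.pi)) := by
    rw [← Real.log_abs (t / (2 * Real.pi)), abs_div, abs_of_pos hpi]
  rw [h0]
  rcases le_total 1 (|t| / (2 * Real.pi)) with h1 | h1
  · rw [max_eq_left h1]
  · rw [max_eq_right h1, Real.log_one, mul_zero, max_eq_left zero_le_one]
    refine max_eq_left ?_
    have h2 : Real.log (|t| / (2 * Real.pi)) ≤ 0 := Real.log_nonpos (by positivity) h1
    have h3 : (0 : ℝ) ≤ k / 2 := by positivity
    nlinarith [mul_nonneg h3 (neg_nonneg.2 h2)]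

lemma abs_log_sub {A B M δ : ℝ} (hM : 0 < M) (hA : M ≤ A) (hB : M ≤ B) (h : |A - B| ≤ δ) :
    |Real.log A - Real.log B| ≤ δ / M := by
  have hA0 : 0 < A := lt_of_lt_of_le hM hA
  have hB0 : 0 < B := lt_of_lt_of_le hM hB
  have hδ : 0 ≤ δ := (abs_nonneg _).trans h
  have key : ∀ a b : ℝ, 0 < a → 0 < b → M ≤ b → |a - b| ≤ δ → Real.log a - Real.log b ≤ δ / M := by
    intro a b ha hb hMb hab
    rw [← Real.log_div ha.ne' hb.ne']
    have h1 := Real.log_le_sub_one_of_pos (div_pos ha hb)
    have h2 : a / b - 1 = (a - b) / b := by field_simp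
    rw [h2] at h1
    calc Real.log (a / b) ≤ (a - b) / b := h1
      _ ≤ δ / b := by
          apply div_le_div_of_nonneg_right _ hb.le
          exact (le_abs_self _).trans hab
      _ ≤ δ / M := div_le_div_of_nonneg_left hδ hM hMb
  rw [abs_le]
  constructor
  · have := key B A hB0 hA0 hA (by rw [abs_sub_comm]; exact h)
    linarith
  · exact key A B hA0 hB0 hB h

theorem t_XT : S_XT := by
  intro k
  have hpi : 0 < 2 * Real.pi := by positivity
  have hpi3 : (3 : ℝ) < Real.pi := Real.pi_gt_three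
  refine ⟨k + 1, by positivity, ?_, fun s => ⟨?_, fun u => ?_⟩⟩
  · have e : Xt k = fun t => max 1 (k / 2 * Real.log (mx t)) := funext (Xt_eq k)
    rw [e]
    have hm : Continuous mx := by
      unfold mx
      fun_prop
    exact continuous_const.max (continuous_const.mul (hm.log fun t => by
      have := one_le_mx t
      linarith))
  · rw [Xt_eq]
    have h1 : Real.log (mx s) ≤ Real.log (1 + |s|) := by
      apply Real.log_le_log (by have := one_le_mx s; linarith)
      refine max_le ?_ (by linarith [abs_nonneg s])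
      rw [div_le_iff₀ hpi]
      nlinarith [abs_nonneg s]
    have h2 : 0 ≤ Real.log (1 + |s|) := Real.log_nonneg (by linarith [abs_nonneg s])
    have hk : (0 : ℝ) ≤ k := Nat.cast_nonneg k
    unfold lg
    refine max_le ?_ ?_
    · nlinarith [mul_nonneg hk h2]
    · nlinarith [mul_nonneg hk h2, mul_nonneg hk (sub_nonneg.2 h1)]
  · rw [Xt_eq, Xt_eq]
    have hk : (0 : ℝ) ≤ k := Nat.cast_nonneg k
    have hu := abs_nonneg u
    have hs := abs_nonneg s
    have h1 : |max 1 (k / 2 * Real.log (mx (s + u))) - max 1 (k / 2 * Real.log (mx s))| ≤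
        k / 2 * |Real.log (mx (s + u)) - Real.log (mx s)| := by
      rw [max_comm 1 (k / 2 * Real.log (mx (s + u))), max_comm 1 (k / 2 * Real.log (mx s))]
      refine (abs_max_sub_max_le_abs _ _ _).trans ?_
      rw [← mul_sub, abs_mul, abs_of_nonneg (by positivity : (0 : ℝ) ≤ k / 2)]
    have h2 : |mx (s + u) - mx s| ≤ |u| / (2 * Real.pi) := by
      unfold mx
      have e1 : |max (|s + u| / (2 * Real.pi)) 1 - max (|s| / (2 * Real.pi)) 1| ≤
          |(|s + u| / (2 * Real.pi)) - |s| / (2 * Real.pi)| := by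
        have := abs_max_sub_max_le_abs (|s + u| / (2 * Real.pi)) (|s| / (2 * Real.pi)) 1
        exact this
      refine e1.trans ?_
      rw [← sub_div, abs_div, abs_of_pos hpi]
      apply div_le_div_of_nonneg_right _ hpi.le
      have e2 := abs_abs_sub_abs_le (s + u) s
      rwa [add_sub_cancel_left] at e2
    have hB : (1 + |s|) / (4 * Real.pi) ≤ mx s := by
      have e1 : |s| / (2 * Real.pi) ≤ mx s := le_max_left _ _
      have e2 := one_le_mx s
      rw [div_le_iff₀ (by positivity)]
      rw [div_le_iff₀ hpi] at e1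
      nlinarith
    have hu2 : |u| / (2 * Real.pi) ≤ |u| := by
      rw [div_le_iff₀ hpi]
      nlinarith
    have hM : mx s / (1 + |u|) ≤ mx (s + u) := by
      rw [div_le_iff₀ (by positivity)]
      have e1 := (abs_le.1 h2).1
      have e2 := one_le_mx (s + u)
      nlinarith
    have hM' : mx s / (1 + |u|) ≤ mx s := by
      rw [div_le_iff₀ (by positivity)]
      have e2 := one_le_mx s
      nlinarith
    have hMpos : 0 < mx s / (1 + |u|) := by
      have e2 := one_le_mx s
      positivity
    have h3 := abs_log_sub hMpos hM hM' h2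
    have h4 : |u| / (2 * Real.pi) / (mx s / (1 + |u|)) ≤ 2 * (1 + |u|) ^ 2 / (1 + |s|) := by
      rw [div_div_eq_mul_div, div_le_div_iff₀ (by have := one_le_mx s; positivity) (by positivity)]
      rw [div_le_iff₀ (by positivity)] at hB
      have e3 : |u| / (2 * Real.pi) * (1 + |u|) * (1 + |s|) ≤
          |u| / (2 * Real.pi) * (1 + |u|) * (mx s * (4 * Real.pi)) :=
        mul_le_mul_of_nonneg_left hB (by positivity)
      have e4 : |u| / (2 * Real.pi) * (1 + |u|) * (mx s * (4 * Real.pi)) =
          2 * (|u| * (1 + |u|)) * mx s := by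
        field_simp
        ring
      rw [e4] at e3
      refine e3.trans ?_
      have e5 : |u| * (1 + |u|) ≤ (1 + |u|) ^ 2 := by nlinarith
      have e6 := one_le_mx s
      exact mul_le_mul_of_nonneg_right (by linarith) (by linarith)
    calc _ ≤ k / 2 * |Real.log (mx (s + u)) - Real.log (mx s)| := h1
      _ ≤ k / 2 * (2 * (1 + |u|) ^ 2 / (1 + |s|)) :=
          mul_le_mul_of_nonneg_left (h3.trans h4) (by positivity)
      _ = k * (1 + |u|) ^ 2 / (1 + |s|) := by ring
      _ ≤ (k + 1) * (1 + |u|) ^ 2 / (1 + |s|) := by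
          apply div_le_div_of_nonneg_right _ (by positivity)
          nlinarith [sq_nonneg (1 + |u|)]

/-! ### DG -/

lemma dv_le (k : ℕ) : ∀ n : ℕ, dv k n ≤ n ^ k := by
  induction k with
  | zero =>
    intro n
    unfold dv
    rw [pow_zero, pow_zero, ArithmeticFunction.one_apply]
    split_ifs <;> omega
  | succ k ih =>
    intro n
    have e : dv (k + 1) n = ∑ x ∈ n.divisorsAntidiagonal, dv k x.1 *
        (ArithmeticFunction.zeta : ArithmeticFunction ℕ) x.2 := by
      unfold dv
      rw [pow_succ, ArithmeticFunction.mul_apply]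
    rw [e]
    calc _ ≤ ∑ x ∈ n.divisorsAntidiagonal, n ^ k := by
          refine Finset.sum_le_sum fun x hx => ?_
          obtain ⟨h1, h2⟩ := Nat.mem_divisorsAntidiagonal.1 hx
          have h3 : x.1 ≤ n := Nat.le_of_dvd (Nat.pos_of_ne_zero h2) ⟨x.2, h1.symm⟩
          have h4 : (ArithmeticFunction.zeta : ArithmeticFunction ℕ) x.2 ≤ 1 := by
            rw [ArithmeticFunction.zeta_apply]
            split_ifs <;> omega
          calc _ ≤ dv k x.1 * 1 := Nat.mul_le_mul_left _ h4
            _ = dv k x.1 := mul_one _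
            _ ≤ x.1 ^ k := ih _
            _ ≤ n ^ k := Nat.pow_le_pow_left h3 k
      _ = n.divisorsAntidiagonal.card * n ^ k := by rw [Finset.sum_const, smul_eq_mul]
      _ ≤ n * n ^ k := by
          refine Nat.mul_le_mul_right _ ?_
          rw [← Nat.map_div_right_divisors, Finset.card_map]
          exact Nat.card_divisors_le_self n
      _ = n ^ (k + 1) := by ring

lemma adm_abs {v : ℝ → ℝ} (hv : Adm v) (x : ℝ) : |v x| ≤ 1 := by
  have h := hv.sq x
  rw [← sq_le_one_iff_abs_le_one]
  nlinarith [sq_nonneg (v (-x))]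

lemma adm_zero {v : ℝ → ℝ} (hv : Adm v) {x : ℝ} (hx : 1 ≤ x) : v x = 0 := by
  have h := hv.sq x
  rw [hv.one (-x) (by linarith)] at h
  have : v x ^ 2 = 0 := by linarith
  exact pow_eq_zero_iff (two_ne_zero) |>.1 this

/-- the terms -/
noncomputable def dt (k : ℕ) (v : ℝ → ℝ) (n : ℕ) (t : ℝ) : ℂ :=
  (dv k n : ℂ) * (n : ℂ) ^ (-(1 / 2 + (t : ℂ) * I)) * (v (Real.log n - Xk k t) : ℂ)

/-- the number of terms -/
noncomputable def nt (k : ℕ) (t : ℝ) : ℕ := ⌊3 * (1 + |t|) ^ k⌋₊

lemma exp_Xk (k : ℕ) (t : ℝ) : Real.exp (Xk k t) ≤ (1 + |t|) ^ k := by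
  have h1 : Xk k t ≤ k * Real.log (1 + |t|) := by
    unfold Xk
    have hpi : 0 < 2 * Real.pi := by positivity
    have hpi3 : (3 : ℝ) < Real.pi := Real.pi_gt_three
    have hk : (0 : ℝ) ≤ k := Nat.cast_nonneg k
    have ht := abs_nonneg t
    have h2 : 0 ≤ Real.log (1 + |t|) := Real.log_nonneg (by linarith)
    have h3 : Real.log (t / (2 * Real.pi)) ≤ Real.log (1 + |t|) := by
      rcases eq_or_ne t 0 with rfl | h0
      · simp
      · rw [← Real.log_abs (t / (2 * Real.pi)), abs_div, abs_of_pos hpi]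
        apply Real.log_le_log (by positivity)
        rw [div_le_iff₀ hpi]
        nlinarith
    nlinarith [mul_nonneg hk h2, mul_nonneg hk (sub_nonneg.2 h3)]
  calc Real.exp (Xk k t) ≤ Real.exp (k * Real.log (1 + |t|)) := Real.exp_le_exp.2 h1
    _ = (1 + |t|) ^ k := by
        rw [Real.exp_nat_mul, Real.exp_log (by positivity)]

lemma dt_zero {k : ℕ} {v : ℝ → ℝ} (hv : Adm v) (t : ℝ) {n : ℕ}
    (hn : n ∉ Finset.range (nt k t + 1)) : dt k v n t = 0 := by
  unfold dt
  rw [Finset.mem_range, not_lt] at hn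
  have h1 : (0 : ℝ) < n := by
    have : 0 < n := by omega
    exact_mod_cast this
  have h2 : 3 * (1 + |t|) ^ k < n := by
    have := Nat.lt_of_floor_lt (a := 3 * (1 + |t|) ^ k) (n := n) (by
      have : nt k t < n := by omega
      exact this)
    exact this
  have h3 : 1 + Xk k t ≤ Real.log n := by
    rw [Real.le_log_iff_exp_le h1, Real.exp_add]
    have e1 : Real.exp 1 ≤ 3 := (Real.exp_one_lt_d9.trans (by norm_num)).le
    have e2 := exp_Xk k t
    have e3 := Real.exp_pos (Xk k t)
    nlinarith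
  rw [adm_zero hv (by linarith : (1 : ℝ) ≤ Real.log n - Xk k t)]
  simp

lemma dt_norm {k : ℕ} {v : ℝ → ℝ} (hv : Adm v) (t : ℝ) (n : ℕ) : ‖dt k v n t‖ ≤ (n : ℝ) ^ k := by
  unfold dt
  rcases Nat.eq_zero_or_pos n with rfl | hn
  · have : dv k 0 = 0 := by
      unfold dv
      exact ArithmeticFunction.map_zero
    rw [this]
    simp
  rw [norm_mul, norm_mul, Complex.norm_natCast, Complex.norm_natCast_cpow_of_pos hn]
  have h1 : (n : ℝ) ^ (-(1 / 2 + (t : ℂ) * I)).re ≤ 1 := by
    apply Real.rpow_le_one_of_one_le_of_nonpos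
    · exact_mod_cast hn
    · simp
  have h2 : ‖((v (Real.log n - Xk k t) : ℝ) : ℂ)‖ ≤ 1 := by
    rw [Complex.norm_real]
    exact adm_abs hv _
  have h3 : ((dv k n : ℕ) : ℝ) ≤ (n : ℝ) ^ k := by
    exact_mod_cast dv_le k n
  have h0 : (0 : ℝ) ≤ (n : ℝ) ^ (-(1 / 2 + (t : ℂ) * I)).re := by positivity
  calc _ ≤ (n : ℝ) ^ k * 1 * 1 := by gcongr
    _ = (n : ℝ) ^ k := by ring

theorem t_DG : S_DG := by
  intro k v hv
  have hsum : ∀ t, DD k v t = ∑ n ∈ Finset.range (nt k t + 1), dt k v n t := fun t =>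
    tsum_eq_sum fun n hn => dt_zero hv t hn
  constructor
  · have hm : ∀ n, Measurable (dt k v n) := by
      intro n
      unfold dt Xk
      have hc : Measurable v := hv.smooth.continuous.measurable
      have h1 : Measurable fun t : ℝ => v (Real.log n - k / 2 * Real.log (t / (2 * Real.pi))) :=
        hc.comp (measurable_const.sub (measurable_const.mul
          (Real.measurable_log.comp (measurable_id.div_const _))))
      have h2 : Measurable fun t : ℝ => (n : ℂ) ^ (-(1 / 2 + (t : ℂ) * I)) := by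
        have : Measurable fun t : ℝ => (-(1 / 2 + (t : ℂ) * I)) := by fun_prop
        exact measurable_const.pow this
      exact (measurable_const.mul h2).mul (Complex.measurable_ofReal.comp h1)
    refine measurable_of_tendsto_metrizable (f := fun (N : ℕ) (t : ℝ) =>
      ∑ n ∈ Finset.range N, dt k v n t) (fun N => Finset.measurable_sum _ fun n _ => hm n) ?_
    rw [tendsto_pi_nhds]
    intro t
    refine tendsto_const_nhds.congr' ?_
    filter_upwards [eventually_ge_atTop (nt k t + 1)] with N hN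
    rw [hsum t]
    refine Finset.sum_subset (Finset.range_mono hN) fun n _ hn => dt_zero hv t hn
  · refine ⟨k * (k + 1), 4 ^ (k + 1), fun t => ?_⟩
    rw [hsum t]
    have ht := abs_nonneg t
    have h1 : (nt k t : ℝ) ≤ 3 * (1 + |t|) ^ k := Nat.floor_le (by positivity)
    have h2 : (1 : ℝ) ≤ (1 + |t|) ^ k := one_le_pow₀ (by linarith)
    calc _ ≤ ∑ n ∈ Finset.range (nt k t + 1), ‖dt k v n t‖ := norm_sum_le _ _
      _ ≤ ∑ n ∈ Finset.range (nt k t + 1), ((nt k t : ℝ) + 1) ^ k := by
          refine Finset.sum_le_sum fun n hn => (dt_norm hv t n).trans ?_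
          have h3 : (n : ℝ) ≤ (nt k t : ℝ) + 1 := by
            rw [Finset.mem_range] at hn
            exact_mod_cast hn.le
          exact pow_le_pow_left₀ (Nat.cast_nonneg n) h3 k
      _ = ((nt k t : ℝ) + 1) ^ (k + 1) := by
          rw [Finset.sum_const, Finset.card_range, nsmul_eq_mul]
          push_cast
          ring
      _ ≤ (4 * (1 + |t|) ^ k) ^ (k + 1) :=
          pow_le_pow_left₀ (by positivity) (by linarith) _
      _ = 4 ^ (k + 1) * (1 + |t|) ^ (k * (k + 1)) := by
          rw [mul_pow, ← pow_mul]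

end Pool.Agent.J6H39.PI
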