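import Pool.Agent.J6H39.PI.KN
import Pool.Agent.J6H39.PI.SY
import Pool.Agent.J6H39.PI.LP
import Pool.Agent.J6H39.PI.DA
import Pool.Agent.J6H39.PI.LG
import Pool.Agent.J6H39.PI.RF
import Pool.Agent.J6H39.PI.AF
import Pool.Agent.J6H39.PI.SC
import Pool.Agent.J6H39.PI.XD
import Pool.Agent.J6H39.PI.BL
import Pool.Agent.J6H39.PI.MS
import Pool.Agent.J6H39.PI.SH
import Pool.Agent.J6H39.PI.UP
import Pool.Agent.J6H39.PI.EQ
import Pool.Agent.J6H39.PI.DM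
import Pool.Agent.J6H39.PI.FA
import Pool.Agent.J6H39.PI.OF
import Pool.Agent.J6H39.PI.DQ
import Pool.Agent.J6H39.PI.L2
import Pool.Agent.J6H39.PI.L3

/-! Project PI: assembly of the modules. -/

set_option autoImplicit false

namespace Pool.Agent.J6H39.PI

theorem DA_ : S_DA := t_DA t_LP
theorem AF_ : S_AF := t_AF t_KN t_SY DA_ t_LG t_RF
theorem BL_ : S_BL := t_BL t_KN t_SY t_SC t_XT
theorem MS_ : S_MS := t_MS AF_ BL_ DA_ t_SY t_KN t_SC t_XT t_DG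
theorem SH_ : S_SH := t_SH MS_ t_DG
theorem UP_ : S_UP := t_UP MS_ t_DG
theorem EQ_ : S_EQ := t_EQ SH_ UP_ t_DG
theorem DQ_ : S_DQ := t_DQ t_DM t_FA t_OF

end Pool.Agent.J6H39.PI
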