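import Pool.Agent.J6H39.PI.Stm2

/-!
# Project PI, item DM: smooth sums of `d_m(n)/n`

Elementary proof (no contour integrals). With `r(y) = ∑_{n < e^y} 1/n - y - γ = O(e^(-y))` the operator
`T h (Y) = ∑ n⁻¹ h(Y - log n)` is `T h (Y) = ∫_{-∞}^Y h + γ h(Y) + ∫_0^∞ h'(Y-y) r(y) dy` for smooth `h`
vanishing on `(-∞, -1)`. It preserves the class of the functions all derivatives of which are polynomials
up to `O(e^(-y/2))`, and raises the degree by at most one.
-/

set_option autoImplicit false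

open MeasureTheory Set Filter Topology
open scoped ContDiff

namespace Pool.Agent.J6H39.PI

open Pool.Agent.J6H39.KV (dv)

namespace DM

/-! ### the remainder of the harmonic sum -/

/-- `∑_{n < e^y} 1/n` -/
noncomputable def NN (y : ℝ) : ℝ := ∑ n ∈ Finset.range ⌈Real.exp y⌉₊, (n : ℝ)⁻¹

/-- the remainder -/
noncomputable def rr (y : ℝ) : ℝ := NN y - y - Real.eulerMascheroniConstant

theorem rr_bound {y : ℝ} (hy : 0 < y) : |rr y| ≤ 2 * Real.exp (-y) := by
  have h1 : 1 < Real.exp y := Real.one_lt_exp_iff.2 hy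
  have hc : 1 < ⌈Real.exp y⌉₊ := by
    rw [Nat.lt_ceil]; simpa using h1
  obtain ⟨k, hk⟩ : ∃ k, ⌈Real.exp y⌉₊ = k + 1 := ⟨⌈Real.exp y⌉₊ - 1, by omega⟩
  have hk1 : 1 ≤ k := by omega
  have hkR : (1 : ℝ) ≤ k := by exact_mod_cast hk1
  have hlt : (k : ℝ) < Real.exp y := by
    have : k < ⌈Real.exp y⌉₊ := by omega
    exact Nat.lt_ceil.1 this
  have hle : Real.exp y ≤ (k : ℝ) + 1 := by
    have := Nat.le_ceil (Real.exp y)
    rw [hk] at this
    exact_mod_cast this
  have hN : NN y = (harmonic k : ℝ) := by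
    unfold NN
    rw [hk, Finset.sum_range_succ']
    simp [harmonic]
  have e1 := Real.eulerMascheroniSeq_lt_eulerMascheroniConstant k
  have e2 := Real.eulerMascheroniConstant_lt_eulerMascheroniSeq' k
  unfold Real.eulerMascheroniSeq at e1
  unfold Real.eulerMascheroniSeq' at e2
  rw [if_neg (by omega)] at e2
  have l1 : Real.log k < y := by
    rw [Real.log_lt_iff_lt_exp (by linarith)]; exact hlt
  have l2 : y ≤ Real.log ((k : ℝ) + 1) := by
    rw [Real.le_log_iff_exp_le (by linarith)]; exact hle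
  have l3 : Real.log ((k : ℝ) + 1) - Real.log k ≤ 1 / k := by
    rw [← Real.log_div (by linarith) (by linarith)]
    have := Real.log_le_sub_one_of_pos (x := ((k : ℝ) + 1) / k) (by positivity)
    refine this.trans (le_of_eq ?_)
    field_simp
    ring
  have l4 : 1 / (k : ℝ) ≤ 2 * Real.exp (-y) := by
    rw [Real.exp_neg, div_le_iff₀ (by linarith)]
    have h5 : Real.exp y ≤ 2 * k := by linarith
    have h6 : 0 < Real.exp y := Real.exp_pos y
    rw [mul_assoc, inv_mul_eq_div, mul_div_assoc', le_div_iff₀ h6]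
    linarith
  unfold rr
  rw [hN, abs_le]
  constructor <;> linarith

theorem measurable_NN : Measurable NN := by
  have h : Measurable (fun k : ℕ => ∑ n ∈ Finset.range k, ((n : ℝ))⁻¹) := measurable_from_nat
  exact h.comp (Nat.measurable_ceil.comp Real.measurable_exp)

theorem measurable_rr : Measurable rr := (measurable_NN.sub measurable_id).sub_const _

/-! ### the class of functions -/

/-- a polynomial up to `O(e^(-y/2))` -/
def Asy (m : ℕ) (f : ℝ → ℝ) : Prop := ∃ P : Polynomial ℝ, P.natDegree ≤ m ∧ ∃ C : ℝ, 0 ≤ C ∧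
  ∀ y : ℝ, |f y - P.eval y| ≤ C * Real.exp (-(1 / 2) * y)

theorem Asy.add {m : ℕ} {f g : ℝ → ℝ} (hf : Asy m f) (hg : Asy m g) : Asy m (fun y => f y + g y) := by
  obtain ⟨P, hP, C, hC, h⟩ := hf
  obtain ⟨Q, hQ, D, hD, h'⟩ := hg
  refine ⟨P + Q, (Polynomial.natDegree_add_le _ _).trans (max_le hP hQ), C + D, by positivity, fun y => ?_⟩
  rw [Polynomial.eval_add, add_mul]
  calc |f y + g y - (P.eval y + Q.eval y)| = |(f y - P.eval y) + (g y - Q.eval y)| := by congr 1; ring
    _ ≤ |f y - P.eval y| + |g y - Q.eval y| := abs_add_le _ _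
    _ ≤ _ := add_le_add (h y) (h' y)

theorem Asy.smul {m : ℕ} {f : ℝ → ℝ} (hf : Asy m f) (c : ℝ) : Asy m (fun y => c * f y) := by
  obtain ⟨P, hP, C, hC, h⟩ := hf
  refine ⟨Polynomial.C c * P, (Polynomial.natDegree_C_mul_le _ _).trans hP, |c| * C, by positivity, fun y => ?_⟩
  rw [Polynomial.eval_mul, Polynomial.eval_C, ← mul_sub, abs_mul, mul_assoc]
  exact mul_le_mul_of_nonneg_left (h y) (abs_nonneg c)

theorem Asy.mono {m n : ℕ} {f : ℝ → ℝ} (hf : Asy m f) (h : m ≤ n) : Asy n f := by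
  obtain ⟨P, hP, hC⟩ := hf
  exact ⟨P, hP.trans h, hC⟩

theorem int_exp (c : ℝ) : IntegrableOn (fun x : ℝ => Real.exp (-(1 / 2) * x)) (Ioi c) :=
  integrableOn_exp_mul_Ioi (by norm_num) c

theorem int_exp_val (c : ℝ) : ∫ x in Ioi c, Real.exp (-(1 / 2) * x) = 2 * Real.exp (-(1 / 2) * c) := by
  rw [integral_exp_mul_Ioi (by norm_num)]
  ring

/-- the antiderivative -/
theorem Asy.prim {m : ℕ} {f : ℝ → ℝ} (hc : Continuous f) (hf : Asy m f) :
    Asy (m + 1) (fun Y => ∫ x in (-1 : ℝ)..Y, f x) := by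
  obtain ⟨P, hP, C, hC, h⟩ := hf
  set g : ℝ → ℝ := fun x => f x - P.eval x with hg
  have hgc : Continuous g := hc.sub P.continuous
  have hgi : ∀ c, IntegrableOn g (Ioi c) := fun c =>
    Integrable.mono' ((int_exp c).const_mul C) hgc.aestronglyMeasurable
      (Filter.Eventually.of_forall fun x => by rw [Real.norm_eq_abs]; exact h x)
  set A : Polynomial ℝ := ∑ i ∈ Finset.range (m + 1), Polynomial.C (P.coeff i / (i + 1)) * Polynomial.X ^ (i + 1)
    with hA
  have hAe : ∀ Y : ℝ, ∫ x in (-1 : ℝ)..Y, P.eval x = A.eval Y - A.eval (-1) := by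
    intro Y
    have e1 : ∀ x : ℝ, P.eval x = ∑ i ∈ Finset.range (m + 1), P.coeff i * x ^ i := fun x =>
      Polynomial.eval_eq_sum_range' (Nat.lt_succ_of_le hP) x
    simp_rw [e1]
    rw [intervalIntegral.integral_finsetSum (fun i _ => (by fun_prop : Continuous _).intervalIntegrable _ _)]
    simp_rw [intervalIntegral.integral_const_mul, integral_pow]
    rw [hA, Polynomial.eval_finsetSum, Polynomial.eval_finsetSum, ← Finset.sum_sub_distrib]
    refine Finset.sum_congr rfl fun i _ => ?_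
    simp only [Polynomial.eval_mul, Polynomial.eval_C, Polynomial.eval_pow, Polynomial.eval_X]
    ring
  have hAd : A.natDegree ≤ m + 1 := by
    rw [hA]
    refine Polynomial.natDegree_sum_le_of_forall_le _ _ fun i hi => ?_
    refine (Polynomial.natDegree_C_mul_X_pow_le _ _).trans ?_
    have := Finset.mem_range.1 hi
    omega
  refine ⟨A + Polynomial.C (-A.eval (-1) + ∫ x in Ioi (-1 : ℝ), g x),
    (Polynomial.natDegree_add_le _ _).trans (max_le hAd (by simp)), C * 2, by positivity, fun Y => ?_⟩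
  have e2 : ∫ x in (-1 : ℝ)..Y, f x = (∫ x in (-1 : ℝ)..Y, g x) + ∫ x in (-1 : ℝ)..Y, P.eval x := by
    rw [← intervalIntegral.integral_add (hgc.intervalIntegrable _ _) (P.continuous.intervalIntegrable _ _)]
    refine intervalIntegral.integral_congr fun x _ => ?_
    simp [hg]
  beta_reduce
  rw [e2, hAe, ← intervalIntegral.integral_Ioi_sub_Ioi' (hgi _) (hgi _), Polynomial.eval_add, Polynomial.eval_C]
  have e3 : (∫ x in Ioi (-1 : ℝ), g x) - (∫ x in Ioi Y, g x) + (A.eval Y - A.eval (-1)) -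
      (A.eval Y + (-A.eval (-1) + ∫ x in Ioi (-1 : ℝ), g x)) = -∫ x in Ioi Y, g x := by ring
  rw [e3, abs_neg, ← Real.norm_eq_abs]
  refine (norm_integral_le_of_norm_le ((int_exp Y).const_mul C)
    (Filter.Eventually.of_forall fun x => by rw [Real.norm_eq_abs]; exact h x)).trans ?_
  rw [integral_const_mul, int_exp_val]
  linarith

/-- the integral against the remainder -/
theorem rr_int {g : ℝ → ℝ} (hg : Measurable g) {C : ℝ} (h : ∀ y, 0 < y → |g y| ≤ C * Real.exp (y / 2)) :
    IntegrableOn (fun y => g y * rr y) (Ioi 0) ∧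
      |∫ y in Ioi (0 : ℝ), g y * rr y| ≤ 4 * C := by
  have hb : ∀ y ∈ Ioi (0 : ℝ), ‖g y * rr y‖ ≤ (2 * C) * Real.exp (-(1 / 2) * y) := by
    intro y hy
    rw [Real.norm_eq_abs, abs_mul]
    have h1 := h y hy
    have h2 := rr_bound hy
    calc |g y| * |rr y| ≤ (C * Real.exp (y / 2)) * (2 * Real.exp (-y)) :=
          mul_le_mul h1 h2 (abs_nonneg _) ((abs_nonneg _).trans h1)
      _ = (2 * C) * (Real.exp (y / 2) * Real.exp (-y)) := by ring
      _ = (2 * C) * Real.exp (-(1 / 2) * y) := by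
        rw [← Real.exp_add]; congr 2; ring
  have hb' : ∀ᵐ y ∂(volume.restrict (Ioi (0 : ℝ))), ‖g y * rr y‖ ≤ (2 * C) * Real.exp (-(1 / 2) * y) :=
    (ae_restrict_mem measurableSet_Ioi).mono hb
  refine ⟨Integrable.mono' ((int_exp 0).const_mul (2 * C)) (hg.mul measurable_rr).aestronglyMeasurable hb', ?_⟩
  rw [← Real.norm_eq_abs]
  refine (norm_integral_le_of_norm_le ((int_exp 0).const_mul (2 * C)) hb').trans ?_
  rw [integral_const_mul, int_exp_val]
  simp
  linarith

/-- polynomials are `O(e^(|y|/2))` -/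
theorem poly_bound (P : Polynomial ℝ) {c : ℝ} (hc : 0 < c) :
    ∃ B : ℝ, 0 ≤ B ∧ ∀ y : ℝ, |P.eval y| ≤ B * Real.exp (c * |y|) := by
  have hmono : ∀ i : ℕ, ∃ B : ℝ, 0 ≤ B ∧ ∀ y : ℝ, |y ^ i| ≤ B * Real.exp (c * |y|) := by
    intro i
    refine ⟨i.factorial / c ^ i, by positivity, fun y => ?_⟩
    have h := Real.pow_div_factorial_le_exp (c * |y|) (by positivity) i
    rw [div_le_iff₀ (by positivity), mul_pow] at h
    rw [abs_pow, div_mul_eq_mul_div, le_div_iff₀ (by positivity)]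
    linarith
  choose B hB0 hB using hmono
  refine ⟨∑ i ∈ Finset.range (P.natDegree + 1), |P.coeff i| * B i,
    Finset.sum_nonneg fun i _ => mul_nonneg (abs_nonneg _) (hB0 i), fun y => ?_⟩
  rw [Polynomial.eval_eq_sum_range, Finset.sum_mul]
  refine (Finset.abs_sum_le_sum_abs _ _).trans (Finset.sum_le_sum fun i _ => ?_)
  rw [abs_mul, mul_assoc]
  exact mul_le_mul_of_nonneg_left (hB i y) (abs_nonneg _)

/-- convolution with the remainder -/
theorem Asy.conv {m : ℕ} {f : ℝ → ℝ} (hc : Continuous f) (hf : Asy m f) :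
    Asy m (fun Y => ∫ y in Ioi (0 : ℝ), f (Y - y) * rr y) := by
  obtain ⟨P, hP, C, hC, h⟩ := hf
  -- the moments of the remainder
  set μ : ℕ → ℝ := fun k => ∫ y in Ioi (0 : ℝ), (-y) ^ k * rr y with hμ
  set S : Polynomial ℝ := ∑ k ∈ Finset.range (m + 1), Polynomial.C (μ k) * Polynomial.hasseDeriv k P with hS
  have hSd : S.natDegree ≤ m := by
    rw [hS]
    refine Polynomial.natDegree_sum_le_of_forall_le _ _ fun i hi => ?_
    refine (Polynomial.natDegree_C_mul_le _ _).trans ?_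
    refine (Polynomial.natDegree_hasseDeriv_le _ _).trans ?_
    omega
  have hpow : ∀ k : ℕ, IntegrableOn (fun y : ℝ => (-y) ^ k * rr y) (Ioi 0) := by
    intro k
    obtain ⟨B, -, hB⟩ := poly_bound ((Polynomial.X : Polynomial ℝ) ^ k) (c := 1 / 2) (by norm_num)
    refine (rr_int (g := fun y => (-y) ^ k) (by fun_prop) (C := B) fun y hy => ?_).1
    have := hB y
    rw [Polynomial.eval_pow, Polynomial.eval_X, abs_of_pos hy] at this
    rw [abs_pow, abs_neg, ← abs_pow]
    refine this.trans (le_of_eq ?_)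
    congr 2
    ring
  have hPe : ∀ Y y : ℝ, P.eval (Y - y) = ∑ k ∈ Finset.range (m + 1), (Polynomial.hasseDeriv k P).eval Y * (-y) ^ k := by
    intro Y y
    have e1 : P.eval (Y - y) = (Polynomial.taylor Y P).eval (-y) := by
      rw [Polynomial.taylor_eval]; congr 1; ring
    rw [e1, Polynomial.eval_eq_sum_range' (n := m + 1) (by rw [Polynomial.natDegree_taylor]; omega)]
    simp_rw [Polynomial.taylor_coeff]
  have hPi : ∀ Y : ℝ, IntegrableOn (fun y => P.eval (Y - y) * rr y) (Ioi 0) ∧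
      ∫ y in Ioi (0 : ℝ), P.eval (Y - y) * rr y = S.eval Y := by
    intro Y
    have e2 : (fun y => P.eval (Y - y) * rr y) =
        fun y => ∑ k ∈ Finset.range (m + 1), (Polynomial.hasseDeriv k P).eval Y * ((-y) ^ k * rr y) := by
      funext y
      rw [hPe, Finset.sum_mul]
      exact Finset.sum_congr rfl fun k _ => by ring
    rw [e2]
    refine ⟨integrable_finsetSum _ fun k _ => (hpow k).const_mul _, ?_⟩
    rw [integral_finsetSum _ (fun k _ => (hpow k).const_mul _), hS, Polynomial.eval_finsetSum]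
    refine Finset.sum_congr rfl fun k _ => ?_
    rw [integral_const_mul, Polynomial.eval_mul, Polynomial.eval_C, mul_comm]
  refine ⟨S, hSd, 4 * C, by positivity, fun Y => ?_⟩
  have h3 := rr_int (g := fun y => f (Y - y) - P.eval (Y - y))
    ((hc.sub P.continuous).comp (by fun_prop : Continuous fun y : ℝ => Y - y)).measurable
    (C := C * Real.exp (-(1 / 2) * Y)) (fun y _ => by
      refine (h (Y - y)).trans (le_of_eq ?_)
      rw [mul_assoc, ← Real.exp_add]
      congr 2
      ring)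
  have e4 : ∫ y in Ioi (0 : ℝ), f (Y - y) * rr y =
      (∫ y in Ioi (0 : ℝ), (f (Y - y) - P.eval (Y - y)) * rr y) + ∫ y in Ioi (0 : ℝ), P.eval (Y - y) * rr y := by
    rw [← integral_add h3.1 (hPi Y).1]
    refine integral_congr_ae (Filter.Eventually.of_forall fun y => ?_)
    simp only
    ring
  beta_reduce
  rw [e4, (hPi Y).2, add_sub_cancel_right]
  refine h3.2.trans (le_of_eq ?_)
  ring

theorem Asy.bd {m : ℕ} {f : ℝ → ℝ} (hf : Asy m f) (Y : ℝ) :
    ∃ C : ℝ, ∀ y, 0 < y → |f (Y - y)| ≤ C * Real.exp (y / 2) := by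
  obtain ⟨P, hP, C, hC, h⟩ := hf
  obtain ⟨B, hB0, hB⟩ := poly_bound P (c := 1 / 2) (by norm_num)
  refine ⟨C * Real.exp (-(1 / 2) * Y) + B * Real.exp (1 / 2 * |Y|), fun y hy => ?_⟩
  have h1 := h (Y - y)
  have h2 := hB (Y - y)
  have h3 : |f (Y - y)| ≤ |f (Y - y) - P.eval (Y - y)| + |P.eval (Y - y)| := by
    have := abs_add_le (f (Y - y) - P.eval (Y - y)) (P.eval (Y - y))
    rwa [sub_add_cancel] at this
  refine h3.trans ((add_le_add h1 h2).trans ?_)
  rw [add_mul]
  refine add_le_add (le_of_eq ?_) ?_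
  · rw [mul_assoc, ← Real.exp_add]
    congr 2
    ring
  · rw [mul_assoc, ← Real.exp_add]
    refine mul_le_mul_of_nonneg_left (Real.exp_le_exp.2 ?_) hB0
    have : |Y - y| ≤ |Y| + |y| := abs_sub _ _
    rw [abs_of_pos hy] at this
    linarith

/-! ### the operator -/

/-- `∑ n⁻¹ h(Y - log n)` -/
noncomputable def T (h : ℝ → ℝ) (Y : ℝ) : ℝ := ∑' n : ℕ, (n : ℝ)⁻¹ * h (Y - Real.log n)

theorem T_eq {h : ℝ → ℝ} (h0 : ∀ x, x < -1 → h x = 0) {Y : ℝ} {M : ℕ} (hM : Real.exp (Y + 1) < M) :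
    T h Y = ∑ n ∈ Finset.range M, (n : ℝ)⁻¹ * h (Y - Real.log n) := by
  unfold T
  refine tsum_eq_sum fun n hn => ?_
  rw [Finset.mem_range, not_lt] at hn
  have h1 : (M : ℝ) ≤ n := by exact_mod_cast hn
  have h2 : Y + 1 < Real.log n := by
    rw [Real.lt_log_iff_exp_lt (by linarith [Real.exp_pos (Y + 1)])]
    linarith
  rw [h0 _ (by linarith), mul_zero]

theorem deriv_zero {h : ℝ → ℝ} (h0 : ∀ x, x < -1 → h x = 0) : ∀ x, x < -1 → deriv h x = 0 := by
  intro x hx
  have h1 : h =ᶠ[𝓝 x] fun _ => 0 := (eventually_lt_nhds hx).mono fun y hy => h0 y hy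
  rw [h1.deriv_eq, deriv_const]

theorem T_deriv {h : ℝ → ℝ} (hs : Differentiable ℝ h) (h0 : ∀ x, x < -1 → h x = 0) (Y : ℝ) :
    HasDerivAt (T h) (T (deriv h) Y) Y := by
  obtain ⟨M, hM⟩ := exists_nat_gt (Real.exp (Y + 2))
  have h1 : T h =ᶠ[𝓝 Y] fun Z => ∑ n ∈ Finset.range M, (n : ℝ)⁻¹ * h (Z - Real.log n) := by
    refine (eventually_lt_nhds (show Y < Y + 1 by linarith)).mono fun Z hZ => T_eq h0 ?_
    exact (Real.exp_lt_exp.2 (by linarith)).trans hM
  rw [T_eq (deriv_zero h0) (Y := Y) ((Real.exp_lt_exp.2 (by linarith)).trans hM)]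
  refine HasDerivAt.congr_of_eventuallyEq ?_ h1
  refine HasDerivAt.fun_sum fun n _ => ?_
  refine HasDerivAt.const_mul _ ?_
  have h2 := (hs (Y - Real.log n)).hasDerivAt
  have h3 : HasDerivAt (fun Z : ℝ => Z - Real.log n) 1 Y := (hasDerivAt_id Y).sub_const _
  have := h2.comp Y h3
  rw [mul_one] at this
  exact this

theorem T_smooth : ∀ (n : ℕ) {h : ℝ → ℝ}, ContDiff ℝ ∞ h → (∀ x, x < -1 → h x = 0) → ContDiff ℝ n (T h) := by
  intro n
  induction n with
  | zero =>
    intro h hs h0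
    rw [Nat.cast_zero, contDiff_zero]
    exact continuous_iff_continuousAt.2 fun Y => (T_deriv (hs.differentiable (by simp)) h0 Y).continuousAt
  | succ n ih =>
    intro h hs h0
    have e : deriv (T h) = T (deriv h) := funext fun Y => (T_deriv (hs.differentiable (by simp)) h0 Y).deriv
    rw [Nat.cast_succ, contDiff_succ_iff_deriv]
    refine ⟨fun Y => (T_deriv (hs.differentiable (by simp)) h0 Y).differentiableAt, fun h' => ?_, ?_⟩
    · exact absurd h' (by simp)
    · rw [e]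
      exact ih (contDiff_infty_iff_deriv.1 hs).2 (deriv_zero h0)

theorem iter_zero {h : ℝ → ℝ} (h0 : ∀ x, x < -1 → h x = 0) : ∀ j x, x < -1 → iteratedDeriv j h x = 0 := by
  intro j
  induction j with
  | zero => intro x hx; rw [iteratedDeriv_zero]; exact h0 x hx
  | succ j ih =>
    intro x hx
    rw [iteratedDeriv_succ]
    exact deriv_zero ih x hx

theorem iter_T : ∀ (j : ℕ) {h : ℝ → ℝ}, ContDiff ℝ ∞ h → (∀ x, x < -1 → h x = 0) →
    iteratedDeriv j (T h) = T (iteratedDeriv j h) := by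
  intro j
  induction j with
  | zero => intro h _ _; rw [iteratedDeriv_zero, iteratedDeriv_zero]
  | succ j ih =>
    intro h hs h0
    have e : deriv (T h) = T (deriv h) := funext fun Y => (T_deriv (hs.differentiable (by simp)) h0 Y).deriv
    rw [iteratedDeriv_succ', iteratedDeriv_succ', e]
    exact ih (contDiff_infty_iff_deriv.1 hs).2 (deriv_zero h0)

theorem NN_eq {y : ℝ} {M : ℕ} (hM : Real.exp y < M) :
    ∑ n ∈ Finset.range M, (n : ℝ)⁻¹ * (if Real.log n < y then 1 else 0) = NN y ∨ y ≤ 0 := by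
  rcases le_or_gt y 0 with hy | hy
  · exact Or.inr hy
  · left
    unfold NN
    have hcl : ⌈Real.exp y⌉₊ ≤ M := Nat.ceil_le.2 hM.le
    rw [← Finset.sum_subset (Finset.range_subset_range.2 hcl)]
    · refine Finset.sum_congr rfl fun n hn => ?_
      rw [Finset.mem_range, Nat.lt_ceil] at hn
      rcases Nat.eq_zero_or_pos n with rfl | hn0
      · simp
      · rw [if_pos, mul_one]
        rw [Real.log_lt_iff_lt_exp (by exact_mod_cast hn0)]
        exact hn
    · intro n _ hn
      rw [Finset.mem_range, Nat.lt_ceil, not_lt] at hn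
      rw [if_neg, mul_zero]
      rw [not_lt, Real.le_log_iff_exp_le (by linarith [Real.exp_pos y])]
      exact hn

theorem piece {h : ℝ → ℝ} (hs : ContDiff ℝ ∞ h) (h0 : ∀ x, x < -1 → h x = 0) {Y b a : ℝ} (hb : 0 ≤ b)
    (hY : Y - b < -1) (ha : 0 ≤ a) :
    h (Y - a) = ∫ y in (0 : ℝ)..b, (if a < y then 1 else 0) * deriv h (Y - y) := by
  have hd : Continuous (deriv h) := (contDiff_infty_iff_deriv.1 hs).2.continuous
  have e1 : ∫ y in (0 : ℝ)..b, (if a < y then (1 : ℝ) else 0) * deriv h (Y - y) =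
      ∫ y in Ioc 0 b ∩ Ioi a, deriv h (Y - y) := by
    rw [intervalIntegral.integral_of_le hb, ← setIntegral_indicator measurableSet_Ioi]
    refine integral_congr_ae (Filter.Eventually.of_forall fun y => ?_)
    simp only [indicator, mem_Ioi]
    split_ifs <;> simp
  rw [e1]
  rcases le_or_gt a b with hab | hab
  · have e2 : Ioc 0 b ∩ Ioi a = Ioc a b := by
      ext y
      simp only [mem_inter_iff, mem_Ioc, mem_Ioi]
      constructor
      · rintro ⟨⟨_, h2⟩, h3⟩; exact ⟨h3, h2⟩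
      · rintro ⟨h1, h2⟩; exact ⟨⟨by linarith, h2⟩, h1⟩
    rw [e2, ← intervalIntegral.integral_of_le hab, intervalIntegral.integral_comp_sub_left (fun x => deriv h x) Y,
      intervalIntegral.integral_deriv_eq_sub (fun x _ => (hs.differentiable (by simp)) x)
        (hd.intervalIntegrable _ _), h0 _ hY, sub_zero]
  · have e2 : Ioc 0 b ∩ Ioi a = ∅ := by
      ext y
      simp only [mem_inter_iff, mem_Ioc, mem_Ioi, mem_empty_iff_false, iff_false, not_and, and_imp]
      intro _ h2 h3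
      linarith
    rw [e2, h0 _ (by linarith)]
    simp

theorem T_formula {h : ℝ → ℝ} (hs : ContDiff ℝ ∞ h) (h0 : ∀ x, x < -1 → h x = 0) {m : ℕ}
    (ha : Asy m (deriv h)) (Y : ℝ) : T h Y = (∫ x in (-1 : ℝ)..Y, h x) + Real.eulerMascheroniConstant * h Y +
      ∫ y in Ioi (0 : ℝ), deriv h (Y - y) * rr y := by
  set b : ℝ := |Y| + 2 with hb
  have hb0 : 0 ≤ b := by positivity
  have hYb : Y - b < -1 := by
    have := le_abs_self Y
    rw [hb]; linarith
  obtain ⟨M, hM⟩ := exists_nat_gt (Real.exp b)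
  have hd : Continuous (deriv h) := (contDiff_infty_iff_deriv.1 hs).2.continuous
  have hdY : Continuous (fun y => deriv h (Y - y)) := hd.comp (by fun_prop)
  obtain ⟨C, hC⟩ := ha.bd Y
  have hri := (rr_int (g := fun y => deriv h (Y - y)) hdY.measurable hC).1
  have hri' : IntervalIntegrable (fun y => deriv h (Y - y) * rr y) volume 0 b :=
    (intervalIntegrable_iff_integrableOn_Ioc_of_le hb0).2 (hri.mono_set Ioc_subset_Ioi_self)
  -- the sum
  have e1 : T h Y = ∫ y in (0 : ℝ)..b, NN y * deriv h (Y - y) := by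
    rw [T_eq h0 (M := M) (lt_of_le_of_lt (Real.exp_le_exp.2 (by rw [hb]; have := le_abs_self Y; linarith)) hM)]
    have e2 : ∀ n ∈ Finset.range M, (n : ℝ)⁻¹ * h (Y - Real.log n) =
        ∫ y in (0 : ℝ)..b, (n : ℝ)⁻¹ * ((if Real.log n < y then 1 else 0) * deriv h (Y - y)) := by
      intro n _
      rw [intervalIntegral.integral_const_mul, ← piece hs h0 hb0 hYb (Real.log_natCast_nonneg n)]
    have hint : ∀ n ∈ Finset.range M, IntervalIntegrable
        (fun y => (n : ℝ)⁻¹ * ((if Real.log n < y then 1 else 0) * deriv h (Y - y))) volume 0 b := by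
      intro n _
      refine IntervalIntegrable.const_mul ?_ _
      rw [intervalIntegrable_iff_integrableOn_Ioc_of_le hb0]
      have h3 : IntegrableOn (fun y => deriv h (Y - y)) (Ioc 0 b) :=
        (intervalIntegrable_iff_integrableOn_Ioc_of_le hb0).1 (hdY.intervalIntegrable _ _)
      have h4 := h3.indicator (measurableSet_Ioi (a := Real.log n))
      refine h4.congr (Filter.Eventually.of_forall fun y => ?_)
      simp only [indicator, mem_Ioi]
      split_ifs <;> simp
    rw [Finset.sum_congr rfl e2, ← intervalIntegral.integral_finsetSum hint]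
    refine intervalIntegral.integral_congr_ae (Filter.Eventually.of_forall fun y hy => ?_)
    rw [uIoc_of_le hb0] at hy
    rcases NN_eq (y := y) (M := M) ((Real.exp_le_exp.2 hy.2).trans_lt hM) with h5 | h5
    · rw [← h5, Finset.sum_mul]
      exact Finset.sum_congr rfl fun n _ => by ring
    · exact absurd hy.1 (not_lt.2 h5)
  have e3 : ∫ y in (0 : ℝ)..b, NN y * deriv h (Y - y) =
      (∫ y in (0 : ℝ)..b, (deriv h (Y - y) * (y + Real.eulerMascheroniConstant) - h (Y - y))) +
        (∫ y in (0 : ℝ)..b, h (Y - y)) + ∫ y in (0 : ℝ)..b, deriv h (Y - y) * rr y := by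
    rw [← intervalIntegral.integral_add, ← intervalIntegral.integral_add _ hri']
    · refine intervalIntegral.integral_congr fun y _ => ?_
      simp only [rr]
      ring
    · refine Continuous.intervalIntegrable ?_ _ _
      have := hs.continuous
      fun_prop
    · refine Continuous.intervalIntegrable ?_ _ _
      have := hs.continuous
      fun_prop
    · refine Continuous.intervalIntegrable ?_ _ _
      have := hs.continuous
      fun_prop
  have e4 : ∫ y in (0 : ℝ)..b, (deriv h (Y - y) * (y + Real.eulerMascheroniConstant) - h (Y - y)) =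
      Real.eulerMascheroniConstant * h Y := by
    have hder : ∀ y ∈ uIcc 0 b, HasDerivAt (fun y => -h (Y - y) * (y + Real.eulerMascheroniConstant))
        (deriv h (Y - y) * (y + Real.eulerMascheroniConstant) - h (Y - y)) y := by
      intro y _
      have h2 := ((hs.differentiable (by simp)) (Y - y)).hasDerivAt
      have h3 : HasDerivAt (fun Z : ℝ => Y - Z) (-1) y := by
        simpa using (hasDerivAt_id y).const_sub Y
      have h4 := (h2.comp y h3).neg
      have h5 : HasDerivAt (fun y : ℝ => y + Real.eulerMascheroniConstant) 1 y := (hasDerivAt_id y).add_const _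
      have h6 := h4.mul h5
      refine h6.congr_deriv ?_
      simp only [Function.comp, Pi.neg_apply]
      ring
    rw [intervalIntegral.integral_eq_sub_of_hasDerivAt hder, h0 _ hYb]
    · simp; ring
    · refine Continuous.intervalIntegrable ?_ _ _
      have := hs.continuous
      fun_prop
  have e5 : ∫ y in (0 : ℝ)..b, h (Y - y) = ∫ x in (-1 : ℝ)..Y, h x := by
    rw [intervalIntegral.integral_comp_sub_left (fun x => h x) Y, sub_zero]
    have i1 := hs.continuous.intervalIntegrable (μ := volume) (Y - b) (-1)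
    have i2 := hs.continuous.intervalIntegrable (μ := volume) (-1) Y
    rw [← intervalIntegral.integral_add_adjacent_intervals i1 i2]
    have e6 : ∫ x in (Y - b)..(-1 : ℝ), h x = 0 := by
      rw [intervalIntegral.integral_of_le hYb.le, ← integral_Ico_eq_integral_Ioc]
      refine setIntegral_eq_zero_of_forall_eq_zero fun x hx => h0 x hx.2
    rw [e6, zero_add]
  have e7 : ∫ y in (0 : ℝ)..b, deriv h (Y - y) * rr y = ∫ y in Ioi (0 : ℝ), deriv h (Y - y) * rr y := by
    rw [intervalIntegral.integral_of_le hb0]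
    symm
    refine setIntegral_eq_of_subset_of_forall_sdiff_eq_zero measurableSet_Ioi Ioc_subset_Ioi_self fun y hy => ?_
    simp only [Set.mem_sdiff, mem_Ioi, mem_Ioc, not_and, not_le] at hy
    have := hy.2 hy.1
    rw [deriv_zero h0 _ (by linarith), zero_mul]
  rw [e1, e3, e4, e5, e7]
  ring

/-- smooth functions vanishing on `(-∞,-1)` whose derivatives are polynomials up to `O(e^(-y/2))` -/
structure Cl (m : ℕ) (h : ℝ → ℝ) : Prop where
  smooth : ContDiff ℝ ∞ h
  zero : ∀ x, x < -1 → h x = 0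
  asy : ∀ j, Asy m (iteratedDeriv j h)

theorem iter_smooth {h : ℝ → ℝ} (hs : ContDiff ℝ ∞ h) : ∀ j, ContDiff ℝ ∞ (iteratedDeriv j h) := by
  intro j
  induction j with
  | zero => rw [iteratedDeriv_zero]; exact hs
  | succ j ih =>
    rw [iteratedDeriv_succ]
    exact (contDiff_infty_iff_deriv.1 ih).2

theorem T_zero {h : ℝ → ℝ} (h0 : ∀ x, x < -1 → h x = 0) : ∀ x, x < -1 → T h x = 0 := by
  intro x hx
  unfold T
  have : ∀ n : ℕ, (n : ℝ)⁻¹ * h (x - Real.log n) = 0 := by
    intro n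
    rw [h0 _ (by have := Real.log_natCast_nonneg n; linarith), mul_zero]
  simp [this]

theorem Cl.T {m : ℕ} {h : ℝ → ℝ} (hh : Cl m h) : Cl (m + 1) (T h) where
  smooth := contDiff_infty.2 fun n => T_smooth n hh.smooth hh.zero
  zero := T_zero hh.zero
  asy := by
    intro j
    rw [iter_T j hh.smooth hh.zero]
    have hs := iter_smooth hh.smooth j
    have h0 := iter_zero hh.zero j
    have h1 := hh.asy j
    have h2 := hh.asy (j + 1)
    rw [iteratedDeriv_succ] at h2
    have e : DM.T (iteratedDeriv j h) = fun Y => ((∫ x in (-1 : ℝ)..Y, iteratedDeriv j h x) +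
        Real.eulerMascheroniConstant * iteratedDeriv j h Y) +
          ∫ y in Ioi (0 : ℝ), deriv (iteratedDeriv j h) (Y - y) * rr y :=
      funext fun Y => T_formula hs h0 h2 Y
    rw [e]
    exact ((h1.prim hs.continuous).add ((h1.smul _).mono (Nat.le_succ m))).add
      ((h2.conv (contDiff_infty_iff_deriv.1 hs).2.continuous).mono (Nat.le_succ m))

/-! ### the sums -/

/-- the sum of the statement -/
noncomputable def FF (v : ℝ → ℝ) (m : ℕ) (Y : ℝ) : ℝ :=
  ∑' n : ℕ, (dv m n : ℝ) * (n : ℝ)⁻¹ * v (Real.log n - Y) ^ 2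

theorem adm_ge {v : ℝ → ℝ} (hv : Adm v) {x : ℝ} (hx : 1 ≤ x) : v x ^ 2 = 0 := by
  have h1 := hv.sq x
  rw [hv.one (-x) (by linarith)] at h1
  linarith

theorem term_zero {v : ℝ → ℝ} (hv : Adm v) (m : ℕ) {Y : ℝ} {M n : ℕ} (hM : Real.exp (Y + 1) < M)
    (hn : M ≤ n) : (dv m n : ℝ) * (n : ℝ)⁻¹ * v (Real.log n - Y) ^ 2 = 0 := by
  have h1 : (M : ℝ) ≤ n := by exact_mod_cast hn
  have h2 : Y + 1 < Real.log n := by
    rw [Real.lt_log_iff_exp_lt (by linarith [Real.exp_pos (Y + 1)])]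
    linarith
  rw [adm_ge hv (by linarith), mul_zero]

theorem FF_summable {v : ℝ → ℝ} (hv : Adm v) (m : ℕ) (Y : ℝ) :
    Summable (fun n : ℕ => (dv m n : ℝ) * (n : ℝ)⁻¹ * v (Real.log n - Y) ^ 2) := by
  obtain ⟨M, hM⟩ := exists_nat_gt (Real.exp (Y + 1))
  refine summable_of_ne_finset_zero (s := Finset.range M) fun n hn => ?_
  rw [Finset.mem_range, not_lt] at hn
  exact term_zero hv m hM hn

theorem FF_eq {v : ℝ → ℝ} (hv : Adm v) (m : ℕ) {Y : ℝ} {M : ℕ} (hM : Real.exp (Y + 1) < M) :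
    FF v m Y = ∑ n ∈ Finset.range M, (dv m n : ℝ) * (n : ℝ)⁻¹ * v (Real.log n - Y) ^ 2 := by
  unfold FF
  refine tsum_eq_sum fun n hn => ?_
  rw [Finset.mem_range, not_lt] at hn
  exact term_zero hv m hM hn

theorem FF_neg {v : ℝ → ℝ} (hv : Adm v) (m : ℕ) : ∀ Y, Y < -1 → FF v m Y = 0 := by
  intro Y hY
  unfold FF
  have : ∀ n : ℕ, (dv m n : ℝ) * (n : ℝ)⁻¹ * v (Real.log n - Y) ^ 2 = 0 := by
    intro n
    rw [adm_ge hv (by have := Real.log_natCast_nonneg n; linarith), mul_zero]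
  simp [this]

theorem FF_zero {v : ℝ → ℝ} : FF v 0 = fun Y => v (-Y) ^ 2 := by
  funext Y
  unfold FF
  rw [tsum_eq_single 1]
  · simp [dv]
  · intro n hn
    have : dv 0 n = 0 := by
      unfold dv
      rw [pow_zero, ArithmeticFunction.one_apply_ne hn]
    rw [this]
    simp

theorem dv_succ (m n : ℕ) : (dv (m + 1) n : ℝ) = ∑ x ∈ n.divisorsAntidiagonal, (dv m x.2 : ℝ) := by
  unfold dv
  rw [pow_succ', ArithmeticFunction.mul_apply]
  push_cast
  refine Finset.sum_congr rfl fun x hx => ?_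
  have h1 : x.1 ≠ 0 := by
    have := Nat.mem_divisorsAntidiagonal.1 hx
    rintro h
    rw [h, zero_mul] at this
    exact this.2 this.1.symm
  rw [ArithmeticFunction.zeta_apply_ne h1]
  simp

theorem FF_succ {v : ℝ → ℝ} (hv : Adm v) (m : ℕ) : FF v (m + 1) = T (FF v m) := by
  funext Y
  obtain ⟨M, hM⟩ := exists_nat_gt (Real.exp (Y + 1))
  have hM0 : (0 : ℝ) < M := (Real.exp_pos _).trans hM
  rw [FF_eq hv (m + 1) hM, T_eq (FF_neg hv m) hM]
  set F : ℕ × ℕ → ℝ := fun x => (x.1 : ℝ)⁻¹ *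
    ((dv m x.2 : ℝ) * (x.2 : ℝ)⁻¹ * v (Real.log x.2 - (Y - Real.log x.1)) ^ 2) with hF
  have e1 : ∀ d ∈ Finset.range M, (d : ℝ)⁻¹ * FF v m (Y - Real.log d) =
      ∑ e ∈ Finset.range M, F (d, e) := by
    intro d _
    rw [FF_eq hv m (M := M) (lt_of_le_of_lt (Real.exp_le_exp.2 (by
      have := Real.log_natCast_nonneg d; linarith)) hM), Finset.mul_sum]
  rw [Finset.sum_congr rfl e1, ← Finset.sum_product' (f := fun a b => F (a, b))]
  set S : Finset (ℕ × ℕ) := (Finset.range M ×ˢ Finset.range M).filter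
    (fun x => x.1 ≠ 0 ∧ x.2 ≠ 0 ∧ x.1 * x.2 < M) with hS
  have e2 : ∑ x ∈ Finset.range M ×ˢ Finset.range M, F x = ∑ x ∈ S, F x := by
    symm
    refine Finset.sum_subset (Finset.filter_subset _ _) fun x hx hx' => ?_
    rw [hS, Finset.mem_filter, not_and] at hx'
    have h3 := hx' hx
    by_cases h1 : x.1 = 0
    · simp [hF, h1]
    by_cases h2 : x.2 = 0
    · simp [hF, h2]
    have h4 : M ≤ x.1 * x.2 := by
      by_contra h
      exact h3 ⟨h1, h2, not_le.1 h⟩
    have h5 : (M : ℝ) ≤ (x.1 : ℝ) * x.2 := by exact_mod_cast h4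
    have h6 : Y + 1 < Real.log ((x.1 : ℝ) * x.2) := by
      rw [Real.lt_log_iff_exp_lt (by linarith)]
      linarith
    rw [Real.log_mul (by exact_mod_cast h1) (by exact_mod_cast h2)] at h6
    simp only [hF]
    rw [adm_ge hv (by linarith)]
    ring
  have e3 : ∑ x ∈ S, F x = ∑ n ∈ Finset.range M, ∑ x ∈ S.filter (fun x => x.1 * x.2 = n), F x := by
    symm
    refine Finset.sum_fiberwise_of_maps_to (fun x hx => ?_) _
    rw [hS, Finset.mem_filter] at hx
    exact Finset.mem_range.2 hx.2.2.2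
  change _ = ∑ x ∈ Finset.range M ×ˢ Finset.range M, F x
  rw [e2, e3]
  refine Finset.sum_congr rfl fun n hn => ?_
  have e4 : S.filter (fun x => x.1 * x.2 = n) = n.divisorsAntidiagonal := by
    ext x
    rw [hS, Finset.mem_filter, Finset.mem_filter, Finset.mem_product, Finset.mem_range, Finset.mem_range,
      Nat.mem_divisorsAntidiagonal]
    rw [Finset.mem_range] at hn
    constructor
    · rintro ⟨⟨_, h1, h2, _⟩, h3⟩
      refine ⟨h3, ?_⟩
      rw [← h3]
      exact Nat.mul_ne_zero h1 h2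
    · rintro ⟨h1, h2⟩
      have h3 : x.1 ≠ 0 := by rintro h; rw [h, zero_mul] at h1; exact h2 h1.symm
      have h4 : x.2 ≠ 0 := by rintro h; rw [h, mul_zero] at h1; exact h2 h1.symm
      have h5 : x.1 ≤ n := by rw [← h1]; exact Nat.le_mul_of_pos_right _ (Nat.pos_of_ne_zero h4)
      have h6 : x.2 ≤ n := by rw [← h1]; exact Nat.le_mul_of_pos_left _ (Nat.pos_of_ne_zero h3)
      exact ⟨⟨⟨by omega, by omega⟩, h3, h4, by rw [h1]; exact hn⟩, h1⟩
  rw [e4, dv_succ, Finset.sum_mul, Finset.sum_mul]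
  refine Finset.sum_congr rfl fun x hx => ?_
  rw [Nat.mem_divisorsAntidiagonal] at hx
  obtain ⟨h1, h2⟩ := hx
  have h3 : x.1 ≠ 0 := by rintro h; rw [h, zero_mul] at h1; exact h2 h1.symm
  have h4 : x.2 ≠ 0 := by rintro h; rw [h, mul_zero] at h1; exact h2 h1.symm
  have h5 : (n : ℝ) = x.1 * x.2 := by rw [← h1]; push_cast; ring
  simp only [hF]
  rw [h5, Real.log_mul (by exact_mod_cast h3) (by exact_mod_cast h4), mul_inv]
  have h6 : Real.log (x.1 : ℝ) + Real.log x.2 - Y = Real.log x.2 - (Y - Real.log x.1) := by ring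
  rw [h6]
  ring

theorem iter_zero_right {f : ℝ → ℝ} (h0 : ∀ x, 1 < x → f x = 0) : ∀ j x, 1 < x → iteratedDeriv j f x = 0 := by
  intro j
  induction j with
  | zero => intro x hx; rw [iteratedDeriv_zero]; exact h0 x hx
  | succ j ih =>
    intro x hx
    rw [iteratedDeriv_succ]
    have h1 : iteratedDeriv j f =ᶠ[𝓝 x] fun _ => 0 := (eventually_gt_nhds hx).mono fun y hy => ih y hy
    rw [h1.deriv_eq, deriv_const]

theorem asy_of_supp {f : ℝ → ℝ} (hc : Continuous f) (h1 : ∀ x, 1 < x → f x = 0) (h2 : ∀ x, x < -1 → f x = 0) :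
    Asy 0 f := by
  obtain ⟨C, hC⟩ := (isCompact_Icc (a := (-1 : ℝ)) (b := 1)).exists_bound_of_continuousOn hc.continuousOn
  have hC0 : 0 ≤ C := (norm_nonneg _).trans (hC 0 (by constructor <;> norm_num))
  refine ⟨0, by simp, C * Real.exp (1 / 2), by positivity, fun y => ?_⟩
  rw [Polynomial.eval_zero, sub_zero]
  rcases lt_or_ge 1 y with h | h
  · rw [h1 y h, abs_zero]; positivity
  rcases lt_or_ge y (-1) with h' | h'
  · rw [h2 y h', abs_zero]; positivity
  have h3 := hC y ⟨h', h⟩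
  rw [Real.norm_eq_abs] at h3
  refine h3.trans ?_
  rw [mul_assoc, ← Real.exp_add]
  refine le_mul_of_one_le_right hC0 ?_
  rw [Real.one_le_exp_iff]
  linarith

theorem Cl_zero {v : ℝ → ℝ} (hv : Adm v) : Cl 0 (fun Y => v (-Y) ^ 2) := by
  have hs : ContDiff ℝ ∞ (fun Y => v (-Y) ^ 2) := (hv.smooth.comp contDiff_neg).pow 2
  have h0 : ∀ x, x < -1 → (fun Y => v (-Y) ^ 2) x = 0 := fun x hx => adm_ge hv (by linarith)
  have h1 : ∀ x, 1 < x → (fun Y => v (-Y) ^ 2) x = 1 := by
    intro x hx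
    simp only
    rw [hv.one _ (by linarith)]
    norm_num
  refine ⟨hs, h0, fun j => ?_⟩
  cases j with
  | zero =>
    rw [iteratedDeriv_zero]
    have hle : ∀ x, 0 ≤ v (-x) ^ 2 ∧ v (-x) ^ 2 ≤ 1 := by
      intro x
      have := hv.sq x
      have h2 := sq_nonneg (v x)
      exact ⟨sq_nonneg _, by linarith⟩
    refine ⟨1, by simp, Real.exp (1 / 2), by positivity, fun y => ?_⟩
    rw [Polynomial.eval_one]
    rcases lt_or_ge 1 y with h | h
    · rw [h1 y h, sub_self, abs_zero]; positivity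
    · rw [← Real.exp_add]
      have h2 : |v (-y) ^ 2 - 1| ≤ 1 := by
        rw [abs_le]
        constructor <;> linarith [(hle y).1, (hle y).2]
      refine h2.trans ?_
      rw [Real.one_le_exp_iff]
      linarith
  | succ j =>
    rw [iteratedDeriv_succ']
    have hd : ∀ x, 1 < x → deriv (fun Y => v (-Y) ^ 2) x = 0 := by
      intro x hx
      have h2 : (fun Y => v (-Y) ^ 2) =ᶠ[𝓝 x] fun _ => 1 := (eventually_gt_nhds hx).mono fun y hy => h1 y hy
      rw [h2.deriv_eq, deriv_const]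
    exact asy_of_supp (iter_smooth (contDiff_infty_iff_deriv.1 hs).2 j).continuous
      (iter_zero_right hd j) (iter_zero (deriv_zero h0) j)

theorem Cl_FF {v : ℝ → ℝ} (hv : Adm v) : ∀ m, Cl m (FF v m) := by
  intro m
  induction m with
  | zero => rw [FF_zero]; exact Cl_zero hv
  | succ m ih => rw [FF_succ hv]; exact ih.T

end DM

open DM in
/-- **PI-DM** -/
theorem t_DM : S_DM := by
  intro v hv m
  have hcl := Cl_FF hv m
  obtain ⟨Q, hQ, C, hC, h⟩ := hcl.asy 0
  rw [iteratedDeriv_zero] at h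
  refine ⟨Q, hQ, fun δ hδ hδ' => ?_⟩
  obtain ⟨B, hB0, hB⟩ := poly_bound Q (c := 1 / 2 - δ) (by linarith)
  refine ⟨C * Real.exp (1 / 2) + B, fun Y => ⟨FF_summable hv m Y, ?_⟩⟩
  change |FF v m Y - Q.eval Y| ≤ _
  rw [add_mul]
  have hE : 0 < Real.exp (-((1 / 2 - δ) * Y)) := Real.exp_pos _
  rcases lt_or_ge Y (-1) with hY | hY
  · rw [FF_neg hv m Y hY, zero_sub, abs_neg]
    have h1 := hB Y
    rw [abs_of_neg (show Y < 0 by linarith), mul_neg] at h1
    have h2 : 0 ≤ C * Real.exp (1 / 2) * Real.exp (-((1 / 2 - δ) * Y)) := by positivity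
    linarith
  · have h1 := h Y
    have h2 : C * Real.exp (-(1 / 2) * Y) ≤ C * Real.exp (1 / 2) * Real.exp (-((1 / 2 - δ) * Y)) := by
      rw [mul_assoc, ← Real.exp_add]
      refine mul_le_mul_of_nonneg_left (Real.exp_le_exp.2 ?_) hC
      nlinarith
    have h3 : 0 ≤ B * Real.exp (-((1 / 2 - δ) * Y)) := by positivity
    linarith

end Pool.Agent.J6H39.PI
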