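import Pool.Agent.J6H39.PI.Stm2
import Pool.Agent.H306R2.Defs

/-!
# Project PI, third part (MP_852da8_nt): the leading term

The asymptotic formula `∫_0^T |ζ|^(2k) ~ γ T (log T)^(k²)`, and the upper bound of this order, are equivalent to those for
`2 ∫_0^T |D|²`, and so for the off-diagonal terms of `|D|²`, with the diagonal terms subtracted from `γ`.
-/

set_option autoImplicit false

open MeasureTheory Set Filter Topology Complex
open scoped ContDiff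

namespace Pool.Agent.J6H39.PI

open Pool.Agent.J6H39.KV (dv)
open Pool.Agent.H306R2 (aF)

/-- **PI-L1** (from `S_MS`, `S_UP`, `S_DG`). Proof. For `W` with `CG.Wt W` and `W ≥ 0` put `w(t) = W(t/T)`, supported in `[aT, bT]`,
`T ≥ t₀/a`, and `Om s = (C/T) (1+|s|/T)^(-2k-7)`; this is a `Wg k B` with `B = 2k+8` (`|w(s+u)-w(s)| ≤ C|u|/T` by the Lipschitz bound, and if
`|s| > 2bT` then `w(s) = 0` and `w(s+u) ≠ 0` only for `|u| ≥ |s|/2`). `S_MS`: `|∫ ‖f‖² w - 2 ∫ ‖D‖² w| ≤ (C/T) ∫ (‖f‖² + 1) lg^4 (1+|s|/T)^(-2k-7) ds`, and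
`lg(s)^4 ≤ C (log T)^4 (1+|s|/T)`. If `∫_0^T ‖f‖² ≤ C₀ T (log T)^(k²)` for `T ≥ 2` this is `O((log T)^(4+k²)) = o(T)` (`CG.t_UB` with
`φ = ‖f‖²`, `CG.om`). So for all `W` in `CG.Wt` (write `W = (W + M W₁) - M W₁`, `W₁ ≥ 0`) the smoothed integrals of `‖f‖²` and `2‖D‖²` differ by
`o(T)`. `CG.t_TB` for `φ = ‖f‖²` and for `φ = ‖D‖²` (continuous if changed to `0` at `t = 0`: near `0` the sum is empty) gives the first
equivalence, once both have the a priori bound, which is the second equivalence. Second equivalence: `→`: `W ≥ 1` on `[1,2]`: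
`2 ∫_T^(2T) ‖D‖² ≤ ∫ ‖f‖² w + o(T)`, dyadic sum; `←`: `S_UP` with `a = 0`, `b = T`, `ε = 1/2`, `‖DD k v (-t)‖ = ‖DD k v t‖`. (Convergence implies
the bound, for `2 ≤ T ≤ T₀` by compactness.) -/
def S_L1 : Prop := ∀ (k : ℕ) (v : ℝ → ℝ), 1 ≤ k → Adm v →
  (∀ γ : ℝ, Tendsto (fun T : ℝ => (∫ t in (0:ℝ)..T, ‖ff k t‖ ^ 2) / (T * Real.log T ^ (k ^ 2))) atTop (𝓝 γ) ↔
    Tendsto (fun T : ℝ => 2 * (∫ t in (0:ℝ)..T, ‖DD k v t‖ ^ 2) / (T * Real.log T ^ (k ^ 2))) atTop (𝓝 γ)) ∧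
  ((∃ C : ℝ, ∀ T : ℝ, 2 ≤ T → ∫ t in (0:ℝ)..T, ‖ff k t‖ ^ 2 ≤ C * (T * Real.log T ^ (k ^ 2))) ↔
    ∃ C : ℝ, ∀ T : ℝ, 2 ≤ T → ∫ t in (0:ℝ)..T, ‖DD k v t‖ ^ 2 ≤ C * (T * Real.log T ^ (k ^ 2)))

/-- **PI-L2**: the diagonal terms. Proof. `Pool.Agent.H306R2.karamata` (file `H306R2/Karamata2`) with `r = 1`, `wt_KH`, `wt_tendsto`
(`H306R2/Asy`, `H306R2/Tuple`) for `e = fun _ => k`: `wt k e b = d_k(b)²/b` (`H306R2.dv k n = KV.dv k n`), so for continuous `φ` with bounded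
support `∑ d_k(n)²/n φ(log n/L) / L^(k²) → aF k ∫_0^∞ u^(k²-1)/Γ(k²) φ(u) du`. With `L = log t`, `Xk k t = (k/2) L + O(1)`, `v(log n - Xk k t)²` is
between two such `φ` close to the indicator function of `[0, k/2]`. So `dia k v t / (log t)^(k²) → (k/2)^(k²) aF k/(k²)!`; then
integrate (`0 ≤ dia`, `dia` is `O(log^(k²))`, bounded near `0`). -/
def S_L2 : Prop := ∀ (k : ℕ) (v : ℝ → ℝ), 1 ≤ k → Adm v →
  Tendsto (fun T : ℝ => 2 * (∫ t in (0:ℝ)..T, dia k v t) / (T * Real.log T ^ (k ^ 2))) atTop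
    (𝓝 (2 * ((k : ℝ) / 2) ^ (k ^ 2) * aF k / (k ^ 2).factorial))

/-- **PI-L3**: two forms of the arithmetic factor. Proof. Factor by factor: for `0 < x < 1`, `lc k m = binom(m+k-1, m)`
(`H306R2.lc_nat`, `aF_nat` in `H306R2/EvenConst`) and `(1-x)^(2k-1) ∑_m binom(m+k-1,m)² x^m = ∑_{j<k} binom(k-1,j)² x^j`. The latter: multiply out; it is the
identity `binom(n,r)² = ∑_j binom(r,j)² binom(n+r-j, 2r)` with `r = k-1`, `n = m+k-1` (Li Shan-lan; Vandermonde twice: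
`binom(n,r)² = ∑_i binom(r,i) binom(r+i,r)... `, or Legendre polynomials, or induction on `k` through the differential equation). -/
def S_L3 : Prop := ∀ k : ℕ, 1 ≤ k → aF k = ∏' p : Nat.Primes, (1 - 1 / (p : ℝ)) ^ ((k - 1) ^ 2) *
    ∑ j ∈ Finset.range k, ((k - 1).choose j : ℝ) ^ 2 * ((p : ℝ) ^ j)⁻¹

end Pool.Agent.J6H39.PI
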