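import Pool.Agent.J6H39.PI.EQ
import Pool.Agent.J6H39.PI.DQ
import Pool.Agent.J6H39.PI.OF
import Pool.Agent.J6H39.PI.XD
import Pool.Agent.J6H39.PI.Stm3

/-! Project PI: the diagonal terms subtracted. -/

set_option autoImplicit false

open MeasureTheory Set Filter Topology

namespace Pool.Agent.J6H39.PI

open Pool.Agent.J6H39.SP (Mt)
open Pool.Agent.J6H39.SP.EQ2
open Pool.Agent.H306R2 (aF)

theorem mt_sub (P Q : Polynomial ℝ) {T : ℝ} (hT : 0 ≤ T) : Mt (P - Q) T = Mt P T - Mt Q T := by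
  unfold Mt
  rw [← intervalIntegral.integral_sub (mt_ii P le_rfl hT) (mt_ii Q le_rfl hT)]
  simp

theorem dd_ii {k : ℕ} {v : ℝ → ℝ} (hv : Adm v) (a b : ℝ) :
    IntervalIntegrable (fun t => ‖DD k v t‖ ^ 2) volume a b := by
  obtain ⟨hm, B, C, hB⟩ := t_DG k v hv
  exact EQ.DD_ii hm hB a b

theorem off_ii {k : ℕ} {v : ℝ → ℝ} (hv : Adm v) (a b : ℝ) :
    IntervalIntegrable (off k v) volume a b := by
  have h1 := (dd_ii (k := k) hv a b).sub (dia_ii t_OF k v hv a b)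
  refine h1.congr ?_
  intro t _
  have := (t_OF k v hv).1 t
  simp only
  linarith

theorem D_split {k : ℕ} {v : ℝ → ℝ} (hv : Adm v) (a b : ℝ) :
    ∫ t in a..b, ‖DD k v t‖ ^ 2 = (∫ t in a..b, dia k v t) + ∫ t in a..b, off k v t := by
  rw [← intervalIntegral.integral_add (dia_ii t_OF k v hv a b) (off_ii hv a b)]
  refine intervalIntegral.integral_congr fun t _ => ?_
  exact (t_OF k v hv).1 t

theorem off_iff (hEQ : S_EQ) (hDQ : S_DQ) {k : ℕ} {v : ℝ → ℝ} (hk : 1 ≤ k) (hv : Adm v) :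
    ∃ Q : Polynomial ℝ, Q.natDegree ≤ k ^ 2 ∧
      (∀ ε : ℝ, 0 < ε → ∃ C : ℝ, ∀ T : ℝ, 2 ≤ T →
        |2 * (∫ t in (0:ℝ)..T, dia k v t) - Mt Q T| ≤ C * T ^ (max 0 (1 - (k : ℝ) / 4) + ε)) ∧
      ∀ (P : Polynomial ℝ) (θ : ℝ), max 0 (1 - (k : ℝ) / 4) ≤ θ →
      ((∀ ε : ℝ, 0 < ε → ∃ C : ℝ, ∀ T : ℝ, 2 ≤ T → |(∫ t in (0:ℝ)..T, ‖ff k t‖ ^ 2) - Mt P T| ≤ C * T ^ (θ + ε)) ↔
      (∀ ε : ℝ, 0 < ε → ∃ C : ℝ, ∀ T : ℝ, 2 ≤ T →
        |2 * (∫ t in (0:ℝ)..T, off k v t) - Mt (P - Q) T| ≤ C * T ^ (θ + ε))) := by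
  obtain ⟨Q, hQ, HQ⟩ := hDQ k v hk hv
  refine ⟨Q, hQ, HQ, fun P θ hθ => ?_⟩
  have hθ0 : 0 ≤ θ := (le_max_left _ _).trans hθ
  refine (hEQ k v hk hv P θ hθ0).trans ?_
  have key : ∀ T : ℝ, 2 ≤ T → 2 * (∫ t in (0:ℝ)..T, off k v t) - Mt (P - Q) T =
      (2 * (∫ t in (0:ℝ)..T, ‖DD k v t‖ ^ 2) - Mt P T) - (2 * (∫ t in (0:ℝ)..T, dia k v t) - Mt Q T) := by
    intro T hT
    rw [mt_sub P Q (by linarith), D_split hv 0 T]
    ring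
  have hpow : ∀ (C ε T : ℝ), 2 ≤ T → C * T ^ (max 0 (1 - (k : ℝ) / 4) + ε) ≤ |C| * T ^ (θ + ε) := by
    intro C ε T hT
    have h1 : T ^ (max 0 (1 - (k : ℝ) / 4) + ε) ≤ T ^ (θ + ε) :=
      Real.rpow_le_rpow_of_exponent_le (by linarith) (by linarith)
    have h2 : 0 ≤ T ^ (max 0 (1 - (k : ℝ) / 4) + ε) := Real.rpow_nonneg (by linarith) _
    calc C * T ^ (max 0 (1 - (k : ℝ) / 4) + ε) ≤ |C| * T ^ (max 0 (1 - (k : ℝ) / 4) + ε) :=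
          mul_le_mul_of_nonneg_right (le_abs_self C) h2
      _ ≤ |C| * T ^ (θ + ε) := mul_le_mul_of_nonneg_left h1 (abs_nonneg C)
  constructor
  · intro h ε hε
    obtain ⟨C1, h1⟩ := h ε hε
    obtain ⟨C2, h2⟩ := HQ ε hε
    refine ⟨C1 + |C2|, fun T hT => ?_⟩
    rw [key T hT]
    refine (abs_sub _ _).trans ?_
    have h3 := h1 T hT
    have h4 := (h2 T hT).trans (hpow C2 ε T hT)
    nlinarith
  · intro h ε hε
    obtain ⟨C1, h1⟩ := h ε hε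
    obtain ⟨C2, h2⟩ := HQ ε hε
    refine ⟨C1 + |C2|, fun T hT => ?_⟩
    have h5 := key T hT
    have h6 : 2 * (∫ t in (0:ℝ)..T, ‖DD k v t‖ ^ 2) - Mt P T =
        (2 * (∫ t in (0:ℝ)..T, off k v t) - Mt (P - Q) T) + (2 * (∫ t in (0:ℝ)..T, dia k v t) - Mt Q T) := by
      linarith
    rw [h6]
    refine (abs_add_le _ _).trans ?_
    have h3 := h1 T hT
    have h4 := (h2 T hT).trans (hpow C2 ε T hT)
    nlinarith

end Pool.Agent.J6H39.PI
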