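import Pool.Agent.J6H39.PI.Stm

/-!
# Project PI (MP_07318d_nt, helper39), module PI-1: decay of the kernels (helper94)
-/

set_option autoImplicit false

open MeasureTheory Set Filter Topology Complex
open scoped FourierTransform ContDiff

namespace Pool.Agent.J6H39.PI

open Pool.Agent.J6H39.CG (uu)

theorem iter_supp {R : ℝ} {V : ℝ → ℝ} (hs : ∀ x, R < |x| → V x = 0) (j : ℕ) :
    ∀ x, R < |x| → iteratedDeriv j V x = 0 := by
  induction j with
  | zero => simpa using hs
  | succ j ih =>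
    intro x hx
    rw [iteratedDeriv_succ]
    have h1 : iteratedDeriv j V =ᶠ[𝓝 x] fun _ => (0 : ℝ) := by
      have h2 : {y : ℝ | R < |y|} ∈ 𝓝 x := (isOpen_lt continuous_const continuous_abs).mem_nhds hx
      filter_upwards [h2] with y hy using ih y hy
    rw [h1.deriv_eq]
    simp

theorem iter_ofReal {V : ℝ → ℝ} (hV : ContDiff ℝ ∞ V) (j : ℕ) :
    iteratedDeriv j (fun x : ℝ => (V x : ℂ)) = fun x => ((iteratedDeriv j V x : ℝ) : ℂ) := by
  induction j with
  | zero => simp
  | succ j ih =>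
    rw [iteratedDeriv_succ, ih]
    funext x
    have h1 : DifferentiableAt ℝ (iteratedDeriv j V) x :=
      (hV.differentiable_iteratedDeriv j (by exact_mod_cast WithTop.coe_lt_top _)).differentiableAt
    rw [iteratedDeriv_succ]
    exact h1.hasDerivAt.ofReal_comp.deriv

theorem iter_bound {R : ℝ} {M : ℕ → ℝ} {V : ℝ → ℝ} (hR : 0 ≤ R) (h : Sy R M V) (j : ℕ) :
    Integrable (iteratedDeriv j (fun x : ℝ => (V x : ℂ))) ∧
    ∫ x, ‖iteratedDeriv j (fun x : ℝ => (V x : ℂ)) x‖ ≤ 2 * R * M j := by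
  have hc : Continuous (iteratedDeriv j V) :=
    h.smooth.continuous_iteratedDeriv j (by exact_mod_cast le_top)
  have hle : ∀ x, ‖iteratedDeriv j (fun x : ℝ => (V x : ℂ)) x‖ ≤ (Icc (-R) R).indicator (fun _ => M j) x := by
    intro x
    rw [iter_ofReal h.smooth]
    show ‖((iteratedDeriv j V x : ℝ) : ℂ)‖ ≤ _
    rw [Complex.norm_real, Real.norm_eq_abs]
    by_cases hx : x ∈ Icc (-R) R
    · rw [indicator_of_mem hx]
      exact h.bd j x
    · rw [indicator_of_notMem hx, iter_supp h.supp j x (by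
        by_contra hcon
        exact hx (abs_le.mp (not_lt.mp hcon)))]
      simp
  have hi : Integrable ((Icc (-R) R).indicator (fun _ => M j)) := by
    rw [integrable_indicator_iff measurableSet_Icc]
    exact integrableOn_const (by simp)
  have hi2 : Integrable (iteratedDeriv j (fun x : ℝ => (V x : ℂ))) := by
    refine hi.mono' ?_ (Eventually.of_forall hle)
    rw [iter_ofReal h.smooth]
    exact (Complex.continuous_ofReal.comp hc).aestronglyMeasurable
  refine ⟨hi2, (integral_mono hi2.norm hi hle).trans ?_⟩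
  rw [integral_indicator measurableSet_Icc, setIntegral_const]
  simp only [Real.volume_real_Icc, smul_eq_mul]
  rw [max_eq_left (by linarith)]
  apply le_of_eq
  ring

theorem four_le (f : ℝ → ℂ) (ξ : ℝ) : ‖𝓕 f ξ‖ ≤ ∫ x, ‖f x‖ := by
  rw [Real.fourier_eq]
  refine (norm_integral_le_integral_norm _).trans (le_of_eq ?_)
  simp

theorem t_KN : S_KN := by
  intro N
  refine ⟨4 * 2 ^ N, by positivity, ?_⟩
  intro R M V hR h ξ
  have hR0 : 0 ≤ R := by linarith
  have hM : ∀ j, 0 ≤ M j := fun j => (abs_nonneg _).trans (h.bd j 0)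
  have hS : ∀ j ≤ N, M j ≤ ∑ j ∈ Finset.range (N + 1), M j := fun j hj =>
    Finset.single_le_sum (f := M) (fun i _ => hM i) (Finset.mem_range.mpr (Nat.lt_succ_of_le hj))
  have h0 : ‖uu V ξ‖ ≤ 2 * R * M 0 := by
    have := (four_le (fun x : ℝ => (V x : ℂ)) ξ).trans (by simpa using (iter_bound hR0 h 0).2)
    exact this
  have hN : |ξ| ^ N * ‖uu V ξ‖ ≤ 2 * R * M N := by
    have hsm : ContDiff ℝ ((⊤ : ℕ∞) : WithTop ℕ∞) (fun x : ℝ => (V x : ℂ)) :=
      Complex.ofRealCLM.contDiff.comp h.smooth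
    have h1 := Real.fourier_iteratedDeriv (N := ⊤) (n := N) hsm
      (fun n _ => (iter_bound hR0 h n).1) le_top
    have h2 := (four_le (iteratedDeriv N (fun x : ℝ => (V x : ℂ))) ξ).trans (iter_bound hR0 h N).2
    rw [h1] at h2
    simp only [norm_smul, norm_pow, norm_mul, Complex.norm_real, Complex.norm_I, Real.norm_eq_abs,
      Complex.norm_ofNat] at h2
    refine le_trans ?_ h2
    have h3 : |ξ| ^ N ≤ (2 * |Real.pi| * 1 * |ξ|) ^ N := by
      have : (1 : ℝ) ≤ 2 * |Real.pi| * 1 := by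
        rw [abs_of_pos Real.pi_pos]
        have := Real.pi_gt_three
        linarith
      gcongr
      nlinarith [abs_nonneg ξ]
    exact mul_le_mul_of_nonneg_right h3 (norm_nonneg _)
  have hp : (1 + |ξ|) ^ N ≤ 2 ^ N * (1 + |ξ| ^ N) := by
    have h1 := add_pow_le (zero_le_one' ℝ) (abs_nonneg ξ) N
    rw [one_pow] at h1
    refine h1.trans ?_
    gcongr
    · norm_num
    · omega
  have hpos : 0 < (1 + |ξ|) ^ N := by positivity
  rw [← div_eq_mul_inv, le_div_iff₀ hpos]
  calc ‖uu V ξ‖ * (1 + |ξ|) ^ N ≤ ‖uu V ξ‖ * (2 ^ N * (1 + |ξ| ^ N)) := by gcongr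
    _ = 2 ^ N * (‖uu V ξ‖ + |ξ| ^ N * ‖uu V ξ‖) := by ring
    _ ≤ 2 ^ N * (2 * R * M 0 + 2 * R * M N) := by gcongr
    _ ≤ 2 ^ N * (2 * R * (∑ j ∈ Finset.range (N + 1), M j) + 2 * R * (∑ j ∈ Finset.range (N + 1), M j)) := by
        have := hS 0 (Nat.zero_le _)
        have := hS N le_rfl
        gcongr
    _ = 4 * 2 ^ N * R * (∑ j ∈ Finset.range (N + 1), M j) := by ring

end Pool.Agent.J6H39.PI
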