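import Pool.Agent.J6H39.PI.Stm
import Pool.Agent.J6H39.CG.D2
import Pool.Agent.HopfPinch.AnS1

/-! Project PI: the kernel of `S_LG`. -/

set_option autoImplicit false

open MeasureTheory Set Filter Topology Complex
open scoped FourierTransform ContDiff

namespace Pool.Agent.J6H39.PI.LG

/-- the cutoff -/
noncomputable def q (y : ℝ) : ℝ := ee (-y) ^ 2

theorem q_smooth : ContDiff ℝ ∞ q := by
  unfold q ee
  exact (Real.smoothTransition.contDiff.comp (by fun_prop : ContDiff ℝ ∞ (fun y : ℝ => -y + 1))).pow 2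

theorem q_zero {y : ℝ} (hy : 1 ≤ y) : q y = 0 := by
  unfold q ee
  rw [Real.smoothTransition.zero_of_nonpos (by linarith)]
  norm_num

theorem q_one {y : ℝ} (hy : y ≤ 0) : q y = 1 := by
  unfold q ee
  rw [Real.smoothTransition.one_of_one_le (by linarith)]
  norm_num

theorem q_nonneg (y : ℝ) : 0 ≤ q y := sq_nonneg _

theorem q_le_one (y : ℝ) : q y ≤ 1 := by
  unfold q ee
  exact pow_le_one₀ (Real.smoothTransition.nonneg _) (Real.smoothTransition.le_one _)

/-- complex version -/
noncomputable def qc (y : ℝ) : ℂ := (q y : ℂ)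

theorem qc_smooth : ContDiff ℝ ∞ qc := Complex.ofRealCLM.contDiff.comp q_smooth

/-- its derivative -/
noncomputable def g (y : ℝ) : ℂ := deriv qc y

theorem g_smooth : ContDiff ℝ ∞ g := CG.D2_deriv qc_smooth

theorem qc_hd (y : ℝ) : HasDerivAt qc (g y) y := (qc_smooth.differentiable (by simp) y).hasDerivAt

theorem g_zero {y : ℝ} (hy : y ∉ Icc (-1 : ℝ) 1) : g y = 0 := by
  rw [mem_Icc, not_and_or, not_le, not_le] at hy
  rcases hy with h | h
  · have h1 : qc =ᶠ[𝓝 y] fun _ => (1 : ℂ) := by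
      filter_upwards [Iio_mem_nhds h] with x hx
      have hx' : x < -1 := hx
      unfold qc
      rw [q_one (by linarith)]
      norm_num
    rw [g, h1.deriv_eq]
    simp
  · have h1 : qc =ᶠ[𝓝 y] fun _ => (0 : ℂ) := by
      filter_upwards [Ioi_mem_nhds h] with x hx
      have hx' : 1 < x := hx
      unfold qc
      rw [q_zero (by linarith)]
      norm_num
    rw [g, h1.deriv_eq]
    simp

theorem g_cpt : HasCompactSupport g :=
  HasCompactSupport.of_support_subset_isCompact (isCompact_Icc (a := -1) (b := 1)) fun y hy => by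
    by_contra hn
    exact hy (g_zero hn)

/-- the transform -/
noncomputable def Q (z : ℂ) : ℂ := -∫ y, g y * cexp (z * y)

theorem Q_diff : Differentiable ℂ Q := by
  intro z₀
  set R : ℝ := |z₀.re| + 1 with hR
  set O : Set ℂ := {z : ℂ | |z.re| < R} with hO
  have hOo : IsOpen O := isOpen_lt (by fun_prop) continuous_const
  have h := Pool.Agent.HP.differentiableOn_integral (volume : Measure ℝ)
    (fun (y : ℝ) (z : ℂ) => g y * cexp (z * y)) O hOo
    (fun z _ => ((g_smooth.continuous).mul (CG.D2_cont z)).aestronglyMeasurable)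
    (fun y => by fun_prop) (fun y => ‖g y‖ * Real.exp R)
    ((g_smooth.continuous.integrable_of_hasCompactSupport g_cpt).norm.mul_const _)
    (fun y z hz => by
      have hz' : |z.re| < R := hz
      rw [norm_mul]
      by_cases hy : y ∈ Icc (-1 : ℝ) 1
      · refine mul_le_mul_of_nonneg_left ?_ (norm_nonneg _)
        rw [Complex.norm_exp]
        apply Real.exp_le_exp.2
        rw [Complex.re_mul_ofReal]
        have h1 : |y| ≤ 1 := abs_le.2 hy
        calc z.re * y ≤ |z.re * y| := le_abs_self _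
          _ = |z.re| * |y| := abs_mul _ _
          _ ≤ R * 1 := mul_le_mul hz'.le h1 (abs_nonneg _) (by positivity)
          _ = R := mul_one R
      · rw [g_zero hy]
        simp)
  have hz : z₀ ∈ O := by
    show |z₀.re| < R
    rw [hR]
    linarith
  exact ((h z₀ hz).differentiableAt (hOo.mem_nhds hz)).neg

theorem Q_pow (N : ℕ) : ∃ A : ℝ, 0 ≤ A ∧ ∀ z : ℂ, |z.re| ≤ 1 → ‖z‖ ^ N * ‖Q z‖ ≤ A := by
  have hsm : Continuous (iteratedDeriv N g) := g_smooth.continuous_iteratedDeriv N (by exact_mod_cast le_top)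
  have hsupp := CG.D2_supp (g := g) (a := 1) (fun y hy => g_zero hy) N
  have hcs : HasCompactSupport (iteratedDeriv N g) :=
    HasCompactSupport.of_support_subset_isCompact (isCompact_Icc (a := -1) (b := 1)) fun y hy => by
      by_contra hn
      exact hy (hsupp y hn)
  have hint : Integrable (fun y => ‖iteratedDeriv N g y‖) := (hsm.integrable_of_hasCompactSupport hcs).norm
  refine ⟨∫ y, ‖iteratedDeriv N g y‖ * Real.exp 1, integral_nonneg fun _ => by positivity, fun z hz => ?_⟩
  have h1 := congrArg norm (CG.D2_ibp z N g g_smooth g_cpt)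
  rw [norm_mul, norm_mul, norm_pow, norm_pow, norm_neg, norm_one, one_pow, one_mul] at h1
  rw [Q, norm_neg, h1]
  refine (norm_integral_le_integral_norm _).trans (integral_mono_of_nonneg
    (Eventually.of_forall fun _ => norm_nonneg _) (hint.mul_const _) (Eventually.of_forall fun y => ?_))
  simp only
  rw [norm_mul]
  by_cases hy : y ∈ Icc (-1 : ℝ) 1
  · refine mul_le_mul_of_nonneg_left ?_ (norm_nonneg _)
    rw [Complex.norm_exp]
    apply Real.exp_le_exp.2
    rw [Complex.re_mul_ofReal]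
    have h1 : |y| ≤ 1 := abs_le.2 hy
    calc z.re * y ≤ |z.re * y| := le_abs_self _
      _ = |z.re| * |y| := abs_mul _ _
      _ ≤ 1 * 1 := mul_le_mul hz h1 (abs_nonneg _) (by positivity)
      _ = 1 := mul_one 1
  · rw [hsupp y hy]
    simp

theorem Q_decay (N : ℕ) : ∃ A : ℝ, 0 ≤ A ∧ ∀ z : ℂ, |z.re| ≤ 1 → ‖Q z‖ ≤ A * ((1 + |z.im|) ^ N)⁻¹ := by
  obtain ⟨A₀, hA₀, h₀⟩ := Q_pow 0
  obtain ⟨A₁, hA₁, h₁⟩ := Q_pow N
  refine ⟨2 ^ N * (A₀ + A₁), by positivity, fun z hz => ?_⟩
  rw [← div_eq_mul_inv, le_div_iff₀ (by positivity)]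
  have e0 := h₀ z hz
  have e1 := h₁ z hz
  rw [pow_zero, one_mul] at e0
  have h2 : (1 + |z.im|) ^ N ≤ 2 ^ N * (1 + ‖z‖ ^ N) := by
    have h3 := Complex.abs_im_le_norm z
    rcases le_total ‖z‖ 1 with h | h
    · calc (1 + |z.im|) ^ N ≤ 2 ^ N := pow_le_pow_left₀ (by positivity) (by linarith) N
        _ ≤ 2 ^ N * (1 + ‖z‖ ^ N) := by
          have : 0 ≤ ‖z‖ ^ N := by positivity
          nlinarith [show (0 : ℝ) < 2 ^ N by positivity]
    · calc (1 + |z.im|) ^ N ≤ (2 * ‖z‖) ^ N := pow_le_pow_left₀ (by positivity) (by linarith) N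
        _ = 2 ^ N * ‖z‖ ^ N := mul_pow _ _ _
        _ ≤ 2 ^ N * (1 + ‖z‖ ^ N) := by
          have : (0 : ℝ) < 2 ^ N := by positivity
          nlinarith
  calc ‖Q z‖ * (1 + |z.im|) ^ N ≤ ‖Q z‖ * (2 ^ N * (1 + ‖z‖ ^ N)) := by gcongr
    _ = 2 ^ N * (‖Q z‖ + ‖z‖ ^ N * ‖Q z‖) := by ring
    _ ≤ 2 ^ N * (A₀ + A₁) := by gcongr

/-! ### inversion -/

/-- the jump -/
noncomputable def e0 (a : ℝ) : ℂ := if a < 0 then 1 else 0

theorem gz_bound {a : ℝ} (y : ℝ) : ‖(qc y - e0 a) * cexp (a * y)‖ ≤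
    Real.exp (2 * |a|) * Real.exp (-(|a| * |y|)) := by
  rw [norm_mul, Complex.norm_exp, ← Real.exp_add]
  have h3 : ((a : ℂ) * (y : ℂ)).re = a * y := by simp
  rw [h3]
  unfold qc e0
  rcases lt_or_ge a 0 with ha | ha
  · rw [if_pos ha, abs_of_neg ha]
    rcases le_total y 0 with hy | hy
    · rw [q_one hy]
      simp [Real.exp_nonneg]
    · rw [abs_of_nonneg hy]
      have h1 : ‖((q y : ℝ) : ℂ) - 1‖ ≤ 1 := by
        rw [← ofReal_one, ← ofReal_sub, Complex.norm_real, Real.norm_eq_abs, abs_le]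
        constructor <;> linarith [q_nonneg y, q_le_one y]
      calc ‖((q y : ℝ) : ℂ) - 1‖ * Real.exp (a * y) ≤ 1 * Real.exp (2 * -a + -(-a * y)) := by
            refine mul_le_mul h1 ?_ (Real.exp_nonneg _) zero_le_one
            apply Real.exp_le_exp.2
            linarith
        _ = _ := one_mul _
  · rw [if_neg (not_lt.2 ha), abs_of_nonneg ha, sub_zero]
    rcases le_total y 1 with hy | hy
    · have h1 : ‖((q y : ℝ) : ℂ)‖ ≤ 1 := by
        rw [Complex.norm_real, Real.norm_eq_abs, abs_le]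
        constructor <;> linarith [q_nonneg y, q_le_one y]
      calc ‖((q y : ℝ) : ℂ)‖ * Real.exp (a * y) ≤ 1 * Real.exp (2 * a + -(a * |y|)) := by
            refine mul_le_mul h1 ?_ (Real.exp_nonneg _) zero_le_one
            apply Real.exp_le_exp.2
            rcases le_total y 0 with h | h
            · rw [abs_of_nonpos h]
              nlinarith
            · rw [abs_of_nonneg h]
              nlinarith
        _ = _ := one_mul _
    · rw [q_zero hy]
      simp [Real.exp_nonneg]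

theorem exp_abs_int {c : ℝ} (hc : 0 < c) : Integrable (fun y : ℝ => Real.exp (-(c * |y|))) := by
  have h1 : IntegrableOn (fun y : ℝ => Real.exp (-(c * |y|))) (Ioi 0) := by
    refine (integrableOn_exp_mul_Ioi (a := -c) (by linarith) 0).congr_fun (fun y hy => ?_) measurableSet_Ioi
    have hy' : 0 < y := hy
    simp only
    rw [abs_of_pos hy']
    congr 1
    ring
  have h2 : IntegrableOn (fun y : ℝ => Real.exp (-(c * |y|))) (Iic 0) := by
    refine (integrableOn_exp_mul_Iic (a := c) hc 0).congr_fun (fun y hy => ?_) measurableSet_Iic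
    have hy' : y ≤ 0 := hy
    simp only
    rw [abs_of_nonpos hy']
    congr 1
    ring
  have h3 := h2.union h1
  rwa [Iic_union_Ioi, integrableOn_univ] at h3

theorem gz_int {a : ℝ} (ha : a ≠ 0) (z : ℂ) (hz : z.re = a) :
    Integrable (fun y : ℝ => (qc y - e0 a) * cexp (z * y)) := by
  refine ((exp_abs_int (abs_pos.2 ha)).const_mul (Real.exp (2 * |a|))).mono' ?_
    (Eventually.of_forall fun y => ?_)
  · exact ((qc_smooth.continuous.sub continuous_const).mul (CG.D2_cont z)).aestronglyMeasurable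
  · have h1 : ‖(qc y - e0 a) * cexp (z * y)‖ = ‖(qc y - e0 a) * cexp (a * y)‖ := by
      rw [norm_mul, norm_mul, Complex.norm_exp, Complex.norm_exp]
      congr 2
      simp [hz]
    rw [h1]
    exact gz_bound y

theorem laplace {a : ℝ} (ha : a ≠ 0) (z : ℂ) (hz : z.re = a) :
    ∫ y : ℝ, (qc y - e0 a) * cexp (z * y) = Q z / z := by
  have hz0 : z ≠ 0 := by
    rintro rfl
    rw [zero_re] at hz
    exact ha hz.symm
  rw [eq_div_iff hz0]
  have h := integral_mul_deriv_eq_deriv_mul_of_integrable (u := fun y => qc y - e0 a)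
    (v := fun y : ℝ => cexp (z * y)) (u' := g) (v' := fun y : ℝ => cexp (z * y) * z)
    (fun x _ => (qc_hd x).sub_const _) (fun x _ => CG.D2_exp z x)
    (by
      have := (gz_int ha z hz).mul_const z
      refine this.congr (Eventually.of_forall fun y => ?_)
      simp only [Pi.mul_apply]
      ring)
    (CG.D2_int g_smooth.continuous g_cpt (CG.D2_cont z)) (gz_int ha z hz)
  rw [Q, ← h, ← integral_mul_const]
  refine integral_congr_ae (Eventually.of_forall fun y => ?_)
  simp only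
  ring

/-- the integrand on a vertical line -/
noncomputable def ker (a y v : ℝ) : ℂ := Q (a + v * I) / (a + v * I) * cexp (-((a + v * I) * y))

theorem ne_line {a : ℝ} (ha : a ≠ 0) (v : ℝ) : ((a : ℂ) + v * I) ≠ 0 := by
  intro h
  have := congrArg Complex.re h
  simp at this
  exact ha this

theorem inv_norm_line {a : ℝ} (ha : a ≠ 0) (v : ℝ) : ‖((a : ℂ) + v * I)⁻¹‖ ≤ |a|⁻¹ := by
  rw [norm_inv]
  apply inv_anti₀ (abs_pos.2 ha)
  have := Complex.abs_re_le_norm ((a : ℂ) + v * I)
  simpa using this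

theorem cont_Qline {a : ℝ} (ha : a ≠ 0) : Continuous (fun v : ℝ => Q (a + v * I) / (a + v * I)) := by
  refine Continuous.div ?_ (by fun_prop) (ne_line ha)
  exact Q_diff.continuous.comp (by fun_prop)

/-- polynomially weighted integrability on a line -/
theorem Qline_int {a : ℝ} (ha : a ≠ 0) (ha1 : |a| ≤ 1) (n : ℕ) :
    Integrable (fun v : ℝ => (1 + |v|) ^ n * ‖Q (a + v * I) / (a + v * I)‖) := by
  obtain ⟨A, hA, h⟩ := Q_decay (n + 2)
  refine (integrable_inv_one_add_sq.const_mul (A * |a|⁻¹)).mono' ?_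
    (Eventually.of_forall fun v => ?_)
  · exact (Continuous.mul (by fun_prop) (cont_Qline ha).norm).aestronglyMeasurable
  · rw [Real.norm_of_nonneg (by positivity), div_eq_mul_inv, norm_mul]
    have h1 := h (a + v * I) (by simpa using ha1)
    have h2 := inv_norm_line ha v
    have h3 : ((a : ℂ) + v * I).im = v := by simp
    rw [h3] at h1
    have h4 : (1 + v ^ 2) ≤ (1 + |v|) ^ 2 := by
      have := sq_abs v
      nlinarith [abs_nonneg v]
    calc (1 + |v|) ^ n * (‖Q (a + v * I)‖ * ‖((a : ℂ) + v * I)⁻¹‖)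
        ≤ (1 + |v|) ^ n * ((A * ((1 + |v|) ^ (n + 2))⁻¹) * |a|⁻¹) := by gcongr
      _ = A * |a|⁻¹ * ((1 + |v|) ^ 2)⁻¹ := by
          rw [pow_add]
          field_simp
      _ ≤ A * |a|⁻¹ * (1 + v ^ 2)⁻¹ := by gcongr

/-- **inversion** -/
theorem inversion {a : ℝ} (ha : a ≠ 0) (ha1 : |a| ≤ 1) (y : ℝ) :
    ∫ v : ℝ, ker a y v = 2 * Real.pi * (qc y - e0 a) := by
  set G : ℝ → ℂ := fun y => (qc y - e0 a) * cexp (a * y) with hG
  have hGc : Continuous G := (qc_smooth.continuous.sub continuous_const).mul (CG.D2_cont a)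
  have hGi : Integrable G := gz_int ha a (by simp)
  have hF : ∀ ξ : ℝ, 𝓕 G ξ = Q (a + ((-(2 * Real.pi) * ξ : ℝ) : ℂ) * I) / (a + ((-(2 * Real.pi) * ξ : ℝ) : ℂ) * I) := by
    intro ξ
    rw [← laplace ha (a + ((-(2 * Real.pi) * ξ : ℝ) : ℂ) * I) (by simp), Real.fourier_eq']
    refine integral_congr_ae (Eventually.of_forall fun x => ?_)
    simp only [RCLike.inner_apply, conj_trivial, smul_eq_mul]
    rw [hG]
    simp only
    rw [mul_left_comm, ← Complex.exp_add]
    congr 2
    push_cast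
    ring
  have hFi : Integrable (𝓕 G) := by
    have h1 : 𝓕 G = fun ξ : ℝ => (fun v : ℝ => Q (a + v * I) / (a + v * I)) (-(2 * Real.pi) * ξ) := by
      funext ξ
      rw [hF]
    rw [h1]
    have h2 : Integrable (fun v : ℝ => Q (a + v * I) / (a + v * I)) := by
      have := Qline_int ha ha1 0
      simp only [pow_zero, one_mul] at this
      exact (integrable_norm_iff (cont_Qline ha).aestronglyMeasurable).1 this
    exact h2.comp_mul_left' (by simp [Real.pi_ne_zero])
  have h1 := congrFun (hGc.fourierInv_fourier_eq hGi hFi) y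
  rw [Real.fourierInv_eq'] at h1
  have h2 : ∀ ξ : ℝ, cexp (((2 * Real.pi * inner ℝ ξ y : ℝ) : ℂ) * I) • 𝓕 G ξ =
      (fun v : ℝ => cexp (-(v * I * y)) * (Q (a + v * I) / (a + v * I))) (-(2 * Real.pi) * ξ) := by
    intro ξ
    simp only [RCLike.inner_apply, conj_trivial, smul_eq_mul]
    rw [hF]
    congr 2
    push_cast
    ring
  have h3 : ∫ ξ : ℝ, cexp (((2 * Real.pi * inner ℝ ξ y : ℝ) : ℂ) * I) • 𝓕 G ξ =
      ∫ ξ : ℝ, (fun v : ℝ => cexp (-(v * I * y)) * (Q (a + v * I) / (a + v * I))) (-(2 * Real.pi) * ξ) :=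
    integral_congr_ae (Eventually.of_forall h2)
  rw [h3, Measure.integral_comp_mul_left (fun v : ℝ => cexp (-(v * I * y)) * (Q (a + v * I) / (a + v * I))),
    abs_inv, abs_neg, abs_of_pos (by positivity), hG, Complex.real_smul] at h1
  have h4 : ∫ v : ℝ, ker a y v = cexp (-(a * y)) *
      ∫ v : ℝ, cexp (-(v * I * y)) * (Q (a + v * I) / (a + v * I)) := by
    rw [← integral_const_mul]
    refine integral_congr_ae (Eventually.of_forall fun v => ?_)
    simp only [ker]
    rw [show -((a + v * I) * y : ℂ) = -(a * y) + -(v * I * y) by ring, Complex.exp_add]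
    ring
  rw [h4]
  have hpi : (2 * Real.pi : ℂ) ≠ 0 := by
    simp [Real.pi_ne_zero]
  have h5 : ∫ v : ℝ, cexp (-(v * I * y)) * (Q (a + v * I) / (a + v * I)) =
      2 * Real.pi * ((qc y - e0 a) * cexp (a * y)) := by
    have h6 : (((2 * Real.pi)⁻¹ : ℝ) : ℂ) * ∫ v : ℝ, cexp (-(v * I * y)) * (Q (a + v * I) / (a + v * I)) =
        (qc y - e0 a) * cexp (a * y) := h1
    rw [← h6, ofReal_inv, ofReal_mul, ofReal_ofNat, ← mul_assoc, mul_inv_cancel₀ hpi, one_mul]
  rw [h5, Complex.exp_neg]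
  have : cexp (a * y) ≠ 0 := Complex.exp_ne_zero _
  field_simp

end Pool.Agent.J6H39.PI.LG
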