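import Pool.Agent.J6H39.PI.Fin

/-! Project PI: the leading coefficient of the main term. -/

set_option autoImplicit false

open MeasureTheory Set Filter Topology

namespace Pool.Agent.J6H39.PI

open Pool.Agent.J6H39.SP (Mt)
open Pool.Agent.J6H39.SP.EQ2
open Pool.Agent.H306R2 (aF)

theorem two_pi_gt : (1 : ℝ) < 2 * Real.pi := by
  have := Real.pi_gt_three
  linarith

/-- `|P(x)| ≤ C y^n` for `|x| ≤ y`, `y ≥ 1`, `deg P ≤ n` -/
theorem poly_le (P : Polynomial ℝ) {n : ℕ} (hn : P.natDegree ≤ n) : ∃ C : ℝ, 0 ≤ C ∧ ∀ x y : ℝ, 1 ≤ y → |x| ≤ y →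
    |P.eval x| ≤ C * y ^ n := by
  refine ⟨∑ i ∈ Finset.range (n + 1), |P.coeff i|, Finset.sum_nonneg fun _ _ => abs_nonneg _, fun x y hy hx => ?_⟩
  rw [P.eval_eq_sum_range' (Nat.lt_succ_of_le hn), Finset.sum_mul]
  refine (Finset.abs_sum_le_sum_abs _ _).trans (Finset.sum_le_sum fun i hi => ?_)
  rw [abs_mul, abs_pow]
  have h1 : |x| ^ i ≤ y ^ i := pow_le_pow_left₀ (abs_nonneg x) hx i
  have h2 : y ^ i ≤ y ^ n := pow_le_pow_right₀ hy (Nat.lt_succ_iff.1 (Finset.mem_range.1 hi))
  exact mul_le_mul_of_nonneg_left (h1.trans h2) (abs_nonneg _)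

/-- the pointwise limit -/
theorem poly_lim (P : Polynomial ℝ) {n : ℕ} (hn : P.natDegree ≤ n) (c : ℝ) :
    Tendsto (fun L : ℝ => P.eval (L + c) / L ^ n) atTop (𝓝 (P.coeff n)) := by
  have h0 : ∀ i ∈ Finset.range (n + 1), Tendsto (fun L : ℝ => P.coeff i * (L + c) ^ i / L ^ n) atTop
      (𝓝 (if i = n then P.coeff n else 0)) := by
    intro i hi
    have hi' : i ≤ n := Nat.lt_succ_iff.1 (Finset.mem_range.1 hi)
    have h1 : Tendsto (fun L : ℝ => 1 + c / L) atTop (𝓝 1) := by
      have := (tendsto_const_nhds (x := c)).div_atTop (tendsto_id (α := ℝ) (x := atTop))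
      simpa using this.const_add 1
    have h2 : Tendsto (fun L : ℝ => (L⁻¹) ^ (n - i)) atTop (𝓝 (if i = n then 1 else 0)) := by
      split_ifs with h
      · subst h
        simp
      · have h3 : n - i ≠ 0 := by omega
        have := (tendsto_inv_atTop_zero (𝕜 := ℝ)).pow (n - i)
        simpa [zero_pow h3] using this
    have h4 := ((h1.pow i).mul h2).const_mul (P.coeff i)
    have h5 : P.coeff i * (1 ^ i * if i = n then 1 else 0) = if i = n then P.coeff n else 0 := by
      split_ifs with h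
      · subst h
        simp
      · simp
    rw [h5] at h4
    refine h4.congr' ?_
    filter_upwards [eventually_gt_atTop 0] with L hL
    have h6 : (1 + c / L) = (L + c) / L := by
      field_simp
    have h7 : L ^ n = L ^ i * L ^ (n - i) := by
      rw [← pow_add]
      congr 1
      omega
    rw [h6, h7, div_pow, inv_pow]
    field_simp
  have h1 := tendsto_finsetSum (Finset.range (n + 1)) h0
  have h2 : ∑ i ∈ Finset.range (n + 1), (if i = n then P.coeff n else 0) = P.coeff n := by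
    simp
  rw [h2] at h1
  refine h1.congr fun L => ?_
  rw [P.eval_eq_sum_range' (Nat.lt_succ_of_le hn), Finset.sum_div]

/-- the leading term of the main term -/
theorem mt_lim (P : Polynomial ℝ) {n : ℕ} (hn : P.natDegree ≤ n) :
    Tendsto (fun T : ℝ => Mt P T / (T * Real.log T ^ n)) atTop (𝓝 (P.coeff n)) := by
  have hp := two_pi_gt
  obtain ⟨C, hC0, hC⟩ := poly_le P hn
  -- scaling
  have h1 : ∀ T : ℝ, 0 < T → Mt P T / T = ∫ u in (0:ℝ)..1, P.eval (Real.log (T * u / (2 * Real.pi))) := by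
    intro T hT
    have h2 := intervalIntegral.integral_comp_mul_left
      (fun t : ℝ => P.eval (Real.log (t / (2 * Real.pi)))) hT.ne' (a := 0) (b := 1)
    rw [h2]
    unfold Mt
    rw [mul_zero, mul_one, smul_eq_mul]
    field_simp
  have h3 : Tendsto (fun T : ℝ => ∫ u in (0:ℝ)..1, P.eval (Real.log (T * u / (2 * Real.pi))) / Real.log T ^ n) atTop
      (𝓝 (∫ _u in (0:ℝ)..1, P.coeff n)) := by
    refine intervalIntegral.tendsto_integral_filter_of_dominated_convergence
      (fun u : ℝ => C * ((1 - Polynomial.X : Polynomial ℝ) ^ n).eval (Real.log (u / (2 * Real.pi)))) ?_ ?_ ?_ ?_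
    · refine Eventually.of_forall fun T => ?_
      refine Measurable.aestronglyMeasurable ?_
      refine Measurable.div_const ?_ _
      exact P.continuous.measurable.comp (Real.measurable_log.comp (by fun_prop))
    · filter_upwards [eventually_ge_atTop (Real.exp 1)] with T hT
      have hT0 : 0 < T := (Real.exp_pos 1).trans_le hT
      have hL : 1 ≤ Real.log T := by
        rw [Real.le_log_iff_exp_le hT0]
        exact hT
      refine Eventually.of_forall fun u hu => ?_
      rw [uIoc_of_le zero_le_one] at hu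
      have hu0 : 0 < u / (2 * Real.pi) := div_pos hu.1 (by linarith)
      have hu1 : Real.log (u / (2 * Real.pi)) ≤ 0 := by
        refine Real.log_nonpos hu0.le ?_
        rw [div_le_one (by linarith)]
        linarith [hu.2]
      have e1 : Real.log (T * u / (2 * Real.pi)) = Real.log T + Real.log (u / (2 * Real.pi)) := by
        rw [mul_div_assoc, Real.log_mul hT0.ne' hu0.ne']
      have e2 : |Real.log (T * u / (2 * Real.pi))| ≤ Real.log T * (1 - Real.log (u / (2 * Real.pi))) := by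
        rw [e1, abs_le]
        constructor <;> nlinarith
      have e3 := hC _ _ (by nlinarith) e2
      rw [norm_div, Real.norm_eq_abs, Real.norm_of_nonneg (by positivity), div_le_iff₀ (by positivity)]
      refine e3.trans (le_of_eq ?_)
      simp only [Polynomial.eval_pow, Polynomial.eval_sub, Polynomial.eval_one, Polynomial.eval_X]
      rw [mul_pow]
      ring
    · exact (mt_ii _ le_rfl zero_le_one).const_mul C
    · refine Eventually.of_forall fun u hu => ?_
      rw [uIoc_of_le zero_le_one] at hu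
      have hu0 : 0 < u / (2 * Real.pi) := div_pos hu.1 (by linarith)
      have h4 := (poly_lim P hn (Real.log (u / (2 * Real.pi)))).comp Real.tendsto_log_atTop
      refine h4.congr' ?_
      filter_upwards [eventually_gt_atTop 0] with T hT0
      simp only [Function.comp]
      rw [mul_div_assoc, Real.log_mul hT0.ne' hu0.ne']
  have h5 : (∫ _u in (0:ℝ)..1, P.coeff n) = P.coeff n := by simp
  rw [h5] at h3
  refine h3.congr' ?_
  filter_upwards [eventually_gt_atTop 0] with T hT
  rw [intervalIntegral.integral_div, ← h1 T hT]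
  field_simp

/-- the leading coefficient of the polynomial of the diagonal terms -/
theorem lead_coeff (hL2 : S_L2) {k : ℕ} {v : ℝ → ℝ} (hk : 1 ≤ k) (hv : Adm v) {Q : Polynomial ℝ}
    (hQ : Q.natDegree ≤ k ^ 2) (HQ : ∀ ε : ℝ, 0 < ε → ∃ C : ℝ, ∀ T : ℝ, 2 ≤ T →
        |2 * (∫ t in (0:ℝ)..T, dia k v t) - Mt Q T| ≤ C * T ^ (max 0 (1 - (k : ℝ) / 4) + ε)) :
    Q.coeff (k ^ 2) = 2 * ((k : ℝ) / 2) ^ (k ^ 2) * aF k / (k ^ 2).factorial := by
  have h1 := hL2 k v hk hv
  have h2 := mt_lim Q hQ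
  have hk1 : (1 : ℝ) ≤ k := by exact_mod_cast hk
  obtain ⟨C, hC⟩ := HQ (1 / 8) (by norm_num)
  have hexp : max 0 (1 - (k : ℝ) / 4) + 1 / 8 ≤ 7 / 8 := by
    have : max 0 (1 - (k : ℝ) / 4) ≤ 3 / 4 := max_le (by norm_num) (by linarith)
    linarith
  have h3 : Tendsto (fun T : ℝ => (2 * (∫ t in (0:ℝ)..T, dia k v t) - Mt Q T) / (T * Real.log T ^ (k ^ 2))) atTop
      (𝓝 0) := by
    have h4 : Tendsto (fun T : ℝ => |C| * T ^ (-(1 / 8) : ℝ)) atTop (𝓝 0) := by
      have := (tendsto_rpow_neg_atTop (y := 1 / 8) (by norm_num)).const_mul |C|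
      simpa using this
    refine squeeze_zero_norm' ?_ h4
    filter_upwards [eventually_ge_atTop (Real.exp 1)] with T hT
    have hT0 : 0 < T := (Real.exp_pos 1).trans_le hT
    have hT2 : 2 ≤ T := by
      have := Real.add_one_le_exp (1 : ℝ)
      linarith
    have hL : 1 ≤ Real.log T := by
      rw [Real.le_log_iff_exp_le hT0]
      exact hT
    have hL1 : 1 ≤ Real.log T ^ (k ^ 2) := one_le_pow₀ hL
    have h5 : |2 * (∫ t in (0:ℝ)..T, dia k v t) - Mt Q T| ≤ |C| * T ^ (7 / 8 : ℝ) := by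
      refine (hC T hT2).trans ?_
      have h6 : T ^ (max 0 (1 - (k : ℝ) / 4) + 1 / 8) ≤ T ^ (7 / 8 : ℝ) :=
        Real.rpow_le_rpow_of_exponent_le (by linarith) hexp
      have h7 : 0 ≤ T ^ (max 0 (1 - (k : ℝ) / 4) + 1 / 8) := Real.rpow_nonneg hT0.le _
      exact (mul_le_mul_of_nonneg_right (le_abs_self C) h7).trans (mul_le_mul_of_nonneg_left h6 (abs_nonneg C))
    rw [norm_div, Real.norm_eq_abs, Real.norm_of_nonneg (by positivity), div_le_iff₀ (by positivity)]
    have h8 : T ^ (7 / 8 : ℝ) = T ^ (-(1 / 8) : ℝ) * T := by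
      conv_rhs => rw [← Real.rpow_one T, ← Real.rpow_mul hT0.le, ← Real.rpow_add hT0]
      norm_num
    rw [h8] at h5
    have h9 : 0 ≤ T ^ (-(1 / 8) : ℝ) := Real.rpow_nonneg hT0.le _
    calc _ ≤ |C| * (T ^ (-(1 / 8) : ℝ) * T) := h5
      _ = |C| * T ^ (-(1 / 8) : ℝ) * (T * 1) := by ring
      _ ≤ |C| * T ^ (-(1 / 8) : ℝ) * (T * Real.log T ^ (k ^ 2)) := by gcongr
  have h6 := h2.add h3
  rw [add_zero] at h6
  have h7 : Tendsto (fun T : ℝ => 2 * (∫ t in (0:ℝ)..T, dia k v t) / (T * Real.log T ^ (k ^ 2))) atTop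
      (𝓝 (Q.coeff (k ^ 2))) := by
    refine h6.congr fun T => ?_
    ring
  exact tendsto_nhds_unique h7 h1

end Pool.Agent.J6H39.PI
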