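import Pool.Agent.J6H39.SP.Stm

/-!
# Project PI (MP_07318d_nt): the error term of the moments and of the mean square of a Dirichlet polynomial. Statements.

`v` smooth, `v = 1` on `(-∞,-1]`, `v(x)² + v(-x)² = 1`, `D(t) = ∑ d_k(n) n^(-1/2-it) v(log n - (k/2) log(t/2π))`. Then
`∫_a^b |ζ(1/2+it)|^(2k) dt - 2 ∫_a^b |D(t)|² dt` is bounded by `T^ε` times the moment over the intervals of length `T^ε`
about `a` and `b` plus `∫_a^b |ζ|^(2k) dt/(1+t) + 1`. So for every exponent `θ ≥ 0` the moment conjecture with the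
remainder `O(T^(θ+ε))` is equivalent to the same formula for `2 ∫_0^T |D|²`.

`f = ζ(1/2+it)^k`. The Fourier multiplier with symbol `V` is `Ax V f (t) = ∫ (𝓕 V)(ξ) f(t - 2πξ) dξ`; it is the Dirichlet
polynomial `∑ d_k(n) n^(-1/2-it) V(log n)` up to a negligible error. The scale is fixed (project CG: scale `1/log T`).
Every statement is a `Prop` with its proof in the docstring.
-/

set_option autoImplicit false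

open MeasureTheory Set Filter Topology Complex
open scoped ContDiff

namespace Pool.Agent.J6H39.PI

open Pool.Agent.J6H39.CG (zh uu PG Tst)
open Pool.Agent.J6H39.KV (dv)
open Pool.Agent.J6H39.SP (Mt ds)
open H345 (XX)

/-- `ζ(1/2+it)^k` -/
noncomputable def ff (k : ℕ) (t : ℝ) : ℂ := zh t ^ k

/-- admissible cutoffs -/
structure Adm (v : ℝ → ℝ) : Prop where
  smooth : ContDiff ℝ ∞ v
  one : ∀ x, x ≤ -1 → v x = 1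
  sq : ∀ x, v x ^ 2 + v (-x) ^ 2 = 1

/-- symbols supported in `[-R, R]`, with derivatives bounded by `M j` -/
structure Sy (R : ℝ) (M : ℕ → ℝ) (V : ℝ → ℝ) : Prop where
  smooth : ContDiff ℝ ∞ V
  supp : ∀ x, R < |x| → V x = 0
  bd : ∀ j x, |iteratedDeriv j V x| ≤ M j

/-- the Fourier multiplier with symbol `V` -/
noncomputable def Ax (V : ℝ → ℝ) (g : ℝ → ℂ) (t : ℝ) : ℂ := ∫ ξ, uu V ξ * g (t - 2 * Real.pi * ξ)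

/-- the Dirichlet polynomial with symbol `V` -/
noncomputable def Dv (k : ℕ) (V : ℝ → ℝ) (t : ℝ) : ℂ :=
  ∑' n : ℕ, (dv k n : ℂ) * (n : ℂ) ^ (-(1 / 2 + (t : ℂ) * I)) * (V (Real.log n) : ℂ)

/-- the majorant -/
noncomputable def Kf (N : ℕ) (g : ℝ → ℂ) (t : ℝ) : ℝ := ∫ ξ, ((1 + |ξ|) ^ N)⁻¹ * ‖g (t - 2 * Real.pi * ξ)‖

/-- `1 + log(1+|t|)` -/
noncomputable def lg (t : ℝ) : ℝ := 1 + Real.log (1 + |t|)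

/-- `(k/2) log(t/2π)`, the logarithm of the length -/
noncomputable def Xk (k : ℕ) (t : ℝ) : ℝ := k / 2 * Real.log (t / (2 * Real.pi))

/-- the same, at least `1` -/
noncomputable def Xt (k : ℕ) (t : ℝ) : ℝ := max 1 (Xk k t)

/-- a smooth step: `0` for `x ≤ -1`, `1` for `x ≥ 0` -/
noncomputable def ee (x : ℝ) : ℝ := Real.smoothTransition (x + 1)

/-- the symbol of `D`, cut off at negative `x` -/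
noncomputable def Vx (v : ℝ → ℝ) (X x : ℝ) : ℝ := ee x * v (x - X)

/-- its square -/
noncomputable def Gx (v : ℝ → ℝ) (X x : ℝ) : ℝ := Vx v X x ^ 2

/-- the Dirichlet polynomial `D` -/
noncomputable def DD (k : ℕ) (v : ℝ → ℝ) (t : ℝ) : ℂ :=
  ∑' n : ℕ, (dv k n : ℂ) * (n : ℂ) ^ (-(1 / 2 + (t : ℂ) * I)) * (v (Real.log n - Xk k t) : ℂ)

/-- **PI-KN**: kernels. Proof. `‖uu V ξ‖ ≤ ∫ |V| ≤ 2R M 0`, and `(2πiξ)^N uu V ξ = uu (V^(N)) ξ` (Mathlib: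
`Real.fourier_iteratedDeriv` or N integrations by parts; see `CG/Base.lean` for the Schwartz map of a test function), so
`(2π|ξ|)^N ‖uu V ξ‖ ≤ 2R M N`; `(1+|ξ|)^N ≤ 2^N (1 + |ξ|^N)`. -/
def S_KN : Prop := ∀ N : ℕ, ∃ C : ℝ, 0 ≤ C ∧ ∀ (R : ℝ) (M : ℕ → ℝ) (V : ℝ → ℝ), 1 ≤ R → Sy R M V → ∀ ξ : ℝ,
  ‖uu V ξ‖ ≤ C * R * (∑ j ∈ Finset.range (N + 1), M j) * ((1 + |ξ|) ^ N)⁻¹

/-- **PI-SY**: the symbols. Proof. `|v| ≤ 1`, `v = 0` for `x ≥ 1`, so all derivatives of `v` (and of `ee`) are bounded (those of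
order `≥ 1` have compact support); products and translates by Leibniz (`norm_iteratedFDeriv_mul_le`). The difference:
`v(x-X) - v(x-Y) = -∫_Y^X v'(x-z) dz`, so its derivatives are `≤ sup|v^(j+1)| |X-Y|` (mean value). The identities: for
`0 ≤ x ≤ 2X` both `ee` are `1`, `v(x-X)² + v(X-x)² = 1`; for `x < 0`: `v(x-X) = 1`, `v(X-x) = 0`, `ee(2X-x) = 1`;
for `x > 2X`: `v(x-X) = 0`, `v(X-x) = 1`, `ee x = 1`. -/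
def S_SY : Prop := ∀ v, Adm v → ∃ M : ℕ → ℝ,
  (∀ X : ℝ, 1 ≤ X → Sy (X + 1) M (Vx v X) ∧ Sy (X + 1) M (Gx v X)) ∧
  (∀ X Y : ℝ, 1 ≤ X → 1 ≤ Y → Sy (max X Y + 1) (fun j => M j * |X - Y|) (fun x => Vx v X x - Vx v Y x)) ∧
  (∀ m : ℝ, 0 ≤ m → Sy (m + 1) M (fun x => ee (m + x) ^ 2 - ee x ^ 2) ∧
    Sy (m + 1) M (fun x => ee x ^ 2 * ee (m - x) ^ 2)) ∧
  (∀ X : ℝ, 1 ≤ X → ∀ x, Gx v X x + Gx v X (2 * X - x) = ee x ^ 2 * ee (2 * X - x) ^ 2) ∧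
  (∀ X m : ℝ, 1 ≤ X → 2 * X ≤ m → ∀ x, ee x ^ 2 * ee (m - x) ^ 2 - ee x ^ 2 * ee (2 * X - x) ^ 2 =
    ee ((m - 2 * X) + (2 * X - x)) ^ 2 - ee (2 * X - x) ^ 2)

/-- **PI-LP**: N integrations by parts. Proof. `φ(x) = x^p V(x)` has derivatives of order `j ≤ N` at most
`C R^p ∑ M` (Leibniz, `R ≥ 1`) and support in `[-R,R]`; the integral is `(-1)^N (1/2-it)^(-N) ∫ φ^(N) e^((1/2-it)x)`,
`|1/2-it| ≥ |t|`. See `CG/D2.lean`. -/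
def S_LP : Prop := ∀ p N : ℕ, ∃ C : ℝ, 0 ≤ C ∧ ∀ (R : ℝ) (M : ℕ → ℝ) (V : ℝ → ℝ), 1 ≤ R → Sy R M V → ∀ t : ℝ,
  1 ≤ |t| → ‖∫ x : ℝ, (x : ℂ) ^ p * (V x : ℂ) * cexp ((1 / 2 - (t : ℂ) * I) * x)‖ ≤
    C * R ^ (p + 1) * (∑ j ∈ Finset.range (N + 1), M j) * Real.exp (R / 2) * (|t| ^ N)⁻¹

/-- **PI-DA** (from `S_LP`): the Dirichlet polynomial is the multiplier applied to `f`. Proof. `CG.t_D1 CG.t_F` (`CG.S_D1`) with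
`T = exp 7` (`log T = 7`, `hh T = 2π/7`) and the test function `x ↦ V(7x)`, whose `uu` is `uu V (ξ/7)/7` (`CG.S_F`, `M = 1/7`);
substitute `ξ = 7η` in `Aop` and `x ↦ x/1` in the integrals on the right (there `V'(x/log T) = V(x)`). Then `S_LP` for `p < k`,
`R^(p+1) ≤ R^k`. -/
def S_DA : Prop := ∀ k N : ℕ, ∃ C : ℝ, 0 ≤ C ∧ ∀ (R : ℝ) (M : ℕ → ℝ) (V : ℝ → ℝ), 1 ≤ R → Sy R M V → ∀ t : ℝ,
  1 ≤ |t| → ‖Dv k V t - Ax V (ff k) t‖ ≤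
    C * R ^ k * (∑ j ∈ Finset.range (N + 1), M j) * Real.exp (R / 2) * (|t| ^ N)⁻¹

/-- **PI-LG**: `ζ^k` as a long smooth Dirichlet polynomial. Proof. `q(y) = ee(-y)²` is `1` for `y ≤ 0`, `0` for `y ≥ 1`, and
`q(y) = (2πi)^(-1) ∫_(2) Q(z) e^(-zy) dz/z`, `Q(z) = -∫ q'(y) e^(zy) dy` (entire, `Q(0) = 1`, and `Q(z) = O((1+|Im z|)^(-N))`
for `|Re z| ≤ 2`, all `N`). For `n ≥ 1` the symbol is `q(log n - m)`, so with `s = 1/2+it`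
`Dv = (2πi)^(-1) ∫_(2) ζ(s+z)^k Q(z) e^(mz) dz/z` (`KV.dv_series`). Shift to `Re z = -1`: the pole `z = 0` gives `ζ(s)^k`, the pole
`z = 1-s` is a circle integral of radius `1/4`, `O(e^m t^(-N))`, and on `Re z = -1` the integral is `O(t^B e^(-m))` because
`ζ(-1/2+iy)` has polynomial growth. For the shift see `SP/CT.lean`, `KV`, `Pool.Agent.E8helper52.OR.Contour`; growth of
`(s-1)ζ(s)`: `Pool.Agent.H437R2.A1`, or the functional equation `H345.zeta_fe` with `H345.Chi.XX_size`. -/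
def S_LG : Prop := ∀ k : ℕ, ∃ B : ℕ, ∀ N : ℕ, ∃ C : ℝ, 0 ≤ C ∧ ∀ m t : ℝ, 1 ≤ m → 1 ≤ t →
  ‖ff k t - Dv k (fun x => ee x ^ 2 * ee (m - x) ^ 2) t‖ ≤ C * (t ^ B * Real.exp (-m) + Real.exp m * (t ^ N)⁻¹)

/-- **PI-RF**: reflection by the functional equation. Proof: as `J6H59/CG/PH.lean` (`zh_pow_fe`), with `2π` for `hh T` and
`a = 2 Xk k t = k log(t/2π)`: `uu (V(a-·))(ξ) = e^(-2πiaξ) conj(uu V ξ)`, so the difference is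
`∫ conj(uu V ξ) conj(f(t-2πξ)) (e^(-2πiaξ) conj(XX(1/2+i(t-2πξ)))^k - conj(XX(1/2+it))^k) dξ`. By `H345.Chi.XX_local`
(`|2πξ| ≤ t/2`): `|XX(t-2πξ) e^(-2πiξ log(t/2π)) - XX(t)| ≤ C (1+ξ²)/t` (check the sign there), otherwise it is
`≤ 2 ≤ C ξ²/t²`. There is no other error. -/
def S_RF : Prop := ∀ k : ℕ, ∃ C t₀ : ℝ, 0 ≤ C ∧ 1 ≤ t₀ ∧ ∀ t : ℝ, t₀ ≤ t → ∀ V : ℝ → ℝ, Tst V →
  ‖Ax (fun x => V (2 * Xk k t - x)) (ff k) t -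
    (starRingEnd ℂ) (XX (1 / 2 + (t : ℂ) * I)) ^ k * (starRingEnd ℂ) (Ax V (ff k) t)‖ ≤
  C / t * ∫ ξ, ‖uu V ξ‖ * (1 + ξ ^ 2) * ‖ff k (t - 2 * Real.pi * ξ)‖

/-- **PI-AF** (from `S_KN`, `S_SY`, `S_DA`, `S_LG`, `S_RF`): the symmetric approximate functional equation. Proof. `X = Xk k t ≥ 1`.
`S_LG` with `m = (B+k+3) log t`: `f(t) = Dv k E_m t + O(t^(-3))`, `E_m(x) = ee x² ee(m-x)²`; `S_DA`: `= Ax E_m f t + O(t^(-3))`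
(`e^(m/2)` is a power of `t`). `Ax` is linear in the symbol. `E_m - E_(2X) = Z(2X - ·)` with `Z(x) = ee((m-2X)+x)² - ee x²` (`S_SY`),
`S_RF`: `Ax (Z(2X-·)) f t = conj(XX)^k conj(Ax Z f t) + O((1/t) ∫ ‖uu Z‖ (1+ξ²) ‖f‖)`, and by `S_KN`
`‖uu Z ξ‖ ≤ C (m+1) (1+|ξ|)^(-N-2)`; `Z(x) = 0` for `x ≥ 0`, so `Dv k Z t = 0` and `Ax Z f t = O(t^(-3))` by `S_DA`. Finally
`E_(2X) = Gx v X + Gx v X (2X - ·)` and `S_RF` for `Gx v X`. -/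
def S_AF : Prop := ∀ (k : ℕ) (v : ℝ → ℝ), 1 ≤ k → Adm v → ∀ N : ℕ, k + 2 ≤ N → ∃ C t₀ : ℝ, 0 ≤ C ∧ 1 ≤ t₀ ∧
  ∀ t : ℝ, t₀ ≤ t → 1 ≤ Xk k t ∧
  ‖ff k t - Ax (Gx v (Xk k t)) (ff k) t -
    (starRingEnd ℂ) (XX (1 / 2 + (t : ℂ) * I)) ^ k * (starRingEnd ℂ) (Ax (Gx v (Xk k t)) (ff k) t)‖ ≤
  C * (lg t / t * Kf N (ff k) t + (t ^ 3)⁻¹)

/-- **PI-SC**: Schur's test. Proof. `Kf² ≤ (∫ (1+|ξ|)^(-N)) ∫ (1+|ξ|)^(-N) ‖g(t-2πξ)‖² dξ` (Cauchy-Schwarz); integrate against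
`W`, Fubini, translation: `∫ ‖g(s)‖² W(s+2πξ) ds ≤ (1+2π|ξ|)^B ∫ ‖g‖² W`. -/
def S_SC : Prop := ∀ B b N : ℕ, B + 2 ≤ N → b + 2 ≤ N → ∃ C : ℝ, 0 ≤ C ∧ ∀ W : ℝ → ℝ, Measurable W → (∀ s, 0 ≤ W s) →
  (∀ s u, W (s + u) ≤ (1 + |u|) ^ B * W s) → ∀ g : ℝ → ℂ, PG b g → Integrable (fun s => ‖g s‖ ^ 2 * W s) →
  Continuous (Kf N g) ∧ Integrable (fun s => Kf N g s ^ 2 * W s) ∧
  ∫ s, Kf N g s ^ 2 * W s ≤ C * ∫ s, ‖g s‖ ^ 2 * W s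

/-- weights `w` with a majorant `Om` of their increments -/
structure Wg (k B : ℕ) (w Om : ℝ → ℝ) : Prop where
  mw : Measurable w
  mO : Measurable Om
  w0 : ∀ s, 0 ≤ w s
  shift : ∀ s u, |w (s + u) - w s| ≤ (1 + |u|) ^ B * Om s
  loc : ∀ s, w s ≤ (1 + |s|) * Om s
  tame : ∀ s u, Om (s + u) ≤ (1 + |u|) ^ B * Om s
  dec : ∃ C, ∀ s, w s ≤ C * ((1 + |s|) ^ (2 * k + 6))⁻¹ ∧ Om s ≤ C * ((1 + |s|) ^ (2 * k + 6))⁻¹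

/-- **PI-XT**: `Xt` varies slowly. Proof. `Xt k` is even and, where it is larger than `1`, has the derivative `k/(2t)`; for
`|u| ≤ |s|/2` mean value theorem, for `|u| > |s|/2` both values are `≤ C lg` and `(1+|u|)/(1+|s|) ≥ 1/2`. -/
def S_XT : Prop := ∀ k : ℕ, ∃ C : ℝ, 0 ≤ C ∧ Continuous (Xt k) ∧ ∀ s : ℝ, Xt k s ≤ C * lg s ∧
  ∀ u : ℝ, |Xt k (s + u) - Xt k s| ≤ C * (1 + |u|) ^ 2 / (1 + |s|)

/-- **PI-BL** (from `S_KN`, `S_SY`, `S_SC`, `S_XT`): composition and self-adjointness. Proof. `u_X = uu (Vx v X)`,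
`G_X = Ax (Vx v X) f`; `Ax (Gx v X) f t = ∫ u_X(ξ) G_X(t-2πξ) dξ` (`CG.S_F`: `uu (V²) = u * u`; Fubini). So the first integral is
(substitute `t = s+2πξ`) `∬ f(s+2πξ) conj(u_{X'}(ξ)) conj(G_{X'}(s)) w(s+2πξ) dξ ds` with `X' = Xt k (s+2πξ)`, and because
`conj (u_X ξ) = u_X(-ξ)` the second is `∬ f(s+2πξ) conj(u_X(ξ)) conj(G_X(s)) w(s) dξ ds`, `X = Xt k s`. By `S_KN`, `S_SY`, `S_XT`
(with a large exponent `N` in all kernels) `|u_X(ξ)| ≤ C lg s (1+|ξ|)^(-N)`, `|u_{X'} - u_X| ≤ C lg s (1+|ξ|)^(3-N)/(1+|s|)`, the same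
bounds times `Kf N f s` (without the decay in `ξ`) for `G_X(s)` and `G_{X'}(s) - G_X(s)`, and
`w(s+2πξ)/(1+|s|) ≤ (1+2π|ξ|)^(B+1) Om s`, `|w(s+2πξ) - w(s)| ≤ (1+2π|ξ|)^B Om s`. So the difference is at most
`C ∫ lg s^3 Om s Kf N' f s² ds`, and `S_SC` with `W = lg^3 Om` (`lg(s+u) ≤ (1+|u|) lg s`). Joint measurability: `(X,ξ) ↦ uu (Vx v X) ξ` is
continuous. `‖f‖ ≤ C (1+|t|)^k` by `CG.t_ZG`. -/
def S_BL : Prop := ∀ (k : ℕ) (v : ℝ → ℝ), 1 ≤ k → Adm v → ∀ B : ℕ, ∃ C : ℝ, 0 ≤ C ∧ ∀ w Om : ℝ → ℝ, Wg k B w Om →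
  Integrable (fun t => ff k t * (starRingEnd ℂ) (Ax (Gx v (Xt k t)) (ff k) t) * (w t : ℂ)) ∧
  Integrable (fun t => ‖Ax (Vx v (Xt k t)) (ff k) t‖ ^ 2 * w t) ∧
  ‖(∫ t, ff k t * (starRingEnd ℂ) (Ax (Gx v (Xt k t)) (ff k) t) * (w t : ℂ)) -
    ((∫ t, ‖Ax (Vx v (Xt k t)) (ff k) t‖ ^ 2 * w t : ℝ) : ℂ)‖ ≤ C * ∫ s, ‖ff k s‖ ^ 2 * lg s ^ 3 * Om s

/-- **PI-DG**: size of `D`. Proof. `v(log n - Xk k t) = 0` unless `n ≤ e^(1+Xk k t)`, `e^(Xk k t) = (|t|/2π)^(k/2)` (`1` for `t = 0`);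
`dv k n ≤ n^k` (crude, or any polynomial bound). Locally the sum is finite with measurable terms. -/
def S_DG : Prop := ∀ (k : ℕ) (v : ℝ → ℝ), Adm v → Measurable (DD k v) ∧ ∃ (B : ℕ) (C : ℝ), ∀ t, ‖DD k v t‖ ≤ C * (1 + |t|) ^ B

/-- **PI-MS** (from `S_AF`, `S_BL`, `S_DA`, `S_SY`, `S_KN`, `S_SC`, `S_DG`): the identity with general weights. Proof. `t ≥ t₀`, so
`Xt = Xk ≥ 1`. `conj(f) conj(XX)^k = f` (`J6H59.CG.zh_pow_fe`), so multiplying `S_AF` by `conj f`: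
`‖f‖² = 2 Re(f conj(Ax (Gx v X) f)) + O(‖f‖ (lg t/t Kf N f t + t^(-3)))`. Integrate against `w`; `w/t ≤ 2 Om`, `ab ≤ a² + b²`, `S_SC`.
Then `S_BL`. Finally `D(t) = Dv k (Vx v X) t` (`ee(log n) = 1`, `dv k 0 = 0`), `S_DA` with `N` large: `‖D(t) - Ax (Vx v X) f t‖ ≤ C t^(-3)`
(`e^(X/2) = (t/2π)^(k/4)`), and `‖Ax (Vx v X) f t‖ ≤ C lg t Kf N f t`. -/
def S_MS : Prop := ∀ (k : ℕ) (v : ℝ → ℝ), 1 ≤ k → Adm v → ∀ B : ℕ, ∃ C t₀ : ℝ, 0 ≤ C ∧ 1 ≤ t₀ ∧ ∀ w Om : ℝ → ℝ,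
  Wg k B w Om → (∀ t, t < t₀ → w t = 0) →
  Integrable (fun t => ‖ff k t‖ ^ 2 * w t) ∧ Integrable (fun t => ‖DD k v t‖ ^ 2 * w t) ∧
  |(∫ t, ‖ff k t‖ ^ 2 * w t) - 2 * ∫ t, ‖DD k v t‖ ^ 2 * w t| ≤
    C * ∫ s, (‖ff k s‖ ^ 2 + ((1 + |s|) ^ 2)⁻¹) * lg s ^ 4 * Om s

/-- **PI-SH** (from `S_MS`, `S_DG`): sharp cutoffs. Proof. `w` the indicator function of `[a', b]`, `a' = max a t₀` (if `b < t₀` everything is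
bounded), and, `N` large depending on `k`, `ε`,
`Om s = (1+|s-a'|)^(-N) + (1+|s-b|)^(-N) + (1+|s|)^(-1) (1 + ds a' b s)^(-N)`, `B = N+1`: if `w(s+u) ≠ w(s)` then `|s-a'| ≤ |u|` or `|s-b| ≤ |u|`.
For `|s| ≤ 2T` use `lg^4 ≤ C T^ε`; where `|s-a'|`, `|s-b|` or `ds` is larger than `T^ε` the weight is `≤ T^(-εN)`, for `|s| > 2T` it is
`≤ C |s|^(-N)`: with `‖f‖ ≤ C (1+|s|)^k` these parts are bounded. (`a' ≠ a` only if `a < t₀`, then the part near `a'` is bounded.) -/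
def S_SH : Prop := ∀ (k : ℕ) (v : ℝ → ℝ), 1 ≤ k → Adm v → ∀ ε : ℝ, 0 < ε → ∃ C : ℝ, 0 ≤ C ∧ ∀ T : ℝ, 2 ≤ T → ∀ a b : ℝ,
  0 ≤ a → a ≤ b → b ≤ T →
  |(∫ t in a..b, ‖ff k t‖ ^ 2) - 2 * ∫ t in a..b, ‖DD k v t‖ ^ 2| ≤ C * T ^ ε *
    ((∫ t in (a - T ^ ε)..(a + T ^ ε), ‖ff k t‖ ^ 2) + (∫ t in (b - T ^ ε)..(b + T ^ ε), ‖ff k t‖ ^ 2) +
      (∫ t in a..b, ‖ff k t‖ ^ 2 / (1 + t)) + 1)

/-- **PI-UP** (from `S_MS`, `S_DG`): upper bound for the moment over an interval. Proof. `H = T^(ε/2)`, `W₀(s) = (1 + ds a b s / H)^(-N)`,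
`N` large, `w = W₀` on `[t₀,∞)`, `0` to the left, `Om s = C₁ (W₀(s)/H + W₀(s)/(1+|s|) + W₀(t₀) (1+|s-t₀|)^(-N))`, because
`|W₀(s+u) - W₀(s)| ≤ N (|u|/H) (1+|u|)^N W₀(s)`. In `S_MS` the terms `C ∫ ‖f‖² lg^4 W₀/H` and `C ∫ ‖f‖² lg^4 W₀/(1+|s|)` are
`≤ (1/4) ∫ ‖f‖² w + C'`: `f(-s) = conj f(s)` and `W₀(-s) ≤ W₀(s)` for `s ≥ 0`; `lg^4/H` is small for `|s| ≤ 2T`, `T ≥ T₀`, for `|s| > 2T` the
weight is `≤ (|s|/(2H))^(-N)`; for bounded `s` everything is bounded. So `∫ ‖f‖² w ≤ 4 ∫ ‖D‖² w + C'`. And `w = 1` on `[a,b] ∩ [t₀,∞)`,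
`w ≤ T^(-εN/2)` (times a power of `s/T`) outside `[a-T^ε, b+T^ε]`, `D` has polynomial growth (`S_DG`). -/
def S_UP : Prop := ∀ (k : ℕ) (v : ℝ → ℝ), 1 ≤ k → Adm v → ∀ ε : ℝ, 0 < ε → ∃ C : ℝ, 0 ≤ C ∧ ∀ T : ℝ, 2 ≤ T → ∀ a b : ℝ,
  0 ≤ a → a ≤ b → b ≤ T →
  ∫ t in a..b, ‖ff k t‖ ^ 2 ≤ C * ((∫ t in (a - T ^ ε)..(b + T ^ ε), ‖DD k v t‖ ^ 2) + 1)

/-- **PI-EQ** (from `S_SH`, `S_UP`, `S_DG`): the two error terms have the same exponent. Proof. Write `M(T) = ∫_0^T ‖f‖²`.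
`Mt P (T+h) - Mt P T = O(T^(2ε))` for `|h| ≤ 3T^ε`, `Mt P T = O(T^(1+ε))` (see `SP/EQ2.lean`). `→`: `S_SH` with `a = 0`, `b = T`; `∫_{-h}^{h} ‖f‖² = O((1+h)^(2k+1))`,
`M(T+T^ε) - M(T-T^ε) = O(T^(θ+2ε))`, `∫_0^T ‖f‖²/(1+t) = O(T^(θ+2ε))` (dyadic intervals or integration by parts from
`M(t) ≤ C (1+t)^(max 1 θ + ε)`). `←`: by `S_UP` `M(T) ≤ C ∫_{-T^ε}^{T+T^ε} ‖D‖² + C = O(T^(max 1 θ + ε))` and
`∫_{T-T^ε}^{T+T^ε} ‖f‖² ≤ C ∫_{T-3T^ε}^{T+3T^ε} ‖D‖² + C = O(T^(θ+2ε))` from the hypothesis (use `2T` for `T` in `S_UP`; `DD` is even up to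
conjugation, `‖DD k v (-t)‖ = ‖DD k v t‖`; near `0` `S_DG`); then `S_SH` as before. -/
def S_EQ : Prop := ∀ (k : ℕ) (v : ℝ → ℝ), 1 ≤ k → Adm v → ∀ (P : Polynomial ℝ) (θ : ℝ), 0 ≤ θ →
  ((∀ ε : ℝ, 0 < ε → ∃ C : ℝ, ∀ T : ℝ, 2 ≤ T → |(∫ t in (0:ℝ)..T, ‖ff k t‖ ^ 2) - Mt P T| ≤ C * T ^ (θ + ε)) ↔
  (∀ ε : ℝ, 0 < ε → ∃ C : ℝ, ∀ T : ℝ, 2 ≤ T → |2 * (∫ t in (0:ℝ)..T, ‖DD k v t‖ ^ 2) - Mt P T| ≤ C * T ^ (θ + ε)))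

end Pool.Agent.J6H39.PI
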