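import Pool.Agent.J6H39.PI.Stm

/-!
# Project PI, second part: the diagonal terms of the mean square of `D`

`∑ d_k(n)² n⁻¹ v(log n - Y)²` is a polynomial in `Y` up to `O(e^(-(1/2-δ)Y))`. So the moment conjecture with its square root
remainder is, for `k ≥ 2`, equivalent to the asymptotic formula for the off-diagonal terms (an averaged additive divisor
problem for `d_k`).
-/

set_option autoImplicit false

open MeasureTheory Set Filter Topology Complex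
open scoped ContDiff

namespace Pool.Agent.J6H39.PI

open Pool.Agent.J6H39.KV (dv)
open Pool.Agent.J6H39.SP (Mt)

/-- **PI-DM**: smooth sums of `d_m(n)/n`. Proof. `g = v²` is `1` on `(-∞,-1]`, `0` on `[1,∞)` (`Adm.sq`, `Adm.one`). For `Re z > 0`
`∫ g(y) e^(zy) dy = G(z)/z` with `G(z) = -∫ g'(y) e^(zy) dy`, entire and `O((1+|Im z|)^(-N))` for `|Re z| ≤ 2` (integrate by parts).
The sum is `(2πi)^(-1) ∫_(1) ζ(1+z)^m e^(Yz) G(z) dz/z` (`KV.dv_series`, Mellin inversion or, avoiding inversion: both sides are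
continuous and bounded times `e^Y` in `Y`, with the same Laplace transform; or `SP/CT.lean`, `PI` module LG). Shift to
`Re z = -1/2+δ`: `ζ` has polynomial growth there, so that integral is `O(e^((-1/2+δ)Y))`; the residue at the pole `z = 0`, of order
`m+1`, is a polynomial `Q(Y)` of degree at most `m` (as a circle integral of `ζ(1+z)^m e^(Yz) G(z)/z` over `|z| = r`: with
`ζ(1+z)^m z^m = ∑ c_j z^j` it is `∑_{j ≤ m} Y^j/j! (coefficient of z^(m-j) of z^m ζ(1+z)^m G(z))`). All real `Y` (also negative). -/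
def S_DM : Prop := ∀ (v : ℝ → ℝ), Adm v → ∀ m : ℕ, ∃ Q : Polynomial ℝ, Q.natDegree ≤ m ∧ ∀ δ : ℝ, 0 < δ → δ < 1 / 2 → ∃ C : ℝ, ∀ Y : ℝ,
  Summable (fun n : ℕ => (dv m n : ℝ) * (n : ℝ)⁻¹ * v (Real.log n - Y) ^ 2) ∧
  |(∑' n : ℕ, (dv m n : ℝ) * (n : ℝ)⁻¹ * v (Real.log n - Y) ^ 2) - Q.eval Y| ≤ C * Real.exp (-((1 / 2 - δ) * Y))

/-- **PI-FA**: `∑ d_k(n)² n^(-s) = ζ(s)^(k²) H(s)` with `H` absolutely convergent for `Re s > 1/2`. Proof. `a = (d_k)² * (μ^(*k²))`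
(Dirichlet convolution; `ArithmeticFunction`, `ζ * μ = 1`), multiplicative. `a(p) = k² - k² = 0`, and
`|a(p^j)| ≤ ∑_i d_k(p^(j-i))² binom(k²,i) ≤ C (1+j)^(2k)`. So `∑_{j ≥ 1} |a(p^j)| p^(-jσ) ≤ C_σ p^(-2σ)` for `σ > 1/2`, and the sum of
`|a(n)| n^(-σ)` is at most the product of `1 + C_σ p^(-2σ)` (Mathlib: `EulerProduct` for the multiplicative function `|a(n)| n^(-σ)` on
`N`-smooth numbers, bounded partial sums). -/
def S_FA : Prop := ∀ k : ℕ, 1 ≤ k → ∃ a : ℕ → ℝ, a 1 = 1 ∧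
  (∀ n : ℕ, 1 ≤ n → (dv k n : ℝ) ^ 2 = ∑ x ∈ n.divisorsAntidiagonal, (dv (k ^ 2) x.1 : ℝ) * a x.2) ∧
  ∀ s : ℝ, 1 / 2 < s → Summable (fun n : ℕ => |a n| * (n : ℝ) ^ (-s))

/-- the diagonal terms -/
noncomputable def dia (k : ℕ) (v : ℝ → ℝ) (t : ℝ) : ℝ := ∑' n : ℕ, (dv k n : ℝ) ^ 2 * (n : ℝ)⁻¹ * v (Real.log n - Xk k t) ^ 2

/-- the off-diagonal terms -/
noncomputable def off (k : ℕ) (v : ℝ → ℝ) (t : ℝ) : ℝ :=
  ∑' p : ℕ × ℕ, if p.1 ≠ p.2 then (dv k p.1 : ℝ) * (dv k p.2 : ℝ) * ((p.1 : ℝ) * (p.2 : ℝ)) ^ (-(1 / 2) : ℝ) *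
    v (Real.log p.1 - Xk k t) * v (Real.log p.2 - Xk k t) * Real.cos (t * Real.log ((p.1 : ℝ) / (p.2 : ℝ))) else 0

/-- **PI-OF**: `‖D‖² = dia + off` (finite sums: `v(log n - Xk k t) = 0` for large `n`; `n^(-it)` has modulus one and
`Re(m^(-it) conj(n^(-it))) = cos(t log(m/n))`; the terms with `m = 0` or `n = 0` vanish because `dv k 0 = 0`), measurability and polynomial bounds. -/
def S_OF : Prop := ∀ (k : ℕ) (v : ℝ → ℝ), Adm v → (∀ t, ‖DD k v t‖ ^ 2 = dia k v t + off k v t) ∧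
  Measurable (dia k v) ∧ Measurable (off k v) ∧ ∃ (B : ℕ) (C : ℝ), ∀ t, |dia k v t| ≤ C * (1 + |t|) ^ B

/-- **PI-DQ** (from `S_DM`, `S_FA`, `S_OF`): the integrated diagonal terms. Proof. By `S_FA` the sum `∑ d_k(n)² n⁻¹ g(log n - Y)` is
`∑_e a(e) e⁻¹ ∑_d d_m(d) d⁻¹ g(log d - (Y - log e))`, `m = k²`, so by `S_DM` it is `∑_e a(e) e⁻¹ Q₀(Y - log e)`, a polynomial `Q₁(Y)` of degree `≤ k²`
(the coefficients `∑ a(e) e⁻¹ (log e)^i` converge), up to `C e^(-(1/2-δ)Y) ∑ |a(e)| e^(-1/2-δ)`. With `Y = Xk k t`: error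
`C t^(-k/4 + kδ/2)` for `t ≥ 1`; put `Q(x) = 2 Q₁(kx/2)`, integrate over `[1,T]`; the part `[0,1]` is bounded. -/
def S_DQ : Prop := ∀ (k : ℕ) (v : ℝ → ℝ), 1 ≤ k → Adm v → ∃ Q : Polynomial ℝ, Q.natDegree ≤ k ^ 2 ∧ ∀ ε : ℝ, 0 < ε → ∃ C : ℝ, ∀ T : ℝ,
  2 ≤ T → |2 * (∫ t in (0:ℝ)..T, dia k v t) - Mt Q T| ≤ C * T ^ (max 0 (1 - (k : ℝ) / 4) + ε)

end Pool.Agent.J6H39.PI
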